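import Pool.Agent.ISO.SdJ
import Pool.Agent.ISO.AttrG

/-!
ISO/AttC.  The lower bound at the attracting sites for the concrete data.
By `attr_W` with `W j = Piy L m1 (k - 1 + j)` and `piy_step`.
-/

set_option autoImplicit false

open Finset Pool.Agent.RS Pool.Agent.AT Pool.Agent.VOID Pool.Agent.AV Pool.Agent.IPT

namespace Pool.Agent.ISO

variable {CV0 CV : ℝ} {G r k G' t0 P L M H : ℕ} {R : Finset ℕ} {t : Fin k → ℕ} {g s m1 d N : ℕ}

theorem att_c (si : SI CV0 CV G r k G' t0 P L M H R t g s m1 d N)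
    (hE : 4 * (k : ℝ) * SE (py L m1) (yh (py L m1) t0 G') ≤ SX (py L m1) (yh (py L m1) t0 G') *
      (((dd L : ℝ) - ((t0 * 2 ^ G' : ℕ) : ℝ)) * Real.log 2)) (i : Fin k) :
    SA (py L m1) (yh (py L m1) t0 G') ^ 2 / (8 * SX (py L m1) (yh (py L m1) t0 G')) *
        ZI L m1 s d R k t0 G' ≤
      Piy L m1 1 * QI L m1 s d R t0 G' i := by
  have hp : ∀ i : Iy L m1, 2 ≤ py L m1 i := fun i => (py_mem i).1.two_le
  have hlog : Real.log ((2 : ℝ) ^ dd L / 2 ^ (t0 * 2 ^ G')) =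
      ((dd L : ℝ) - ((t0 * 2 ^ G' : ℕ) : ℝ)) * Real.log 2 := by
    rw [Real.log_div (by positivity) (by positivity), Real.log_pow, Real.log_pow]
    ring
  have h := attr_W hp (W := fun j => Piy L m1 (k - 1 + j)) (fun j => piy_nn L m1 _) (yy L m1 s)
    (yh (py L m1) t0 G') (yh_empty _ t0 G') (yh_nonneg _ t0 G')
    (yh_mono hp t0 G') (DR := 2 ^ d) (DH := 2 ^ dd L) (T1 := 2 ^ (t0 * 2 ^ G'))
    (α := {j : ℕ // j ∈ R}) (β := Fin k)
    (one_le_pow₀ (by norm_num)) (pow_lt_pow_right₀ (by norm_num) si.t0G)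
    (fun S hS => yh_supp hS) (fun S hS => si_N3 si S hS) (by rw [hlog, Fintype.card_fin]; exact hE) i
  have hk := si.k1
  have h1 : ZI L m1 s d R k t0 G' ≤ Piy L m1 1 *
      MZ (py L m1) (fun j => Piy L m1 (k - 1 + j)) tL (YI L m1 s d R k t0 G') := by
    unfold ZI MZ
    rw [Finset.mul_sum]
    refine Finset.sum_le_sum fun σ _ => ?_
    have h2 := piy_step L m1 (k - 1 + (tL σ).card)
    have h3 : k - 1 + (tL σ).card + 1 = k + (tL σ).card := by omega
    rw [h3] at h2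
    have h4 : 0 ≤ YI L m1 s d R k t0 G' σ ^ 2 / PH (py L m1) (supp σ) := by
      apply div_nonneg (sq_nonneg _)
      exact (lt_of_lt_of_le one_pos (one_le_PH hp _)).le
    refine (mul_le_mul_of_nonneg_left h2 h4).trans (le_of_eq ?_)
    ring
  have hSX : 0 ≤ SX (py L m1) (yh (py L m1) t0 G') :=
    Finset.sum_nonneg fun S _ => div_nonneg (sq_nonneg _) (lt_of_lt_of_le one_pos (one_le_PH hp _)).le
  have hc : 0 ≤ SA (py L m1) (yh (py L m1) t0 G') ^ 2 / (8 * SX (py L m1) (yh (py L m1) t0 G')) := by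
    positivity
  have h5 := mul_le_mul_of_nonneg_left h1 hc
  have h6 := mul_le_mul_of_nonneg_left h (piy_nn L m1 1)
  refine h5.trans (le_trans (le_of_eq ?_) h6)
  unfold YI
  ring

end Pool.Agent.ISO
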