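import Pool.Agent.IPT.TDefs
import Pool.Agent.REC.Crt
import Pool.Agent.REC.ModTot

/-! ISO/CDefs.  Definitions for the sum over the residue classes. -/

set_option autoImplicit false

namespace Pool.Agent.ISO

open Finset Pool.Agent.REC Pool.Agent.IPT

/-- the classes modulo `Mod w R` for which all sites are coprime to `Mod w R` -/
def GbM (w : ℕ) (R : Finset ℕ) {k : ℕ} (t : Fin k → ℕ) : Finset ℕ :=
  (range (Mod w R)).filter (fun b => ∀ i, Nat.Coprime (b + t i) (Mod w R))

/-- the survivors of the class `b` in `[0, H)` -/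
def SvM (w : ℕ) (R : Finset ℕ) (b H : ℕ) : Finset ℕ :=
  (range H).filter (fun j => Nat.Coprime (b + j) (Mod w R))

end Pool.Agent.ISO
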