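import Mathlib

/-!
ISO/GreedyI.  Points whose differences avoid a sparse set.
The points are chosen one after the other, then sorted.
-/

set_option autoImplicit false

open Finset

namespace Pool.Agent.ISO

/-- the numbers excluded by the points of `B` -/
private def exc (J B : Finset ℕ) : Finset ℕ :=
  B ∪ B.biUnion fun x => J.biUnion fun a => {x + a, x + a + 1, x - a, x - (a + 1)}

private theorem exc_card (J B : Finset ℕ) : (exc J B).card ≤ B.card + B.card * (J.card * 4) := by
  unfold exc
  refine (card_union_le _ _).trans (Nat.add_le_add_left ?_ _)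
  refine card_biUnion_le_card_mul _ _ _ fun x _ => ?_
  refine card_biUnion_le_card_mul _ _ _ fun a _ => ?_
  exact card_le_four

private theorem exc_mem {J B : Finset ℕ} {x a y : ℕ} (hx : x ∈ B) (ha : a ∈ J)
    (h : y = x + a ∨ y = x + a + 1 ∨ y = x - a ∨ y = x - (a + 1)) : y ∈ exc J B := by
  unfold exc
  refine mem_union_right _ (mem_biUnion.2 ⟨x, hx, mem_biUnion.2 ⟨a, ha, ?_⟩⟩)
  rw [mem_insert, mem_insert, mem_insert, mem_singleton]
  exact h

private theorem choose_pts (K n : ℕ) (J : Finset ℕ) (h : 24 * K * J.card < n) (hn : 24 * K ≤ n) :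
    ∀ j ≤ K, ∃ B : Finset ℕ, B.card = j ∧ (∀ x ∈ B, x < n) ∧
      ∀ x ∈ B, ∀ y ∈ B, x < y → y - x ∉ J ∧ y - x - 1 ∉ J := by
  intro j
  induction j with
  | zero =>
    intro _
    exact ⟨∅, rfl, by simp, by simp⟩
  | succ j ih =>
    intro hj
    obtain ⟨B, hB1, hB2, hB3⟩ := ih (by omega)
    have hc : (exc J B).card < (range n).card := by
      rw [card_range]
      have h1 := exc_card J B
      have h2 : B.card * (J.card * 4) ≤ K * (J.card * 4) := Nat.mul_le_mul_right _ (by omega)
      have h3 : K * (J.card * 4) = 4 * (K * J.card) := by ring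
      have h4 : 24 * K * J.card = 24 * (K * J.card) := by ring
      omega
    obtain ⟨y, hy1, hy2⟩ := exists_mem_notMem_of_card_lt_card hc
    have hyB : y ∉ B := fun hy => hy2 (mem_union_left _ hy)
    have up : ∀ x ∈ B, x < y → y - x ∉ J ∧ y - x - 1 ∉ J := by
      intro x hx hxy
      refine ⟨fun ha => hy2 (exc_mem hx ha (by omega)), fun ha => hy2 (exc_mem hx ha (by omega))⟩
    have down : ∀ x ∈ B, y < x → x - y ∉ J ∧ x - y - 1 ∉ J := by
      intro x hx hxy
      refine ⟨fun ha => hy2 (exc_mem hx ha (by omega)), fun ha => hy2 (exc_mem hx ha (by omega))⟩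
    refine ⟨insert y B, by rw [card_insert_of_notMem hyB, hB1], ?_, ?_⟩
    · intro x hx
      rcases mem_insert.1 hx with h5 | h5
      · rw [h5]
        exact mem_range.1 hy1
      · exact hB2 x h5
    · intro x hx z hz hxz
      rcases mem_insert.1 hx with h5 | h5
      · rcases mem_insert.1 hz with h6 | h6
        · omega
        · rw [h5] at hxz ⊢
          exact down z h6 hxz
      · rcases mem_insert.1 hz with h6 | h6
        · rw [h6] at hxz ⊢
          exact up x h5 hxz
        · exact hB3 x h5 z h6 hxz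

theorem greedy (K n : ℕ) (J : Finset ℕ) (h : 24 * K * J.card < n)
    (hn : 24 * K ≤ n) : ∃ b : Fin K → ℕ, StrictMono b ∧ (∀ i, b i < n) ∧
      ∀ i j, i < j → b j - b i ∉ J ∧ b j - b i - 1 ∉ J := by
  obtain ⟨B, hB1, hB2, hB3⟩ := choose_pts K n J h hn K le_rfl
  refine ⟨B.orderEmbOfFin hB1, (B.orderEmbOfFin hB1).strictMono,
    fun i => hB2 _ (B.orderEmbOfFin_mem hB1 i), fun i j hij => ?_⟩
  exact hB3 _ (B.orderEmbOfFin_mem hB1 i) _ (B.orderEmbOfFin_mem hB1 j)
    ((B.orderEmbOfFin hB1).strictMono hij)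

end Pool.Agent.ISO
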