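import Pool.Agent.ISO.PattI
import Pool.Agent.ISO.GreedyI

/-!
ISO/CellI.  An absolute proportion of the cells of length `δ` of `[0, T]` contains a positive proportion of the
normalised gaps `g n = 2 √(pn n) * dn n / log (pn n)` (from `patt_I 1` and `greedy`).
-/

set_option autoImplicit false

open Finset Filter Pool.Agent.AT

namespace Pool.Agent.ISO

private theorem gg_nonneg (n : ℕ) : 0 ≤ 2 * √(pn n) * dn n / Real.log (pn n) := by
  have h1 : (1 : ℝ) ≤ pn n := by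
    unfold pn
    exact_mod_cast (Nat.prime_nth_prime n).one_lt.le
  have h2 : 0 ≤ Real.log (pn n) := Real.log_nonneg h1
  have h3 : 0 ≤ dn n := by
    unfold dn
    have h4 : pn n ≤ pn (n + 1) := by
      unfold pn
      exact_mod_cast Nat.nth_monotone Nat.infinite_setOfPred_prime (Nat.le_succ n)
    have := Real.sqrt_le_sqrt h4
    linarith
  positivity

private theorem cl_le {N : ℕ} {P Q : ℕ → Prop} [DecidablePred P] [DecidablePred Q] (h : ∀ n < N, P n → Q n) :
    (((range N).filter P).card : ℝ) ≤ (((range N).filter Q).card : ℝ) := by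
  have h1 : (range N).filter P ⊆ (range N).filter Q := by
    intro n hn
    rw [mem_filter, mem_range] at hn
    rw [mem_filter, mem_range]
    exact ⟨hn.1, h n hn.1 hn.2⟩
  exact_mod_cast card_le_card h1

private theorem cl_or {N : ℕ} {P Q R : ℕ → Prop} [DecidablePred P] [DecidablePred Q] [DecidablePred R]
    (h : ∀ n < N, P n → Q n ∨ R n) :
    (((range N).filter P).card : ℝ) ≤ (((range N).filter Q).card : ℝ) + (((range N).filter R).card : ℝ) := by
  have h1 : (range N).filter P ⊆ (range N).filter Q ∪ (range N).filter R := by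
    intro n hn
    rw [mem_filter, mem_range] at hn
    rw [mem_union, mem_filter, mem_filter, mem_range]
    rcases h n hn.1 hn.2 with h2 | h2
    · exact Or.inl ⟨hn.1, h2⟩
    · exact Or.inr ⟨hn.1, h2⟩
  exact_mod_cast (card_le_card h1).trans (card_union_le _ _)

open Classical in
private theorem cl_pairs {K : ℕ} (N : ℕ) (P : ℕ → Prop) (Q : Fin K → Fin K → ℕ → Prop) [DecidablePred P] (B : ℝ)
    (h : ∀ n < N, P n → ∃ i j, i < j ∧ Q i j n)
    (hB : ∀ i j, i < j → (((range N).filter (fun n => Q i j n)).card : ℝ) ≤ B) (hB0 : 0 ≤ B) :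
    (((range N).filter P).card : ℝ) ≤ (K : ℝ) ^ 2 * B := by
  have h1 : (range N).filter P ⊆
      (univ : Finset (Fin K × Fin K)).biUnion (fun x => (range N).filter (fun n => x.1 < x.2 ∧ Q x.1 x.2 n)) := by
    intro n hn
    rw [mem_filter, mem_range] at hn
    obtain ⟨i, j, hij, hq⟩ := h n hn.1 hn.2
    rw [mem_biUnion]
    exact ⟨(i, j), mem_univ _, by rw [mem_filter, mem_range]; exact ⟨hn.1, hij, hq⟩⟩
  have h2 : (((range N).filter P).card : ℝ) ≤
      ∑ x : Fin K × Fin K, (((range N).filter (fun n => x.1 < x.2 ∧ Q x.1 x.2 n)).card : ℝ) := by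
    exact_mod_cast (card_le_card h1).trans card_biUnion_le
  refine h2.trans ?_
  have h3 : ∀ x ∈ (univ : Finset (Fin K × Fin K)),
      (((range N).filter (fun n => x.1 < x.2 ∧ Q x.1 x.2 n)).card : ℝ) ≤ B := by
    intro x _
    by_cases hx : x.1 < x.2
    · exact le_trans (cl_le fun n _ hn => hn.2) (hB x.1 x.2 hx)
    · have h4 : (range N).filter (fun n => x.1 < x.2 ∧ Q x.1 x.2 n) = ∅ := by
        rw [filter_eq_empty_iff]
        intro n _ hn
        exact hx hn.1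
      rw [h4, card_empty, Nat.cast_zero]
      exact hB0
  refine (sum_le_sum h3).trans ?_
  rw [sum_const, card_univ, Fintype.card_prod, Fintype.card_fin, nsmul_eq_mul]
  apply le_of_eq
  push_cast
  ring

private theorem cl_patt {K : ℕ} {δ : ℝ} {β : Fin K → ℝ} {n : ℕ} (h : ∃ i : Fin (1 + 1) → Fin K, StrictMono i ∧
      ∀ r : Fin 1, |2 * √(pn (n + r)) * dn (n + r) / Real.log (pn (n + r)) -
        (β (i r.succ) - β (i r.castSucc))| < δ) :
    ∃ i j : Fin K, i < j ∧ |2 * √(pn n) * dn n / Real.log (pn n) - (β j - β i)| < δ := by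
  obtain ⟨i, hi, hr⟩ := h
  exact ⟨i 0, i 1, hi (by decide), hr 0⟩

/-- real inequalities for the cells -/
private theorem cl_cell {g δ bi bj : ℝ} {e : ℕ} (hb : bj = bi + (e + 1)) (h : |g - (bj * δ - bi * δ)| < δ) :
    ((e : ℝ) * δ ≤ g ∧ g < ((e : ℝ) + 1) * δ) ∨
      (((e + 1 : ℕ) : ℝ) * δ ≤ g ∧ g < (((e + 1 : ℕ) : ℝ) + 1) * δ) := by
  have h5 := abs_lt.1 h
  have h6 : bj * δ - bi * δ = (e + 1) * δ := by rw [hb]; ring
  rw [h6] at h5
  by_cases h7 : g < ((e : ℝ) + 1) * δ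
  · left
    refine ⟨?_, h7⟩
    have := h5.1
    linarith
  · right
    push_cast
    refine ⟨not_lt.1 h7, ?_⟩
    have := h5.2
    linarith

private theorem cl_few {K : ℕ} (hK : 0 < K) {g δ : ℝ} (hδ : 0 < δ) (hg : 0 ≤ g) (i j : Fin K)
    (h : |g - (((j : ℕ) : ℝ) * (δ / (2 * K)) - ((i : ℕ) : ℝ) * (δ / (2 * K)))| < δ / (2 * K)) :
    ((0 : ℕ) : ℝ) * δ ≤ g ∧ g < (((0 : ℕ) : ℝ) + 1) * δ := by
  have hK0 : (0 : ℝ) < K := by exact_mod_cast hK
  refine ⟨?_, ?_⟩
  · rw [Nat.cast_zero, zero_mul]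
    exact hg
  · rw [Nat.cast_zero, zero_add, one_mul]
    have h4 := (abs_lt.1 h).2
    have h5 : ((j : ℕ) : ℝ) + 1 ≤ K := by exact_mod_cast j.isLt
    have h6 : (((j : ℕ) : ℝ) + 1) * (δ / (2 * K)) ≤ K * (δ / (2 * K)) := mul_le_mul_of_nonneg_right h5 (by positivity)
    have h7 : (K : ℝ) * (δ / (2 * K)) = δ / 2 := by field_simp
    have h8 : 0 ≤ ((i : ℕ) : ℝ) * (δ / (2 * K)) := by positivity
    linarith

private theorem cl_beta {K : ℕ} (hK : 0 < K) {δ : ℝ} (hδ : 0 < δ) :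
    (∀ i : Fin K, 0 ≤ ((i : ℕ) : ℝ) * (δ / (2 * K)) ∧ ((i : ℕ) : ℝ) * (δ / (2 * K)) ≤ δ) ∧
    (∀ i j : Fin K, i < j → ((i : ℕ) : ℝ) * (δ / (2 * K)) + δ / (2 * K) ≤ ((j : ℕ) : ℝ) * (δ / (2 * K))) := by
  have hK0 : (0 : ℝ) < K := by exact_mod_cast hK
  constructor
  · intro i
    constructor
    · positivity
    · have h3 : ((i : ℕ) : ℝ) ≤ K := by exact_mod_cast i.isLt.le
      have h4 : ((i : ℕ) : ℝ) * (δ / (2 * K)) ≤ K * (δ / (2 * K)) := mul_le_mul_of_nonneg_right h3 (by positivity)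
      have h5 : (K : ℝ) * (δ / (2 * K)) = δ / 2 := by field_simp
      linarith
  · intro i j hij
    have h3 : ((i : ℕ) : ℝ) + 1 ≤ ((j : ℕ) : ℝ) := by exact_mod_cast hij
    have h4 : (((i : ℕ) : ℝ) + 1) * (δ / (2 * K)) ≤ ((j : ℕ) : ℝ) * (δ / (2 * K)) :=
      mul_le_mul_of_nonneg_right h3 (by positivity)
    linarith

private theorem cl_gamma {K n : ℕ} {δ T : ℝ} (hδ : 0 < δ) (hnT : (n : ℝ) * δ ≤ T) {b : Fin K → ℕ} (hb1 : StrictMono b)
    (hb2 : ∀ i, b i < n) :
    (∀ i : Fin K, 0 ≤ ((b i : ℕ) : ℝ) * δ ∧ ((b i : ℕ) : ℝ) * δ ≤ T) ∧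
    (∀ i j : Fin K, i < j → ((b i : ℕ) : ℝ) * δ + δ ≤ ((b j : ℕ) : ℝ) * δ) := by
  constructor
  · intro i
    constructor
    · positivity
    · have h3 : ((b i : ℕ) : ℝ) ≤ n := by exact_mod_cast (hb2 i).le
      have h4 : ((b i : ℕ) : ℝ) * δ ≤ n * δ := mul_le_mul_of_nonneg_right h3 hδ.le
      linarith
  · intro i j hij
    have h3 : ((b i : ℕ) : ℝ) + 1 ≤ ((b j : ℕ) : ℝ) := by exact_mod_cast hb1 hij
    have h4 := mul_le_mul_of_nonneg_right h3 hδ.le
    linarith

open Classical in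
theorem cells : ∃ c0 : ℝ, 0 < c0 ∧ ∀ δ T : ℝ, 0 < δ → δ ≤ T → ∃ c : ℝ, 0 < c ∧
    ∀ᶠ N : ℕ in atTop, c0 * (T / δ) ≤ (((range ⌊T / δ⌋₊).filter (fun j : ℕ =>
      c * N ≤ (((range N).filter (fun n =>
        j * δ ≤ 2 * √(pn n) * dn n / Real.log (pn n) ∧
        2 * √(pn n) * dn n / Real.log (pn n) < (j + 1) * δ)).card : ℝ))).card : ℝ) := by
  obtain ⟨K, hK, HP⟩ := patt_I 1
  have hK0 : (0 : ℝ) < K := by exact_mod_cast hK
  refine ⟨1 / (48 * K), by positivity, fun δ T hδ hδT => ?_⟩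
  obtain ⟨n, hn⟩ : ∃ n, n = ⌊T / δ⌋₊ := ⟨_, rfl⟩
  have hTδ : 1 ≤ T / δ := by
    rw [le_div_iff₀ hδ]
    linarith
  have hn1 : 1 ≤ n := by
    rw [hn, Nat.one_le_floor_iff]
    exact hTδ
  have hn2 : (n : ℝ) ≤ T / δ := by
    rw [hn]
    exact Nat.floor_le (by linarith)
  have hn3 : T / δ < n + 1 := by
    rw [hn]
    exact Nat.lt_floor_add_one _
  have hn1' : (1 : ℝ) ≤ n := by exact_mod_cast hn1
  have hT : 0 < T := by linarith
  have hnT : (n : ℝ) * δ ≤ T := by
    rwa [le_div_iff₀ hδ] at hn2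
  obtain ⟨c1, hc1, N1, H1⟩ := HP (δ / (2 * K)) (by positivity) δ hδ
  obtain ⟨c2, hc2, N2, H2⟩ := HP δ hδ T hT
  obtain ⟨c, hc⟩ : ∃ c, c = min c1 (c2 / (4 * (K : ℝ) ^ 2)) := ⟨_, rfl⟩
  have hc0 : 0 < c := by
    rw [hc]
    exact lt_min hc1 (by positivity)
  have hca : c ≤ c1 := by rw [hc]; exact min_le_left _ _
  have hcb : c ≤ c2 / (4 * (K : ℝ) ^ 2) := by rw [hc]; exact min_le_right _ _
  refine ⟨c, hc0, ?_⟩
  filter_upwards [eventually_ge_atTop (max (max N1 N2) 1)] with N hN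
  have hN1 : N1 ≤ N := le_trans (le_trans (le_max_left _ _) (le_max_left _ _)) hN
  have hN2 : N2 ≤ N := le_trans (le_trans (le_max_right _ _) (le_max_left _ _)) hN
  have hN3 : 1 ≤ N := le_trans (le_max_right _ _) hN
  have hN0 : (0 : ℝ) < N := by exact_mod_cast hN3
  rw [← hn]
  generalize hJ : (range n).filter (fun j : ℕ =>
      c * N ≤ (((range N).filter (fun n =>
        j * δ ≤ 2 * √(pn n) * dn n / Real.log (pn n) ∧
        2 * √(pn n) * dn n / Real.log (pn n) < (j + 1) * δ)).card : ℝ)) = J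
  have hmemJ : ∀ j < n, j ∉ J → (((range N).filter (fun n =>
        j * δ ≤ 2 * √(pn n) * dn n / Real.log (pn n) ∧
        2 * √(pn n) * dn n / Real.log (pn n) < (j + 1) * δ)).card : ℝ) < c * N := by
    intro j hj hjJ
    by_contra hcon
    apply hjJ
    rw [← hJ, mem_filter, mem_range]
    exact ⟨hj, not_lt.1 hcon⟩
  clear hJ
  by_cases hcase : n < 24 * K
  · -- few cells
    have hcase' : (n : ℝ) < 24 * K := by exact_mod_cast hcase
    have h0J : 0 ∈ J := by
      by_contra h0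
      have h1 := hmemJ 0 (by omega) h0
      have h2 := H1 N hN1 (fun i => ((i : ℕ) : ℝ) * (δ / (2 * K))) (cl_beta hK hδ).1 (cl_beta hK hδ).2
      have h4 := le_trans h2 (cl_le (N := N) (Q := fun m => ((0 : ℕ) : ℝ) * δ ≤ 2 * √(pn m) * dn m / Real.log (pn m) ∧
        2 * √(pn m) * dn m / Real.log (pn m) < (((0 : ℕ) : ℝ) + 1) * δ) fun m _ hm => by
          obtain ⟨i, j, _, h⟩ := cl_patt (β := fun i : Fin K => ((i : ℕ) : ℝ) * (δ / (2 * K))) hm
          exact cl_few hK hδ (gg_nonneg m) i j h)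
      have h5 : c * N ≤ c1 * N := mul_le_mul_of_nonneg_right hca hN0.le
      exact absurd (lt_of_le_of_lt (le_trans h5 h4) h1) (lt_irrefl _)
    have h1 : 1 ≤ J.card := card_pos.2 ⟨0, h0J⟩
    have h1' : (1 : ℝ) ≤ J.card := by exact_mod_cast h1
    refine le_trans ?_ h1'
    rw [div_mul_eq_mul_div, one_mul, div_le_one (by positivity)]
    linarith
  · -- many cells
    rw [not_lt] at hcase
    have hbig : n ≤ 24 * K * J.card := by
      by_contra hcon
      rw [not_le] at hcon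
      obtain ⟨b, hb1, hb2, hb3⟩ := greedy K n J hcon hcase
      have h2 := H2 N hN2 (fun i => ((b i : ℕ) : ℝ) * δ) (cl_gamma hδ hnT hb1 hb2).1 (cl_gamma hδ hnT hb1 hb2).2
      have h3 := le_trans h2 (cl_pairs (K := K) N _
        (fun i j n => |2 * √(pn n) * dn n / Real.log (pn n) - (((b j : ℕ) : ℝ) * δ - ((b i : ℕ) : ℝ) * δ)| < δ)
        (2 * (c * N)) (fun n _ h => cl_patt (β := fun i : Fin K => ((b i : ℕ) : ℝ) * δ) h) (by
          intro i j hij
          obtain ⟨e, he⟩ : ∃ e : ℕ, b j = b i + (e + 1) := ⟨b j - b i - 1, by have := hb1 hij; omega⟩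
          have hJe := hb3 i j hij
          have he1 : b j - b i = e + 1 := by omega
          have he2 : b j - b i - 1 = e := by omega
          rw [he2, he1] at hJe
          have hej := hb2 j
          have k1 := hmemJ (e + 1) (by omega) hJe.1
          have k2 := hmemJ e (by omega) hJe.2
          have h6 : ((b j : ℕ) : ℝ) = (b i : ℝ) + (e + 1) := by rw [he]; push_cast; ring
          refine le_trans (cl_or fun n _ hq => cl_cell h6 hq) ?_
          refine le_trans (add_le_add k2.le k1.le) ?_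
          linarith) (by positivity))
      rw [le_div_iff₀ (by positivity)] at hcb
      have h5 : (K : ℝ) ^ 2 * (2 * (c * N)) = (c * (4 * (K : ℝ) ^ 2)) * (N / 2) := by ring
      have h6 : (c * (4 * (K : ℝ) ^ 2)) * (N / 2) ≤ c2 * (N / 2) := mul_le_mul_of_nonneg_right hcb (by positivity)
      have h7 : 0 < c2 * N := mul_pos hc2 hN0
      linarith
    have hbig' : (n : ℝ) ≤ 24 * K * J.card := by exact_mod_cast hbig
    rw [div_mul_eq_mul_div, one_mul, div_le_iff₀ (by positivity)]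
    nlinarith

end Pool.Agent.ISO
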