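import Pool.Agent.ISO.PattI
import Pool.Agent.IPT.Cmb

/-!
ISO/CellM.  A positive proportion (depending on `m` only) of the cubes of side `δ` of `[0, T]^m` contain a positive
proportion of the vectors of `m` consecutive normalised gaps `g n = 2 √(pn n) * dn n / log (pn n)`.
-/

set_option autoImplicit false

open Finset Filter Pool.Agent.AT

namespace Pool.Agent.ISO

private theorem cm_nonneg (n : ℕ) : 0 ≤ 2 * √(pn n) * dn n / Real.log (pn n) := by
  have h1 : (1 : ℝ) ≤ pn n := by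
    unfold pn
    exact_mod_cast (Nat.prime_nth_prime n).one_lt.le
  have h2 : 0 ≤ Real.log (pn n) := Real.log_nonneg h1
  have h3 : 0 ≤ dn n := by
    unfold dn
    have h4 : pn n ≤ pn (n + 1) := by
      unfold pn
      exact_mod_cast Nat.nth_monotone Nat.infinite_setOfPred_prime (Nat.le_succ n)
    have := Real.sqrt_le_sqrt h4
    linarith
  positivity

private theorem cm_few {K : ℕ} (hK : 0 < K) {g δ : ℝ} (hδ : 0 < δ) (hg : 0 ≤ g) (i j : Fin K)
    (h : |g - (((j : ℕ) : ℝ) * (δ / (2 * K)) - ((i : ℕ) : ℝ) * (δ / (2 * K)))| < δ / (2 * K)) :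
    ((0 : ℕ) : ℝ) * δ ≤ g ∧ g < (((0 : ℕ) : ℝ) + 1) * δ := by
  have hK0 : (0 : ℝ) < K := by exact_mod_cast hK
  refine ⟨?_, ?_⟩
  · rw [Nat.cast_zero, zero_mul]
    exact hg
  · rw [Nat.cast_zero, zero_add, one_mul]
    have h4 := (abs_lt.1 h).2
    have h5 : ((j : ℕ) : ℝ) + 1 ≤ K := by exact_mod_cast j.isLt
    have h6 : (((j : ℕ) : ℝ) + 1) * (δ / (2 * K)) ≤ K * (δ / (2 * K)) := mul_le_mul_of_nonneg_right h5 (by positivity)
    have h7 : (K : ℝ) * (δ / (2 * K)) = δ / 2 := by field_simp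
    have h8 : 0 ≤ ((i : ℕ) : ℝ) * (δ / (2 * K)) := by positivity
    linarith

private theorem cm_beta {K : ℕ} (hK : 0 < K) {δ : ℝ} (hδ : 0 < δ) :
    (∀ i : Fin K, 0 ≤ ((i : ℕ) : ℝ) * (δ / (2 * K)) ∧ ((i : ℕ) : ℝ) * (δ / (2 * K)) ≤ δ) ∧
    (∀ i j : Fin K, i < j → ((i : ℕ) : ℝ) * (δ / (2 * K)) + δ / (2 * K) ≤ ((j : ℕ) : ℝ) * (δ / (2 * K))) := by
  have hK0 : (0 : ℝ) < K := by exact_mod_cast hK
  constructor
  · intro i
    constructor
    · positivity
    · have h3 : ((i : ℕ) : ℝ) ≤ K := by exact_mod_cast i.isLt.le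
      have h4 : ((i : ℕ) : ℝ) * (δ / (2 * K)) ≤ K * (δ / (2 * K)) := mul_le_mul_of_nonneg_right h3 (by positivity)
      have h5 : (K : ℝ) * (δ / (2 * K)) = δ / 2 := by field_simp
      linarith
  · intro i j hij
    have h3 : ((i : ℕ) : ℝ) + 1 ≤ ((j : ℕ) : ℝ) := by exact_mod_cast hij
    have h4 : (((i : ℕ) : ℝ) + 1) * (δ / (2 * K)) ≤ ((j : ℕ) : ℝ) * (δ / (2 * K)) :=
      mul_le_mul_of_nonneg_right h3 (by positivity)
    linarith

private theorem cm_gamma {K n : ℕ} {δ T : ℝ} (hδ : 0 < δ) (hnT : (n : ℝ) * δ ≤ T) {b : Fin K → ℕ} (hb1 : StrictMono b)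
    (hb2 : ∀ i, b i < n) :
    (∀ i : Fin K, 0 ≤ ((b i : ℕ) : ℝ) * δ ∧ ((b i : ℕ) : ℝ) * δ ≤ T) ∧
    (∀ i j : Fin K, i < j → ((b i : ℕ) : ℝ) * δ + δ ≤ ((b j : ℕ) : ℝ) * δ) := by
  constructor
  · intro i
    constructor
    · positivity
    · have h3 : ((b i : ℕ) : ℝ) ≤ n := by exact_mod_cast (hb2 i).le
      have h4 : ((b i : ℕ) : ℝ) * δ ≤ n * δ := mul_le_mul_of_nonneg_right h3 hδ.le
      linarith
  · intro i j hij
    have h3 : ((b i : ℕ) : ℝ) + 1 ≤ ((b j : ℕ) : ℝ) := by exact_mod_cast hb1 hij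
    have h4 := mul_le_mul_of_nonneg_right h3 hδ.le
    linarith

open Classical in
private theorem cm_union {ι : Type} [Fintype ι] (N : ℕ) (P : ℕ → Prop) (G : ι → Prop) (Q : ι → ℕ → Prop)
    (B : ℝ) (h : ∀ n < N, P n → ∃ x, G x ∧ Q x n)
    (hB : ∀ x, G x → (((range N).filter (Q x)).card : ℝ) ≤ B) (hB0 : 0 ≤ B) :
    (((range N).filter P).card : ℝ) ≤ (Fintype.card ι : ℝ) * B := by
  have h1 : (range N).filter P ⊆
      (univ : Finset ι).biUnion (fun x => (range N).filter (fun n => G x ∧ Q x n)) := by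
    intro n hn
    rw [mem_filter, mem_range] at hn
    obtain ⟨x, hx, hq⟩ := h n hn.1 hn.2
    rw [mem_biUnion]
    exact ⟨x, mem_univ _, by rw [mem_filter, mem_range]; exact ⟨hn.1, hx, hq⟩⟩
  have h2 : (((range N).filter P).card : ℝ) ≤
      ∑ x : ι, (((range N).filter (fun n => G x ∧ Q x n)).card : ℝ) := by
    exact_mod_cast (card_le_card h1).trans card_biUnion_le
  refine h2.trans ?_
  have h3 : ∀ x ∈ (univ : Finset ι), (((range N).filter (fun n => G x ∧ Q x n)).card : ℝ) ≤ B := by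
    intro x _
    by_cases hx : G x
    · refine le_trans ?_ (hB x hx)
      have h4 : (range N).filter (fun n => G x ∧ Q x n) ⊆ (range N).filter (Q x) := by
        intro n hn
        rw [mem_filter] at hn ⊢
        exact ⟨hn.1, hn.2.2⟩
      exact_mod_cast card_le_card h4
    · have h4 : (range N).filter (fun n => G x ∧ Q x n) = ∅ := by
        rw [filter_eq_empty_iff]
        intro n _ hn
        exact hx hn.1
      rw [h4, card_empty, Nat.cast_zero]
      exact hB0
  refine (sum_le_sum h3).trans ?_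
  rw [sum_const, card_univ, nsmul_eq_mul]

private theorem cm_eq {m : ℕ} {b b' : Fin (m + 1) → ℕ} (hb : StrictMono b) (hb' : StrictMono b')
    {ε : Fin m → Fin 2} (h0 : b 0 = b' 0)
    (h : (fun i : Fin m => b i.succ - b i.castSucc - (ε i : ℕ)) =
      fun i : Fin m => b' i.succ - b' i.castSucc - (ε i : ℕ)) : b = b' := by
  funext i
  induction i using Fin.induction with
  | zero => exact h0
  | succ i ih =>
    have h1 : b i.succ - b i.castSucc - (ε i : ℕ) = b' i.succ - b' i.castSucc - (ε i : ℕ) :=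
      congrFun h i
    have h2 := (ε i).isLt
    have h3 : b i.castSucc < b i.succ := hb (Fin.castSucc_lt_succ)
    have h4 : b' i.castSucc < b' i.succ := hb' (Fin.castSucc_lt_succ)
    omega

private theorem cm_count {m k N : ℕ} (hk : 0 < k) (hkN : k ≤ N) (J : Finset (Fin m → ℕ))
    (h : ∀ s ∈ (range N).powersetCard k, ∃ b : Fin (m + 1) → ℕ, StrictMono b ∧ (∀ i, b i ∈ s) ∧
      ∃ ε : Fin m → Fin 2, (fun i : Fin m => b i.succ - b i.castSucc - (ε i : ℕ)) ∈ J) :
    ((N : ℝ) / k) ^ (m + 1) ≤ J.card * 2 ^ m * N := by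
  classical
  set 𝒢 : Finset (Finset ℕ) := ((range N).powersetCard (m + 1)).filter (fun B =>
    ∃ b : Fin (m + 1) → ℕ, StrictMono b ∧ B = univ.image b ∧
      ∃ ε : Fin m → Fin 2, (fun i : Fin m => b i.succ - b i.castSucc - (ε i : ℕ)) ∈ J) with h𝒢
  have hstep : ∀ s ∈ (range N).powersetCard k, ∃ B ∈ 𝒢, B ⊆ s := by
    intro s hs
    obtain ⟨b, hb, hbs, hbg⟩ := h s hs
    obtain ⟨hsN, -⟩ := mem_powersetCard.1 hs
    have hsub : univ.image b ⊆ s := by
      intro y hy
      obtain ⟨i, -, rfl⟩ := mem_image.1 hy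
      exact hbs i
    refine ⟨univ.image b, ?_, hsub⟩
    rw [h𝒢, mem_filter, mem_powersetCard]
    refine ⟨⟨hsub.trans hsN, ?_⟩, b, hb, rfl, hbg⟩
    rw [card_image_of_injective _ hb.injective, card_univ, Fintype.card_fin]
  have hak : m + 1 ≤ k := by
    have h1 : range k ∈ (range N).powersetCard k :=
      mem_powersetCard.2 ⟨range_subset_range.2 hkN, card_range k⟩
    obtain ⟨B, hB, hBs⟩ := hstep _ h1
    have h2 := (mem_powersetCard.1 (mem_filter.1 hB).1).2
    have h3 := card_le_card hBs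
    rw [card_range] at h3
    omega
  have hdc := Pool.Agent.IPT.double_count hk hkN hak 𝒢 (filter_subset _ _) hstep
  have hch : ∀ B ∈ 𝒢, ∃ b : Fin (m + 1) → ℕ, StrictMono b ∧ B = univ.image b ∧
      ∃ ε : Fin m → Fin 2, (fun i : Fin m => b i.succ - b i.castSucc - (ε i : ℕ)) ∈ J := fun B hB =>
    (mem_filter.1 hB).2
  choose! bb hb1 hb2 ee hb3 using hch
  have hcard : 𝒢.card ≤ (J ×ˢ ((univ : Finset (Fin m → Fin 2)) ×ˢ (range N))).card := by
    refine card_le_card_of_injOn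
      (fun B => ((fun i : Fin m => bb B i.succ - bb B i.castSucc - (ee B i : ℕ)), (ee B, bb B 0))) ?_ ?_
    · intro B hB
      have hB' : B ∈ 𝒢 := hB
      rw [mem_coe, mem_product, mem_product]
      refine ⟨hb3 B hB', mem_univ _, ?_⟩
      have h1 := (mem_powersetCard.1 (mem_filter.1 hB').1).1
      have h2 := mem_image_of_mem (bb B) (mem_univ (0 : Fin (m + 1)))
      rw [← hb2 B hB'] at h2
      exact h1 h2
    · intro B hB B' hB' he
      have h1 : B ∈ 𝒢 := hB
      have h2 : B' ∈ 𝒢 := hB'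
      simp only [Prod.mk.injEq] at he
      obtain ⟨he1, he2, he3⟩ := he
      rw [← he2] at he1
      have h3 := cm_eq (hb1 B h1) (hb1 B' h2) he3 he1
      rw [hb2 B h1, hb2 B' h2, h3]
  have h5 : Fintype.card (Fin m → Fin 2) = 2 ^ m := by
    rw [Fintype.card_fun, Fintype.card_fin, Fintype.card_fin]
  rw [card_product, card_product, card_range, card_univ, h5] at hcard
  refine hdc.trans ?_
  have h4 : (𝒢.card : ℝ) ≤ ((J.card * (2 ^ m * N) : ℕ) : ℝ) := by exact_mod_cast hcard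
  push_cast at h4
  linarith

open Classical in
theorem cells_M (m : ℕ) : ∃ c0 : ℝ, 0 < c0 ∧ ∀ δ T : ℝ, 0 < δ → δ ≤ T → ∃ c : ℝ, 0 < c ∧
    ∀ᶠ N : ℕ in atTop, c0 * (T / δ) ^ m ≤
      (((Fintype.piFinset (fun _ : Fin m => range ⌊T / δ⌋₊)).filter (fun v =>
        c * N ≤ (((range N).filter (fun n => ∀ r : Fin m,
          v r * δ ≤ 2 * √(pn (n + r)) * dn (n + r) / Real.log (pn (n + r)) ∧
          2 * √(pn (n + r)) * dn (n + r) / Real.log (pn (n + r)) < (v r + 1) * δ)).card : ℝ))).card :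
        ℝ) := by
  obtain ⟨K, hK, HP⟩ := patt_I m
  have hK0 : (0 : ℝ) < K := by exact_mod_cast hK
  have hK1 : (1 : ℝ) ≤ K := by exact_mod_cast hK
  refine ⟨1 / (4 ^ m * (K : ℝ) ^ (m + 1)), by positivity, fun δ T hδ hδT => ?_⟩
  obtain ⟨n0, hn⟩ : ∃ n0, n0 = ⌊T / δ⌋₊ := ⟨_, rfl⟩
  have hTδ : 1 ≤ T / δ := by
    rw [le_div_iff₀ hδ]
    linarith
  have hn1 : 1 ≤ n0 := by
    rw [hn, Nat.one_le_floor_iff]
    exact hTδ
  have hn2 : (n0 : ℝ) ≤ T / δ := by
    rw [hn]
    exact Nat.floor_le (by linarith)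
  have hn3 : T / δ < n0 + 1 := by
    rw [hn]
    exact Nat.lt_floor_add_one _
  have hn1' : (1 : ℝ) ≤ n0 := by exact_mod_cast hn1
  have hT : 0 < T := by linarith
  have hnT : (n0 : ℝ) * δ ≤ T := by
    rwa [le_div_iff₀ hδ] at hn2
  obtain ⟨c1, hc1, N1, H1⟩ := HP (δ / (2 * K)) (by positivity) δ hδ
  obtain ⟨c2, hc2, N2, H2⟩ := HP δ hδ T hT
  obtain ⟨D, hD⟩ : ∃ D : ℝ, D = (K : ℝ) ^ (m + 1) * 2 ^ m := ⟨_, rfl⟩
  have hD0 : 0 < D := by
    rw [hD]
    positivity
  obtain ⟨c, hc⟩ : ∃ c, c = min c1 (c2 / (2 * D)) := ⟨_, rfl⟩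
  have hc0 : 0 < c := by
    rw [hc]
    exact lt_min hc1 (by positivity)
  have hca : c ≤ c1 := by rw [hc]; exact min_le_left _ _
  have hcb : c ≤ c2 / (2 * D) := by rw [hc]; exact min_le_right _ _
  refine ⟨c, hc0, ?_⟩
  filter_upwards [eventually_ge_atTop (max (max N1 N2) 1)] with N hN
  have hN1 : N1 ≤ N := le_trans (le_trans (le_max_left _ _) (le_max_left _ _)) hN
  have hN2 : N2 ≤ N := le_trans (le_trans (le_max_right _ _) (le_max_left _ _)) hN
  have hN3 : 1 ≤ N := le_trans (le_max_right _ _) hN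
  have hN0 : (0 : ℝ) < N := by exact_mod_cast hN3
  rw [← hn]
  generalize hJ : (Fintype.piFinset (fun _ : Fin m => range n0)).filter (fun v =>
        c * N ≤ (((range N).filter (fun n => ∀ r : Fin m,
          v r * δ ≤ 2 * √(pn (n + r)) * dn (n + r) / Real.log (pn (n + r)) ∧
          2 * √(pn (n + r)) * dn (n + r) / Real.log (pn (n + r)) < (v r + 1) * δ)).card : ℝ)) = J
  have hmemJ : ∀ v : Fin m → ℕ, (∀ r, v r < n0) → v ∉ J → (((range N).filter (fun n => ∀ r : Fin m,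
          v r * δ ≤ 2 * √(pn (n + r)) * dn (n + r) / Real.log (pn (n + r)) ∧
          2 * √(pn (n + r)) * dn (n + r) / Real.log (pn (n + r)) < (v r + 1) * δ)).card : ℝ) <
        c * N := by
    intro v hv hvJ
    by_contra hcon
    apply hvJ
    rw [← hJ, mem_filter, Fintype.mem_piFinset]
    exact ⟨fun r => mem_range.2 (hv r), not_lt.1 hcon⟩
  clear hJ
  by_cases hcase : n0 < K
  · -- few cells
    have hcase' : (n0 : ℝ) + 1 ≤ K := by exact_mod_cast hcase
    have h0J : (fun _ => 0) ∈ J := by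
      by_contra h0
      have h1 := hmemJ (fun _ => 0) (fun _ => by omega) h0
      have h2 := H1 N hN1 (fun i => ((i : ℕ) : ℝ) * (δ / (2 * K))) (cm_beta hK hδ).1 (cm_beta hK hδ).2
      have h3 : (range N).filter (fun n => ∃ i : Fin (m + 1) → Fin K, StrictMono i ∧
          ∀ r : Fin m, |2 * √(pn (n + r)) * dn (n + r) / Real.log (pn (n + r)) -
            (((i r.succ : ℕ) : ℝ) * (δ / (2 * K)) - ((i r.castSucc : ℕ) : ℝ) * (δ / (2 * K)))| <
              δ / (2 * K)) ⊆
          (range N).filter (fun n => ∀ r : Fin m,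
          ((0 : ℕ) : ℝ) * δ ≤ 2 * √(pn (n + r)) * dn (n + r) / Real.log (pn (n + r)) ∧
          2 * √(pn (n + r)) * dn (n + r) / Real.log (pn (n + r)) < (((0 : ℕ) : ℝ) + 1) * δ) := by
        intro n hn'
        rw [mem_filter] at hn' ⊢
        obtain ⟨h4, i, _, hi⟩ := hn'
        exact ⟨h4, fun r => cm_few hK hδ (cm_nonneg _) _ _ (hi r)⟩
      have h4 : c1 * N ≤ (((range N).filter (fun n => ∀ r : Fin m,
          ((0 : ℕ) : ℝ) * δ ≤ 2 * √(pn (n + r)) * dn (n + r) / Real.log (pn (n + r)) ∧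
          2 * √(pn (n + r)) * dn (n + r) / Real.log (pn (n + r)) < (((0 : ℕ) : ℝ) + 1) * δ)).card :
            ℝ) := by
        refine h2.trans ?_
        exact_mod_cast card_le_card h3
      have h5 : c * N ≤ c1 * N := mul_le_mul_of_nonneg_right hca hN0.le
      exact absurd (lt_of_le_of_lt (le_trans h5 h4) h1) (lt_irrefl _)
    have h1 : 1 ≤ J.card := card_pos.2 ⟨_, h0J⟩
    have h1' : (1 : ℝ) ≤ J.card := by exact_mod_cast h1
    refine le_trans ?_ h1'
    have h2 : (T / δ) ^ m ≤ (K : ℝ) ^ m := pow_le_pow_left₀ (by linarith) (by linarith) m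
    have h3 : (K : ℝ) ^ m ≤ 4 ^ m * (K : ℝ) ^ (m + 1) := by
      have h4 : (1 : ℝ) ≤ 4 ^ m := one_le_pow₀ (by norm_num)
      have h5 : (K : ℝ) ^ m ≤ (K : ℝ) ^ (m + 1) := pow_le_pow_right₀ hK1 (Nat.le_succ m)
      have h6 : 0 ≤ (K : ℝ) ^ (m + 1) := by positivity
      nlinarith
    rw [div_mul_eq_mul_div, one_mul, div_le_one (by positivity)]
    exact h2.trans h3
  · -- many cells
    rw [not_lt] at hcase
    have hstep : ∀ s ∈ (range n0).powersetCard K, ∃ b : Fin (m + 1) → ℕ, StrictMono b ∧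
        (∀ i, b i ∈ s) ∧
        ∃ ε : Fin m → Fin 2, (fun i : Fin m => b i.succ - b i.castSucc - (ε i : ℕ)) ∈ J := by
      intro s hs
      obtain ⟨hsN, hsc⟩ := mem_powersetCard.1 hs
      obtain ⟨o, ho1, ho2⟩ : ∃ o : Fin K → ℕ, StrictMono o ∧ ∀ i, o i ∈ s :=
        ⟨s.orderEmbOfFin hsc, (s.orderEmbOfFin hsc).strictMono, fun i => s.orderEmbOfFin_mem hsc i⟩
      have ho3 : ∀ i, o i < n0 := fun i => mem_range.1 (hsN (ho2 i))
      by_contra hcon
      push Not at hcon
      have h2 := H2 N hN2 (fun i => ((o i : ℕ) : ℝ) * δ) (cm_gamma hδ hnT ho1 ho3).1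
        (cm_gamma hδ hnT ho1 ho3).2
      have h3 := cm_union (ι := (Fin (m + 1) → Fin K) × (Fin m → Fin 2)) N
        (fun n => ∃ i : Fin (m + 1) → Fin K, StrictMono i ∧
          ∀ r : Fin m, |2 * √(pn (n + r)) * dn (n + r) / Real.log (pn (n + r)) -
            (((o (i r.succ) : ℕ) : ℝ) * δ - ((o (i r.castSucc) : ℕ) : ℝ) * δ)| < δ)
        (fun x => StrictMono x.1)
        (fun x n => ∀ r : Fin m,
          ((o (x.1 r.succ) - o (x.1 r.castSucc) - (x.2 r : ℕ) : ℕ) : ℝ) * δ ≤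
            2 * √(pn (n + r)) * dn (n + r) / Real.log (pn (n + r)) ∧
          2 * √(pn (n + r)) * dn (n + r) / Real.log (pn (n + r)) <
            (((o (x.1 r.succ) - o (x.1 r.castSucc) - (x.2 r : ℕ) : ℕ) : ℝ) + 1) * δ)
        (c * N) (by
          rintro n _ ⟨i, hi, hr⟩
          refine ⟨(i, fun r => if 2 * √(pn (n + r)) * dn (n + r) / Real.log (pn (n + r)) <
            ((o (i r.succ) : ℕ) : ℝ) * δ - ((o (i r.castSucc) : ℕ) : ℝ) * δ then 1 else 0), hi, ?_⟩
          intro r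
          have h4 : o (i r.castSucc) < o (i r.succ) := ho1 (hi (Fin.castSucc_lt_succ))
          obtain ⟨e, he⟩ : ∃ e : ℕ, o (i r.succ) = o (i r.castSucc) + (e + 1) :=
            ⟨o (i r.succ) - o (i r.castSucc) - 1, by omega⟩
          have h5 := abs_lt.1 (hr r)
          have h6 : ((o (i r.succ) : ℕ) : ℝ) * δ - ((o (i r.castSucc) : ℕ) : ℝ) * δ =
              ((e : ℝ) + 1) * δ := by
            rw [he]
            push_cast
            ring
          simp only
          rw [h6] at h5 ⊢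
          split_ifs with h7
          · have h8 : o (i r.succ) - o (i r.castSucc) - ((1 : Fin 2) : ℕ) = e := by
              have : ((1 : Fin 2) : ℕ) = 1 := rfl
              omega
            rw [h8]
            refine ⟨?_, h7⟩
            linarith
          · have h8 : o (i r.succ) - o (i r.castSucc) - ((0 : Fin 2) : ℕ) = e + 1 := by
              have : ((0 : Fin 2) : ℕ) = 0 := rfl
              omega
            rw [h8]
            push_cast
            refine ⟨not_lt.1 h7, ?_⟩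
            linarith) (by
          intro x hx
          refine le_trans (le_of_eq ?_)
            (hmemJ (fun r => o (x.1 r.succ) - o (x.1 r.castSucc) - (x.2 r : ℕ)) ?_ ?_).le
          · congr!
          · intro r
            have := ho3 (x.1 r.succ)
            omega
          · exact hcon (fun j => o (x.1 j)) (ho1.comp hx) (fun j => ho2 _) x.2) (by positivity)
      have h4 : (Fintype.card ((Fin (m + 1) → Fin K) × (Fin m → Fin 2)) : ℝ) = D := by
        rw [Fintype.card_prod, Fintype.card_fun, Fintype.card_fun, Fintype.card_fin, Fintype.card_fin,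
          Fintype.card_fin, Fintype.card_fin, hD]
        push_cast
        rfl
      rw [h4] at h3
      have h5 : c2 * N ≤ D * (c * N) := by
        refine h2.trans (le_trans (le_of_eq ?_) h3)
        congr!
      rw [le_div_iff₀ (by positivity)] at hcb
      have h6 : D * (c * N) = (c * (2 * D)) * (N / 2) := by ring
      have h7 : (c * (2 * D)) * (N / 2) ≤ c2 * (N / 2) := mul_le_mul_of_nonneg_right hcb (by positivity)
      have h8 : 0 < c2 * N := mul_pos hc2 hN0
      linarith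
    have hcnt := cm_count hK hcase J hstep
    have hn0 : (0 : ℝ) < n0 := by linarith
    have h7 : (n0 : ℝ) ^ m / (K : ℝ) ^ (m + 1) ≤ J.card * 2 ^ m := by
      rw [div_pow, pow_succ (n0 : ℝ)] at hcnt
      have h8 : (n0 : ℝ) ^ m * n0 / (K : ℝ) ^ (m + 1) = (n0 : ℝ) ^ m / (K : ℝ) ^ (m + 1) * n0 := by
        ring
      rw [h8] at hcnt
      exact le_of_mul_le_mul_right hcnt hn0
    have h9 : (T / δ) ^ m ≤ (2 * (n0 : ℝ)) ^ m := pow_le_pow_left₀ (by linarith) (by linarith) m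
    have h10 : (0 : ℝ) < 2 ^ m := by positivity
    have h11 : (4 : ℝ) ^ m = 2 ^ m * 2 ^ m := by
      rw [← mul_pow]
      norm_num
    calc 1 / (4 ^ m * (K : ℝ) ^ (m + 1)) * (T / δ) ^ m
        ≤ 1 / (4 ^ m * (K : ℝ) ^ (m + 1)) * (2 * (n0 : ℝ)) ^ m :=
          mul_le_mul_of_nonneg_left h9 (by positivity)
      _ = ((n0 : ℝ) ^ m / (K : ℝ) ^ (m + 1)) / 2 ^ m := by
          rw [mul_pow, h11]
          field_simp
      _ ≤ (J.card * 2 ^ m) / 2 ^ m := div_le_div_of_nonneg_right h7 h10.le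
      _ = J.card := by field_simp

end Pool.Agent.ISO
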