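import Pool.Agent.AV.PyF

/-!
ISO/SsI.  The small sieve for more shifts: `ss_py`, `sx_py` (AV/PyF) with a general `N2 ≤ RR G r`.
-/

set_option autoImplicit false

open Finset Pool.Agent.RS Pool.Agent.AT Pool.Agent.VOID Pool.Agent.AV

namespace Pool.Agent.ISO

private theorem pyf_R1 (G r : ℕ) : 1 ≤ RR G r :=
  Nat.one_le_iff_ne_zero.2 (by unfold RR; positivity)

theorem ss_pyK {CV : ℝ} {G r L g s m1 d N : ℕ} (pb : PB CV G r L g s m1 d N)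
    (h4 : 16 * (RR G r : ℝ) * (((2 : ℝ) ^ (G + 1)) ^ (2 * r))⁻¹ *
      Real.exp (16 * 2 ^ (G + 1) * 8) ≤ Real.log 2) {N2 : ℕ} (hN2 : N2 ≤ RR G r)
    {κ : Type} [DecidableEq κ] [Fintype κ] (a : κ → ℤ)
    (ha : ∀ j, |a j| < L ^ 2) (hinj : Function.Injective a) :
    SS (QV (Bk L m1 ∅) (Nat.log 2 m1)) (psy L m1 r) ((2 : ℝ) ^ (m1 * (4 * r + 4)))
      (Piy L m1) (Piy L m1 1) (2 * N2 + 2) a := by
  have hL : 2 ≤ L := le_trans (by norm_num) pb.pl.L16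
  have hss0 := brun_ss (κ := κ) (Bl := Bk L m1 ∅) (r := r) (I := Nat.log 2 m1)
    (K := 2 * N2 + 2) (a := a) (fun i _ q hq => (bk_mem hq).1)
    (fun i _ i' _ h => bk_disj h)
    (fun i _ q hq j j' hjj => no_dvd hL (bk_mem hq).2.1 (ha j) (ha j') fun h => hjj (hinj h))
    (fun i _ q hq => by
      have h1 := (bk_mem hq).2.1
      have h2 := pb.pl.K_le
      have h3 := hN2
      omega)
    (eps_ok hN2 pb.G1 h4)
  have hWle : ∏ i ∈ range (Nat.log 2 m1), (((Bk L m1 ∅ i).card : ℝ) + 1) ^ (2 * (r + i)) ≤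
      2 ^ (m1 * (4 * r + 4)) := bk_card L m1 ∅ r
  exact { hss0 with
      rep := hss0.rep.mono hWle
      one_le_W := one_le_pow₀ (by norm_num) }

private theorem bk_sumsq {L m1 : ℕ} (hL : 4 ≤ L) :
    ∑ i ∈ range (Nat.log 2 m1), ∑ q ∈ Bk L m1 ∅ i, 1 / (q : ℝ) ^ 2 ≤ 1 / (L : ℝ) ^ 6 := by
  classical
  rw [← Finset.sum_biUnion (fun i _ i' _ h => bk_disj h)]
  refine (Finset.sum_le_sum_of_subset_of_nonneg ?_ fun q _ _ => by positivity).trans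
    (sum_inv_sq hL ∅ (2 ^ m1))
  intro q hq
  rw [Finset.mem_biUnion] at hq
  obtain ⟨i, _, hq⟩ := hq
  have h1 := bk_mem hq
  rw [Finset.mem_sdiff]
  constructor
  · unfold prz
    rw [Finset.mem_filter, Finset.mem_Icc]
    exact ⟨⟨h1.1.pos, h1.2.2.1⟩, h1.1⟩
  · unfold excl
    rw [Finset.mem_filter]
    rintro ⟨_, h2 | ⟨b, hb, _⟩⟩
    · exact absurd h2 (not_le.2 h1.2.1)
    · exact absurd hb (Finset.notMem_empty b)

attribute [local irreducible] RR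

theorem sx_pyK {CV : ℝ} {G r L g s m1 d N : ℕ} (pb : PB CV G r L g s m1 d N)
    (h4 : 16 * (RR G r : ℝ) * (((2 : ℝ) ^ (G + 1)) ^ (2 * r))⁻¹ *
      Real.exp (16 * 2 ^ (G + 1) * 8) ≤ Real.log 2) {N2 : ℕ} (hN2 : N2 ≤ RR G r)
    {κ : Type} [DecidableEq κ] [Fintype κ] (a : κ → ℤ) (a0 : ℤ)
    (ha : ∀ j, |a j| < L ^ 2) (hinj : Function.Injective a) (ha0 : |a0| < L ^ 2)
    (h0 : ∀ j, a j ≠ a0) :
    SX (p1 (Bk L m1 ∅) (Nat.log 2 m1)) a0 (psy L m1 r) (Piy L m1) (CK (2 * N2 + 2))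
      (2 * N2 + 2) a := by
  have hL16 := pb.pl.L16
  have hL : 2 ≤ L := le_trans (by norm_num) hL16
  have hR1 := pyf_R1 G r
  have hN := hN2
  have hrl := pb.rl
  have hL6 : L ≤ L ^ 6 := Nat.le_self_pow (by norm_num) _
  have hLr : (16 : ℝ) ≤ L := by exact_mod_cast hL16
  refine sx_blocks (fun i _ q hq => (bk_mem hq).1) (fun i _ q hq => ?_) (fun i hi => bk_sum hi) ?_
    (eps_ok hN pb.G1 h4) a a0
    (fun i _ q hq j => no_dvd hL (bk_mem hq).2.1 (ha j) ha0 (h0 j))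
    (fun i _ q hq j j' hjj => no_dvd hL (bk_mem hq).2.1 (ha j) (ha j') fun h => hjj (hinj h))
  · have h1 := (bk_mem hq).2.1
    omega
  · have h1 := bk_sumsq (L := L) (m1 := m1) (le_trans (by norm_num) hL16)
    have h2 : ∑ i ∈ range (Nat.log 2 m1), ∑ q ∈ Bk L m1 ∅ i,
        4 * ((2 * N2 + 2 : ℕ) : ℝ) / (q : ℝ) ^ 2 =
        4 * ((2 * N2 + 2 : ℕ) : ℝ) * ∑ i ∈ range (Nat.log 2 m1), ∑ q ∈ Bk L m1 ∅ i,
          1 / (q : ℝ) ^ 2 := by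
      rw [mul_sum]
      refine sum_congr rfl fun i _ => ?_
      rw [mul_sum]
      refine sum_congr rfl fun q _ => ?_
      rw [mul_one_div]
    rw [h2]
    have h3 : ((2 * N2 + 2 : ℕ) : ℝ) ≤ L := by
      have : 2 * N2 + 2 ≤ L := by omega
      exact_mod_cast this
    have h5 : 4 * ((2 * N2 + 2 : ℕ) : ℝ) * ∑ i ∈ range (Nat.log 2 m1), ∑ q ∈ Bk L m1 ∅ i,
        1 / (q : ℝ) ^ 2 ≤ (4 * (L : ℝ)) * (1 / (L : ℝ) ^ 6) :=
      mul_le_mul (by linarith) h1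
        (sum_nonneg fun i _ => sum_nonneg fun q _ => by positivity) (by linarith)
    refine h5.trans ?_
    rw [mul_one_div, div_le_div_iff₀ (by positivity) (by norm_num)]
    have c1 : (16 : ℝ) ≤ (L : ℝ) ^ 2 := by nlinarith
    have c2 : (1 : ℝ) ≤ (L : ℝ) ^ 3 := one_le_pow₀ (by linarith)
    have c3 : (L : ℝ) ^ 6 = (L : ℝ) * (L ^ 2 * L ^ 3) := by ring
    have c4 : (16 : ℝ) ≤ (L : ℝ) ^ 2 * (L : ℝ) ^ 3 := by nlinarith
    rw [c3]
    nlinarith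

end Pool.Agent.ISO
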