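import Pool.Agent.ISO.MomF
import Pool.Agent.AV.RepG2
import Pool.Agent.VOID.RepAvg

/-!
ISO/TrF.  From the mean over a period to sums over arithmetic progressions.
-/

set_option autoImplicit false

open Finset Pool.Agent.RS Pool.Agent.VOID

namespace Pool.Agent.ISO

variable {ι κ : Type} [Fintype ι] [DecidableEq ι] [DecidableEq κ] [Fintype κ]

omit [DecidableEq ι] [DecidableEq κ] [Fintype κ] [Fintype ι] in
private theorem trf_ee {q Q : ℕ} (hq : 2 ≤ q) (hQ : q ∣ Q) : Rep Q (ee q) 3 := by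
  have hq' : (2 : ℝ) ≤ q := by exact_mod_cast hq
  have hcls : Rep Q (fun z => if (q : ℤ) ∣ z - 0 then (1 : ℝ) else 0) 1 :=
    Rep.cls (Or.inr ⟨q, 0, hQ, by omega, fun n => rfl⟩)
  have h := (Rep.const (Q := Q) (1 / ((q : ℝ) - 1))).add
    (hcls.smul (-((q : ℝ) / ((q : ℝ) - 1))))
  have hf : (fun n : ℤ => 1 / ((q : ℝ) - 1) +
      -((q : ℝ) / ((q : ℝ) - 1)) * (if (q : ℤ) ∣ n - 0 then (1 : ℝ) else 0)) = ee q := by
    funext n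
    have hq1 : (q : ℝ) - 1 ≠ 0 := by linarith
    unfold ee
    rw [sub_zero]
    split_ifs with hd
    · field_simp
      ring
    · ring
  rw [hf] at h
  refine h.mono ?_
  have hq1 : 0 < (q : ℝ) - 1 := by linarith
  rw [abs_neg, abs_of_nonneg (by positivity), abs_of_nonneg (by positivity), mul_one, ← add_div,
    div_le_iff₀ hq1]
  linarith

omit [DecidableEq ι] [DecidableEq κ] [Fintype κ] in
private theorem trf_EE {p : ι → ℕ} (hp : ∀ i, 2 ≤ p i) {Q : ℕ} (hQ : ∀ i, p i ∣ Q)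
    (a : κ → ℤ) (σ : ι → Option κ) : Rep Q (EE p a σ) (3 ^ (supp σ).card) := by
  classical
  have h := Rep.prod (Q := Q) univ (fun i n => eo (p i) a n (σ i))
    (fun i => if σ i ≠ none then (3 : ℝ) else 1) (by
      intro i _
      cases hi : σ i with
      | none => simpa [eo] using (Rep.one (Q := Q))
      | some j =>
        have h2 := (trf_ee (hp i) (hQ i)).shift (a j)
        simpa [eo] using h2)
  have hw : ∏ i, (if σ i ≠ none then (3 : ℝ) else 1) = 3 ^ (supp σ).card := by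
    rw [Finset.prod_ite, Finset.prod_const, Finset.prod_const_one, mul_one]
    rfl
  rw [hw] at h
  exact h

omit [Fintype κ] [DecidableEq κ] in
private theorem trf_PT {Q Q1 : ℕ} (hQ : Q1 ∣ Q) {ψ : ℤ → ℝ} {Wψ : ℝ} (hψ : Rep Q1 ψ Wψ)
    (a : κ → ℤ) (T : Finset κ) : Rep Q (PT ψ a T) (Wψ ^ T.card) := by
  have h := Rep.prod (Q := Q) T (fun j n => ψ (n - a j)) (fun _ => Wψ) (by
    intro j _
    exact (hψ.dvd_mono hQ).shift (a j))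
  rw [Finset.prod_const] at h
  exact h

open Classical in
theorem rep_GP {p : ι → ℕ} (hp : ∀ i, 2 ≤ p i) {Q1 : ℕ} {ψ : ℤ → ℝ} {Wψ : ℝ}
    (hψ : Rep Q1 ψ Wψ) (hW : 1 ≤ Wψ) (a : κ → ℤ) (τ : (ι → Option κ) → Finset κ)
    (Z : (ι → Option κ) → ℝ) (hZ1 : ∀ σ, |Z σ| ≤ 1) {N' Nt : ℕ}
    (hN : ∀ σ, Z σ ≠ 0 → (supp σ).card ≤ N') (hT : ∀ σ, Z σ ≠ 0 → (τ σ).card ≤ Nt) {C : ℝ}
    (hC : (((univ : Finset (ι → Option κ)).filter (fun σ => Z σ ≠ 0)).card : ℝ) ≤ C) :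
    Rep (Q1 * ∏ i, p i) (GP p a ψ τ Z) (C * (3 ^ N' * Wψ ^ Nt)) := by
  classical
  have hW0 : (0 : ℝ) ≤ Wψ := by linarith
  have hpQ : ∀ i, p i ∣ Q1 * ∏ i, p i := fun i =>
    Dvd.dvd.mul_left (Finset.dvd_prod_of_mem p (Finset.mem_univ i)) Q1
  have hterm : ∀ σ ∈ (univ : Finset (ι → Option κ)), Rep (Q1 * ∏ i, p i)
      (fun n => Z σ * (PT ψ a (τ σ) n * EE p a σ n))
      (if Z σ ≠ 0 then (3 : ℝ) ^ N' * Wψ ^ Nt else 0) := by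
    intro σ _
    have h := ((trf_PT (Dvd.intro _ rfl) hψ a (τ σ)).mul (trf_EE hp hpQ a σ)).smul (Z σ)
    refine h.mono ?_
    split_ifs with hZ
    · have h1 : Wψ ^ (τ σ).card ≤ Wψ ^ Nt :=
        pow_le_pow_right₀ hW (hT σ hZ)
      have h2 : (3 : ℝ) ^ (supp σ).card ≤ 3 ^ N' :=
        pow_le_pow_right₀ (by norm_num) (hN σ hZ)
      have h3 : Wψ ^ (τ σ).card * 3 ^ (supp σ).card ≤ 3 ^ N' * Wψ ^ Nt := by
        rw [mul_comm ((3 : ℝ) ^ N')]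
        exact mul_le_mul h1 h2 (by positivity) (by positivity)
      calc |Z σ| * (Wψ ^ (τ σ).card * 3 ^ (supp σ).card)
          ≤ 1 * (Wψ ^ (τ σ).card * 3 ^ (supp σ).card) :=
            mul_le_mul_of_nonneg_right (hZ1 σ) (by positivity)
        _ ≤ 3 ^ N' * Wψ ^ Nt := by rw [one_mul]; exact h3
    · have : Z σ = 0 := not_not.mp hZ
      rw [this, abs_zero, zero_mul]
  have h := Rep.sum univ _ _ hterm
  refine Rep.mono h ?_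
  rw [Finset.sum_ite, Finset.sum_const_zero, add_zero, Finset.sum_const, nsmul_eq_mul]
  refine mul_le_mul_of_nonneg_right ?_ (by positivity)
  exact hC

open Classical in
theorem tr_F {p : ι → ℕ} {Q1 M : ℕ} {a : κ → ℤ} {z : ℝ} (h : Hy p Q1 a z)
    (hM : Nat.Coprime M (Q1 * ∏ i, p i)) {ψ : ℤ → ℝ} {Wψ : ℝ} {Pi : ℕ → ℝ} {V1 : ℝ} {K : ℕ}
    (hs : SS Q1 ψ Wψ Pi V1 K a) (S0 S1 : Finset κ)
    (hS1 : S1 ⊆ S0) (τ : (ι → Option κ) → Finset κ) (Z : (ι → Option κ) → ℝ)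
    (hZ1 : ∀ σ, |Z σ| ≤ 1) (hd1 : ∀ σ, Z σ ≠ 0 → Disjoint S1 (τ σ)) {Nt N' : ℕ}
    (hT : ∀ σ, Z σ ≠ 0 → (τ σ).card ≤ Nt) (hN : ∀ σ, Z σ ≠ 0 → (supp σ).card ≤ N')
    (hK : S0.card + 2 * Nt ≤ K) {C : ℝ}
    (hC : (((univ : Finset (ι → Option κ)).filter (fun σ => Z σ ≠ 0)).card : ℝ) ≤ C)
    (n0 : ℤ) (T : ℕ) :
    ∑ t ∈ range T, PT ψ a S0 (n0 + M * (t : ℤ)) * PT ψ a S1 (n0 + M * (t : ℤ)) *
        GP p a ψ τ Z (n0 + M * (t : ℤ)) ^ 2 ≤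
      (T : ℝ) * ((∑ σ, Z σ ^ 2 / PH p (supp σ) * (2 * Pi (S0 ∪ τ σ).card)) +
        2 * Pi S0.card * offB κ p N' z) +
        2 * (Wψ ^ (S0.card + S1.card) * (C * (3 ^ N' * Wψ ^ Nt)) ^ 2) := by
  classical
  have hQ : 0 < Q1 * ∏ i, p i :=
    Nat.mul_pos h.Q1pos (Finset.prod_pos fun i _ => by have := h.two i; omega)
  have hQ1 : Q1 ∣ Q1 * ∏ i, p i := Dvd.intro _ rfl
  have hG := rep_GP h.two hs.rep hs.one_le_W a τ Z hZ1 hN hT hC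
  have hr := ((trf_PT hQ1 hs.rep a S0).mul (trf_PT hQ1 hs.rep a S1)).mul (hG.mul hG)
  have hf : (fun n : ℤ => PT ψ a S0 n * PT ψ a S1 n * (GP p a ψ τ Z n * GP p a ψ τ Z n)) =
      fun n => PT ψ a S0 n * PT ψ a S1 n * GP p a ψ τ Z n ^ 2 := by
    funext n
    rw [sq]
  rw [hf] at hr
  have h1 := Rep.avg hQ hM hr T n0
  have h2 := momF h hs S0 S1 hS1 τ Z hZ1 hd1 hT hN hK
  have h3 := mul_le_mul_of_nonneg_left h2 (Nat.cast_nonneg (α := ℝ) T)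
  have h4 := (abs_le.1 h1).2
  have h5 : Wψ ^ S0.card * Wψ ^ S1.card * (C * (3 ^ N' * Wψ ^ Nt) * (C * (3 ^ N' * Wψ ^ Nt))) =
      Wψ ^ (S0.card + S1.card) * (C * (3 ^ N' * Wψ ^ Nt)) ^ 2 := by
    rw [pow_add, sq]
  rw [h5] at h4
  linarith

open Classical in
theorem trW_F {p : ι → ℕ} (hp : ∀ i, 2 ≤ p i) {Q1 : ℕ} {a : κ → ℤ} {ψ : ℤ → ℝ} {Wψ : ℝ}
    (hψ : Rep Q1 ψ Wψ) (hW : 1 ≤ Wψ) (S0 : Finset κ) (τ : (ι → Option κ) → Finset κ)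
    (Z : (ι → Option κ) → ℝ) (hZ1 : ∀ σ, |Z σ| ≤ 1) {Nt N' : ℕ}
    (hT : ∀ σ, Z σ ≠ 0 → (τ σ).card ≤ Nt) (hN : ∀ σ, Z σ ≠ 0 → (supp σ).card ≤ N') {C : ℝ}
    (hC : (((univ : Finset (ι → Option κ)).filter (fun σ => Z σ ≠ 0)).card : ℝ) ≤ C) (n : ℤ) :
    PT ψ a S0 n * GP p a ψ τ Z n ^ 2 ≤ Wψ ^ S0.card * (C * (3 ^ N' * Wψ ^ Nt)) ^ 2 := by
  classical
  have hG := rep_GP hp hψ hW a τ Z hZ1 hN hT hC
  have hr := (trf_PT (Dvd.intro _ rfl) hψ a S0).mul (hG.mul hG)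
  have h1 := (abs_le.1 (Rep.abs_le hr n)).2
  rw [← sq, ← sq] at h1
  exact h1

end Pool.Agent.ISO
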