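import Pool.Agent.ISO.SdJ
import Pool.Agent.ISO.SsI
import Pool.Agent.ISO.TrF
import Pool.Agent.AT.Prog

/-!
ISO/Ei0.  Total mass of the weight in a class, by the transfer `tr_F` to a complete period.
-/

set_option autoImplicit false

open Finset Pool.Agent.RS Pool.Agent.AT Pool.Agent.VOID Pool.Agent.AV Pool.Agent.IPT

namespace Pool.Agent.ISO

variable {CV0 CV : ℝ} {G r k G' t0 P L M H : ℕ} {R : Finset ℕ} {t : Fin k → ℕ} {g s m1 d N : ℕ}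

/-- the factor of the small sieve is nonnegative -/
private theorem ei0_pt {κ : Type} [DecidableEq κ] [Fintype κ] {Q1 : ℕ} {a : κ → ℤ} {ψ : ℤ → ℝ}
    {Wψ : ℝ} {Pi : ℕ → ℝ} {V1 : ℝ} {K : ℕ} (hs : SS Q1 ψ Wψ Pi V1 K a) (T : Finset κ) (n : ℤ) :
    0 ≤ PT ψ a T n :=
  Finset.prod_nonneg fun _ _ => hs.nonneg _

/-- numbers -/
private theorem ei0_num {X Z T off Pk w : ℝ} (hX : 1000 ≤ X) (hT0 : 0 ≤ T) (hT : T ≤ 4 * X + 1)
    (hZ : 0 ≤ Z) (hP : Pk ≤ Z) (hP0 : 0 ≤ Pk) (ho : off ≤ 1 / 20)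
    (hw : w ≤ X * Z / 10000) : T * (2 * Z + 2 * Pk * off) + 2 * w ≤ 10 * X * Z := by
  have h1 : Pk * off ≤ Z * (1 / 20) := by
    calc Pk * off ≤ Pk * (1 / 20) := mul_le_mul_of_nonneg_left ho hP0
      _ ≤ Z * (1 / 20) := mul_le_mul_of_nonneg_right hP (by norm_num)
  have h2 : T * (2 * Z + 2 * Pk * off) ≤ (4 * X + 1) * (2 * Z + Z / 10) := by
    calc T * (2 * Z + 2 * Pk * off) ≤ T * (2 * Z + Z / 10) :=
          mul_le_mul_of_nonneg_left (by linarith) hT0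
      _ ≤ (4 * X + 1) * (2 * Z + Z / 10) := mul_le_mul_of_nonneg_right hT (by linarith)
  have h3 : 1000 * Z ≤ X * Z := mul_le_mul_of_nonneg_right hX hZ
  nlinarith [h2, h3, hw]

theorem ei0 (si : SI CV0 CV G r k G' t0 P L M H R t g s m1 d N) (b : ℕ) :
    ∑ n ∈ Nw P H M b, wI L m1 s d r R t t0 G' (n : ℤ) ≤
      10 * ((P : ℝ) / M) * ZI L m1 s d R k t0 G' := by
  have sd := si.sd
  have pb := sd.pb
  obtain ⟨hX, -, -, -, hHP, hX1, -⟩ := sz sd.hL pb.big sd.hM0 sd.hMP sd.hH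
  obtain ⟨n0, T, hT, hsum⟩ := prog sd.hM0 hHP b
  have hbig := pb.big
  have hL2 : 2 ≤ L := by omega
  obtain ⟨ha, hinj⟩ := si_a si
  have hκ := si_card si
  have hs := ss_pyK pb sd.h4 si.pi.Nk (a2 R t) ha hinj
  have hy := hy_py (m1 := m1) hL2 (a2 R t) ha hinj
  have hScard : (sR {j : ℕ // j ∈ R} (Fin k)).card = k := by
    rw [sR_card, Fintype.card_fin]
  have h1 := hsum (fun n => wI L m1 s d r R t t0 G' n) (fun _ => True) (fun n =>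
    mul_nonneg (ei0_pt hs _ n) (sq_nonneg _))
  simp only [filter_true] at h1
  have h2 := tr_F hy (hM_py (m1 := m1) sd.hM) hs (sR {j : ℕ // j ∈ R} (Fin k)) ∅
    (empty_subset _) tL (YI L m1 s d R k t0 G') (fun σ => (si_YI si σ).1)
    (fun σ _ => Finset.disjoint_empty_left _) (Nt := N) (N' := (d + dd L) / m1)
    (fun σ hσ => ((si_YI si σ).2 hσ).2) (fun σ hσ => si_N2 si ((si_YI si σ).2 hσ).1)
    (by rw [hScard]; omega) (C := 2 * (2 ^ d * 2 ^ dd L) ^ 2)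
    (si_cnt si hκ (YI L m1 s d R k t0 G') fun σ hσ => ((si_YI si σ).2 hσ).1) n0 T
  have hmain : (∑ σ, YI L m1 s d R k t0 G' σ ^ 2 / PH (py L m1) (supp σ) *
      (2 * Piy L m1 (sR {j : ℕ // j ∈ R} (Fin k) ∪ tL σ).card)) = 2 * ZI L m1 s d R k t0 G' := by
    unfold ZI MZ
    rw [mul_sum]
    apply sum_congr rfl
    intro σ _
    rw [card_union_of_disjoint (sR_tL σ), hScard]
    ring
  rw [hmain, hScard, card_empty, Nat.add_zero] at h2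
  have h3 : ∑ t' ∈ range T, wI L m1 s d r R t t0 G' (n0 + M * (t' : ℤ)) =
      ∑ t' ∈ range T, PT (psy L m1 r) (a2 R t) (sR {j : ℕ // j ∈ R} (Fin k)) (n0 + M * (t' : ℤ)) *
        PT (psy L m1 r) (a2 R t) ∅ (n0 + M * (t' : ℤ)) *
        GP (py L m1) (a2 R t) (psy L m1 r) tL (YI L m1 s d R k t0 G') (n0 + M * (t' : ℤ)) ^ 2 := by
    apply sum_congr rfl
    intro t' _
    have e : PT (psy L m1 r) (a2 R t) ∅ (n0 + M * (t' : ℤ)) = 1 := by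
      unfold PT
      rw [prod_empty]
    rw [e, mul_one]
    rfl
  rw [h3] at h1
  have h9 := h1.trans h2
  have hoff := offB_le pb ({j : ℕ // j ∈ R} ⊕ Fin k) hκ si.pi.N2
  have hLr : (10 : ℝ) ^ 6 ≤ L := by exact_mod_cast hbig
  have hL1 : (1 : ℝ) ≤ L := by linarith
  have hoff' : offB ({j : ℕ // j ∈ R} ⊕ Fin k) (py L m1) ((d + dd L) / m1) ((2 : ℝ) ^ m1) ≤ 1 / 20 := by
    refine hoff.trans (one_div_le_one_div_of_le (by norm_num) ?_)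
    have h3 : (L : ℝ) ≤ (L : ℝ) ^ 5 := le_self_pow₀ hL1 (by norm_num)
    linarith
  have hPZ := si_ZI si
  have hP0 := si_pos si
  have hZ0 : 0 ≤ ZI L m1 s d R k t0 G' := hP0.le.trans hPZ
  have hB0 : (0 : ℝ) < 2 ^ (L / 100) := by positivity
  have hB1 : (1 : ℝ) ≤ 2 ^ (L / 100) := one_le_pow₀ (by norm_num)
  have hL4 : (1 : ℝ) ≤ (L : ℝ) ^ 4 := one_le_pow₀ hL1
  have hS1 : (1 : ℝ) ≤ 2 ^ (5 * (L / 10) + 5) := one_le_pow₀ (by norm_num)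
  have hBB : 10000 * ((2 : ℝ) ^ (L / 100) * 2 ^ (L / 100)) ≤ (P : ℝ) / M := by
    refine le_trans ?_ ((sz_w (L := L) hbig).2.trans hX)
    have e1 : (1 : ℝ) ≤ (L : ℝ) ^ 4 * 2 ^ (5 * (L / 10) + 5) := one_le_mul_of_one_le_of_one_le hL4 hS1
    have e2 : (0 : ℝ) ≤ 10000 * ((2 : ℝ) ^ (L / 100) * 2 ^ (L / 100)) := by positivity
    calc 10000 * ((2 : ℝ) ^ (L / 100) * 2 ^ (L / 100))
        ≤ 10000 * ((2 : ℝ) ^ (L / 100) * 2 ^ (L / 100)) *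
          ((L : ℝ) ^ 4 * 2 ^ (5 * (L / 10) + 5)) := le_mul_of_one_le_right e2 e1
      _ = _ := by ring
  have hX3 : (1000 : ℝ) ≤ (P : ℝ) / M := by
    have e1 : (1 : ℝ) ≤ 2 ^ (L / 100) * 2 ^ (L / 100) := one_le_mul_of_one_le_of_one_le hB1 hB1
    linarith
  have hT' : (T : ℝ) ≤ 4 * ((P : ℝ) / M) + 1 := by
    rw [mul_div_assoc] at hT
    exact hT
  have hw : ((2 : ℝ) ^ (m1 * (4 * r + 4))) ^ k * (2 * (2 ^ d * 2 ^ dd L) ^ 2 *
      (3 ^ ((d + dd L) / m1) * (2 ^ (m1 * (4 * r + 4))) ^ N)) ^ 2 ≤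
      (P : ℝ) / M * ZI L m1 s d R k t0 G' / 10000 := by
    have hW1 : (1 : ℝ) ≤ 2 ^ (m1 * (4 * r + 4)) := one_le_pow₀ (by norm_num)
    have e1 : ((2 : ℝ) ^ (m1 * (4 * r + 4))) ^ k * (2 * (2 ^ d * 2 ^ dd L) ^ 2 *
        (3 ^ ((d + dd L) / m1) * (2 ^ (m1 * (4 * r + 4))) ^ N)) ^ 2 ≤ 2 ^ (L / 100) := by
      refine le_trans ?_ si.pi.w3
      have a1 : ((2 : ℝ) ^ (m1 * (4 * r + 4))) ^ k ≤ ((2 : ℝ) ^ (m1 * (4 * r + 4))) ^ (k + 1) :=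
        pow_le_pow_right₀ hW1 (Nat.le_succ k)
      have a2 : (3 : ℝ) ^ ((d + dd L) / m1) ≤ 3 ^ RR G r :=
        pow_le_pow_right₀ (by norm_num) si.pi.N2
      have a3 : (3 : ℝ) ^ ((d + dd L) / m1) * (2 ^ (m1 * (4 * r + 4))) ^ N ≤
          3 ^ RR G r * (2 ^ (m1 * (4 * r + 4))) ^ N :=
        mul_le_mul_of_nonneg_right a2 (by positivity)
      have a4 : 2 * ((2 : ℝ) ^ d * 2 ^ dd L) ^ 2 *
          (3 ^ ((d + dd L) / m1) * (2 ^ (m1 * (4 * r + 4))) ^ N) ≤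
          2 * ((2 : ℝ) ^ d * 2 ^ dd L) ^ 2 * (3 ^ RR G r * (2 ^ (m1 * (4 * r + 4))) ^ N) :=
        mul_le_mul_of_nonneg_left a3 (by positivity)
      exact mul_le_mul a1 (pow_le_pow_left₀ (by positivity) a4 2) (by positivity) (by positivity)
    have e2 : (2 : ℝ) ^ (L / 100) ≤ 2 ^ (L / 100) * (2 ^ (L / 100) * Piy L m1 k) :=
      le_mul_of_one_le_right hB0.le si.pik
    have e3 : (2 : ℝ) ^ (L / 100) * (2 ^ (L / 100) * Piy L m1 k) ≤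
        (2 ^ (L / 100) * 2 ^ (L / 100)) * ZI L m1 s d R k t0 G' := by
      rw [← mul_assoc]
      exact mul_le_mul_of_nonneg_left hPZ (by positivity)
    have e4 : (2 ^ (L / 100) * 2 ^ (L / 100)) * ZI L m1 s d R k t0 G' ≤
        ((P : ℝ) / M / 10000) * ZI L m1 s d R k t0 G' :=
      mul_le_mul_of_nonneg_right (by linarith) hZ0
    calc _ ≤ (2 : ℝ) ^ (L / 100) := e1
      _ ≤ _ := e2
      _ ≤ _ := e3
      _ ≤ _ := e4
      _ = _ := by ring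
  exact h9.trans (ei0_num hX3 (Nat.cast_nonneg T) hT' hZ0 hPZ hP0.le hoff' hw)

end Pool.Agent.ISO
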