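import Pool.Agent.ISO.Defs
import Pool.Agent.AV.LvG

/-!
ISO/LvI.  Level of the weight, as in AV/LvG.
-/

set_option autoImplicit false

open Finset Pool.Agent.RS Pool.Agent.AT Pool.Agent.VOID Pool.Agent.AV

namespace Pool.Agent.ISO

variable {ι1 ι κ : Type} [Fintype ι1] [DecidableEq ι1] [Fintype ι] [DecidableEq ι] [DecidableEq κ]
  [Fintype κ]

omit [DecidableEq κ] [Fintype κ] in
private theorem lvi_EE {p : ι → ℕ} (hp : ∀ i, (p i).Prime) {a0 : ℤ} (a : κ → ℤ)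
    (σ : ι → Option κ) : LowE p a0 (PP p (supp σ)) (EE p a σ) := by
  classical
  have h := LowE.prod (a0 := a0) hp (univ : Finset ι) (fun i n => eo (p i) a n (σ i))
    (fun i => if σ i ≠ none then (p i : ℝ) else 1)
    (by
      intro i _
      split_ifs
      · exact Nat.cast_nonneg _
      · exact zero_le_one)
    (by
      intro i _
      cases hi : σ i with
      | none => simpa [eo] using low_const (a0 := a0) hp 1
      | some j => simpa [eo] using low_ee (a0 := a0) hp i (a j))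
  have hw : ∏ i, (if σ i ≠ none then (p i : ℝ) else 1) = PP p (supp σ) := by
    unfold PP supp
    rw [Finset.prod_filter]
  rw [hw] at h
  exact h

omit [Fintype ι] [DecidableEq ι] [DecidableEq κ] [Fintype κ] in
private theorem lvi_PT {q : ι1 → ℕ} (hq : ∀ i, (q i).Prime) {a0 : ℤ}
    {ψ : ℤ → ℝ} {Wl : ℝ} (hWl : 1 ≤ Wl) (hψ : ∀ c : ℤ, LowE q a0 Wl (fun n => ψ (n - c)))
    (a : κ → ℤ) (T : Finset κ) : LowE q a0 (Wl ^ T.card) (PT ψ a T) := by
  have h := LowE.prod (a0 := a0) hq T (fun j n => ψ (n - a j)) (fun _ => Wl)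
    (fun _ _ => by linarith) (fun j _ => hψ (a j))
  rw [Finset.prod_const] at h
  exact h

theorem lv_I {q : ι1 → ℕ} {p : ι → ℕ} (hq : ∀ i, (q i).Prime) (hp : ∀ i, (p i).Prime) {a0 : ℤ}
    {ψ : ℤ → ℝ} {Wl : ℝ} (hWl : 1 ≤ Wl) (hψ : ∀ c : ℤ, LowE q a0 Wl (fun n => ψ (n - c)))
    (a : κ → ℤ) (S0 : Finset κ) (τ : (ι → Option κ) → Finset κ) (Z : (ι → Option κ) → ℝ)
    {D : ℝ} (hD : 1 ≤ D) {Nt : ℕ} (hZD : ∀ σ, Z σ ≠ 0 → PP p (supp σ) ≤ D)
    (hT : ∀ σ, Z σ ≠ 0 → (τ σ).card ≤ Nt) :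
    LowE (Sum.elim q p) a0 (Wl ^ S0.card * (D * Wl ^ Nt) ^ 2)
      (fun n => PT ψ a S0 n * GP p a ψ τ Z n ^ 2) := by
  classical
  have hqp : ∀ i, (Sum.elim q p i).Prime := by
    rintro (i | i)
    · exact hq i
    · exact hp i
  have hW0 : (0 : ℝ) ≤ Wl ^ Nt := pow_nonneg (by linarith) Nt
  have hW1 : (1 : ℝ) ≤ Wl ^ Nt := one_le_pow₀ hWl
  have hterm : ∀ σ ∈ (univ : Finset (ι → Option κ)), LowE (Sum.elim q p) a0 (D * Wl ^ Nt)
      (fun n => Z σ * (PT ψ a (τ σ) n * EE p a σ n)) := by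
    intro σ _
    by_cases hσ : Z σ = 0
    · have h1 : (fun n => Z σ * (PT ψ a (τ σ) n * EE p a σ n)) = fun _ => (0 : ℝ) := by
        funext n
        rw [hσ, zero_mul]
      rw [h1]
      refine (low_const hqp 0).mono ?_
      nlinarith
    · apply LowE.smul
      have h2 : LowE q a0 (Wl ^ Nt) (PT ψ a (τ σ)) :=
        (lvi_PT hq hWl hψ a (τ σ)).mono (pow_le_pow_right₀ hWl (hT σ hσ))
      have h3 : LowE p a0 D (EE p a σ) := (lvi_EE hp a σ).mono (hZD σ hσ)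
      have h4 := LowE.mul hqp hW0 (by linarith) (low_inl hp h2) (low_inr hq h3)
      rw [mul_comm D]
      exact h4
  have hG : LowE (Sum.elim q p) a0 (D * Wl ^ Nt) (GP p a ψ τ Z) :=
    LowE.sum univ (fun σ n => Z σ * (PT ψ a (τ σ) n * EE p a σ n)) hterm
  have h0 : (0 : ℝ) ≤ D * Wl ^ Nt := mul_nonneg (by linarith) hW0
  have h5 := LowE.mul hqp h0 h0 hG hG
  have hS : LowE (Sum.elim q p) a0 (Wl ^ S0.card) (PT ψ a S0) :=
    low_inl hp (lvi_PT hq hWl hψ a S0)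
  have h6 := LowE.mul hqp (pow_nonneg (by linarith) _) (mul_nonneg h0 h0) hS h5
  have h7 : (fun n => PT ψ a S0 n * GP p a ψ τ Z n ^ 2) =
      fun n => PT ψ a S0 n * (GP p a ψ τ Z n * GP p a ψ τ Z n) := by
    funext n
    rw [pow_two]
  rw [h7, pow_two]
  exact h6

end Pool.Agent.ISO
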