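import Pool.Agent.ISO.CoefI
import Pool.Agent.ISO.LvI
import Pool.Agent.AV.Dec
import Pool.Agent.AV.PrG
import Pool.Agent.AV.Uniq

/-!
ISO/E1I.  Weighted number of primes, errors explicit.
The proof of `e1g` (AV/E1G) with `coef_I`, `lv_I` instead of `coef`, `lv_G`; `dec` is applied to `MZ / Pi S0.card`.
-/

set_option autoImplicit false

open Finset Pool.Agent.RS Pool.Agent.AT Pool.Agent.VOID Pool.Agent.AV

namespace Pool.Agent.ISO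

variable {ι1 ι κ : Type} [Fintype ι1] [DecidableEq ι1] [Fintype ι] [DecidableEq ι] [DecidableEq κ]
  [Fintype κ]

open Classical in
theorem e1_I {q : ι1 → ℕ} {p : ι → ℕ} (hq : ∀ i, (q i).Prime) (hp : ∀ i, (p i).Prime)
    (hinj : Function.Injective (Sum.elim q p)) {P M r : ℕ} (hP : 2 ≤ P)
    (hqP : ∀ i, q i ≤ P) (hpP : ∀ i, p i ≤ P)
    {z : ℝ} (hz16 : 100 ≤ z) (hz : ∀ i, z ≤ (p i : ℝ) - 1) (a : κ → ℤ) (a0 : ℤ)
    (h0 : ∀ i j, ¬ (p i : ℤ) ∣ a j - a0) (hd : ∀ i j j', j ≠ j' → ¬ (p i : ℤ) ∣ a j - a j')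
    {ψ : ℤ → ℝ} (hψ0 : ∀ m, 0 ≤ ψ m) {Pi : ℕ → ℝ} {C : ℝ} {K : ℕ} (hsx : SX q a0 ψ Pi C K a)
    (hPi0 : ∀ r, 0 ≤ Pi r) (hPia : ∀ r s, r ≤ s → Pi s ≤ Pi r) (hC : 0 ≤ C)
    (hCq : ∀ i, C ≤ (q i : ℝ) ^ (1 / 4 : ℝ))
    (S0 : Finset κ) (τ : (ι → Option κ) → Finset κ) (Z : (ι → Option κ) → ℝ)
    (hZ1 : ∀ σ, |Z σ| ≤ 1) (hdj : ∀ σ, Z σ ≠ 0 → Disjoint S0 (τ σ)) {D : ℝ} (hD : 1 ≤ D)
    (hZD : ∀ σ, Z σ ≠ 0 → PP p (supp σ) ≤ D) {Nt N' : ℕ}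
    (hT : ∀ σ, Z σ ≠ 0 → (τ σ).card ≤ Nt) (hN : ∀ σ, Z σ ≠ 0 → (supp σ).card ≤ N')
    (hK : S0.card + 2 * Nt ≤ K) (hzN : (1 + 1 / z) ^ N' ≤ 3 / 2)
    (hA : offA κ p N' ≤ z ^ (1 / 4 : ℝ)) (hP0 : 0 < Pi S0.card)
    (hPZ : Pi S0.card ≤ MZ p (fun j => Pi (S0.card + j)) τ Z)
    {Wl : ℝ} (hWl : 1 ≤ Wl) (hψ : ∀ c : ℤ, LowE q a0 Wl (fun n => ψ (n - c)))
    {Gm : ℝ} (hG1 : ∀ n : ℤ, PT ψ a S0 n * GP p a ψ τ Z n ^ 2 ≤ Gm) {B DG : ℝ}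
    (hDG : DG = Wl ^ S0.card * (D * Wl ^ Nt) ^ 2)
    (hB : ∑ χ ∈ (univ : Finset (Fam (Sum.elim q p))).filter
        (fun χ => fsupp χ ≠ ∅ ∧ (fcd χ : ℝ) ≤ DG),
      (fcd χ : ℝ) ^ (-(3 / 4) : ℝ) *
        ‖∑ m ∈ (Ioc P (4 * P)).filter (fun m => m ≡ r [MOD M]),
          ((ArithmeticFunction.vonMangoldt m : ℝ) : ℂ) * fch χ m‖ ≤ B) :
    MZ p (fun j => Pi (S0.card + j)) τ Z / 3 * psi M r P -
        5 * MZ p (fun j => Pi (S0.card + j)) τ Z * B -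
        (20 * Gm + 200 * MZ p (fun j => Pi (S0.card + j)) τ Z * DG ^ 2) *
          (√P * Real.log (4 * P) ^ 2) ≤
      ∑ m ∈ (Ioc P (4 * P)).filter (fun m => m ≡ r [MOD M] ∧ m.Prime),
        Real.log m * (PT ψ a S0 ((m : ℤ) + a0) * GP p a ψ τ Z ((m : ℤ) + a0) ^ 2) := by
  have h3 : ∀ i, 3 ≤ p i := by
    intro i
    have h1 := hz i
    have h2 : (3 : ℝ) ≤ (p i : ℝ) := by linarith
    exact_mod_cast h2
  have hz0 : 0 < z := by linarith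
  obtain ⟨c, hexp, hbd, hre⟩ := coef_I hp h3 hz0 hz a a0 h0 hd hsx hPi0 hPia hC S0 τ Z hZ1 hdj hT hN hK hzN
  obtain ⟨c', hc0', hexp'⟩ := lv_I hq hp hWl hψ a S0 τ Z hD hZD hT
  set ZS : ℝ := MZ p (fun j => Pi (S0.card + j)) τ Z with hZS
  set P0 : ℝ := Pi S0.card with hP0d
  have hZ1' : 1 ≤ ZS / P0 := (one_le_div hP0).2 hPZ
  have hZS0 : 0 < ZS := lt_of_lt_of_le hP0 hPZ
  have hoff0 : 0 ≤ offA κ p N' := by
    unfold offA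
    apply mul_nonneg
    · positivity
    · apply prod_nonneg
      intro i _
      have h1 := hz i
      have h2 : (0 : ℝ) < (p i : ℝ) - 1 := by linarith
      positivity
  have hpr : ∀ i, (Sum.elim q p i).Prime := by
    rintro (i | i)
    · exact hq i
    · exact hp i
  have hcc : c = c' := by
    refine fam_unique hpr hinj c c' fun m hm => ?_
    rw [← hexp m hm, ← hexp' m hm]
  have hDG1 : (1 : ℝ) ≤ DG := by
    have h1 : (1 : ℝ) ≤ Wl ^ Nt := one_le_pow₀ hWl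
    have h2 : (1 : ℝ) ≤ D * Wl ^ Nt := by nlinarith
    have h4 : (1 : ℝ) ≤ Wl ^ S0.card := one_le_pow₀ hWl
    have h5 : (1 : ℝ) ≤ (D * Wl ^ Nt) ^ 2 := one_le_pow₀ h2
    rw [hDG]
    nlinarith
  have hdec : ∀ χ, ‖c χ‖ ≤ 5 * ZS * (fcd χ : ℝ) ^ (-(3 / 4) : ℝ) := by
    intro χ
    have h1 := mul_le_mul_of_nonneg_left (dec hq hp hz16 hz hC hCq hoff0 hA hZ1' χ) hP0.le
    refine (hbd χ).trans ((le_of_eq ?_).trans (h1.trans (le_of_eq ?_)))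
    · rw [mul_left_comm P0]
      congr 1
      split_ifs
      · field_simp
      · ring
    · field_simp
  have hoffz : offA κ p N' / z ≤ 1 / 12 := by
    rw [div_le_iff₀ hz0]
    refine hA.trans ?_
    have h1 : z = z ^ (1 / 4 : ℝ) * z ^ (3 / 4 : ℝ) := by
      rw [← Real.rpow_add hz0]
      norm_num
    have h2 : (12 : ℝ) ≤ z ^ (3 / 4 : ℝ) := by
      have h3 : (81 : ℝ) ^ (3 / 4 : ℝ) ≤ z ^ (3 / 4 : ℝ) :=
        Real.rpow_le_rpow (by norm_num) (by linarith) (by norm_num)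
      have h4 : (81 : ℝ) ^ (3 / 4 : ℝ) = 27 := by
        rw [show (81 : ℝ) = 3 ^ (4 : ℝ) by norm_num, ← Real.rpow_mul (by norm_num)]
        norm_num
      linarith
    have h5 : 0 < z ^ (1 / 4 : ℝ) := Real.rpow_pos_of_pos hz0 _
    calc z ^ (1 / 4 : ℝ) = 1 / 12 * (z ^ (1 / 4 : ℝ) * 12) := by ring
      _ ≤ 1 / 12 * (z ^ (1 / 4 : ℝ) * z ^ (3 / 4 : ℝ)) := by gcongr
      _ = 1 / 12 * z := by rw [← h1]
  have h1c : ZS / 3 ≤ (c (fun _ => 1)).re := by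
    refine le_trans ?_ hre
    have h1 : P0 * offA κ p N' / z = P0 * (offA κ p N' / z) := mul_div_assoc _ _ _
    have h2 : P0 * (offA κ p N' / z) ≤ P0 * (1 / 12) := mul_le_mul_of_nonneg_left hoffz hP0.le
    rw [h1]
    linarith
  have hPT : ∀ n : ℤ, 0 ≤ PT ψ a S0 n := fun n => prod_nonneg fun j _ => hψ0 _
  have hmain := prime_sumG (p := Sum.elim q p) hpr hinj (P := P) (M := M) (r := r) hP
    (by
      rintro (i | i)
      · exact hqP i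
      · exact hpP i)
    (G := fun n => PT ψ a S0 n * GP p a ψ τ Z n ^ 2) (a0 := a0)
    (fun m _ => mul_nonneg (hPT _) (sq_nonneg _))
    (fun m _ => hG1 _) hDG1 (A := 5 * ZS) (by positivity) c hexp
    (fun χ hχ => by rw [hcc]; exact hc0' χ (by rw [← hDG]; exact hχ)) hdec h1c hB
  refine le_trans (le_of_eq ?_) hmain
  ring

end Pool.Agent.ISO
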