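import Pool.Agent.ISO.Defs
import Pool.Agent.IPT.Split
import Pool.Agent.IPT.Collapse
import Pool.Agent.IPT.Ident

/-!
ISO/IdI.  Collapse of the weight at a site where `n` has no large prime factor, as in IPT/Ident.
-/

set_option autoImplicit false

open Finset Pool.Agent.RS Pool.Agent.VOID Pool.Agent.IPT

namespace Pool.Agent.ISO

variable {ι α β : Type} [Fintype ι] [DecidableEq ι] [DecidableEq α] [DecidableEq β] [Fintype α]
  [Fintype β]

private theorem idn_put {κ : Type} [DecidableEq κ] [Fintype κ] (p : ι → ℕ) (y : Finset ι → ℝ)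
    (hy0 : y ∅ = 1) (D : ℝ) {τ : ι → Option κ} {j : κ} (h0 : cell τ j = ∅) {S : Finset ι}
    (hS : S ∈ (univ \ supp τ).powerset) :
    Yd p y D (put τ S j) =
      open Classical in if PP p S * PP p (supp τ) ≤ D then y S * Yt y τ else 0 := by
  unfold Yd
  rw [PP_supp_split p (put τ S j) j, Yt_split y hy0 (put τ S j) j, cell_put_self h0, era_put h0 hS]

private theorem idn_sum {κ : Type} [DecidableEq κ] [Fintype κ] (p : ι → ℕ) (y : Finset ι → ℝ)
    (hy0 : y ∅ = 1) (D : ℝ) {τ : ι → Option κ} {j : κ} (h0 : cell τ j = ∅) {U : Finset ι}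
    (hU : supp τ ⊆ U) (C : ℝ) :
    ∑ S ∈ (univ \ U).powerset, Yd p y D (put τ S j) * C / PH p S =
      Yt y τ * cg p y D (PP p (supp τ)) U * C := by
  unfold cg
  rw [mul_sum, sum_mul]
  refine sum_congr rfl fun S hS => ?_
  have hS' : S ∈ (univ \ supp τ).powerset := by
    rw [mem_powerset] at hS ⊢
    exact hS.trans (sdiff_subset_sdiff (Finset.Subset.refl _) hU)
  rw [idn_put p y hy0 D h0 hS']
  split_ifs
  · ring
  · ring

private theorem idn_cell {κ : Type} [DecidableEq κ] (τ : ι → Option κ) {S : Finset ι}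
    (hS : ∀ i ∈ S, τ i = none) {j j' : κ} (hj : j' ≠ j) : cell (put τ S j) j' = cell τ j' := by
  ext i
  rw [mem_cell, mem_cell]
  unfold put
  by_cases h : i ∈ S
  · rw [if_pos h, hS i h]
    constructor
    · intro h1
      exact absurd (Option.some.inj h1).symm hj
    · intro h1
      exact absurd h1 (by simp)
  · rw [if_neg h]

private theorem idn_none (σ : ι → Option (α ⊕ β)) {S : Finset ι}
    (hS : S ∈ (univ \ supp σ).powerset) : ∀ i ∈ S, σ i = none := by
  intro i h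
  have h2 := (Finset.mem_sdiff.1 (Finset.mem_powerset.1 hS h)).2
  rw [mem_supp] at h2
  exact not_not.1 h2

private theorem idn_PT (a : α ⊕ β → ℤ) (ψ : ℤ → ℝ) (j : α) (n : ℤ)
    (hψ : ψ (n - a (Sum.inl j)) = 1) (σ : ι → Option (α ⊕ β)) {S : Finset ι}
    (hS : S ∈ (univ \ supp σ).powerset) :
    PT ψ a (tL (put σ S (Sum.inl j))) n = PT ψ a (tL σ) n := by
  have h1 : (tL (put σ S (Sum.inl j))).erase (Sum.inl j) = (tL σ).erase (Sum.inl j) := by
    ext x
    rw [mem_erase, mem_erase]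
    refine and_congr_right fun hx => ?_
    cases x with
    | inr b => exact iff_of_false (inr_tL _ b) (inr_tL _ b)
    | inl j' =>
      have hj : j' ≠ j := fun h => hx (by rw [h])
      rw [inl_tL, inl_tL, lp_put_inl, idn_cell (lp σ) ?_ hj]
      intro i hi
      have h2 := idn_none σ hS i hi
      simp [Pool.Agent.IPT.lp, h2]
  unfold PT
  rw [← Finset.prod_erase (tL (put σ S (Sum.inl j))) hψ, ← Finset.prod_erase (tL σ) hψ, h1]

private theorem idn_GP (p : ι → ℕ) (a : α ⊕ β → ℤ) (ψ : ℤ → ℝ) (Z : (ι → Option (α ⊕ β)) → ℝ)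
    (n : ℤ) : GP p a ψ tL Z n = ∑ σ, (Z σ * PT ψ a (tL σ) n) * EE p a σ n := by
  unfold GP
  exact sum_congr rfl fun σ _ => by ring

theorem id_AI {p : ι → ℕ} (hp : ∀ i, 2 ≤ p i) (a : α ⊕ β → ℤ) (ψ : ℤ → ℝ) (yR yH : Finset ι → ℝ)
    (hR0 : yR ∅ = 1) (DR DH : ℝ) (j : α) (n : ℤ) (hn : ∀ i, ¬ (p i : ℤ) ∣ n - a (Sum.inl j))
    (hψ : ψ (n - a (Sum.inl j)) = 1) :
    GP p a ψ tL (Y2 p yR yH DR DH) n = GP p a ψ tL (ZA p yR yH DR DH j) n := by
  rw [idn_GP, idn_GP, collapse hp a (fun σ => Y2 p yR yH DR DH σ * PT ψ a (tL σ) n)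
    (Sum.inl j) n hn]
  refine sum_congr rfl fun σ _ => ?_
  unfold ZA
  by_cases h : cell σ (Sum.inl j) = ∅
  · rw [if_pos h, if_pos h]
    have h0 : cell (lp σ) j = ∅ := by rw [← cell_inl, h]
    have hU : supp (lp σ) ⊆ supp σ := by
      rw [supp_split σ]
      exact subset_union_left
    refine congrArg (fun z => z * EE p a σ n) ?_
    rw [← idn_sum p yR hR0 DR h0 hU (Yd p yH DH (rp σ)), sum_mul]
    refine sum_congr rfl fun S hS => ?_
    rw [idn_PT a ψ j n hψ σ hS]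
    unfold Y2
    rw [lp_put_inl, rp_put_inl σ j hS]
    ring
  · rw [if_neg h, if_neg h, zero_mul, zero_mul, zero_mul]

theorem id_BI {p : ι → ℕ} (hp : ∀ i, 2 ≤ p i) (a : α ⊕ β → ℤ) (ψ : ℤ → ℝ) (yR yH : Finset ι → ℝ)
    (hH0 : yH ∅ = 1) (DR DH : ℝ) (m : β) (n : ℤ) (hn : ∀ i, ¬ (p i : ℤ) ∣ n - a (Sum.inr m)) :
    GP p a ψ tL (Y2 p yR yH DR DH) n = GP p a ψ tL (ZB p yR yH DR DH m) n := by
  rw [idn_GP, idn_GP, collapse hp a (fun σ => Y2 p yR yH DR DH σ * PT ψ a (tL σ) n)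
    (Sum.inr m) n hn]
  refine sum_congr rfl fun σ _ => ?_
  unfold ZB
  by_cases h : cell σ (Sum.inr m) = ∅
  · rw [if_pos h, if_pos h]
    have h0 : cell (rp σ) m = ∅ := by rw [← cell_inr, h]
    have hU : supp (rp σ) ⊆ supp σ := by
      rw [supp_split σ]
      exact subset_union_right
    refine congrArg (fun z => z * EE p a σ n) ?_
    rw [mul_comm (Yd p yR DR (lp σ)), ← idn_sum p yH hH0 DH h0 hU (Yd p yR DR (lp σ)), sum_mul]
    refine sum_congr rfl fun S hS => ?_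
    have h1 : tL (put σ S (Sum.inr m)) = tL σ := by
      unfold tL
      rw [lp_put_inr σ m hS]
    rw [h1]
    unfold Y2
    rw [rp_put_inr, lp_put_inr σ m hS]
    ring
  · rw [if_neg h, if_neg h, zero_mul, zero_mul, zero_mul]

end Pool.Agent.ISO
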