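import Pool.Agent.AV.Cc
import Pool.Agent.AV.PyF

/-!
ISO/PsyInt.  The values of the small sieve are natural numbers.
Products of binomial coefficients.
-/

set_option autoImplicit false

open Finset Pool.Agent.RS Pool.Agent.AT Pool.Agent.VOID Pool.Agent.AV

namespace Pool.Agent.ISO

private theorem bf_nat (r ω : ℕ) : ∃ k : ℕ, bf r ω = (k : ℝ) := by
  unfold bf
  by_cases h : ω = 0
  · rw [if_pos h]
    exact ⟨1, Nat.cast_one.symm⟩
  · rw [if_neg h]
    exact ⟨_, rfl⟩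

private theorem psy_nat (L m1 r : ℕ) (m : ℤ) : ∃ k : ℕ, psy L m1 r m = (k : ℝ) := by
  have h : ∀ i : ℕ, ∃ k : ℕ, psiB (Bk L m1 ∅ i) (r + i) m = (k : ℝ) := fun i => bf_nat _ _
  choose k hk using h
  refine ⟨∏ i ∈ range (Nat.log 2 m1), k i, ?_⟩
  unfold psy psiV
  rw [Nat.cast_prod]
  exact Finset.prod_congr rfl fun i _ => hk i

theorem psy_nn (L m1 r : ℕ) (m : ℤ) : 0 ≤ psy L m1 r m := by
  obtain ⟨k, hk⟩ := psy_nat L m1 r m
  rw [hk]
  exact Nat.cast_nonneg k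

theorem psy_int (L m1 r : ℕ) (m : ℤ) : psy L m1 r m = 0 ∨ 1 ≤ psy L m1 r m := by
  obtain ⟨k, hk⟩ := psy_nat L m1 r m
  rw [hk]
  rcases Nat.eq_zero_or_pos k with h | h
  · left
    rw [h, Nat.cast_zero]
  · right
    exact_mod_cast h

theorem psy_prime {L m1 r n : ℕ} (hn : n.Prime) (h : 2 ^ m1 < n) : psy L m1 r (n : ℤ) = 1 := by
  unfold psy
  apply psiV_one
  intro i _ q hq hd
  have h1 := bk_mem hq
  have h2 : q ∣ n := by exact_mod_cast hd
  have h3 := (Nat.prime_dvd_prime_iff_eq h1.1 hn).1 h2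
  have h4 := h1.2.2.1
  omega

end Pool.Agent.ISO
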