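import Pool.Agent.ISO.Defs
import Pool.Agent.IPT.Reidx

/-!
ISO/ReI.  Removal of a site with an empty cell.
-/

set_option autoImplicit false

open Finset Pool.Agent.RS Pool.Agent.VOID Pool.Agent.IPT

namespace Pool.Agent.ISO

variable {ι κ : Type} [Fintype ι] [DecidableEq ι] [DecidableEq κ]

/-- the family of sets on the sites different from `m` -/
def tu (m : κ) (τ : (ι → Option κ) → Finset κ) :
    (ι → Option {x : κ // x ≠ m}) → Finset {x : κ // x ≠ m} :=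
  fun σ => (τ (up m σ)).subtype (fun x => x ≠ m)

omit [Fintype ι] [DecidableEq ι] in
theorem card_sub {m : κ} {S : Finset κ} (hm : m ∉ S) :
    (S.subtype (fun x => x ≠ m)).card = S.card := by
  rw [Finset.card_subtype, Finset.filter_true_of_mem]
  intro x hx e
  exact hm (e ▸ hx)

omit [Fintype ι] [DecidableEq ι] in
theorem card_sub' {m : κ} {S : Finset κ} (hm : m ∈ S) :
    (S.subtype (fun x => x ≠ m)).card + 1 = S.card := by
  rw [Finset.card_subtype, Finset.filter_ne', Finset.card_erase_add_one hm]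

omit [Fintype ι] [DecidableEq ι] in
theorem PT_sub (ψ : ℤ → ℝ) (a : κ → ℤ) {m : κ} {S : Finset κ} (hm : m ∉ S) (n : ℤ) :
    PT ψ a S n = PT ψ (fun x : {x : κ // x ≠ m} => a x.1) (S.subtype (fun x => x ≠ m)) n := by
  have h : ∀ x ∈ S, x ≠ m := by
    intro x hx e
    rw [e] at hx
    exact hm hx
  unfold PT
  exact (Finset.prod_subtype_of_mem (fun j => ψ (n - a j)) h).symm

omit [Fintype ι] [DecidableEq ι] in
theorem PT_sub' (ψ : ℤ → ℝ) (a : κ → ℤ) {m : κ} {S : Finset κ} (hm : m ∈ S) (n : ℤ) :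
    PT ψ a S n =
      ψ (n - a m) * PT ψ (fun x : {x : κ // x ≠ m} => a x.1) (S.subtype (fun x => x ≠ m)) n := by
  unfold PT
  rw [Finset.prod_subtype_eq_prod_filter (fun j => ψ (n - a j)), Finset.filter_ne',
    Finset.mul_prod_erase S (fun j => ψ (n - a j)) hm]

variable [Fintype κ]

theorem GP_up (p : ι → ℕ) (a : κ → ℤ) (ψ : ℤ → ℝ) (τ : (ι → Option κ) → Finset κ)
    (Z : (ι → Option κ) → ℝ) (m : κ) (hZ : ∀ σ, cell σ m ≠ ∅ → Z σ = 0) (hτ : ∀ σ, m ∉ τ σ)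
    (n : ℤ) :
    GP p a ψ τ Z n =
      GP p (fun x : {x : κ // x ≠ m} => a x.1) ψ (tu m τ) (fun σ => Z (up m σ)) n := by
  unfold GP
  rw [reidx m (fun σ => Z σ * (PT ψ a (τ σ) n * EE p a σ n))
    (fun σ hσ => by rw [hZ σ hσ, zero_mul])]
  refine Finset.sum_congr rfl fun σ _ => ?_
  rw [PT_sub ψ a (hτ (up m σ)) n, EE_up]
  rfl

theorem MZ_up (p : ι → ℕ) (W : ℕ → ℝ) (τ : (ι → Option κ) → Finset κ)
    (Z : (ι → Option κ) → ℝ) (m : κ) (hZ : ∀ σ, cell σ m ≠ ∅ → Z σ = 0) (hτ : ∀ σ, m ∉ τ σ) :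
    MZ p W τ Z = MZ p W (tu m τ) (fun σ => Z (up m σ)) := by
  unfold MZ
  rw [reidx m (fun σ => Z σ ^ 2 / PH p (supp σ) * W (τ σ).card)
    (fun σ hσ => by rw [hZ σ hσ, zero_pow two_ne_zero, zero_div, zero_mul])]
  refine Finset.sum_congr rfl fun σ _ => ?_
  rw [supp_up, ← card_sub (hτ (up m σ))]
  rfl

end Pool.Agent.ISO
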