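import Pool.Agent.ISO.SdJ
import Pool.Agent.ISO.SsI
import Pool.Agent.ISO.TrF
import Pool.Agent.ISO.IdI
import Pool.Agent.ISO.ReI
import Pool.Agent.ISO.E1I
import Pool.Agent.ISO.PsyInt
import Pool.Agent.AT.BV

/-! ISO/Ei1.  The weighted number of primes `n + t i` (as `ev1` in AV/EV1). -/

set_option autoImplicit false

open Finset Pool.Agent.RS Pool.Agent.AT Pool.Agent.VOID Pool.Agent.AV Pool.Agent.IPT

namespace Pool.Agent.ISO

private theorem ei1_pow {L : ℕ} (hL : 1 ≤ L) :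
    (L : ℝ) ^ 3 * ((L : ℝ) ^ 6) ^ (-(3 / 4) : ℝ) = 1 / ((L : ℝ) * √(L : ℝ)) := by
  have hL0 : (0 : ℝ) < L := by exact_mod_cast hL
  have h1 : (L : ℝ) ^ 3 = (L : ℝ) ^ (3 : ℝ) := by
    rw [← Real.rpow_natCast]; norm_num
  have h2 : ((L : ℝ) ^ 6) ^ (-(3 / 4) : ℝ) = (L : ℝ) ^ (-(9 / 2) : ℝ) := by
    rw [← Real.rpow_natCast, ← Real.rpow_mul hL0.le]
    norm_num
  have h3 : 1 / ((L : ℝ) * √(L : ℝ)) = (L : ℝ) ^ (-(3 / 2) : ℝ) := by
    rw [Real.rpow_neg hL0.le, one_div, Real.sqrt_eq_rpow]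
    congr 1
    rw [show (3 / 2 : ℝ) = 1 + 1 / 2 by norm_num, Real.rpow_add hL0, Real.rpow_one]
  rw [h1, h2, h3, ← Real.rpow_add hL0]
  norm_num

private theorem ei1_CK {K K' : ℕ} (h : K ≤ K') : CK K ≤ CK K' := by
  have h1 : (K : ℝ) ≤ K' := by exact_mod_cast h
  unfold CK
  have h2 : Real.exp (128 * (K : ℝ)) ≤ Real.exp (128 * (K' : ℝ)) :=
    Real.exp_le_exp.2 (by linarith)
  have h3 : 0 ≤ Real.exp (128 * (K : ℝ)) := (Real.exp_pos _).le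
  have h4 : (0 : ℝ) ≤ K := Nat.cast_nonneg K
  exact mul_le_mul (by linarith) h2 h3 (by linarith)

private theorem ei1_CK0 (K : ℕ) : 0 ≤ CK K := by
  unfold CK
  positivity

private theorem ei1_blk {L m1 i q : ℕ} (h : q ∈ Bk L m1 ∅ i) : q ≤ 2 ^ (m1 / 2 ^ i) := by
  unfold Bk at h
  rw [Finset.mem_filter, Helper52.mem_pr] at h
  exact h.1.2.1

private theorem ei1_RR (G r : ℕ) : 1 ≤ RR G r := by
  unfold RR
  exact Nat.succ_le_of_lt (by positivity)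

/-- errors -/
private theorem ei1_err1 {C X lP : ℝ} {L : ℕ} (hC : 0 < C) (hX : 0 ≤ X) (hL : 1 ≤ L)
    (hlP0 : 0 ≤ lP) (hlP : lP ≤ L) (hL2 : (10 * C) ^ 2 ≤ L) :
    5 * (C * X * lP ^ 3 * ((L : ℝ) ^ 6) ^ (-(3 / 4) : ℝ)) ≤ X / (2 * L) := by
  have hL0 : (0 : ℝ) < L := by exact_mod_cast hL
  have h1 : lP ^ 3 ≤ (L : ℝ) ^ 3 := pow_le_pow_left₀ hlP0 hlP 3
  have h2 : (0 : ℝ) ≤ ((L : ℝ) ^ 6) ^ (-(3 / 4) : ℝ) := by positivity
  have h4 : 10 * C ≤ √(L : ℝ) := Real.le_sqrt_of_sq_le hL2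
  have hs0 : 0 < √(L : ℝ) := Real.sqrt_pos.2 hL0
  calc 5 * (C * X * lP ^ 3 * ((L : ℝ) ^ 6) ^ (-(3 / 4) : ℝ))
      ≤ 5 * (C * X * (L : ℝ) ^ 3 * ((L : ℝ) ^ 6) ^ (-(3 / 4) : ℝ)) := by
        gcongr
    _ = 5 * (C * X) * ((L : ℝ) ^ 3 * ((L : ℝ) ^ 6) ^ (-(3 / 4) : ℝ)) := by ring
    _ = 5 * (C * X) * (1 / ((L : ℝ) * √(L : ℝ))) := by rw [ei1_pow hL]
    _ = X / (2 * L) * (10 * C / √(L : ℝ)) := by
        field_simp
        ring
    _ ≤ X / (2 * L) * 1 := by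
        refine mul_le_mul_of_nonneg_left ?_ (by positivity)
        rw [div_le_one hs0]
        exact h4
    _ = _ := mul_one _

private theorem ei1_err2 {L : ℕ} {X Gm W4 sP lP Z : ℝ} (hL : 10 ^ 6 ≤ L)
    (hZ : 1 ≤ 2 ^ (L / 100) * Z) (hZ0 : 0 ≤ Z) (hGm0 : 0 ≤ Gm) (hGm : Gm ≤ 2 ^ (L / 100))
    (hW4 : W4 ≤ 2 ^ (L / 100)) (hs0 : 0 ≤ sP) (hsP : sP ≤ 2 ^ (5 * (L / 10) + 5))
    (hl0 : 0 ≤ lP) (hlP : lP ≤ L) (hX : (2 : ℝ) ^ (9 * (L / 10)) ≤ X)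
    (hw : 10000 * (L : ℝ) ^ 4 * 2 ^ (L / 100) * 2 ^ (L / 100) * 2 ^ (5 * (L / 10) + 5) ≤
      2 ^ (9 * (L / 10))) :
    (20 * Gm + 200 * Z * W4) * (sP * lP ^ 2) ≤ Z * (X / (2 * L)) := by
  have hLr : (10 : ℝ) ^ 6 ≤ L := by exact_mod_cast hL
  have hL0 : (0 : ℝ) < L := lt_of_lt_of_le (by norm_num) hLr
  set E : ℝ := 2 ^ (L / 100) with hE
  set S : ℝ := 2 ^ (5 * (L / 10) + 5) with hS
  have hE1 : 1 ≤ E := one_le_pow₀ (by norm_num)
  have hS0 : 0 < S := by positivity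
  have h1 : 20 * Gm + 200 * Z * W4 ≤ Z * (220 * (E * E)) := by
    have h2 : 20 * Gm ≤ 20 * (E * (E * Z)) := by nlinarith
    have h3 : 200 * Z * W4 ≤ 200 * Z * E := mul_le_mul_of_nonneg_left hW4 (by positivity)
    have h4 : 200 * Z * E ≤ 200 * Z * (E * E) :=
      mul_le_mul_of_nonneg_left (by nlinarith) (by positivity)
    nlinarith
  have h2 : sP * lP ^ 2 ≤ S * (L : ℝ) ^ 2 :=
    mul_le_mul hsP (pow_le_pow_left₀ hl0 hlP 2) (by positivity) hS0.le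
  have h3 : 220 * (E * E) * (S * (L : ℝ) ^ 2) ≤ X / (2 * L) := by
    rw [le_div_iff₀ (by positivity)]
    refine le_trans ?_ (hw.trans hX)
    have h4 : 220 * (E * E) * (S * (L : ℝ) ^ 2) * (2 * L) = (440 * (L : ℝ) ^ 3) * (E * E * S) := by ring
    have h5 : 10000 * (L : ℝ) ^ 4 * E * E * S = (10000 * (L : ℝ) ^ 4) * (E * E * S) := by ring
    rw [h4, h5]
    refine mul_le_mul_of_nonneg_right ?_ (by positivity)
    have h6 : (L : ℝ) ^ 3 ≤ (L : ℝ) ^ 4 := pow_le_pow_right₀ (by linarith) (by norm_num)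
    have h8 : 0 ≤ (L : ℝ) ^ 3 := by positivity
    nlinarith
  have h9 : 0 ≤ sP * lP ^ 2 := by positivity
  calc (20 * Gm + 200 * Z * W4) * (sP * lP ^ 2) ≤ Z * (220 * (E * E)) * (S * (L : ℝ) ^ 2) :=
        mul_le_mul h1 h2 h9 (by positivity)
    _ = Z * (220 * (E * E) * (S * (L : ℝ) ^ 2)) := by ring
    _ ≤ Z * (X / (2 * L)) := mul_le_mul_of_nonneg_left h3 hZ0

private theorem ei1_gm {W D : ℝ} (hW : 1 ≤ W) {a b n m N : ℕ} (hab : a ≤ b) (hnm : n ≤ m) :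
    W ^ a * (2 * D ^ 2 * (3 ^ n * W ^ N)) ^ 2 ≤ W ^ b * (2 * D ^ 2 * (3 ^ m * W ^ N)) ^ 2 := by
  have hW0 : 0 ≤ W := by linarith
  refine mul_le_mul (pow_le_pow_right₀ hW hab) (pow_le_pow_left₀ (by positivity) ?_ 2)
    (sq_nonneg _) (by positivity)
  refine mul_le_mul_of_nonneg_left (mul_le_mul_of_nonneg_right ?_ (by positivity)) (by positivity)
  exact pow_le_pow_right₀ (by norm_num) hnm

private theorem ei1_MZ {ι κ : Type} [Fintype ι] [DecidableEq ι] [DecidableEq κ] [Fintype κ] (p : ι → ℕ)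
    (W : ℕ → ℝ) (τ : (ι → Option κ) → Finset κ) (Z : (ι → Option κ) → ℝ) {c : ℝ} (hc : c ≠ 0) :
    c ^ 2 * MZ p W τ (fun σ => Z σ / c) = MZ p W τ Z := by
  unfold MZ
  rw [Finset.mul_sum]
  refine Finset.sum_congr rfl fun σ _ => ?_
  field_simp

private theorem ei1_GP {ι κ : Type} [Fintype ι] [DecidableEq ι] [DecidableEq κ] [Fintype κ] (p : ι → ℕ)
    (a : κ → ℤ) (ψ : ℤ → ℝ) (τ : (ι → Option κ) → Finset κ) (Z : (ι → Option κ) → ℝ) {c : ℝ} (hc : c ≠ 0)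
    (n : ℤ) : c * GP p a ψ τ (fun σ => Z σ / c) n = GP p a ψ τ Z n := by
  unfold GP
  rw [Finset.mul_sum]
  refine Finset.sum_congr rfl fun σ _ => ?_
  field_simp

/-- the last step -/
private theorem ei1_sums {P H M b j : ℕ} (hj : j < H) (hHP : H ≤ P) (_hP0 : 0 < P)
    (hlog4 : Real.log (4 * P) ≤ 2 * Real.log P) (F : ℤ → ℝ) (hF : ∀ n, 0 ≤ F n) :
    ∑ m ∈ (Ioc P (4 * P)).filter (fun m => m ≡ b + j [MOD M] ∧ m.Prime),
        Real.log m * F ((m : ℤ) + (-(j : ℤ))) ≤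
      2 * Real.log P * ∑ n ∈ (Nw P H M b).filter (fun n => (n + j).Prime), F (n : ℤ) := by
  classical
  have hmj : ∀ m ∈ (Ioc P (4 * P)).filter (fun m => m ≡ b + j [MOD M] ∧ m.Prime), j ≤ m := by
    intro m hm
    have := (mem_Ioc.1 (mem_filter.1 hm).1).1
    omega
  rw [Finset.mul_sum]
  calc ∑ m ∈ (Ioc P (4 * P)).filter (fun m => m ≡ b + j [MOD M] ∧ m.Prime),
      Real.log m * F ((m : ℤ) + (-(j : ℤ)))
      ≤ ∑ m ∈ (Ioc P (4 * P)).filter (fun m => m ≡ b + j [MOD M] ∧ m.Prime),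
        2 * Real.log P * F (((m - j : ℕ) : ℕ) : ℤ) := by
        refine Finset.sum_le_sum fun m hm => ?_
        have h1 := mem_Ioc.1 (mem_filter.1 hm).1
        have h2 : ((m : ℤ) + (-(j : ℤ))) = ((m - j : ℕ) : ℤ) := by
          rw [Nat.cast_sub (hmj m hm)]; ring
        rw [h2]
        have h4 : Real.log m ≤ 2 * Real.log P := by
          refine le_trans (Real.log_le_log ?_ ?_) hlog4
          · have : 0 < m := by omega
            exact_mod_cast this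
          · exact_mod_cast h1.2
        exact mul_le_mul_of_nonneg_right h4 (hF _)
    _ = ∑ n ∈ ((Ioc P (4 * P)).filter (fun m => m ≡ b + j [MOD M] ∧ m.Prime)).image
          (fun m => m - j), 2 * Real.log P * F (n : ℤ) := by
        rw [Finset.sum_image]
        intro m hm m' hm' h
        have h1 := hmj m hm
        have h2 := hmj m' hm'
        simp only at h
        omega
    _ ≤ ∑ n ∈ (Nw P H M b).filter (fun n => (n + j).Prime),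
          2 * Real.log P * F (n : ℤ) := by
        refine Finset.sum_le_sum_of_subset_of_nonneg ?_ ?_
        · intro n hn
          obtain ⟨m, hm, rfl⟩ := mem_image.1 hn
          have h1 := mem_Ioc.1 (mem_filter.1 hm).1
          have h2 := (mem_filter.1 hm).2
          have h4 := hmj m hm
          have h5 : m - j + j = m := Nat.sub_add_cancel h4
          rw [mem_filter, h5]
          refine ⟨?_, h2.2⟩
          unfold Nw
          rw [mem_filter, mem_Ioc]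
          refine ⟨⟨by omega, by omega⟩, ?_⟩
          have h6 : m - j + j ≡ b + j [MOD M] := by rw [h5]; exact h2.1
          exact Nat.ModEq.add_right_cancel' j h6
        · intro n _ _
          have : 0 ≤ Real.log P := Real.log_natCast_nonneg P
          exact mul_nonneg (mul_nonneg zero_le_two this) (hF _)

theorem ei1 : ∃ L0 : ℕ, ∀ (CV0 CV : ℝ) (G r k G' t0 P L M H : ℕ) (R : Finset ℕ) (t : Fin k → ℕ)
    (g s m1 d N : ℕ), SI CV0 CV G r k G' t0 P L M H R t g s m1 d N → L0 ≤ L →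
    ∀ (b : ℕ) (i : Fin k), Nat.Coprime (b + t i) M →
    1 / 3 * QI L m1 s d R t0 G' i * psi M (b + t i) P -
        QI L m1 s d R t0 G' i * ((P : ℝ) / M) / L ≤
      2 * Real.log P * ∑ n ∈ (Nw P H M b).filter (fun n => (n + t i).Prime),
        wI L m1 s d r R t t0 G' (n : ℤ) := by
  classical
  obtain ⟨C, hC, P1, hbv⟩ := bv
  obtain ⟨L2, hL2⟩ := exists_nat_ge ((10 * C) ^ 2)
  refine ⟨max P1 L2, ?_⟩
  intro CV0 CV G r k G' t0 P L M H R t g s m1 d N si hL0 b i hcop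
  have sd := si.sd
  have pi := si.pi
  have pb := sd.pb
  have pl := pb.pl
  have hL6 : 10 ^ 6 ≤ L := pb.big
  obtain ⟨hX9, hsP, hlP4, hLP, hHP, hX1, -⟩ := sz sd.hL hL6 sd.hM0 sd.hMP sd.hH
  have hLr : (10 : ℝ) ^ 6 ≤ L := by exact_mod_cast hL6
  have hLpos : (0 : ℝ) < L := lt_of_lt_of_le (by norm_num) hLr
  have hLltP : L < P := lt_of_lt_of_le (Nat.lt_two_pow_self) hLP
  have hPP1 : P1 ≤ P := le_trans (le_trans (le_max_left _ _) hL0) hLltP.le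
  have hLL2 : (10 * C) ^ 2 ≤ L := hL2.trans (by exact_mod_cast le_trans (le_max_right _ _) hL0)
  have hP2 : 2 ≤ P := by omega
  have hPr0 : (0 : ℝ) < P := by exact_mod_cast (by omega : 0 < P)
  have hP4 : (4 : ℝ) ≤ P := by exact_mod_cast (by omega : 4 ≤ P)
  have hM0 : (0 : ℝ) < M := by exact_mod_cast sd.hM0
  have hmL : m1 ≤ L := by
    have h1 := pl.m_le_s
    have h2 := pb.s_le
    have h3 : dd L ≤ L := Nat.div_le_self _ _
    omega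
  -- the primes
  have hp : ∀ i : Iy L m1, (py L m1 i).Prime := fun i => (py_mem i).1
  have hq : ∀ i : I1 (Bk L m1 ∅) (Nat.log 2 m1), (p1 (Bk L m1 ∅) (Nat.log 2 m1) i).Prime :=
    fun x => (bk_mem x.2.2).1
  have hq6 : ∀ i : I1 (Bk L m1 ∅) (Nat.log 2 m1), L ^ 6 < p1 (Bk L m1 ∅) (Nat.log 2 m1) i :=
    fun x => (bk_mem x.2.2).2.1
  have hqP : ∀ i : I1 (Bk L m1 ∅) (Nat.log 2 m1), p1 (Bk L m1 ∅) (Nat.log 2 m1) i ≤ P := fun x =>
    le_trans (bk_mem x.2.2).2.2.1 (le_trans (Nat.pow_le_pow_right (by norm_num) hmL) hLP)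
  have hpL : ∀ i : Iy L m1, py L m1 i ≤ 2 ^ L := fun i =>
    le_trans (py_mem i).2.2.1 (Nat.pow_le_pow_right (by norm_num) (Nat.div_le_self _ _))
  have hpP : ∀ i : Iy L m1, py L m1 i ≤ P := fun i => (hpL i).trans hLP
  have hL62 : (L : ℝ) ^ 6 ≤ (2 : ℝ) ^ m1 := by exact_mod_cast pl.L6
  have hLL6 : (L : ℝ) ≤ (L : ℝ) ^ 6 := by
    calc (L : ℝ) = (L : ℝ) ^ 1 := (pow_one _).symm
      _ ≤ (L : ℝ) ^ 6 := pow_le_pow_right₀ (by linarith) (by norm_num)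
  have hz100 : (100 : ℝ) ≤ (2 : ℝ) ^ m1 := by linarith
  have hz : ∀ i : Iy L m1, (2 : ℝ) ^ m1 ≤ (py L m1 i : ℝ) - 1 := by
    intro i
    have h1 : 2 ^ m1 + 1 ≤ py L m1 i := (py_mem i).2.1
    have h2 : ((2 ^ m1 + 1 : ℕ) : ℝ) ≤ (py L m1 i : ℝ) := by exact_mod_cast h1
    push_cast at h2
    linarith
  -- the sites
  obtain ⟨mm, hmm⟩ : ∃ m : {j : ℕ // j ∈ R} ⊕ Fin k, m = Sum.inr i := ⟨_, rfl⟩
  obtain ⟨haa, hai⟩ := si_a si
  obtain ⟨a', ha'⟩ : ∃ a' : {x : {j : ℕ // j ∈ R} ⊕ Fin k // x ≠ mm} → ℤ, a' = fun x => a2 R t x.1 := ⟨_, rfl⟩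
  have ha'L : ∀ j, |a' j| < (L : ℤ) ^ 2 := fun j => by rw [ha']; exact haa j.1
  have ha'i : Function.Injective a' := fun x y h => by
    rw [ha'] at h
    exact Subtype.ext (hai h)
  have ha0 : a2 R t mm = -(t i : ℤ) := by rw [hmm]; rfl
  have hj2 : |(-(t i : ℤ))| < (L : ℤ) ^ 2 := by rw [← ha0]; exact haa mm
  have hne : ∀ x, a' x ≠ -(t i : ℤ) := by
    intro x h
    rw [← ha0, ha'] at h
    exact x.2 (hai h)
  have h0 : ∀ (i' : Iy L m1) (x), ¬ (py L m1 i' : ℤ) ∣ a' x - (-(t i : ℤ)) :=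
    fun i' x => no_dvd (by omega) (py_mem i').2.2.2 (ha'L x) hj2 (hne x)
  have hd : ∀ (i' : Iy L m1) (x x'), x ≠ x' → ¬ (py L m1 i' : ℤ) ∣ a' x - a' x' :=
    fun i' x x' hxx => no_dvd (by omega) (py_mem i').2.2.2 (ha'L x) (ha'L x') (fun h => hxx (ha'i h))
  -- the small sieve
  have hss := ss_pyK pb sd.h4 pi.Nk a' ha'L ha'i
  have hsx := sx_pyK pb sd.h4 pi.Nk a' (-(t i : ℤ)) ha'L ha'i hj2 hne
  -- constants
  have hRR1 : 1 ≤ RR G r := ei1_RR G r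
  have hNk := pi.Nk
  have hNR : N ≤ RR G r := by omega
  have hCKL : CK (2 * (N + k) + 2) ≤ L := (ei1_CK (by omega)).trans pb.ck
  have hCq : ∀ i : I1 (Bk L m1 ∅) (Nat.log 2 m1),
      CK (2 * (N + k) + 2) ≤ (p1 (Bk L m1 ∅) (Nat.log 2 m1) i : ℝ) ^ (1 / 4 : ℝ) := by
    intro i
    refine hCKL.trans ?_
    have h1 : (L : ℝ) ^ 4 ≤ (p1 (Bk L m1 ∅) (Nat.log 2 m1) i : ℝ) := by
      have h2 : L ^ 4 ≤ L ^ 6 := Nat.pow_le_pow_right (by omega) (by norm_num)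
      have h3 := hq6 i
      exact_mod_cast (h2.trans h3.le)
    calc (L : ℝ) = ((L : ℝ) ^ 4) ^ (1 / 4 : ℝ) := by
          rw [← Real.rpow_natCast, ← Real.rpow_mul hLpos.le]
          norm_num
      _ ≤ _ := Real.rpow_le_rpow (pow_nonneg hLpos.le 4) h1 (by norm_num)
  have hp2 : ∀ i : Iy L m1, 2 ≤ py L m1 i := fun i => (hp i).two_le
  obtain ⟨SA0, hSA0⟩ : ∃ x : ℝ, x = SA (py L m1) (yh (py L m1) t0 G') := ⟨_, rfl⟩
  have hSA1 : 1 ≤ SA0 := by rw [hSA0]; exact si_SA L m1 t0 G'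
  have hSAne : SA0 ≠ 0 := by linarith
  obtain ⟨ZB0, hZB0⟩ : ∃ Z : (Iy L m1 → Option ({j : ℕ // j ∈ R} ⊕ Fin k)) → ℝ,
      Z = ZB (py L m1) (yy L m1 s) (yh (py L m1) t0 G') (2 ^ d) (2 ^ dd L) i := ⟨_, rfl⟩
  have hZBc : ∀ σ, cell σ mm ≠ ∅ → ZB0 σ = 0 := by
    intro σ hσ
    rw [hZB0]
    unfold ZB
    rw [hmm] at hσ
    exact if_neg hσ
  have hZB1 : ∀ σ, |ZB0 σ| ≤ SA0 ∧ (ZB0 σ ≠ 0 → PP (py L m1) (supp σ) ≤ 2 ^ d * 2 ^ dd L ∧ (tL σ).card ≤ N) := by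
    intro σ
    rw [hZB0, hSA0]
    obtain ⟨h1, h2⟩ := si_ZB si i σ
    exact ⟨h1, fun h => ⟨(h2 h).1, (h2 h).2.1⟩⟩
  obtain ⟨Z, hZdef⟩ : ∃ Z : (Iy L m1 → Option {x : {j : ℕ // j ∈ R} ⊕ Fin k // x ≠ mm}) → ℝ,
      Z = fun σ => ZB0 (up mm σ) / SA0 := ⟨_, rfl⟩
  have hZne : ∀ σ, Z σ ≠ 0 → ZB0 (up mm σ) ≠ 0 := by
    intro σ h h1
    apply h
    rw [hZdef]
    show ZB0 (up mm σ) / SA0 = 0
    rw [h1, zero_div]
  have hZ1 : ∀ σ, |Z σ| ≤ 1 := by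
    intro σ
    rw [hZdef]
    show |ZB0 (up mm σ) / SA0| ≤ 1
    rw [abs_div, abs_of_pos (by linarith : 0 < SA0), div_le_one (by linarith)]
    exact (hZB1 _).1
  have hmτ : ∀ σ : Iy L m1 → Option ({j : ℕ // j ∈ R} ⊕ Fin k), mm ∉ tL σ := fun σ => by
    rw [hmm]
    exact inr_tL σ i
  obtain ⟨S0, hS0⟩ : ∃ S0 : Finset {x : {j : ℕ // j ∈ R} ⊕ Fin k // x ≠ mm},
      S0 = (sR {j : ℕ // j ∈ R} (Fin k)).subtype (fun x => x ≠ mm) := ⟨_, rfl⟩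
  have hmS : mm ∈ sR {j : ℕ // j ∈ R} (Fin k) := by
    rw [hmm]
    exact mem_sR i
  have hS0c : S0.card = k - 1 := by
    have h1 := card_sub' hmS
    rw [sR_card, Fintype.card_fin, ← hS0] at h1
    omega
  have hdj : ∀ σ, Z σ ≠ 0 → Disjoint S0 (tu mm tL σ) := by
    intro σ _
    rw [Finset.disjoint_left]
    intro x hx hx'
    rw [hS0, Finset.mem_subtype] at hx
    have h1 : x.1 ∈ tL (up mm σ) := Finset.mem_subtype.1 hx'
    exact Finset.disjoint_left.1 (sR_tL (up mm σ)) hx h1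
  have hZD : ∀ σ, Z σ ≠ 0 → PP (py L m1) (supp σ) ≤ 2 ^ d * 2 ^ dd L := by
    intro σ h
    have h1 := ((hZB1 _).2 (hZne σ h)).1
    rwa [supp_up] at h1
  have hT : ∀ σ, Z σ ≠ 0 → (tu mm tL σ).card ≤ N := by
    intro σ h
    have h1 := ((hZB1 _).2 (hZne σ h)).2
    rw [← card_sub (hmτ (up mm σ))] at h1
    exact h1
  have hN : ∀ σ, Z σ ≠ 0 → (supp σ).card ≤ (d + dd L) / m1 := fun σ h => si_N2 si (hZD σ h)
  have hN'R : (d + dd L) / m1 ≤ RR G r := pi.N2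
  have hD1 : (1 : ℝ) ≤ 2 ^ d * 2 ^ dd L := by
    have h1 : (1 : ℝ) ≤ 2 ^ d := one_le_pow₀ (by norm_num)
    have h2 : (1 : ℝ) ≤ 2 ^ dd L := one_le_pow₀ (by norm_num)
    exact one_le_mul_of_one_le_of_one_le h1 h2
  have hcardκ : Fintype.card {x : {j : ℕ // j ∈ R} ⊕ Fin k // x ≠ mm} ≤ L + 2 :=
    (Fintype.card_subtype_le _).trans (si_card si)
  have hzN : (1 + 1 / (2 : ℝ) ^ m1) ^ ((d + dd L) / m1) ≤ 3 / 2 := by
    have h1 : 1 + 1 / (2 : ℝ) ^ m1 ≤ Real.exp (1 / (2 : ℝ) ^ m1) := by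
      have := Real.add_one_le_exp (1 / (2 : ℝ) ^ m1)
      linarith
    have h2 : (((d + dd L) / m1 : ℕ) : ℝ) * (1 / (2 : ℝ) ^ m1) ≤ 1 / 10 := by
      have h3 : (((d + dd L) / m1 : ℕ) : ℝ) ≤ L / 100 := by
        have h4 : ((100 * RR G r : ℕ) : ℝ) ≤ L := by exact_mod_cast pb.rl
        have h5 : (((d + dd L) / m1 : ℕ) : ℝ) ≤ (RR G r : ℝ) := by exact_mod_cast hN'R
        push_cast at h4
        linarith
      rw [mul_one_div, div_le_iff₀ (pow_pos two_pos m1)]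
      linarith
    have h3 : Real.exp (1 / 10) ≤ 3 / 2 := by
      have h4 := Real.exp_bound_div_one_sub_of_interval (x := 1 / 10) (by norm_num) (by norm_num)
      refine h4.trans ?_
      norm_num
    calc (1 + 1 / (2 : ℝ) ^ m1) ^ ((d + dd L) / m1) ≤ Real.exp (1 / (2 : ℝ) ^ m1) ^ ((d + dd L) / m1) :=
          pow_le_pow_left₀ (add_nonneg zero_le_one (div_nonneg zero_le_one (pow_nonneg zero_le_two _))) h1 _
      _ = Real.exp ((((d + dd L) / m1 : ℕ) : ℝ) * (1 / (2 : ℝ) ^ m1)) := (Real.exp_nat_mul _ _).symm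
      _ ≤ Real.exp (1 / 10) := Real.exp_le_exp.2 h2
      _ ≤ 3 / 2 := h3
  have hA := offA_le pb {x : {j : ℕ // j ∈ R} ⊕ Fin k // x ≠ mm} hcardκ hN'R
  have hWl : (1 : ℝ) ≤ 2 ^ (m1 * (4 * r + 4)) := one_le_pow₀ (by norm_num)
  have hψ : ∀ c : ℤ, LowE (p1 (Bk L m1 ∅) (Nat.log 2 m1)) (-(t i : ℤ)) (2 ^ (m1 * (4 * r + 4)))
      (fun n => psy L m1 r (n - c)) := fun c =>
    lv_psi (fun i _ q hq => (bk_mem hq).1) (fun i _ q hq => ei1_blk hq) _ c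
  -- the diagonal sum
  have hMZ1 : SA0 ^ 2 * MZ (py L m1) (fun j => Piy L m1 (S0.card + j)) (tu mm tL) Z =
      QI L m1 s d R t0 G' i := by
    rw [hZdef, ei1_MZ _ _ _ _ hSAne, hS0c]
    unfold QI
    rw [← hZB0]
    exact (MZ_up _ _ _ _ mm hZBc hmτ).symm
  have hPk : Piy L m1 k ≤ Piy L m1 (k - 1) := piy_anti L m1 _ _ (Nat.sub_le _ _)
  have hPk0 : 0 < Piy L m1 k := si_pos si
  have hP0 : 0 < Piy L m1 S0.card := by
    rw [hS0c]
    linarith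
  have hPZ : Piy L m1 S0.card ≤ MZ (py L m1) (fun j => Piy L m1 (S0.card + j)) (tu mm tL) Z := by
    have h1 := si_QI si i
    rw [← hSA0, ← hMZ1, ← hS0c] at h1
    exact le_of_mul_le_mul_left h1 (pow_pos (by linarith) 2)
  set MZ0 : ℝ := MZ (py L m1) (fun j => Piy L m1 (S0.card + j)) (tu mm tL) Z with hMZ0
  have hMZE : 1 ≤ 2 ^ (L / 100) * MZ0 := by
    refine si.pik.trans (mul_le_mul_of_nonneg_left ?_ (pow_nonneg zero_le_two _))
    rw [hS0c] at hPZ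
    linarith
  have hMZ00 : 0 ≤ MZ0 := hP0.le.trans hPZ
  set Wl : ℝ := 2 ^ (m1 * (4 * r + 4)) with hWlE
  set D : ℝ := 2 ^ d * 2 ^ dd L with hDE
  set Gm : ℝ := Wl ^ S0.card * (2 * D ^ 2 * (3 ^ ((d + dd L) / m1) * Wl ^ N)) ^ 2 with hGmE
  have hG1 : ∀ n : ℤ, PT (psy L m1 r) a' S0 n * GP (py L m1) a' (psy L m1 r) (tu mm tL) Z n ^ 2 ≤ Gm :=
    fun n => trW_F hp2 hss.rep hss.one_le_W S0 (tu mm tL) Z hZ1 hT hN (si_cnt si hcardκ Z hZD) n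
  have hW0 : 0 ≤ Wl := by linarith
  have hGmL : Gm ≤ 2 ^ (L / 100) := by
    exact le_trans (ei1_gm hWl (by omega) hN'R) pi.w3
  set DG : ℝ := Wl ^ S0.card * (D * Wl ^ N) ^ 2 with hDG
  have hDGL : DG ≤ 2 ^ (L / 1000) := by
    refine le_trans ?_ pi.lev
    exact mul_le_mul_of_nonneg_right (pow_le_pow_right₀ hWl (by omega)) (sq_nonneg _)
  have hDG0 : 0 ≤ DG := mul_nonneg (pow_nonneg hW0 _) (sq_nonneg _)
  have hW4 : DG ^ 2 ≤ 2 ^ (L / 100) := by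
    calc DG ^ 2 ≤ (2 ^ (L / 1000)) ^ 2 := pow_le_pow_left₀ hDG0 hDGL 2
      _ = 2 ^ (L / 1000 * 2) := (pow_mul _ _ _).symm
      _ ≤ 2 ^ (L / 100) := pow_le_pow_right₀ (by norm_num) (by omega)
  have hlevP : DG ≤ (P : ℝ) ^ (1 / 1000 : ℝ) := by
    have h2 : ((L / 1000 : ℕ) : ℝ) ≤ (L : ℝ) * (1 / 1000) := by
      have := Nat.cast_div_le (α := ℝ) (m := L) (n := 1000)
      push_cast at this
      linarith
    have h3 : (2 : ℝ) ^ L ≤ P := by exact_mod_cast hLP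
    refine hDGL.trans ?_
    calc (2 : ℝ) ^ (L / 1000) = (2 : ℝ) ^ (((L / 1000 : ℕ) : ℝ)) := (Real.rpow_natCast _ _).symm
      _ ≤ (2 : ℝ) ^ ((L : ℝ) * (1 / 1000)) :=
          Real.rpow_le_rpow_of_exponent_le (by norm_num) h2
      _ = ((2 : ℝ) ^ L) ^ (1 / 1000 : ℝ) := by
          rw [Real.rpow_mul (by norm_num), Real.rpow_natCast]
      _ ≤ (P : ℝ) ^ (1 / 1000 : ℝ) := Real.rpow_le_rpow (pow_nonneg zero_le_two _) h3 (by norm_num)
  have hpr : ∀ i, (Sum.elim (p1 (Bk L m1 ∅) (Nat.log 2 m1)) (py L m1) i).Prime := by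
    rintro (i | i)
    · exact hq i
    · exact hp i
  have hpr6 : ∀ i, L ^ 6 < Sum.elim (p1 (Bk L m1 ∅) (Nat.log 2 m1)) (py L m1) i := by
    rintro (i | i)
    · exact hq6 i
    · exact (py_mem i).2.2.2
  have hL61 : (1 : ℝ) ≤ (L : ℝ) ^ 6 := one_le_pow₀ (by linarith)
  have hB := hbv P hPP1 M (b + t i) sd.hM0 sd.hMP hcop
    (I1 (Bk L m1 ∅) (Nat.log 2 m1) ⊕ Iy L m1) (Sum.elim (p1 (Bk L m1 ∅) (Nat.log 2 m1)) (py L m1))
    hpr (elim_inj L m1) (fun i => sd.hM _ (hpr i) (hpr6 i)) ((L : ℝ) ^ 6) DG hL61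
    (fun i => by exact_mod_cast (hpr6 i).le) hlevP
  have hmain := e1_I hq hp (elim_inj L m1) (P := P) (M := M) (r := b + t i) hP2 hqP hpP hz100 hz
    a' (-(t i : ℤ)) h0 hd (psy_nn L m1 r) hsx (piy_nn L m1) (piy_anti L m1) (ei1_CK0 _) hCq
    S0 (tu mm tL) Z hZ1 hdj hD1 hZD hT hN (by omega) hzN hA hP0 hPZ hWl hψ hG1 hDG hB
  rw [← hMZ0] at hmain
  have hlogP0 : 0 ≤ Real.log P := Real.log_natCast_nonneg P
  have hlogPL : Real.log P ≤ L := by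
    refine le_trans (Real.log_le_log hPr0 ?_) hlP4
    linarith
  have hlog4 : Real.log (4 * P) ≤ 2 * Real.log P := by
    have h1 : Real.log (4 * P) ≤ Real.log ((P : ℝ) ^ 2) := by
      apply Real.log_le_log (mul_pos (by norm_num) hPr0)
      rw [pow_two]
      exact mul_le_mul_of_nonneg_right hP4 hPr0.le
    rw [Real.log_pow] at h1
    exact_mod_cast h1
  have herr1 := ei1_err1 (C := C) (X := (P : ℝ) / M) (lP := Real.log P) (L := L) hC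
    (div_nonneg hPr0.le hM0.le) (by omega) hlogP0 hlogPL hLL2
  have herr2 := ei1_err2 (L := L) (X := (P : ℝ) / M) (Gm := Gm) (W4 := DG ^ 2)
    (sP := √(P : ℝ)) (lP := Real.log (4 * P)) (Z := MZ0) hL6 hMZE hMZ00
    (mul_nonneg (pow_nonneg hW0 _) (sq_nonneg _)) hGmL
    hW4 (Real.sqrt_nonneg _) hsP (Real.log_nonneg (by linarith)) hlP4 hX9
    (sz_w hL6).2
  have hsums := ei1_sums (P := P) (H := H) (M := M) (b := b) (j := t i) (si.tH i) hHP (by omega) hlog4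
    (fun n => wI L m1 s d r R t t0 G' n) (fun n => by
      unfold wI
      exact mul_nonneg (Finset.prod_nonneg fun j _ => psy_nn L m1 r _) (sq_nonneg _))
  refine le_trans ?_ hsums
  -- the weight on the primes
  have hw : ∀ m ∈ (Ioc P (4 * P)).filter (fun m => m ≡ b + t i [MOD M] ∧ m.Prime),
      Real.log m * wI L m1 s d r R t t0 G' ((m : ℤ) + (-(t i : ℤ))) = SA0 ^ 2 *
        (Real.log m * (PT (psy L m1 r) a' S0 ((m : ℤ) + (-(t i : ℤ))) *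
          GP (py L m1) a' (psy L m1 r) (tu mm tL) Z ((m : ℤ) + (-(t i : ℤ))) ^ 2)) := by
    intro m hm
    have hmP : P < m := (mem_Ioc.1 (mem_filter.1 hm).1).1
    have hmp : m.Prime := (mem_filter.1 hm).2.2
    have h2m : 2 ^ L < m := lt_of_le_of_lt hLP hmP
    obtain ⟨n, hn⟩ : ∃ n : ℤ, n = (m : ℤ) + (-(t i : ℤ)) := ⟨_, rfl⟩
    have hnm : n - a2 R t mm = (m : ℤ) := by
      rw [ha0, hn]
      ring
    rw [← hn]
    have h1 : PT (psy L m1 r) (a2 R t) (sR {j : ℕ // j ∈ R} (Fin k)) n = PT (psy L m1 r) a' S0 n := by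
      rw [PT_sub' (psy L m1 r) (a2 R t) hmS n, hnm, psy_prime hmp (lt_of_le_of_lt
        (Nat.pow_le_pow_right (by norm_num) hmL) h2m), one_mul, hS0, ha']
    have h2 : gI L m1 s d r R t t0 G' n = SA0 * GP (py L m1) a' (psy L m1 r) (tu mm tL) Z n := by
      have h3 := id_BI hp2 (a2 R t) (psy L m1 r) (yy L m1 s) (yh (py L m1) t0 G')
        (yh_empty (py L m1) t0 G') (2 ^ d) (2 ^ dd L) i n (fun i' hdv => by
          rw [← hmm, hnm, Int.natCast_dvd_natCast] at hdv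
          have h4 := (Nat.prime_dvd_prime_iff_eq (hp i') hmp).1 hdv
          have h5 := hpL i'
          omega)
      unfold gI YI
      rw [h3, ← hZB0, hZdef, ei1_GP _ _ _ _ _ hSAne, ha']
      exact GP_up _ _ _ _ _ mm hZBc hmτ n
    unfold wI
    rw [h1, h2]
    ring
  rw [Finset.sum_congr rfl hw, ← Finset.mul_sum, ← hMZ1]
  have hmain2 := mul_le_mul_of_nonneg_left hmain (sq_nonneg SA0)
  refine le_trans ?_ hmain2
  have hSS : 0 ≤ SA0 ^ 2 := sq_nonneg _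
  have e1 := mul_le_mul_of_nonneg_left herr1 hMZ00
  have e2 : MZ0 * ((P : ℝ) / M) / L =
      MZ0 * (((P : ℝ) / M) / (2 * L)) + MZ0 * (((P : ℝ) / M) / (2 * L)) := by
    field_simp
    ring
  have e3 : 5 * MZ0 * (C * (P / M) * Real.log P ^ 3 * ((L : ℝ) ^ 6) ^ (-(3 / 4) : ℝ)) = MZ0 *
      (5 * (C * (P / M) * Real.log P ^ 3 * ((L : ℝ) ^ 6) ^ (-(3 / 4) : ℝ))) := by ring
  have e5 : 1 / 3 * MZ0 * psi M (b + t i) P - MZ0 * ((P : ℝ) / M) / L ≤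
      MZ0 / 3 * psi M (b + t i) P -
        5 * MZ0 * (C * (P / M) * Real.log P ^ 3 * ((L : ℝ) ^ 6) ^ (-(3 / 4) : ℝ)) -
        (20 * Gm + 200 * MZ0 * DG ^ 2) * (√P * Real.log (4 * P) ^ 2) := by
    rw [e2, e3]
    linarith
  have e6 := mul_le_mul_of_nonneg_left e5 hSS
  refine le_trans (le_of_eq ?_) e6
  ring

end Pool.Agent.ISO
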