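import Pool.Agent.ISO.Defs
import Pool.Agent.IPT.KillSum

/-!
ISO/KillW.  Square sum of the coefficients collapsed at a repelled site, with weights `W` of the number of
nonempty repelled cells.
-/

set_option autoImplicit false

open Finset Pool.Agent.RS Pool.Agent.AT Pool.Agent.VOID Pool.Agent.IPT

namespace Pool.Agent.ISO

variable {ι α β : Type} [Fintype ι] [DecidableEq ι] [DecidableEq α] [DecidableEq β] [Fintype α]
  [Fintype β]

open Classical in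
private theorem key0 {p : ι → ℕ} (hp : ∀ i, 2 ≤ p i)
    (yR yH : Finset ι → ℝ) {DR DH D2 δ : ℝ}
    (h1 : ∀ V U, 0 < V → |cg p yR DR V U| ≤ 1)
    (h2 : ∀ σ : ι → Option (α ⊕ β), PP p (supp (lp σ)) ≤ D2 → PP p (supp (rp σ)) ≤ DH →
      |cg p yR DR (PP p (supp (lp σ))) (supp σ)| ≤ δ) (j : α) : ∀ σ : ι → Option (α ⊕ β),
      ZA p yR yH DR DH j σ ^ 2 / PH p (supp σ) ≤
      (δ ^ 2 * (Yd p yR DR (lp σ) ^ 2 / PH p (supp (lp σ)))) *
        (Yd p yH DH (rp σ) ^ 2 / PH p (supp (rp σ))) +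
      (if D2 < PP p (supp (lp σ)) then Yd p yR DR (lp σ) ^ 2 / PH p (supp (lp σ)) else 0) *
        (Yd p yH DH (rp σ) ^ 2 / PH p (supp (rp σ))) := by
  have hPP : ∀ S : Finset ι, 0 < PP p S := fun S => Finset.prod_pos (fun i _ => by
    have := hp i
    have h2 : (2 : ℝ) ≤ (p i : ℝ) := by exact_mod_cast this
    linarith)
  have hPH : ∀ S : Finset ι, 0 < PH p S := fun S => Finset.prod_pos (fun i _ => by
    have := hp i
    have h2 : (2 : ℝ) ≤ (p i : ℝ) := by exact_mod_cast this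
    linarith)
  have hA0 : ∀ τ : ι → Option α, 0 ≤ Yd p yR DR τ ^ 2 / PH p (supp τ) := fun τ =>
    div_nonneg (sq_nonneg _) (hPH _).le
  have hB0 : ∀ υ : ι → Option β, 0 ≤ Yd p yH DH υ ^ 2 / PH p (supp υ) := fun υ =>
    div_nonneg (sq_nonneg _) (hPH _).le
  have hT0 : ∀ τ : ι → Option α, 0 ≤ (if D2 < PP p (supp τ) then
      Yd p yR DR τ ^ 2 / PH p (supp τ) else 0) := fun τ => by
    split_ifs
    · exact hA0 τ
    · exact le_rfl
  have key : ∀ σ : ι → Option (α ⊕ β), ZA p yR yH DR DH j σ ^ 2 / PH p (supp σ) ≤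
      (δ ^ 2 * (Yd p yR DR (lp σ) ^ 2 / PH p (supp (lp σ)))) *
        (Yd p yH DH (rp σ) ^ 2 / PH p (supp (rp σ))) +
      (if D2 < PP p (supp (lp σ)) then Yd p yR DR (lp σ) ^ 2 / PH p (supp (lp σ)) else 0) *
        (Yd p yH DH (rp σ) ^ 2 / PH p (supp (rp σ))) := by
    intro σ
    have hR : 0 ≤ (δ ^ 2 * (Yd p yR DR (lp σ) ^ 2 / PH p (supp (lp σ)))) *
        (Yd p yH DH (rp σ) ^ 2 / PH p (supp (rp σ))) :=
      mul_nonneg (mul_nonneg (sq_nonneg _) (hA0 _)) (hB0 _)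
    have hR2 : 0 ≤ (if D2 < PP p (supp (lp σ)) then
        Yd p yR DR (lp σ) ^ 2 / PH p (supp (lp σ)) else 0) *
        (Yd p yH DH (rp σ) ^ 2 / PH p (supp (rp σ))) := mul_nonneg (hT0 _) (hB0 _)
    have hz0 : ZA p yR yH DR DH j σ = 0 → ZA p yR yH DR DH j σ ^ 2 / PH p (supp σ) ≤
      (δ ^ 2 * (Yd p yR DR (lp σ) ^ 2 / PH p (supp (lp σ)))) *
        (Yd p yH DH (rp σ) ^ 2 / PH p (supp (rp σ))) +
      (if D2 < PP p (supp (lp σ)) then Yd p yR DR (lp σ) ^ 2 / PH p (supp (lp σ)) else 0) *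
        (Yd p yH DH (rp σ) ^ 2 / PH p (supp (rp σ))) := fun h => by
      rw [h]
      have : (0 : ℝ) ^ 2 / PH p (supp σ) = 0 := by simp
      rw [this]
      exact add_nonneg hR hR2
    by_cases hc : cell σ (Sum.inl j) = ∅
    swap
    · exact hz0 (by unfold ZA; rw [if_neg hc])
    have hz : ZA p yR yH DR DH j σ = Yt yR (lp σ) *
        cg p yR DR (PP p (supp (lp σ))) (supp σ) * Yd p yH DH (rp σ) := by
      unfold ZA
      rw [if_pos hc]
    rcases lt_or_ge DR (PP p (supp (lp σ))) with hV | hV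
    · refine hz0 ?_
      rw [hz, cg_zero hp yR (hPP _) hV]
      ring
    have hYt : Yd p yR DR (lp σ) = Yt yR (lp σ) := by
      unfold Yd
      rw [if_pos hV]
    have hz2 : ZA p yR yH DR DH j σ ^ 2 / PH p (supp σ) =
        cg p yR DR (PP p (supp (lp σ))) (supp σ) ^ 2 *
          ((Yd p yR DR (lp σ) ^ 2 / PH p (supp (lp σ))) *
          (Yd p yH DH (rp σ) ^ 2 / PH p (supp (rp σ)))) := by
      rw [hz, ← hYt, PH_split]
      have n1 := (hPH (supp (lp σ))).ne'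
      have n2 := (hPH (supp (rp σ))).ne'
      field_simp
    rcases lt_or_ge D2 (PP p (supp (lp σ))) with hV2 | hV2
    · have h3 : cg p yR DR (PP p (supp (lp σ))) (supp σ) ^ 2 ≤ 1 := by
        have h4 := h1 _ (supp σ) (hPP (supp (lp σ)))
        rw [← sq_abs]
        exact pow_le_one₀ (abs_nonneg _) h4
      rw [hz2, if_pos hV2]
      have h5 := mul_le_mul_of_nonneg_right h3 (mul_nonneg (hA0 (lp σ)) (hB0 (rp σ)))
      linarith
    · by_cases hY : Yd p yH DH (rp σ) = 0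
      · refine hz0 ?_
        rw [hz, hY, mul_zero]
      · have hU : PP p (supp (rp σ)) ≤ DH := by
          by_contra hcon
          exact hY (by unfold Yd; rw [if_neg hcon])
        have h4 := h2 σ hV2 hU
        have h3 : cg p yR DR (PP p (supp (lp σ))) (supp σ) ^ 2 ≤ δ ^ 2 := by
          rw [← sq_abs]
          exact pow_le_pow_left₀ (abs_nonneg _) h4 2
        rw [hz2]
        have h5 := mul_le_mul_of_nonneg_right h3 (mul_nonneg (hA0 (lp σ)) (hB0 (rp σ)))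
        linarith
  exact key

open Classical in
theorem kill_W {p : ι → ℕ} (hp : ∀ i, 2 ≤ p i) {W : ℕ → ℝ} (hW0 : ∀ j, 0 ≤ W j)
    (yR yH : Finset ι → ℝ) {DR DH D2 δ θ : ℝ}
    (h1 : ∀ V U, 0 < V → |cg p yR DR V U| ≤ 1)
    (h2 : ∀ σ : ι → Option (α ⊕ β), PP p (supp (lp σ)) ≤ D2 → PP p (supp (rp σ)) ≤ DH →
      |cg p yR DR (PP p (supp (lp σ))) (supp σ)| ≤ δ)
    (hD2 : D2 ≤ DR)
    (htail : ∑ τ ∈ (univ : Finset (ι → Option α)).filter (fun τ => D2 < PP p (supp τ)),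
        Yd p yR DR τ ^ 2 / PH p (supp τ) * W (Tc τ).card ≤
      θ * ∑ τ : ι → Option α, Yd p yR DR τ ^ 2 / PH p (supp τ) * W (Tc τ).card) (j : α) :
    MZ p W tL (ZA p yR yH DR DH j : (ι → Option (α ⊕ β)) → ℝ) ≤
      (δ ^ 2 + θ) * ((∑ τ : ι → Option α, Yd p yR DR τ ^ 2 / PH p (supp τ) * W (Tc τ).card) *
        ∑ υ : ι → Option β, Yd p yH DH υ ^ 2 / PH p (supp υ)) := by
  have hPH : ∀ S : Finset ι, 0 < PH p S := fun S => Finset.prod_pos (fun i _ => by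
    have := hp i
    have h2 : (2 : ℝ) ≤ (p i : ℝ) := by exact_mod_cast this
    linarith)
  have hA0 : ∀ τ : ι → Option α, 0 ≤ Yd p yR DR τ ^ 2 / PH p (supp τ) * W (Tc τ).card := fun τ =>
    mul_nonneg (div_nonneg (sq_nonneg _) (hPH _).le) (hW0 _)
  have hB0 : ∀ υ : ι → Option β, 0 ≤ Yd p yH DH υ ^ 2 / PH p (supp υ) := fun υ =>
    div_nonneg (sq_nonneg _) (hPH _).le
  have hT0 : ∀ τ : ι → Option α, 0 ≤ (if D2 < PP p (supp τ) then
      Yd p yR DR τ ^ 2 / PH p (supp τ) * W (Tc τ).card else 0) := fun τ => by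
    split_ifs
    · exact hA0 τ
    · exact le_rfl
  have key : ∀ σ : ι → Option (α ⊕ β), ZA p yR yH DR DH j σ ^ 2 / PH p (supp σ) * W (tL σ).card ≤
      (δ ^ 2 * (Yd p yR DR (lp σ) ^ 2 / PH p (supp (lp σ)) * W (Tc (lp σ)).card)) *
        (Yd p yH DH (rp σ) ^ 2 / PH p (supp (rp σ))) +
      (if D2 < PP p (supp (lp σ)) then Yd p yR DR (lp σ) ^ 2 / PH p (supp (lp σ)) *
        W (Tc (lp σ)).card else 0) *
        (Yd p yH DH (rp σ) ^ 2 / PH p (supp (rp σ))) := by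
    intro σ
    have h3 := mul_le_mul_of_nonneg_right (key0 hp yR yH h1 h2 j σ) (hW0 (tL σ).card)
    refine le_trans h3 (le_of_eq ?_)
    rw [tL_card]
    split_ifs
    · ring
    · ring
  unfold MZ
  refine le_trans (Finset.sum_le_sum (fun σ _ => key σ)) ?_
  rw [Finset.sum_add_distrib]
  have c1 := coll_le (fun τ : ι → Option α => δ ^ 2 * (Yd p yR DR τ ^ 2 / PH p (supp τ) * W (Tc τ).card))
    (fun υ : ι → Option β => Yd p yH DH υ ^ 2 / PH p (supp υ))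
    (fun τ => mul_nonneg (sq_nonneg _) (hA0 τ)) hB0
  have c2 := coll_le (fun τ : ι → Option α => (if D2 < PP p (supp τ) then
      Yd p yR DR τ ^ 2 / PH p (supp τ) * W (Tc τ).card else 0))
    (fun υ : ι → Option β => Yd p yH DH υ ^ 2 / PH p (supp υ)) hT0 hB0
  refine le_trans (add_le_add c1 c2) ?_
  rw [← Finset.mul_sum, ← Finset.sum_filter]
  have hB : 0 ≤ ∑ υ : ι → Option β, Yd p yH DH υ ^ 2 / PH p (supp υ) :=
    Finset.sum_nonneg (fun υ _ => hB0 υ)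
  have c3 := mul_le_mul_of_nonneg_right htail hB
  linarith

private theorem Tc_eraS (S : Finset ι) (τ : ι → Option α) : (Tc (eraS S τ)).card ≤ (Tc τ).card := by
  apply Finset.card_le_card
  intro j hj
  unfold Tc at hj ⊢
  rw [mem_filter] at hj ⊢
  refine ⟨mem_univ _, ?_⟩
  intro h
  apply hj.2
  rw [Finset.eq_empty_iff_forall_notMem] at h ⊢
  intro i hi
  apply h i
  rw [mem_cell] at hi ⊢
  unfold eraS at hi
  split_ifs at hi with h3
  exact hi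

theorem coll_W {p : ι → ℕ} (hp : ∀ i, 2 ≤ p i) {W : ℕ → ℝ} (hW0 : ∀ j, 0 ≤ W j)
    (hWa : ∀ i j, i ≤ j → W j ≤ W i) {yR yH : Finset ι → ℝ} {DR DH : ℝ}
    (hR : ∀ S T : Finset ι, T ⊆ S → |yR S| ≤ |yR T|)
    (hH : ∀ S T : Finset ι, T ⊆ S → |yH S| ≤ |yH T|)
    (hs : ∑ i, (Fintype.card α : ℝ) * Fintype.card β / ((p i : ℝ) - 1) ^ 2 ≤ 1 / 2) :
    (∑ τ : ι → Option α, Yd p yR DR τ ^ 2 / PH p (supp τ) * W (Tc τ).card) *
        (∑ υ : ι → Option β, Yd p yH DH υ ^ 2 / PH p (supp υ)) ≤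
      2 * MZ p W tL (Y2 p yR yH DR DH : (ι → Option (α ⊕ β)) → ℝ) := by
  have h := coll_ge hp (fun τ : ι → Option α => Yd p yR DR τ * Real.sqrt (W (Tc τ).card))
    (fun υ : ι → Option β => Yd p yH DH υ) (by
      intro S τ
      rw [abs_mul, abs_mul, abs_of_nonneg (Real.sqrt_nonneg _), abs_of_nonneg (Real.sqrt_nonneg _)]
      exact mul_le_mul (Yd_mono hp yR DR hR S τ) (Real.sqrt_le_sqrt (hWa _ _ (Tc_eraS S τ)))
        (Real.sqrt_nonneg _) (abs_nonneg _)) (fun S υ => Yd_mono hp yH DH hH S υ) hs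
  have e1 : ∀ τ : ι → Option α, (Yd p yR DR τ * Real.sqrt (W (Tc τ).card)) ^ 2 / PH p (supp τ) =
      Yd p yR DR τ ^ 2 / PH p (supp τ) * W (Tc τ).card := by
    intro τ
    rw [mul_pow, Real.sq_sqrt (hW0 _)]
    ring
  have e2 : ∀ σ : ι → Option (α ⊕ β),
      (Yd p yR DR (lp σ) * Real.sqrt (W (Tc (lp σ)).card) * Yd p yH DH (rp σ)) ^ 2 / PH p (supp σ) =
      Y2 p yR yH DR DH σ ^ 2 / PH p (supp σ) * W (tL σ).card := by
    intro σ
    rw [mul_pow, mul_pow, Real.sq_sqrt (hW0 _), tL_card, Y2]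
    ring
  rw [Finset.sum_congr rfl fun τ _ => e1 τ, Finset.sum_congr rfl fun σ _ => e2 σ] at h
  exact h

open Classical in
theorem kill_I {p : ι → ℕ} (hp : ∀ i, 2 ≤ p i) {W : ℕ → ℝ} (hW0 : ∀ j, 0 ≤ W j)
    (hWa : ∀ i j, i ≤ j → W j ≤ W i) {yR yH : Finset ι → ℝ} {DR DH D2 δ θ : ℝ}
    (h1 : ∀ V U, 0 < V → |cg p yR DR V U| ≤ 1)
    (h2 : ∀ σ : ι → Option (α ⊕ β), PP p (supp (lp σ)) ≤ D2 → PP p (supp (rp σ)) ≤ DH →
      |cg p yR DR (PP p (supp (lp σ))) (supp σ)| ≤ δ)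
    (hD2 : D2 ≤ DR) (hθ : 0 ≤ θ)
    (htail : ∑ τ ∈ (univ : Finset (ι → Option α)).filter (fun τ => D2 < PP p (supp τ)),
        Yd p yR DR τ ^ 2 / PH p (supp τ) * W (Tc τ).card ≤
      θ * ∑ τ : ι → Option α, Yd p yR DR τ ^ 2 / PH p (supp τ) * W (Tc τ).card)
    (hR : ∀ S T : Finset ι, T ⊆ S → |yR S| ≤ |yR T|)
    (hH : ∀ S T : Finset ι, T ⊆ S → |yH S| ≤ |yH T|)
    (hs : ∑ i, (Fintype.card α : ℝ) * Fintype.card β / ((p i : ℝ) - 1) ^ 2 ≤ 1 / 2) (j : α) :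
    MZ p W tL (ZA p yR yH DR DH j : (ι → Option (α ⊕ β)) → ℝ) ≤
      2 * (δ ^ 2 + θ) * MZ p W tL (Y2 p yR yH DR DH : (ι → Option (α ⊕ β)) → ℝ) := by
  have h3 := kill_W hp hW0 yR yH h1 h2 hD2 htail j
  have h4 := mul_le_mul_of_nonneg_left (coll_W (α := α) (β := β) hp hW0 hWa (DR := DR) (DH := DH) hR hH hs)
    (add_nonneg (sq_nonneg δ) hθ)
  linarith

end Pool.Agent.ISO
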