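import Pool.Agent.AV.H1f

/-! ISO/TailK.  The tail estimate with the shifted density (variation of `tail_y`). -/

set_option autoImplicit false

open Finset Pool.Agent.RS Pool.Agent.AT Pool.Agent.VOID Pool.Agent.AV

namespace Pool.Agent.ISO

attribute [local irreducible] RR

/-- the numerical inequality behind the tail estimate -/
private theorem tk_tail {CV k V1 H G r N1 L s m1 d : ℝ} (hCV : 0 < CV)
    (hm : 1 ≤ m1) (hs : 1 ≤ s) (hr : 0 ≤ r) (hN1 : 1 ≤ N1) (hG : 0 < G) (hd : 0 ≤ d)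
    (hkV : k * V1 ≤ CV * (L / m1)) (hkV0 : 0 ≤ k * V1)
    (hH : Real.exp (-9) * (G * (r + 1)) / (8 * m1) ≤ H)
    (hG2 : 6400 * N1 * Real.exp 9 * CV / Real.log 2 ≤ G)
    (hL : L ≤ 200 * N1 * (r + 1) * d) (hsd : s * (r + 1) ^ 2 ≤ 200 * N1 * d) :
    ((2 : ℝ) ^ d / 2 ^ s) ^ (-(1 / (s * Real.log 2))) *
      Real.exp (V1 * (2 / (H * (s * Real.log 2))) * k) ≤
      Real.exp (1 - (r + 1) ^ 2 / (400 * N1)) := by
  have hl2 : 0 < Real.log 2 := Real.log_pos (by norm_num)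
  have hr1 : 0 < r + 1 := by linarith
  have hs0 : 0 < s := by linarith
  have hm0 : 0 < m1 := by linarith
  have hN0 : 0 < N1 := by linarith
  have hH0 : 0 < H := lt_of_lt_of_le (by positivity) hH
  rw [← Real.rpow_sub (by norm_num : (0 : ℝ) < 2), ← Real.rpow_mul (by norm_num),
    Real.rpow_def_of_pos (by norm_num : (0 : ℝ) < 2), ← Real.exp_add]
  apply Real.exp_le_exp.2
  have e1 : Real.log 2 * ((d - s) * -(1 / (s * Real.log 2))) = 1 - d / s := by
    field_simp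
    ring
  rw [e1]
  have e2 : V1 * (2 / (H * (s * Real.log 2))) * k = (k * V1) * (2 / (H * (s * Real.log 2))) := by
    ring
  rw [e2]
  have e3 : (k * V1) * (2 / (H * (s * Real.log 2))) ≤
      (CV * (L / m1)) * (2 / ((Real.exp (-9) * (G * (r + 1)) / (8 * m1)) * (s * Real.log 2))) := by
    apply mul_le_mul hkV _ (by positivity) (le_trans hkV0 hkV)
    apply div_le_div_of_nonneg_left (by norm_num) (by positivity)
    exact mul_le_mul_of_nonneg_right hH (by positivity)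
  have e4 : (CV * (L / m1)) * (2 / ((Real.exp (-9) * (G * (r + 1)) / (8 * m1)) * (s * Real.log 2))) =
      16 * Real.exp 9 * CV * L / (G * (r + 1) * s * Real.log 2) := by
    rw [Real.exp_neg]
    have := (Real.exp_pos 9).ne'
    field_simp
    ring
  have e5 : 16 * Real.exp 9 * CV * L / (G * (r + 1) * s * Real.log 2) ≤
      16 * Real.exp 9 * CV * (200 * N1 * (r + 1) * d) / (G * (r + 1) * s * Real.log 2) := by
    apply div_le_div_of_nonneg_right _ (by positivity)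
    exact mul_le_mul_of_nonneg_left hL (by positivity)
  have e6 : 16 * Real.exp 9 * CV * (200 * N1 * (r + 1) * d) / (G * (r + 1) * s * Real.log 2) =
      (6400 * N1 * Real.exp 9 * CV / Real.log 2) / G * (d / (2 * s)) := by
    field_simp
    ring
  have e7 : (6400 * N1 * Real.exp 9 * CV / Real.log 2) / G ≤ 1 := (div_le_one hG).2 hG2
  have e8 : (6400 * N1 * Real.exp 9 * CV / Real.log 2) / G * (d / (2 * s)) ≤ d / (2 * s) :=
    mul_le_of_le_one_left (by positivity) e7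
  have e9 : (r + 1) ^ 2 / (400 * N1) ≤ d / (2 * s) := by
    rw [div_le_div_iff₀ (by positivity) (by positivity)]
    nlinarith
  have e10 : d / s = d / (2 * s) + d / (2 * s) := by
    field_simp
    ring
  rw [e4] at e3
  rw [e6] at e5
  linarith

private theorem tk_factor {q : ℕ} (hq : 2 ≤ q) (j : ℕ) :
    max 0 (1 - ((j + 1 : ℕ) : ℝ) / q) ≤ max 0 (1 - ((1 : ℕ) : ℝ) / q) * max 0 (1 - (j : ℝ) / q) := by
  have hq' : (2 : ℝ) ≤ q := by exact_mod_cast hq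
  have hq0 : (0 : ℝ) < q := by linarith
  apply max_le
  · exact mul_nonneg (le_max_left _ _) (le_max_left _ _)
  · have h1 : (0 : ℝ) ≤ 1 - ((1 : ℕ) : ℝ) / q := by
      rw [Nat.cast_one, sub_nonneg, div_le_one hq0]
      linarith
    rw [max_eq_right h1]
    have h2 : (1 - ((1 : ℕ) : ℝ) / q) * (1 - (j : ℝ) / q) ≤
        (1 - ((1 : ℕ) : ℝ) / q) * max 0 (1 - (j : ℝ) / q) :=
      mul_le_mul_of_nonneg_left (le_max_right _ _) h1
    refine le_trans ?_ h2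
    have h3 : (1 - ((1 : ℕ) : ℝ) / q) * (1 - (j : ℝ) / q) =
        1 - ((j + 1 : ℕ) : ℝ) / q + j / (q * q) := by
      push_cast
      field_simp
      ring
    rw [h3]
    have h4 : (0 : ℝ) ≤ j / (q * q) := by positivity
    linarith

private theorem tk_nn (L m1 : ℕ) (j : ℕ) : 0 ≤ Piy L m1 j := by
  unfold Piy PiV
  exact Finset.prod_nonneg (fun i _ => Finset.prod_nonneg (fun q _ => le_max_left _ _))

private theorem tk_step (L m1 : ℕ) (j : ℕ) : Piy L m1 (j + 1) ≤ Piy L m1 1 * Piy L m1 j := by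
  unfold Piy PiV
  rw [← Finset.prod_mul_distrib]
  apply Finset.prod_le_prod
  · intro i _
    exact Finset.prod_nonneg (fun q _ => le_max_left _ _)
  · intro i hi
    rw [← Finset.prod_mul_distrib]
    apply Finset.prod_le_prod
    · intro q _
      exact le_max_left _ _
    · intro q hq
      exact tk_factor (bk_mem hq).1.two_le j

private theorem tk_two {L m1 : ℕ} (i : Iy L m1) : 2 ≤ py L m1 i := (py_mem i).1.two_le

private theorem tk_H {CV : ℝ} {G r L g s m1 d N : ℕ} (pb : PB CV G r L g s m1 d N) :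
    Real.exp (-9) * ((G : ℝ) * ((r : ℝ) + 1)) / (8 * (m1 : ℝ)) ≤ H1 (py L m1) ((2 : ℝ) ^ s) := by
  have h1 := H1_v (L := L) (m1 := m1) (s := s) (g := g) (by have := pb.pl.L16; omega) pb.pl.m_pos
    pb.pl.L6 (by have := pb.pl.hg; omega) pb.pl.s_low pb.s_le
  have h2 : (g : ℝ) - 16 = G * ((r : ℝ) + 1) := by
    rw [pb.pl.hg]
    push_cast
    ring
  rw [h2] at h1
  exact h1

private theorem tk_ph {q : ℕ} (hq : 2 ≤ q) : (0 : ℝ) ≤ (q : ℝ) - 1 := by
  have h : (2 : ℝ) ≤ q := by exact_mod_cast hq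
  linarith

theorem tail_k {CV : ℝ} {G r L g s m1 d N : ℕ} (pb : PB CV G r L g s m1 d N) (hCV : 0 < CV)
    (hG2 : 6400 * ((1000 : ℕ) : ℝ) * Real.exp 9 * CV / Real.log 2 ≤ G)
    (hG3 : 8 * Real.exp 9 / Real.log 2 ≤ G) {R : Finset ℕ}
    (hkV : (R.card : ℝ) * Piy L m1 1 ≤ CV * (L / m1)) (k : ℕ) :
    ∑ σ ∈ (univ : Finset (Iy L m1 → Option {j : ℕ // j ∈ R})).filter
        (fun σ => (2 : ℝ) ^ d / 2 ^ s < PP (py L m1) (supp σ)),
      Yd (py L m1) (yy L m1 s) (2 ^ d) σ ^ 2 / PH (py L m1) (supp σ) *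
        Piy L m1 (k + (Tc σ).card) ≤
      Real.exp (1 - ((r : ℝ) + 1) ^ 2 / (400 * ((1000 : ℕ) : ℝ))) *
        ∑ σ : Iy L m1 → Option {j : ℕ // j ∈ R},
          Yd (py L m1) (yy L m1 s) (2 ^ d) σ ^ 2 / PH (py L m1) (supp σ) *
            Piy L m1 (k + (Tc σ).card) := by
  have hG : (1 : ℝ) ≤ G := by exact_mod_cast pb.G1
  have hr : (0 : ℝ) ≤ r := Nat.cast_nonneg r
  have hm : (1 : ℝ) ≤ m1 := by exact_mod_cast pb.pl.m_pos
  have hs1 : 1 ≤ s := pb.pl.m_pos.trans pb.pl.m_le_s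
  have hs1r : (1 : ℝ) ≤ s := by exact_mod_cast hs1
  have hl2 : 0 < Real.log 2 := Real.log_pos (by norm_num)
  have h2pow : ∀ n : ℕ, (0 : ℝ) < 2 ^ n := fun n => pow_pos two_pos n
  obtain ⟨hHpos, hHlog⟩ := hlog_y pb hG3
  have hH := tk_H pb
  have hS1 : (1 : ℝ) < 2 ^ s := one_lt_pow₀ (by norm_num) (by omega)
  have hlogS : Real.log ((2 : ℝ) ^ s) = s * Real.log 2 := Real.log_pow _ _
  have hsl : 0 < (s : ℝ) * Real.log 2 := mul_pos (lt_of_lt_of_le one_pos hs1r) hl2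
  have hlS1 : 0 ≤ 1 / ((s : ℝ) * Real.log 2) := (one_div_pos.2 hsl).le
  have hlS2 : 0 ≤ 2 / (H1 (py L m1) ((2 : ℝ) ^ s) * ((s : ℝ) * Real.log 2)) :=
    (div_pos two_pos (mul_pos hHpos hsl)).le
  have hD : (1 : ℝ) ≤ 2 ^ d := one_le_pow₀ (by norm_num)
  have hcard : (Fintype.card {j : ℕ // j ∈ R} : ℝ) = R.card := by simp
  have htl := tailV (κ := {j : ℕ // j ∈ R}) tk_two (wt (py L m1) ((2 : ℝ) ^ s)) (wt_empty _ _)
    (D := (2 : ℝ) ^ d) (D2 := (2 : ℝ) ^ d / 2 ^ s) (lam := 1 / Real.log ((2 : ℝ) ^ s))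
    (θ := 2 / (H1 (py L m1) ((2 : ℝ) ^ s) * Real.log ((2 : ℝ) ^ s))) (V1 := Piy L m1 1)
    (div_pos (h2pow d) (h2pow s))
    (by rw [hlogS]; exact hlS1) (by rw [hlogS]; exact hlS2)
    (wt_theta tk_two hS1 hHpos) (fun j => Piy L m1 (k + j))
    (fun j => tk_nn L m1 (k + j)) (tk_nn L m1 1) (fun j => tk_step L m1 (k + j))
  refine htl.trans ?_
  have hZZ0 : 0 ≤ ZZ {j : ℕ // j ∈ R} (py L m1) (wt (py L m1) ((2 : ℝ) ^ s)) ((2 : ℝ) ^ d)
      (fun j => Piy L m1 (k + j)) :=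
    sum_nonneg fun σ _ => mul_nonneg (div_nonneg (sq_nonneg _)
      (prod_nonneg fun i _ => tk_ph (tk_two i))) (tk_nn L m1 _)
  apply mul_le_mul_of_nonneg_right _ hZZ0
  rw [hlogS, hcard]
  have hsdr : (s : ℝ) * ((r : ℝ) + 1) ^ 2 ≤ 200 * ((1000 : ℕ) : ℝ) * d := by
    exact_mod_cast pb.pl.sd
  have hLd : (L : ℝ) ≤ 200 * ((1000 : ℕ) : ℝ) * ((r : ℝ) + 1) * d := by
    exact_mod_cast pb.pl.L_le_d
  have h1 := tk_tail (CV := CV) (k := (R.card : ℝ)) (V1 := Piy L m1 1)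
    (H := H1 (py L m1) ((2 : ℝ) ^ s)) (G := G) (r := r)
    (N1 := ((1000 : ℕ) : ℝ)) (L := L) (s := s) (m1 := m1) (d := d) hCV hm hs1r hr
    (by norm_num) (by linarith) (Nat.cast_nonneg d) hkV
    (mul_nonneg (Nat.cast_nonneg _) (tk_nn L m1 1)) hH hG2 hLd hsdr
  rw [Real.rpow_natCast, Real.rpow_natCast] at h1
  exact h1

end Pool.Agent.ISO
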