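import Pool.Agent.ISO.SdJ
import Pool.Agent.ISO.SsI
import Pool.Agent.ISO.TrF
import Pool.Agent.ISO.IdI
import Pool.Agent.ISO.KillW
import Pool.Agent.ISO.TailK
import Pool.Agent.ISO.PsyInt
import Pool.Agent.AT.Prog

/-!
ISO/Ei3.  The mass of the `n` with a repelled prime.

Union bound over `j ∈ R`.  If `n + j` is prime then no `py` divides it and `psy (n + j) = 1`, so the weight is
`PT ψ a (insert (inl j) sR) n * GP p a ψ tL (ZA j) n ^ 2`, whose sum over an arithmetic progression is bounded by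
`tr_F` and `kill_I`.
-/

set_option autoImplicit false

open Finset Pool.Agent.RS Pool.Agent.AT Pool.Agent.VOID Pool.Agent.AV Pool.Agent.IPT

namespace Pool.Agent.ISO

variable {CV0 CV : ℝ} {G r k G' t0 P L M H : ℕ} {R : Finset ℕ} {t : Fin k → ℕ} {g s m1 d N : ℕ}

private theorem ei3_num {L X k T V τ δ2 o W CV0 CVa RRr m : ℝ} (hL : 10 ^ 6 ≤ L) (hX1 : 1 ≤ X)
    (hk0 : 0 ≤ k) (hk : k ≤ L) (hT : T ≤ 5 * X) (hT0 : 0 ≤ T) (hτ : 0 ≤ τ)
    (hδ : 0 ≤ δ2) (hm : 0 < m) (hV : k * V ≤ CV0 * (L / m)) (hLm : L ≤ RRr * m)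
    (hCV0 : 0 < CV0) (hCV : CV0 ≤ CVa) (hRR : 0 ≤ RRr)
    (hdl : 20 * CVa * RRr * δ2 ≤ 1 / (4 * L)) (ho : o ≤ 1 / L ^ 5)
    (hW : 1000 * L ^ 4 * W ≤ X) (hW0 : 0 ≤ W) :
    k * (T * (4 * V * (δ2 + τ) + 2 * o) + 2 * W) ≤ (20 * CV0 * RRr * τ + 1 / L) * X := by
  have hL0 : 0 < L := by linarith
  have h1 : k * V ≤ CV0 * RRr := by
    refine hV.trans (mul_le_mul_of_nonneg_left ?_ hCV0.le)
    rw [div_le_iff₀ hm]
    exact hLm
  have h2 : T * (4 * (k * V) * (δ2 + τ)) ≤ 5 * X * (4 * (CV0 * RRr) * (δ2 + τ)) := by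
    have h3 : 4 * (k * V) * (δ2 + τ) ≤ 4 * (CV0 * RRr) * (δ2 + τ) := by
      have h4 : 0 ≤ δ2 + τ := by linarith
      nlinarith
    have h5 : 0 ≤ 4 * (CV0 * RRr) * (δ2 + τ) := by
      have : 0 ≤ δ2 + τ := by linarith
      positivity
    exact (mul_le_mul_of_nonneg_left h3 hT0).trans (mul_le_mul_of_nonneg_right hT h5)
  have h6 : 20 * CV0 * RRr * δ2 ≤ 1 / (4 * L) := by
    have h7 : CV0 * RRr * δ2 ≤ CVa * RRr * δ2 :=
      mul_le_mul_of_nonneg_right (mul_le_mul_of_nonneg_right hCV hRR) hδ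
    linarith
  have h9 : k * (T * (2 * o)) ≤ X / (8 * L) := by
    have h10 : k * (T * (2 * o)) ≤ L * (5 * X * (2 * (1 / L ^ 5))) := by
      have h11 : T * (2 * o) ≤ T * (2 * (1 / L ^ 5)) :=
        mul_le_mul_of_nonneg_left (by linarith) hT0
      have h12 : 0 ≤ 2 * (1 / L ^ 5) := by positivity
      have h13 : T * (2 * (1 / L ^ 5)) ≤ 5 * X * (2 * (1 / L ^ 5)) :=
        mul_le_mul_of_nonneg_right hT h12
      have h14 : 0 ≤ 5 * X * (2 * (1 / L ^ 5)) := by positivity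
      exact (mul_le_mul_of_nonneg_left (h11.trans h13) hk0).trans
        (mul_le_mul_of_nonneg_right hk h14)
    refine h10.trans ?_
    have h15 : L * (5 * X * (2 * (1 / L ^ 5))) = X * (10 / L ^ 4) := by field_simp; norm_num
    have h16 : X / (8 * L) = X * (1 / (8 * L)) := by ring
    rw [h15, h16]
    apply mul_le_mul_of_nonneg_left _ (by linarith)
    rw [div_le_div_iff₀ (by positivity) (by positivity)]
    have h17 : L ^ 4 = L * (L * (L * L)) := by ring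
    have h18 : 80 ≤ L * L := by nlinarith
    have h19 : L ≤ L * (L * (L * L)) / 80 := by
      have h20 : 1 ≤ L * (L * L) / 80 := by
        rw [le_div_iff₀ (by norm_num)]
        nlinarith
      calc L = L * 1 := by ring
        _ ≤ L * (L * (L * L) / 80) := mul_le_mul_of_nonneg_left h20 hL0.le
        _ = L * (L * (L * L)) / 80 := by ring
    rw [h17]
    linarith
  have h21 : k * (2 * W) ≤ X / (8 * L) := by
    rw [le_div_iff₀ (by positivity)]
    have h22 : k * (2 * W) * (8 * L) ≤ L * (2 * W) * (8 * L) := by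
      apply mul_le_mul_of_nonneg_right _ (by positivity)
      exact mul_le_mul_of_nonneg_right hk (by positivity)
    have h23 : L * (2 * W) * (8 * L) = 16 * (L ^ 2 * W) := by ring
    have h24 : L ^ 2 * W ≤ L ^ 4 * W := by
      apply mul_le_mul_of_nonneg_right _ hW0
      exact pow_le_pow_right₀ (by linarith) (by norm_num)
    have h25 : 0 ≤ L ^ 4 * W := by positivity
    nlinarith
  have hX0 : 0 ≤ X := by linarith
  have e1 : k * (T * (4 * V * (δ2 + τ) + 2 * o) + 2 * W) =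
      T * (4 * (k * V) * (δ2 + τ)) + k * (T * (2 * o)) + k * (2 * W) := by ring
  have e2 : 5 * X * (4 * (CV0 * RRr) * (δ2 + τ)) =
      20 * CV0 * RRr * τ * X + (20 * CV0 * RRr * δ2) * X := by ring
  have e3 : (20 * CV0 * RRr * δ2) * X ≤ 1 / (4 * L) * X :=
    mul_le_mul_of_nonneg_right h6 hX0
  have e4 : X / (8 * L) = 1 / (8 * L) * X := by ring
  have e6 : 1 / (4 * L) * X + 1 / (8 * L) * X + 1 / (8 * L) * X ≤ 1 / L * X := by
    have e7 : 1 / L * X = 8 * (1 / (8 * L) * X) := by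
      field_simp
    have e7' : 1 / (4 * L) * X = 2 * (1 / (8 * L) * X) := by
      field_simp
      norm_num
    rw [e7, e7']
    have e8 : 0 ≤ 1 / (8 * L) * X := by positivity
    linarith
  have e9 : (20 * CV0 * RRr * τ + 1 / L) * X =
      20 * CV0 * RRr * τ * X + 1 / L * X := by ring
  rw [e1, e9]
  rw [e4] at h9 h21
  linarith

private theorem ei3_card (j : {j : ℕ // j ∈ R}) :
    (insert (Sum.inl j) (sR {j : ℕ // j ∈ R} (Fin k))).card = k + 1 := by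
  have h : (Sum.inl j : {j : ℕ // j ∈ R} ⊕ Fin k) ∉ sR {j : ℕ // j ∈ R} (Fin k) := by
    unfold sR
    rw [mem_map]
    rintro ⟨x, _, hx⟩
    exact Sum.inr_ne_inl hx
  rw [card_insert_of_notMem h, sR_card, Fintype.card_fin]

private theorem ei3_PT (ψ : ℤ → ℝ) (a : {j : ℕ // j ∈ R} ⊕ Fin k → ℤ) (j : {j : ℕ // j ∈ R}) (n : ℤ) :
    PT ψ a (insert (Sum.inl j) (sR {j : ℕ // j ∈ R} (Fin k))) n =
      ψ (n - a (Sum.inl j)) * PT ψ a (sR {j : ℕ // j ∈ R} (Fin k)) n := by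
  have h : (Sum.inl j : {j : ℕ // j ∈ R} ⊕ Fin k) ∉ sR {j : ℕ // j ∈ R} (Fin k) := by
    unfold sR
    rw [mem_map]
    rintro ⟨x, _, hx⟩
    exact Sum.inr_ne_inl hx
  unfold PT
  rw [prod_insert h]

private theorem ei3_union (j : {j : ℕ // j ∈ R}) (σ : Iy L m1 → Option ({j : ℕ // j ∈ R} ⊕ Fin k))
    (h : cell σ (Sum.inl j) = ∅) :
    (insert (Sum.inl j) (sR {j : ℕ // j ∈ R} (Fin k)) ∪ tL σ).card = k + 1 + (tL σ).card := by
  rw [card_union_of_disjoint, ei3_card]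
  rw [Finset.disjoint_insert_left]
  refine ⟨?_, sR_tL σ⟩
  intro h1
  exact (inl_tL σ j).1 h1 (by rw [← cell_inl, h])

open Classical in
private theorem ei3_one (si : SI CV0 CV G r k G' t0 P L M H R t g s m1 d N) (n0 : ℤ) (T : ℕ)
    (j : {j : ℕ // j ∈ R}) :
    ∑ x ∈ range T, PT (psy L m1 r) (a2 R t) (insert (Sum.inl j) (sR {j : ℕ // j ∈ R} (Fin k)))
        (n0 + M * (x : ℤ)) *
      GP (py L m1) (a2 R t) (psy L m1 r) tL
        (ZA (py L m1) (yy L m1 s) (yh (py L m1) t0 G') (2 ^ d) (2 ^ dd L) j) (n0 + M * (x : ℤ)) ^ 2 ≤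
    ((T : ℝ) * (4 * Piy L m1 1 * ((2 * (RR G r : ℝ) / 2 ^ m1) ^ 2 +
        Real.exp (1 - ((r : ℝ) + 1) ^ 2 / (400 * ((1000 : ℕ) : ℝ)))) + 2 * (1 / (L : ℝ) ^ 5)) +
        2 * (2 ^ (L / 100) * 2 ^ (L / 100))) *
        ZI L m1 s d R k t0 G' := by
  have sd := si.sd
  have pb := sd.pb
  have pl := pb.pl
  have hL6 := pb.big
  have hL2 : 2 ≤ L := by omega
  obtain ⟨a1, a2'⟩ := si_a si
  have hp2 : ∀ i, 2 ≤ py L m1 i := fun i => (py_mem i).1.two_le
  have hCV : 0 < CV := lt_of_lt_of_le sd.CV0pos sd.CVle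
  have hkV' : (R.card : ℝ) * Piy L m1 1 ≤ CV * (L / m1) := by
    refine sd.hkV.trans (mul_le_mul_of_nonneg_right sd.CVle (by positivity))
  have hy := hy_py (m1 := m1) hL2 (a2 R t) a1 a2'
  have hMc := hM_py (L := L) (m1 := m1) sd.hM
  have hss := ss_pyK pb sd.h4 (N2 := N + k) si.pi.Nk (a2 R t) a1 a2'
  have hC := si_cnt si (si_card si)
    (ZA (py L m1) (yy L m1 s) (yh (py L m1) t0 G') (2 ^ d) (2 ^ dd L) j)
    (fun σ hσ => ((si_ZA si j σ).2 hσ).1)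
  have htr := tr_F hy hMc hss (insert (Sum.inl j) (sR {j : ℕ // j ∈ R} (Fin k))) ∅
    (empty_subset _) tL (ZA (py L m1) (yy L m1 s) (yh (py L m1) t0 G') (2 ^ d) (2 ^ dd L) j)
    (fun σ => (si_ZA si j σ).1) (fun σ _ => disjoint_empty_left _)
    (fun σ hσ => ((si_ZA si j σ).2 hσ).2.1)
    (fun σ hσ => si_N2 si ((si_ZA si j σ).2 hσ).1)
    (by rw [ei3_card]; omega) hC n0 T
  have hZ0 : Piy L m1 k ≤ ZI L m1 s d R k t0 G' := si_ZI si
  have hPk := si_pos si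
  have hZpos : 0 < ZI L m1 s d R k t0 G' := lt_of_lt_of_le hPk hZ0
  -- main term
  have hmain : ∑ σ : Iy L m1 → Option ({j : ℕ // j ∈ R} ⊕ Fin k),
      ZA (py L m1) (yy L m1 s) (yh (py L m1) t0 G') (2 ^ d) (2 ^ dd L) j σ ^ 2 /
        PH (py L m1) (supp σ) * (2 * Piy L m1
          (insert (Sum.inl j) (sR {j : ℕ // j ∈ R} (Fin k)) ∪ tL σ).card) ≤
      2 * Piy L m1 1 * MZ (py L m1) (fun x => Piy L m1 (k + x)) tL
        (ZA (py L m1) (yy L m1 s) (yh (py L m1) t0 G') (2 ^ d) (2 ^ dd L) j :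
          (Iy L m1 → Option ({j : ℕ // j ∈ R} ⊕ Fin k)) → ℝ) := by
    unfold MZ
    rw [mul_sum]
    apply sum_le_sum
    intro σ _
    by_cases hz : ZA (py L m1) (yy L m1 s) (yh (py L m1) t0 G') (2 ^ d) (2 ^ dd L) j σ = 0
    · rw [hz]
      simp
    · rw [ei3_union j σ ((si_ZA si j σ).2 hz).2.2]
      have h1 : Piy L m1 (k + 1 + (tL σ).card) ≤ Piy L m1 1 * Piy L m1 (k + (tL σ).card) := by
        have h2 := piy_step L m1 (k + (tL σ).card)
        have h3 : k + (tL σ).card + 1 = k + 1 + (tL σ).card := by omega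
        rw [h3] at h2
        exact h2
      have h4 : 0 ≤ ZA (py L m1) (yy L m1 s) (yh (py L m1) t0 G') (2 ^ d) (2 ^ dd L) j σ ^ 2 /
          PH (py L m1) (supp σ) := by
        apply div_nonneg (sq_nonneg _)
        unfold PH
        apply prod_nonneg
        intro i _
        have h5 : (2 : ℝ) ≤ py L m1 i := by exact_mod_cast hp2 i
        linarith
      have h6 := mul_le_mul_of_nonneg_left (mul_le_mul_of_nonneg_left h1 (by norm_num : (0 : ℝ) ≤ 2)) h4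
      refine h6.trans (le_of_eq ?_)
      ring
  have hkill := kill_I (α := {j : ℕ // j ∈ R}) (β := Fin k) hp2 (W := fun x => Piy L m1 (k + x))
    (fun x => piy_nn L m1 _) (fun i j' h => piy_anti L m1 _ _ (by omega))
    (yR := yy L m1 s) (yH := yh (py L m1) t0 G') (DR := 2 ^ d) (DH := 2 ^ dd L)
    (D2 := 2 ^ d / 2 ^ s) (δ := 2 * (RR G r : ℝ) / 2 ^ m1)
    (θ := Real.exp (1 - ((r : ℝ) + 1) ^ 2 / (400 * ((1000 : ℕ) : ℝ))))
    (fun V U hV => si_cg1 si V U hV) (fun σ h1 h2 => si_cg2 si σ h1 h2)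
    (div_le_self (by positivity) (one_le_pow₀ (by norm_num)))
    (Real.exp_pos _).le (tail_k pb hCV sd.hG2 sd.hG3 hkV' k)
    (fun S T' h => (si_mono si S T' h).1) (fun S T' h => (si_mono si S T' h).2) (si_sq si) j
  have hoff := offB_le pb ({j : ℕ // j ∈ R} ⊕ Fin k) (si_card si)
    (N' := (d + dd L) / m1) si.pi.N2
  have hV0 : 0 ≤ Piy L m1 1 := piy_nn L m1 1
  have hw3 := si.pi.w3
  -- assemble
  have hPT : ∀ n : ℤ, PT (psy L m1 r) (a2 R t) ∅ n = 1 := fun n => by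
    unfold PT
    rw [prod_empty]
  simp only [hPT, mul_one, card_empty, add_zero, ei3_card] at htr
  refine htr.trans ?_
  have m1' : ∑ σ : Iy L m1 → Option ({j : ℕ // j ∈ R} ⊕ Fin k),
      ZA (py L m1) (yy L m1 s) (yh (py L m1) t0 G') (2 ^ d) (2 ^ dd L) j σ ^ 2 /
        PH (py L m1) (supp σ) * (2 * Piy L m1
          (insert (Sum.inl j) (sR {j : ℕ // j ∈ R} (Fin k)) ∪ tL σ).card) ≤
      4 * Piy L m1 1 * ((2 * (RR G r : ℝ) / 2 ^ m1) ^ 2 +
        Real.exp (1 - ((r : ℝ) + 1) ^ 2 / (400 * ((1000 : ℕ) : ℝ)))) * ZI L m1 s d R k t0 G' := by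
    refine hmain.trans ?_
    refine (mul_le_mul_of_nonneg_left hkill (mul_nonneg (by norm_num) hV0)).trans (le_of_eq ?_)
    unfold ZI YI
    ring
  have m2 : 2 * Piy L m1 (k + 1) * offB ({j : ℕ // j ∈ R} ⊕ Fin k) (py L m1) ((d + dd L) / m1)
      ((2 : ℝ) ^ m1) ≤ 2 * (1 / (L : ℝ) ^ 5) * ZI L m1 s d R k t0 G' := by
    have h1 : Piy L m1 (k + 1) ≤ ZI L m1 s d R k t0 G' :=
      (piy_anti L m1 _ _ (by omega)).trans hZ0
    have h2 : 0 ≤ Piy L m1 (k + 1) := piy_nn L m1 _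
    have h3 : (0 : ℝ) ≤ 1 / (L : ℝ) ^ 5 := by positivity
    calc 2 * Piy L m1 (k + 1) * offB ({j : ℕ // j ∈ R} ⊕ Fin k) (py L m1) ((d + dd L) / m1)
          ((2 : ℝ) ^ m1) ≤ 2 * Piy L m1 (k + 1) * (1 / (L : ℝ) ^ 5) :=
          mul_le_mul_of_nonneg_left hoff (by positivity)
      _ = 2 * (1 / (L : ℝ) ^ 5) * Piy L m1 (k + 1) := by ring
      _ ≤ _ := mul_le_mul_of_nonneg_left h1 (by positivity)
  have m3 : ((2 : ℝ) ^ (m1 * (4 * r + 4))) ^ (k + 1) * (2 * (2 ^ d * 2 ^ dd L) ^ 2 *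
      (3 ^ ((d + dd L) / m1) * (2 ^ (m1 * (4 * r + 4))) ^ N)) ^ 2 ≤
      2 ^ (L / 100) * 2 ^ (L / 100) * ZI L m1 s d R k t0 G' := by
    have h1 : (3 : ℝ) ^ ((d + dd L) / m1) ≤ 3 ^ RR G r :=
      pow_le_pow_right₀ (by norm_num) si.pi.N2
    have h2 : ((2 : ℝ) ^ (m1 * (4 * r + 4))) ^ (k + 1) * (2 * (2 ^ d * 2 ^ dd L) ^ 2 *
      (3 ^ ((d + dd L) / m1) * (2 ^ (m1 * (4 * r + 4))) ^ N)) ^ 2 ≤ 2 ^ (L / 100) := by
      refine le_trans ?_ hw3
      apply mul_le_mul_of_nonneg_left _ (by positivity)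
      apply pow_le_pow_left₀ (by positivity)
      apply mul_le_mul_of_nonneg_left _ (by positivity)
      exact mul_le_mul_of_nonneg_right h1 (by positivity)
    have h3 : (1 : ℝ) ≤ 2 ^ (L / 100) * ZI L m1 s d R k t0 G' :=
      si.pik.trans (mul_le_mul_of_nonneg_left hZ0 (by positivity))
    calc _ ≤ (2 : ℝ) ^ (L / 100) * 1 := by rw [mul_one]; exact h2
      _ ≤ 2 ^ (L / 100) * (2 ^ (L / 100) * ZI L m1 s d R k t0 G') :=
        mul_le_mul_of_nonneg_left h3 (by positivity)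
      _ = _ := by ring
  have m4 := mul_le_mul_of_nonneg_left (add_le_add m1' m2) (Nat.cast_nonneg (α := ℝ) T)
  have m5 := mul_le_mul_of_nonneg_left m3 (by norm_num : (0 : ℝ) ≤ 2)
  refine (add_le_add m4 m5).trans (le_of_eq ?_)
  ring

open Classical in
theorem ei3 (si : SI CV0 CV G r k G' t0 P L M H R t g s m1 d N) (b : ℕ) :
    ∑ n ∈ (Nw P H M b).filter (fun n => ∃ j ∈ R, (n + j).Prime),
      wI L m1 s d r R t t0 G' (n : ℤ) ≤
      (20 * CV0 * RR G r * Real.exp (1 - ((r : ℝ) + 1) ^ 2 / (400 * ((1000 : ℕ) : ℝ))) + 1 / L) *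
        ((P : ℝ) / M) * ZI L m1 s d R k t0 G' := by
  have sd := si.sd
  have pb := sd.pb
  have pl := pb.pl
  have hL6 := pb.big
  have hL2 : 2 ≤ L := by omega
  have hm1 : 1 ≤ m1 := pl.m_pos
  obtain ⟨z1, -, -, z4, z5, z6, z7⟩ := sz sd.hL hL6 sd.hM0 sd.hMP sd.hH
  obtain ⟨-, w2⟩ := sz_w hL6
  obtain ⟨n0, T, hT, hprog⟩ := prog sd.hM0 z5 b
  have hp2 : ∀ i, 2 ≤ py L m1 i := fun i => (py_mem i).1.two_le
  have hcard : Fintype.card {j : ℕ // j ∈ R} = R.card := Fintype.card_coe R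
  have hψ0 : ∀ m, 0 ≤ psy L m1 r m := fun m => psy_nn L m1 r m
  have hPT0 : ∀ (S : Finset ({j : ℕ // j ∈ R} ⊕ Fin k)) (n : ℤ),
      0 ≤ PT (psy L m1 r) (a2 R t) S n := fun S n => prod_nonneg fun _ _ => hψ0 _
  have hw0 : ∀ n : ℤ, 0 ≤ wI L m1 s d r R t t0 G' n := fun n =>
    mul_nonneg (hPT0 _ _) (sq_nonneg _)
  have hpr := hprog (fun n => wI L m1 s d r R t t0 G' n)
    (fun n => ∃ j : {j : ℕ // j ∈ R}, psy L m1 r (n - a2 R t (Sum.inl j)) = 1 ∧
      ∀ i, ¬ (py L m1 i : ℤ) ∣ n - a2 R t (Sum.inl j)) hw0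
  refine le_trans (sum_le_sum_of_subset_of_nonneg ?_ fun n _ _ => hw0 _) (hpr.trans ?_)
  · intro n hn
    obtain ⟨hn1, j, hj, hjp⟩ := mem_filter.1 hn
    have hbig := (z7 b n hn1).1
    have hcast : (n : ℤ) - a2 R t (Sum.inl ⟨j, hj⟩) = ((n + j : ℕ) : ℤ) := by
      unfold a2
      simp only [Sum.elim_inl]
      push_cast
      ring
    simp only [Finset.mem_filter]
    refine ⟨hn1, ⟨j, hj⟩, ?_, ?_⟩
    · rw [hcast]
      apply psy_prime hjp
      have h4 : 2 ^ m1 ≤ 2 ^ dd L :=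
        Nat.pow_le_pow_right (by norm_num) (pl.m_le_s.trans pb.s_le)
      omega
    · intro i hdvd
      rw [hcast, Int.natCast_dvd_natCast] at hdvd
      have h1 := py_mem i
      have h2 := (Nat.prime_dvd_prime_iff_eq h1.1 hjp).1 hdvd
      have h3 := h1.2.2.1
      omega
  · have hstep : ∑ x ∈ (range T).filter (fun x : ℕ => ∃ j : {j : ℕ // j ∈ R},
        psy L m1 r (n0 + M * (x : ℤ) - a2 R t (Sum.inl j)) = 1 ∧
          ∀ i, ¬ (py L m1 i : ℤ) ∣ n0 + M * (x : ℤ) - a2 R t (Sum.inl j)),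
          wI L m1 s d r R t t0 G' (n0 + M * (x : ℤ)) ≤
        ∑ x ∈ range T, ∑ m : {j : ℕ // j ∈ R},
          PT (psy L m1 r) (a2 R t) (insert (Sum.inl m) (sR {j : ℕ // j ∈ R} (Fin k)))
            (n0 + M * (x : ℤ)) *
          GP (py L m1) (a2 R t) (psy L m1 r) tL
            (ZA (py L m1) (yy L m1 s) (yh (py L m1) t0 G') (2 ^ d) (2 ^ dd L) m)
            (n0 + M * (x : ℤ)) ^ 2 := by
      rw [sum_filter]
      apply sum_le_sum
      intro x _
      have hnn : ∀ m ∈ (univ : Finset {j : ℕ // j ∈ R}), 0 ≤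
          PT (psy L m1 r) (a2 R t) (insert (Sum.inl m) (sR {j : ℕ // j ∈ R} (Fin k)))
            (n0 + M * (x : ℤ)) *
          GP (py L m1) (a2 R t) (psy L m1 r) tL
            (ZA (py L m1) (yy L m1 s) (yh (py L m1) t0 G') (2 ^ d) (2 ^ dd L) m)
            (n0 + M * (x : ℤ)) ^ 2 := fun m _ => mul_nonneg (hPT0 _ _) (sq_nonneg _)
      split_ifs with hcond
      · obtain ⟨j, hj1, hj2⟩ := hcond
        have h1 : gI L m1 s d r R t t0 G' (n0 + M * (x : ℤ)) =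
            GP (py L m1) (a2 R t) (psy L m1 r) tL
              (ZA (py L m1) (yy L m1 s) (yh (py L m1) t0 G') (2 ^ d) (2 ^ dd L) j)
              (n0 + M * (x : ℤ)) :=
          id_AI hp2 (a2 R t) (psy L m1 r) (yy L m1 s) (yh (py L m1) t0 G') (wt_empty _ _)
            (2 ^ d) (2 ^ dd L) j _ hj2 hj1
        have h2 := single_le_sum hnn (mem_univ j)
        refine le_trans (le_of_eq ?_) h2
        unfold wI
        rw [ei3_PT, hj1, one_mul, h1]
      · exact sum_nonneg hnn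
    refine (le_of_eq (sum_congr ?_ fun _ _ => rfl)).trans (hstep.trans ?_)
    · ext x
      simp only [mem_filter]
    rw [sum_comm]
    refine (sum_le_sum fun m _ => ei3_one si n0 T m).trans ?_
    rw [sum_const, card_univ, hcard, nsmul_eq_mul]
    have hT5 : (T : ℝ) ≤ 5 * ((P : ℝ) / M) := by
      have h4 : 4 * (P : ℝ) / M = 4 * ((P : ℝ) / M) := by ring
      rw [h4] at hT
      linarith
    have hLr : (10 : ℝ) ^ 6 ≤ L := by exact_mod_cast hL6
    have hLm : (L : ℝ) ≤ (RR G r : ℝ) * m1 := by exact_mod_cast pl.L_le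
    have hm1r : (0 : ℝ) < m1 := by exact_mod_cast hm1
    have hdl : 20 * |CV| * (RR G r : ℝ) * (2 * (RR G r : ℝ) / 2 ^ m1) ^ 2 ≤ 1 / (4 * (L : ℝ)) :=
      pb.dl
    have hZ0 : 0 ≤ ZI L m1 s d R k t0 G' := (si_pos si).le.trans (si_ZI si)
    have hW : 1000 * (L : ℝ) ^ 4 * (2 ^ (L / 100) * 2 ^ (L / 100)) ≤ (P : ℝ) / M := by
      refine le_trans ?_ (w2.trans z1)
      have h1 : (1 : ℝ) ≤ 2 ^ (5 * (L / 10) + 5) := one_le_pow₀ (by norm_num)
      have h2 : 0 ≤ (L : ℝ) ^ 4 * 2 ^ (L / 100) * 2 ^ (L / 100) := by positivity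
      nlinarith
    have hfin := ei3_num hLr z6 (Nat.cast_nonneg R.card) (by exact_mod_cast sd.hkL) hT5
      (Nat.cast_nonneg _)
      (Real.exp_pos (1 - ((r : ℝ) + 1) ^ 2 / (400 * ((1000 : ℕ) : ℝ)))).le (sq_nonneg _) hm1r
      sd.hkV hLm sd.CV0pos
      (sd.CVle.trans (le_abs_self CV)) (Nat.cast_nonneg _) hdl (le_refl (1 / (L : ℝ) ^ 5)) hW
      (by positivity)
    have := mul_le_mul_of_nonneg_right hfin hZ0
    refine le_trans (le_of_eq ?_) this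
    ring

end Pool.Agent.ISO
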