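import Pool.Agent.ISO.Defs
import Pool.Agent.IPT.Split
import Pool.Agent.VOID.Sup

/-!
ISO/SupI.  Pointwise bound of `GP .. tL (Y2 ..)`.
Every term is bounded by a product over the sites, and the sum over all `σ` by a product of sums.
-/

set_option autoImplicit false

open Finset Pool.Agent.RS Pool.Agent.VOID Pool.Agent.IPT

namespace Pool.Agent.ISO

variable {ι α β : Type} [Fintype ι] [DecidableEq ι] [DecidableEq α] [DecidableEq β] [Fintype α]
  [Fintype β]

omit [Fintype ι] [DecidableEq ι] [Fintype α] [Fintype β] in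
private theorem abs_Yd {κ : Type} [DecidableEq κ] [Fintype κ] [Fintype ι] [DecidableEq ι] (p : ι → ℕ)
    (y : Finset ι → ℝ) (D : ℝ) (σ : ι → Option κ) : |Yd p y D σ| ≤ ∏ j, |y (cell σ j)| := by
  rw [← abs_prod]
  unfold Yd
  split_ifs
  · exact le_rfl
  · rw [abs_zero]
    exact abs_nonneg _

omit [DecidableEq ι] in
private theorem sup_inj' {κ : Type} [DecidableEq κ] :
    Function.Injective (fun (σ : ι → Option κ) (j : κ) => cell σ j) := by
  intro σ τ h
  funext i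
  have h1 : ∀ j, σ i = some j ↔ τ i = some j := by
    intro j
    have h2 := congrFun h j
    simp only at h2
    rw [← mem_cell, ← mem_cell, h2]
  cases hs : σ i with
  | none =>
    cases ht : τ i with
    | none => rfl
    | some j =>
      have := (h1 j).2 ht
      rw [hs] at this
      exact absurd this (by simp)
  | some j => exact ((h1 j).1 hs).symm

open Classical in
private theorem term_I {p : ι → ℕ} (a : α ⊕ β → ℤ) {ψ : ℤ → ℝ} (yR yH : Finset ι → ℝ) (hR0 : yR ∅ = 1)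
    (hH0 : yH ∅ = 1) (DR DH : ℝ) (n : ℤ) (hψ : ∀ m, 0 ≤ ψ m) (σ : ι → Option (α ⊕ β)) :
    |Y2 p yR yH DR DH σ * (PT ψ a (tL σ) n * EE p a σ n)| ≤
      (∏ j : α, (if cell σ (Sum.inl j) = ∅ then 1 else |yR (cell σ (Sum.inl j))| *
        ψ (n - a (Sum.inl j)) * ∏ i ∈ cell σ (Sum.inl j), |ee (p i) (n - a (Sum.inl j))|)) *
      ∏ m : β, (if cell σ (Sum.inr m) = ∅ then 1 else |yH (cell σ (Sum.inr m))| *
        1 * ∏ i ∈ cell σ (Sum.inr m), |ee (p i) (n - a (Sum.inr m))|) := by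
  have h1 : |Y2 p yR yH DR DH σ| ≤ (∏ j : α, |yR (cell σ (Sum.inl j))|) *
      ∏ m : β, |yH (cell σ (Sum.inr m))| := by
    unfold Y2
    rw [abs_mul]
    refine mul_le_mul ?_ ?_ (abs_nonneg _) (prod_nonneg fun _ _ => abs_nonneg _)
    · refine (abs_Yd p yR DR (lp σ)).trans_eq (prod_congr rfl fun j _ => ?_)
      rw [cell_inl]
    · refine (abs_Yd p yH DH (rp σ)).trans_eq (prod_congr rfl fun j _ => ?_)
      rw [cell_inr]
  have h2 : |PT ψ a (tL σ) n| = ∏ j : α, (if cell σ (Sum.inl j) = ∅ then 1 else ψ (n - a (Sum.inl j))) := by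
    have h2' : PT ψ a (tL σ) n =
        ∏ j : α, (if cell σ (Sum.inl j) = ∅ then 1 else ψ (n - a (Sum.inl j))) := by
      unfold PT tL Tc
      rw [prod_map, prod_filter]
      refine prod_congr rfl fun j _ => ?_
      rw [cell_inl]
      by_cases h : cell (lp σ) j = ∅
      · simp [h]
      · simp [h]
    rw [h2', abs_of_nonneg]
    refine prod_nonneg fun j _ => ?_
    split_ifs
    · exact zero_le_one
    · exact hψ _
  have h3 : |EE p a σ n| = (∏ j : α, ∏ i ∈ cell σ (Sum.inl j), |ee (p i) (n - a (Sum.inl j))|) *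
      ∏ m : β, ∏ i ∈ cell σ (Sum.inr m), |ee (p i) (n - a (Sum.inr m))| := by
    have h3' : |EE p a σ n| = ∏ x, ∏ i ∈ cell σ x, |ee (p i) (n - a x)| := by
      unfold EE cell
      rw [abs_prod]
      simp only [prod_filter]
      rw [prod_comm]
      refine prod_congr rfl fun i _ => ?_
      cases h : σ i with
      | none => simp [eo]
      | some j0 =>
        rw [prod_eq_single j0]
        · simp [eo]
        · intro b _ hb
          rw [if_neg]
          intro h'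
          exact hb (Option.some.inj h').symm
        · intro h'
          exact absurd (mem_univ _) h'
    rw [h3', Fintype.prod_sum_type]
  rw [abs_mul, abs_mul, h2, h3]
  have h4 : ∀ (y : Finset ι → ℝ) (y0 : y ∅ = 1) (S : Finset ι) (c d : ℝ) (_ : S = ∅ → d = 1),
      (if S = ∅ then (1 : ℝ) else |y S| * c * d) = |y S| * ((if S = ∅ then 1 else c) * d) := by
    intro y y0 S c d hd
    by_cases h : S = ∅
    · rw [if_pos h, if_pos h, hd h, h, y0, abs_one]
      ring
    · rw [if_neg h, if_neg h]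
      ring
  have h5 : (∏ j : α, (if cell σ (Sum.inl j) = ∅ then (1 : ℝ) else |yR (cell σ (Sum.inl j))| *
        ψ (n - a (Sum.inl j)) * ∏ i ∈ cell σ (Sum.inl j), |ee (p i) (n - a (Sum.inl j))|)) =
      (∏ j : α, |yR (cell σ (Sum.inl j))|) *
        ((∏ j : α, (if cell σ (Sum.inl j) = ∅ then 1 else ψ (n - a (Sum.inl j)))) *
        ∏ j : α, ∏ i ∈ cell σ (Sum.inl j), |ee (p i) (n - a (Sum.inl j))|) := by
    rw [← prod_mul_distrib, ← prod_mul_distrib]
    exact prod_congr rfl fun j _ => h4 yR hR0 _ _ _ fun h => by rw [h, prod_empty]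
  have h6 : (∏ m : β, (if cell σ (Sum.inr m) = ∅ then (1 : ℝ) else |yH (cell σ (Sum.inr m))| *
        1 * ∏ i ∈ cell σ (Sum.inr m), |ee (p i) (n - a (Sum.inr m))|)) =
      (∏ m : β, |yH (cell σ (Sum.inr m))|) *
        ∏ m : β, ∏ i ∈ cell σ (Sum.inr m), |ee (p i) (n - a (Sum.inr m))| := by
    rw [← prod_mul_distrib]
    refine prod_congr rfl fun m _ => ?_
    rw [h4 yH hH0 _ _ _ fun h => by rw [h, prod_empty]]
    congr 1
    split_ifs
    · rw [one_mul]
    · rw [one_mul]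
  rw [h5, h6]
  have n1 : 0 ≤ ∏ j : α, (if cell σ (Sum.inl j) = ∅ then (1 : ℝ) else ψ (n - a (Sum.inl j))) := by
    refine prod_nonneg fun j _ => ?_
    split_ifs
    · exact zero_le_one
    · exact hψ _
  have n2 : 0 ≤ ∏ j : α, ∏ i ∈ cell σ (Sum.inl j), |ee (p i) (n - a (Sum.inl j))| :=
    prod_nonneg fun j _ => prod_nonneg fun i _ => abs_nonneg _
  have n3 : 0 ≤ ∏ m : β, ∏ i ∈ cell σ (Sum.inr m), |ee (p i) (n - a (Sum.inr m))| :=
    prod_nonneg fun j _ => prod_nonneg fun i _ => abs_nonneg _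
  refine (mul_le_mul_of_nonneg_right h1 (mul_nonneg n1 (mul_nonneg n2 n3))).trans_eq ?_
  ring

open Classical in
theorem sup_I {p : ι → ℕ} (a : α ⊕ β → ℤ) {ψ : ℤ → ℝ} (yR yH : Finset ι → ℝ) (hR0 : yR ∅ = 1)
    (hH0 : yH ∅ = 1) (DR DH : ℝ) {B : ℝ} (n : ℤ) (hψ : ∀ m, 0 ≤ ψ m)
    (hBR : ∀ j : α, ∑ S ∈ (univ : Finset (Finset ι)).filter (fun S => S ≠ ∅),
      |yR S| * ∏ i ∈ S, |ee (p i) (n - a (Sum.inl j))| ≤ B)
    (hBH : ∀ m : β, ∑ S ∈ (univ : Finset (Finset ι)).filter (fun S => S ≠ ∅),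
      |yH S| * ∏ i ∈ S, |ee (p i) (n - a (Sum.inr m))| ≤ B) :
    |GP p a ψ tL (Y2 p yR yH DR DH) n| ≤
      Real.exp (B * (∑ j : α, ψ (n - a (Sum.inl j)) + Fintype.card β)) := by
  obtain ⟨y, hy⟩ : ∃ y : α ⊕ β → Finset ι → ℝ, y = Sum.elim (fun _ => yR) (fun _ => yH) := ⟨_, rfl⟩
  obtain ⟨c, hc⟩ : ∃ c : α ⊕ β → ℝ, c = Sum.elim (fun j => ψ (n - a (Sum.inl j))) (fun _ => 1) :=
    ⟨_, rfl⟩
  obtain ⟨w, hw⟩ : ∃ w : α ⊕ β → Finset ι → ℝ, w = fun x S => if S = ∅ then 1 else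
    |y x S| * c x * ∏ i ∈ S, |ee (p i) (n - a x)| := ⟨_, rfl⟩
  have hc0 : ∀ x, 0 ≤ c x := by
    rintro (j | m)
    · rw [hc]
      exact hψ _
    · rw [hc]
      exact zero_le_one
  have hw0 : ∀ x S, 0 ≤ w x S := by
    intro x S
    rw [hw]
    simp only
    split_ifs
    · exact zero_le_one
    · exact mul_nonneg (mul_nonneg (abs_nonneg _) (hc0 x)) (prod_nonneg fun i _ => abs_nonneg _)
  have hB : ∀ x, ∑ S ∈ (univ : Finset (Finset ι)).filter (fun S => S ≠ ∅),
      |y x S| * ∏ i ∈ S, |ee (p i) (n - a x)| ≤ B := by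
    rintro (j | m)
    · rw [hy]
      exact hBR j
    · rw [hy]
      exact hBH m
  have h1 : |GP p a ψ tL (Y2 p yR yH DR DH) n| ≤ ∑ σ : ι → Option (α ⊕ β), ∏ x, w x (cell σ x) := by
    unfold GP
    refine (abs_sum_le_sum_abs _ _).trans (sum_le_sum fun σ _ => ?_)
    rw [Fintype.prod_sum_type, hw, hy, hc]
    exact term_I a yR yH hR0 hH0 DR DH n hψ σ
  have h2 : ∑ σ : ι → Option (α ⊕ β), ∏ x, w x (cell σ x) ≤
      ∑ f : α ⊕ β → Finset ι, ∏ x, w x (f x) := by
    have h3 : ∑ σ : ι → Option (α ⊕ β), ∏ x, w x (cell σ x) =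
        ∑ f ∈ (univ : Finset (ι → Option (α ⊕ β))).map ⟨_, sup_inj'⟩, ∏ x, w x (f x) := by
      rw [sum_map]
      rfl
    rw [h3]
    exact sum_le_sum_of_subset_of_nonneg (subset_univ _)
      fun f _ _ => prod_nonneg fun x _ => hw0 x _
  have h3 : ∑ f : α ⊕ β → Finset ι, ∏ x, w x (f x) = ∏ x, ∑ S, w x S := by
    rw [prod_univ_sum, Fintype.piFinset_univ]
  have h4 : ∀ x, ∑ S, w x S ≤ Real.exp (B * c x) := by
    intro x
    have h5 : ∑ S, w x S = 1 + c x *
        ∑ S ∈ (univ : Finset (Finset ι)).filter (fun S => S ≠ ∅),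
          |y x S| * ∏ i ∈ S, |ee (p i) (n - a x)| := by
      rw [← add_sum_erase (univ : Finset (Finset ι)) (w x) (mem_univ ∅), mul_sum]
      have hw1 : w x ∅ = 1 := by simp [hw]
      have hw2 : ∑ S ∈ univ.erase ∅, w x S =
          ∑ S ∈ (univ : Finset (Finset ι)).filter (fun S => S ≠ ∅),
            c x * (|y x S| * ∏ i ∈ S, |ee (p i) (n - a x)|) := by
        refine sum_congr ?_ fun S hS => ?_
        · ext S
          simp
        · have hS' : S ≠ ∅ := (mem_filter.1 hS).2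
          simp only [hw]
          rw [if_neg hS']
          ring
      rw [hw1, hw2]
    rw [h5]
    have h6 := mul_le_mul_of_nonneg_left (hB x) (hc0 x)
    have h7 := Real.add_one_le_exp (B * c x)
    linarith
  have h8 : ∑ x, c x = ∑ j : α, ψ (n - a (Sum.inl j)) + Fintype.card β := by
    rw [Fintype.sum_sum_type, hc]
    simp
  calc |GP p a ψ tL (Y2 p yR yH DR DH) n| ≤ ∏ x, ∑ S, w x S := h1.trans (h2.trans_eq h3)
    _ ≤ ∏ x, Real.exp (B * c x) :=
        prod_le_prod (fun x _ => sum_nonneg fun S _ => hw0 x S) fun x _ => h4 x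
    _ = Real.exp (B * (∑ j : α, ψ (n - a (Sum.inl j)) + Fintype.card β)) := by
        rw [← Real.exp_sum, ← mul_sum, h8]

end Pool.Agent.ISO
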