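import Pool.Agent.AV.H1f

/-!
ISO/SupY.  `sup_y` (AV/H1f) for arbitrary bounded coefficients, with the same proof.
-/

set_option autoImplicit false

open Finset Pool.Agent.RS Pool.Agent.AT Pool.Agent.VOID Pool.Agent.AV

namespace Pool.Agent.ISO

attribute [local irreducible] RR

private theorem two_le_py {L m1 : ℕ} (i : Iy L m1) : 2 ≤ py L m1 i := (py_mem i).1.two_le

theorem sup_any {CV : ℝ} {G r L g s m1 d N : ℕ} (pb : PB CV G r L g s m1 d N)
    {y : Finset (Iy L m1) → ℝ} (hy : ∀ S, |y S| ≤ 1) {m : ℤ} (hm0 : m ≠ 0)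
    (hmL : |m| ≤ 2 ^ (L + 4)) :
    ∑ S ∈ (univ : Finset (Finset (Iy L m1))).filter (fun S => S ≠ ∅),
      |y S| * ∏ i ∈ S, |ee (py L m1 i) m| ≤ 2 ^ (RR G r + 4) * E2 G r := by
  have h1 : ∑ S ∈ (univ : Finset (Finset (Iy L m1))).filter (fun S => S ≠ ∅),
        |y S| * ∏ i ∈ S, |ee (py L m1 i) m| ≤
      ∑ S : Finset (Iy L m1), ∏ i ∈ S, |ee (py L m1 i) m| := by
    refine le_trans (sum_le_sum (g := fun S => ∏ i ∈ S, |ee (py L m1 i) m|) fun S _ => ?_) ?_
    · exact mul_le_of_le_one_left (prod_nonneg fun _ _ => abs_nonneg _) (hy S)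
    · exact sum_le_sum_of_subset_of_nonneg (filter_subset _ _)
        fun S _ _ => prod_nonneg fun _ _ => abs_nonneg _
  have hm := pb.pl.m_pos
  have hLle := pb.pl.L_le
  refine h1.trans ((sumE (R := RR G r + 4) two_le_py m ?_).trans ?_)
  · intro U hU
    have h2 := card_dvd (fun i => (py_mem i).1) (py_inj L m1) (z := m1) (A := L + 4)
      (fun i => (py_mem i).2.1.le) hm0 hmL U hU
    by_contra hcon
    push Not at hcon
    have h3 : m1 * (RR G r + 5) ≤ m1 * U.card := Nat.mul_le_mul_left _ hcon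
    have h4 : m1 * (RR G r + 5) = RR G r * m1 + 5 * m1 := by ring
    omega
  · exact mul_le_mul_of_nonneg_left (py_prod hm hLle) (by positivity)

end Pool.Agent.ISO
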