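import Pool.Agent.ISO.SdJ
import Pool.Agent.ISO.SsI
import Pool.Agent.ISO.TrF
import Pool.Agent.ISO.SupI
import Pool.Agent.ISO.SupY
import Pool.Agent.ISO.PsyInt
import Pool.Agent.AT.Prog

/-!
ISO/Ei4.  The `n` with many almost prime neighbours carry little mass; the weight of the other `n` is bounded.
-/

set_option autoImplicit false

open Finset Pool.Agent.RS Pool.Agent.AT Pool.Agent.VOID Pool.Agent.AV Pool.Agent.IPT

namespace Pool.Agent.ISO

/-- the sum of the values of the small sieve at all sites -/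
noncomputable def XI (L m1 r : ℕ) (R : Finset ℕ) {k : ℕ} (t : Fin k → ℕ) (n : ℤ) : ℝ :=
  ∑ x : {j : ℕ // j ∈ R} ⊕ Fin k, psy L m1 r (n - a2 R t x)

variable {CV0 CV : ℝ} {G r k G' t0 P L M H : ℕ} {R : Finset ℕ} {t : Fin k → ℕ} {g s m1 d N : ℕ}

theorem wI_nn (L m1 s d r : ℕ) (R : Finset ℕ) {k : ℕ} (t : Fin k → ℕ) (t0 G' : ℕ) (n : ℤ) :
    0 ≤ wI L m1 s d r R t t0 G' n := by
  unfold wI PT
  exact mul_nonneg (prod_nonneg fun _ _ => psy_nn _ _ _ _) (sq_nonneg _)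

theorem XI_nn (L m1 r : ℕ) (R : Finset ℕ) {k : ℕ} (t : Fin k → ℕ) (n : ℤ) :
    0 ≤ XI L m1 r R t n := by
  unfold XI
  exact sum_nonneg fun _ _ => psy_nn _ _ _ _

private theorem ei4_num {A Z X Lr q o W T k : ℝ} (hZ : 0 ≤ Z) (hX : 1 ≤ X) (hL : 10 ^ 6 ≤ Lr)
    (hk0 : 0 ≤ k) (hkL : k ≤ Lr) (hT0 : 0 ≤ T) (hT : T ≤ 5 * X) (hA' : q ≤ 2 * A)
    (hq : 0 ≤ q) (ho : o ≤ 1 / Lr ^ 5) (hW0 : 0 ≤ W) (hWZ : 1 ≤ W * Z)
    (hWX : 10000 * Lr ^ 4 * W * W ≤ X) :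
    T * (q * Z + 2 * k * Z * o) + 2 * k * W ≤ (10 * A + 1) * X * Z := by
  have hLr : 0 < Lr := by linarith
  have h1 : T * (q * Z) ≤ 10 * A * X * Z := by
    calc T * (q * Z) ≤ 5 * X * (2 * A * Z) := by
          refine mul_le_mul hT ?_ (mul_nonneg hq hZ) (by positivity)
          exact mul_le_mul_of_nonneg_right hA' hZ
      _ = 10 * A * X * Z := by ring
  have h2 : T * (2 * k * Z * o) ≤ X * Z / 2 := by
    have h3 : 2 * k * o ≤ 2 * Lr * (1 / Lr ^ 5) := by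
      calc 2 * k * o ≤ 2 * k * (1 / Lr ^ 5) := mul_le_mul_of_nonneg_left ho (by positivity)
        _ ≤ 2 * Lr * (1 / Lr ^ 5) := mul_le_mul_of_nonneg_right (by linarith) (by positivity)
    have h4 : 2 * Lr * (1 / Lr ^ 5) = 2 / Lr ^ 4 := by
      field_simp
    have h5 : 2 / Lr ^ 4 ≤ 1 / 10 := by
      rw [div_le_div_iff₀ (by positivity) (by norm_num)]
      have h6 : Lr ≤ Lr ^ 4 := by
        calc Lr = Lr ^ 1 := (pow_one _).symm
          _ ≤ Lr ^ 4 := pow_le_pow_right₀ (by linarith) (by norm_num)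
      linarith
    calc T * (2 * k * Z * o) = (T * Z) * (2 * k * o) := by ring
      _ ≤ (T * Z) * (1 / 10) := mul_le_mul_of_nonneg_left (by linarith) (mul_nonneg hT0 hZ)
      _ ≤ (5 * X * Z) * (1 / 10) :=
          mul_le_mul_of_nonneg_right (mul_le_mul_of_nonneg_right hT hZ) (by norm_num)
      _ = X * Z / 2 := by ring
  have h3 : 2 * k * W ≤ X * Z / 2 := by
    have h4 : 2 * k * W ≤ 2 * Lr * W :=
      mul_le_mul_of_nonneg_right (by linarith) hW0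
    have h5 : 2 * Lr * W ≤ 2 * Lr * W * (W * Z) :=
      le_mul_of_one_le_right (by positivity) hWZ
    have h6 : Lr ≤ Lr ^ 4 := by
      calc Lr = Lr ^ 1 := (pow_one _).symm
        _ ≤ Lr ^ 4 := pow_le_pow_right₀ (by linarith) (by norm_num)
    have h7 : Lr * (W * W) ≤ Lr ^ 4 * (W * W) := mul_le_mul_of_nonneg_right h6 (by positivity)
    have h8 : 4 * (Lr * (W * W)) ≤ X := by
      have h9 : 0 ≤ Lr ^ 4 * (W * W) := by positivity
      have h10 : 10000 * Lr ^ 4 * W * W = 10000 * (Lr ^ 4 * (W * W)) := by ring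
      linarith
    have h9 : 4 * (Lr * (W * W)) * Z ≤ X * Z := mul_le_mul_of_nonneg_right h8 hZ
    have h10 : 2 * Lr * W * (W * Z) = 4 * (Lr * (W * W)) * Z / 2 := by ring
    linarith
  have h4 : T * (q * Z + 2 * k * Z * o) = T * (q * Z) + T * (2 * k * Z * o) := by ring
  rw [h4]
  have h5 : (10 * A + 1) * X * Z = 10 * A * X * Z + X * Z / 2 + X * Z / 2 := by ring
  rw [h5]
  linarith

/-- the factor lost at the site `x` -/
private noncomputable def cx (L m1 : ℕ) {R : Finset ℕ} {k : ℕ} (x : {j : ℕ // j ∈ R} ⊕ Fin k)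
    (T : Finset ({j : ℕ // j ∈ R} ⊕ Fin k)) : ℝ :=
  open Classical in Sum.elim (fun j => if (Sum.inl j : {j : ℕ // j ∈ R} ⊕ Fin k) ∈ T then (1 : ℝ) else Piy L m1 1)
    (fun _ => 1) x

/-- the sets for the site `x` -/
private theorem site (L m1 : ℕ) (ψ : ℤ → ℝ) (a : {j : ℕ // j ∈ R} ⊕ Fin k → ℤ)
    (x : {j : ℕ // j ∈ R} ⊕ Fin k) :
    ∃ S0 S1 : Finset ({j : ℕ // j ∈ R} ⊕ Fin k), S1 ⊆ S0 ∧ S0.card + S1.card = k + 1 ∧
      k ≤ S0.card ∧ S0.card ≤ k + 1 ∧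
      (∀ n, PT ψ a S0 n * PT ψ a S1 n = ψ (n - a x) * PT ψ a (sR {j : ℕ // j ∈ R} (Fin k)) n) ∧
      (∀ σ : Iy L m1 → Option ({j : ℕ // j ∈ R} ⊕ Fin k), Disjoint S1 (tL σ)) ∧
      ∀ σ : Iy L m1 → Option ({j : ℕ // j ∈ R} ⊕ Fin k), Piy L m1 (S0 ∪ tL σ).card ≤
        cx L m1 x (tL σ) * Piy L m1 (k + (tL σ).card) := by
  have hk : (sR {j : ℕ // j ∈ R} (Fin k)).card = k := by
    rw [sR_card, Fintype.card_fin]
  cases x with
  | inr i =>
    refine ⟨sR {j : ℕ // j ∈ R} (Fin k), {Sum.inr i}, ?_, ?_, ?_, ?_, ?_, ?_, ?_⟩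
    · rw [singleton_subset_iff]
      exact mem_sR i
    · rw [hk, card_singleton]
    · rw [hk]
    · rw [hk]
      exact Nat.le_succ k
    · intro n
      unfold PT
      rw [prod_singleton, mul_comm]
    · intro σ
      rw [disjoint_singleton_left]
      exact inr_tL σ i
    · intro σ
      rw [card_union_of_disjoint (sR_tL σ), hk]
      unfold cx
      rw [Sum.elim_inr, one_mul]
  | inl j =>
    have hj : (Sum.inl j : {j : ℕ // j ∈ R} ⊕ Fin k) ∉ sR {j : ℕ // j ∈ R} (Fin k) := by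
      unfold sR
      rw [mem_map]
      rintro ⟨y, _, hy⟩
      exact Sum.inr_ne_inl hy
    refine ⟨insert (Sum.inl j) (sR {j : ℕ // j ∈ R} (Fin k)), ∅, empty_subset _, ?_, ?_, ?_, ?_, ?_, ?_⟩
    · rw [card_insert_of_notMem hj, hk, card_empty]
    · rw [card_insert_of_notMem hj, hk]
      exact Nat.le_succ k
    · rw [card_insert_of_notMem hj, hk]
    · intro n
      unfold PT
      rw [prod_empty, mul_one, prod_insert hj]
    · intro σ
      exact disjoint_empty_left _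
    · intro σ
      unfold cx
      rw [Sum.elim_inl, insert_union]
      by_cases h : (Sum.inl j : {j : ℕ // j ∈ R} ⊕ Fin k) ∈ tL σ
      · rw [if_pos h, one_mul, insert_eq_of_mem (mem_union_right _ h),
          card_union_of_disjoint (sR_tL σ), hk]
      · have h' : (Sum.inl j : {j : ℕ // j ∈ R} ⊕ Fin k) ∉ sR {j : ℕ // j ∈ R} (Fin k) ∪ tL σ := by
          rw [mem_union]
          rintro (h1 | h1)
          · exact hj h1
          · exact h h1
        rw [if_neg h, card_insert_of_notMem h', card_union_of_disjoint (sR_tL σ), hk]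
        exact piy_step L m1 (k + (tL σ).card)

/-- the sum of the factors -/
private theorem cx_sum (L m1 : ℕ) (σ : Iy L m1 → Option ({j : ℕ // j ∈ R} ⊕ Fin k)) :
    ∑ x, cx L m1 x (tL σ) ≤ (tL σ).card + R.card * Piy L m1 1 + k := by
  classical
  have hV := piy_nn L m1 1
  rw [Fintype.sum_sum_type]
  have h1 : ∑ i : Fin k, cx L m1 (Sum.inr i : {j : ℕ // j ∈ R} ⊕ Fin k) (tL σ) = k := by
    unfold cx
    simp
  have h2 : ∑ j : {j : ℕ // j ∈ R}, cx L m1 (Sum.inl j : {j : ℕ // j ∈ R} ⊕ Fin k) (tL σ) ≤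
      (tL σ).card + R.card * Piy L m1 1 := by
    have h3 : ∀ j : {j : ℕ // j ∈ R}, cx L m1 (Sum.inl j : {j : ℕ // j ∈ R} ⊕ Fin k) (tL σ) ≤
        (if j ∈ Tc (lp σ) then (1 : ℝ) else 0) + Piy L m1 1 := by
      intro j
      unfold cx
      rw [Sum.elim_inl]
      by_cases h : (Sum.inl j : {j : ℕ // j ∈ R} ⊕ Fin k) ∈ tL σ
      · have h' : j ∈ Tc (lp σ) := mem_filter.2 ⟨mem_univ _, (inl_tL σ j).1 h⟩
        rw [if_pos h, if_pos h']
        linarith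
      · rw [if_neg h]
        split_ifs <;> linarith
    refine (sum_le_sum fun j _ => h3 j).trans ?_
    rw [sum_add_distrib, sum_const, card_univ, Fintype.card_coe, nsmul_eq_mul, sum_ite_mem,
      univ_inter, sum_const, nsmul_eq_mul, mul_one, tL_card]
  rw [h1]
  linarith

private theorem offB_nn (κ : Type) [Fintype κ] (L m1 N' : ℕ) : 0 ≤ offB κ (py L m1) N' ((2 : ℝ) ^ m1) := by
  unfold offB
  refine div_nonneg (mul_nonneg (by positivity) (prod_nonneg fun i _ => ?_)) (by positivity)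
  have h := (py_mem i).1.one_lt
  have h1 : (1 : ℝ) < (py L m1 i : ℝ) := by exact_mod_cast h
  have h2 : (0 : ℝ) < (py L m1 i : ℝ) - 1 := by linarith
  have h3 := div_pos one_pos h2
  linarith

private theorem ei4_E {W c : ℝ} (hW : 0 ≤ W) (hc : 0 ≤ c) {A B : ℕ} (N k : ℕ) (h : A ≤ B) :
    W ^ (k + 1) * (c * (3 ^ A * W ^ N)) ^ 2 ≤ W ^ (k + 1) * (c * (3 ^ B * W ^ N)) ^ 2 := by
  have h1 : (3 : ℝ) ^ A ≤ 3 ^ B := pow_le_pow_right₀ (by norm_num) h
  have h2 : 0 ≤ W ^ N := pow_nonneg hW N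
  refine mul_le_mul_of_nonneg_left ?_ (pow_nonneg hW _)
  refine pow_le_pow_left₀ (by positivity) ?_ 2
  exact mul_le_mul_of_nonneg_left (mul_le_mul_of_nonneg_right h1 h2) hc

private theorem ei4_sq : ∀ L : ℕ, 4 ≤ L → L ^ 2 ≤ 2 ^ L := by
  intro L hL
  induction L, hL using Nat.le_induction with
  | base => norm_num
  | succ n hn ih =>
    rw [pow_succ 2 n]
    nlinarith

theorem ei4 (si : SI CV0 CV G r k G' t0 P L M H R t g s m1 d N) (b : ℕ) :
    ∑ n ∈ Nw P H M b, XI L m1 r R t (n : ℤ) * wI L m1 s d r R t t0 G' (n : ℤ) ≤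
      (10 * (CV0 * RR G r + RR G r) + 1) * ((P : ℝ) / M) * ZI L m1 s d R k t0 G' := by
  classical
  have pb := si.sd.pb
  have pl := pb.pl
  have hL6 := pb.big
  have hLr : (10 : ℝ) ^ 6 ≤ L := by exact_mod_cast hL6
  obtain ⟨z1, -, -, -, z5, z6, z7⟩ := sz si.sd.hL hL6 si.sd.hM0 si.sd.hMP si.sd.hH
  obtain ⟨-, zw⟩ := sz_w hL6
  obtain ⟨ha, hinj⟩ := si_a si
  have hss := ss_pyK pb si.sd.h4 si.pi.Nk (a2 R t) ha hinj
  have hhy := hy_py (m1 := m1) (by omega : 2 ≤ L) (a2 R t) ha hinj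
  have hMp := hM_py (m1 := m1) si.sd.hM
  have hκ := si_card si
  have hZ0 := si_ZI si
  have hP0 := si_pos si
  have hZ : 0 < ZI L m1 s d R k t0 G' := lt_of_lt_of_le hP0 hZ0
  have hN2 := si.pi.N2
  obtain ⟨n0, T, hT, hprog⟩ := prog si.sd.hM0 z5 b
  -- passage to the progression
  have h1 := hprog (fun n => XI L m1 r R t n * wI L m1 s d r R t t0 G' n) (fun _ => True)
    (fun n => mul_nonneg (XI_nn L m1 r R t n) (wI_nn L m1 s d r R t t0 G' n))
  simp only [filter_true] at h1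
  refine h1.trans ?_
  obtain ⟨W, hW⟩ : ∃ W : ℝ, W = ((2 : ℝ) ^ (m1 * (4 * r + 4))) := ⟨_, rfl⟩
  obtain ⟨E, hE⟩ : ∃ E : ℝ, E = W ^ (k + 1) * (2 * (2 ^ d * 2 ^ dd L) ^ 2 *
    (3 ^ ((d + dd L) / m1) * W ^ N)) ^ 2 := ⟨_, rfl⟩
  obtain ⟨oB, hoB⟩ : ∃ oB : ℝ, oB = offB ({j : ℕ // j ∈ R} ⊕ Fin k) (py L m1) ((d + dd L) / m1)
    ((2 : ℝ) ^ m1) := ⟨_, rfl⟩
  have hoff : oB ≤ 1 / (L : ℝ) ^ 5 := by
    rw [hoB]
    exact offB_le pb _ hκ hN2
  have hoB0 : 0 ≤ oB := by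
    rw [hoB]
    exact offB_nn _ _ _ _
  have hk0 : (0 : ℝ) ≤ (R.card : ℝ) + k := add_nonneg (Nat.cast_nonneg _) (Nat.cast_nonneg _)
  have hW0 : (0 : ℝ) ≤ 2 ^ (L / 100) := pow_nonneg zero_le_two _
  have hsplit : ∀ n : ℤ, XI L m1 r R t n * wI L m1 s d r R t t0 G' n =
      ∑ x : {j : ℕ // j ∈ R} ⊕ Fin k, psy L m1 r (n - a2 R t x) *
        PT (psy L m1 r) (a2 R t) (sR {j : ℕ // j ∈ R} (Fin k)) n *
          GP (py L m1) (a2 R t) (psy L m1 r) tL (YI L m1 s d R k t0 G') n ^ 2 := by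
    intro n
    unfold XI wI gI
    rw [sum_mul]
    exact sum_congr rfl fun x _ => by ring
  have h2 : ∀ x : {j : ℕ // j ∈ R} ⊕ Fin k, ∑ u ∈ range T,
      psy L m1 r ((n0 + M * (u : ℤ)) - a2 R t x) *
        PT (psy L m1 r) (a2 R t) (sR {j : ℕ // j ∈ R} (Fin k)) (n0 + M * (u : ℤ)) *
          GP (py L m1) (a2 R t) (psy L m1 r) tL (YI L m1 s d R k t0 G') (n0 + M * (u : ℤ)) ^ 2 ≤
      (T : ℝ) * ((∑ σ, YI L m1 s d R k t0 G' σ ^ 2 / PH (py L m1) (supp σ) *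
        (2 * (cx L m1 x (tL σ) * Piy L m1 (k + (tL σ).card)))) + 2 * Piy L m1 k * oB) + 2 * E := by
    intro x
    obtain ⟨S0, S1, s1, s2, s3, s4, s5, s6, s7⟩ := site L m1 (psy L m1 r) (a2 R t) x
    have h3 := tr_F hhy hMp hss S0 S1 s1 tL (YI L m1 s d R k t0 G')
      (fun σ => (si_YI si σ).1) (fun σ _ => s6 σ)
      (fun σ hσ => ((si_YI si σ).2 hσ).2)
      (fun σ hσ => si_N2 si ((si_YI si σ).2 hσ).1)
      (by omega)
      (si_cnt si hκ (YI L m1 s d R k t0 G') (fun σ hσ => ((si_YI si σ).2 hσ).1)) n0 T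
    rw [s2, ← hW, ← hE, ← hoB] at h3
    have h4 : ∑ u ∈ range T, psy L m1 r ((n0 + M * (u : ℤ)) - a2 R t x) *
        PT (psy L m1 r) (a2 R t) (sR {j : ℕ // j ∈ R} (Fin k)) (n0 + M * (u : ℤ)) *
          GP (py L m1) (a2 R t) (psy L m1 r) tL (YI L m1 s d R k t0 G') (n0 + M * (u : ℤ)) ^ 2 =
        ∑ u ∈ range T, PT (psy L m1 r) (a2 R t) S0 (n0 + M * (u : ℤ)) *
          PT (psy L m1 r) (a2 R t) S1 (n0 + M * (u : ℤ)) *
          GP (py L m1) (a2 R t) (psy L m1 r) tL (YI L m1 s d R k t0 G') (n0 + M * (u : ℤ)) ^ 2 := by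
      refine sum_congr rfl fun u _ => ?_
      rw [s5]
    rw [h4]
    refine h3.trans (add_le_add (mul_le_mul_of_nonneg_left (add_le_add ?_ ?_) (Nat.cast_nonneg T)) le_rfl)
    · refine sum_le_sum fun σ _ => ?_
      refine mul_le_mul_of_nonneg_left ?_ (div_nonneg (sq_nonneg _)
        (le_trans zero_le_one (one_le_PH hhy.two _)))
      have h5 := s7 σ
      linarith
    · refine mul_le_mul_of_nonneg_right ?_ hoB0
      have h5 := piy_anti L m1 k S0.card s3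
      linarith
  have h3 : ∑ u ∈ range T, XI L m1 r R t (n0 + M * (u : ℤ)) * wI L m1 s d r R t t0 G' (n0 + M * (u : ℤ)) ≤
      (T : ℝ) * (2 * ((N : ℝ) + R.card * Piy L m1 1 + k) * ZI L m1 s d R k t0 G' +
        2 * ((R.card : ℝ) + k) * ZI L m1 s d R k t0 G' * oB) + 2 * ((R.card : ℝ) + k) * E := by
    have hsp : ∑ u ∈ range T, XI L m1 r R t (n0 + M * (u : ℤ)) * wI L m1 s d r R t t0 G' (n0 + M * (u : ℤ)) =
        ∑ u ∈ range T, ∑ x : {j : ℕ // j ∈ R} ⊕ Fin k, psy L m1 r ((n0 + M * (u : ℤ)) - a2 R t x) *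
        PT (psy L m1 r) (a2 R t) (sR {j : ℕ // j ∈ R} (Fin k)) (n0 + M * (u : ℤ)) *
          GP (py L m1) (a2 R t) (psy L m1 r) tL (YI L m1 s d R k t0 G') (n0 + M * (u : ℤ)) ^ 2 :=
      sum_congr rfl fun u _ => hsplit _
    rw [hsp, sum_comm]
    refine (sum_le_sum fun x _ => h2 x).trans ?_
    rw [sum_add_distrib, ← mul_sum, sum_add_distrib, sum_comm, sum_const, sum_const, card_univ,
      Fintype.card_sum, Fintype.card_coe, Fintype.card_fin, nsmul_eq_mul, nsmul_eq_mul]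
    push_cast
    have h5 : ∑ σ, ∑ x : {j : ℕ // j ∈ R} ⊕ Fin k, YI L m1 s d R k t0 G' σ ^ 2 / PH (py L m1) (supp σ) *
        (2 * (cx L m1 x (tL σ) * Piy L m1 (k + (tL σ).card))) ≤
        2 * ((N : ℝ) + R.card * Piy L m1 1 + k) * ZI L m1 s d R k t0 G' := by
      unfold ZI MZ
      rw [mul_sum]
      refine sum_le_sum fun σ _ => ?_
      by_cases h0 : YI L m1 s d R k t0 G' σ = 0
      · rw [h0]
        simp
      · have hw : 0 ≤ YI L m1 s d R k t0 G' σ ^ 2 / PH (py L m1) (supp σ) * Piy L m1 (k + (tL σ).card) :=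
          mul_nonneg (div_nonneg (sq_nonneg _) (le_trans zero_le_one (one_le_PH hhy.two _)))
            (piy_nn _ _ _)
        have hc : ((tL σ).card : ℝ) ≤ N := by exact_mod_cast ((si_YI si σ).2 h0).2
        have h6 := cx_sum L m1 σ
        have h7 : ∑ x, cx L m1 x (tL σ) ≤ (N : ℝ) + R.card * Piy L m1 1 + k := by linarith
        calc ∑ x : {j : ℕ // j ∈ R} ⊕ Fin k, YI L m1 s d R k t0 G' σ ^ 2 / PH (py L m1) (supp σ) *
              (2 * (cx L m1 x (tL σ) * Piy L m1 (k + (tL σ).card)))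
            = YI L m1 s d R k t0 G' σ ^ 2 / PH (py L m1) (supp σ) * Piy L m1 (k + (tL σ).card) *
              (2 * ∑ x, cx L m1 x (tL σ)) := by
              rw [mul_sum, mul_sum]
              exact sum_congr rfl fun x _ => by ring
          _ ≤ YI L m1 s d R k t0 G' σ ^ 2 / PH (py L m1) (supp σ) * Piy L m1 (k + (tL σ).card) *
              (2 * ((N : ℝ) + R.card * Piy L m1 1 + k)) :=
              mul_le_mul_of_nonneg_left (by linarith) hw
          _ = _ := by ring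
    have h6 : ((R.card : ℝ) + k) * (2 * Piy L m1 k * oB) ≤
        2 * ((R.card : ℝ) + k) * ZI L m1 s d R k t0 G' * oB := by
      have h7 : (0 : ℝ) ≤ 2 * ((R.card : ℝ) + k) * oB := mul_nonneg (mul_nonneg zero_le_two hk0) hoB0
      have h8 := mul_le_mul_of_nonneg_left hZ0 h7
      calc ((R.card : ℝ) + k) * (2 * Piy L m1 k * oB) = 2 * ((R.card : ℝ) + k) * oB * Piy L m1 k := by ring
        _ ≤ 2 * ((R.card : ℝ) + k) * oB * ZI L m1 s d R k t0 G' := h8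
        _ = _ := by ring
    have h7 := mul_le_mul_of_nonneg_left (add_le_add h5 h6) (Nat.cast_nonneg (α := ℝ) T)
    have h8 : ((R.card : ℝ) + k) * (2 * E) = 2 * ((R.card : ℝ) + k) * E := by ring
    rw [h8]
    linarith
  have hE1 : E ≤ 2 ^ (L / 100) := by
    refine le_trans ?_ si.pi.w3
    rw [hE, hW]
    exact ei4_E (pow_nonneg zero_le_two _) (mul_nonneg zero_le_two (sq_nonneg _)) N k hN2
  refine h3.trans ?_
  have hRR : (0 : ℝ) ≤ RR G r := Nat.cast_nonneg _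
  have hCV := si.sd.CV0pos
  have hm1 : (0 : ℝ) < m1 := by exact_mod_cast pl.m_pos
  have hV : (R.card : ℝ) * Piy L m1 1 ≤ CV0 * RR G r := by
    refine si.sd.hkV.trans (mul_le_mul_of_nonneg_left ?_ hCV.le)
    rw [div_le_iff₀ hm1]
    exact_mod_cast pl.L_le
  have hNk : (N : ℝ) + k ≤ RR G r := by exact_mod_cast si.pi.Nk
  have hkL : (R.card : ℝ) + k ≤ L := by exact_mod_cast si.hkL
  have hT5 : (T : ℝ) ≤ 5 * ((P : ℝ) / M) := by
    refine hT.trans ?_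
    rw [mul_div_assoc]
    linarith
  have hq0 : (0 : ℝ) ≤ 2 * ((N : ℝ) + R.card * Piy L m1 1 + k) :=
    mul_nonneg zero_le_two (add_nonneg (add_nonneg (Nat.cast_nonneg _)
      (mul_nonneg (Nat.cast_nonneg _) (piy_nn _ _ _))) (Nat.cast_nonneg _))
  have hWZ : (1 : ℝ) ≤ 2 ^ (L / 100) * ZI L m1 s d R k t0 G' :=
    si.pik.trans (mul_le_mul_of_nonneg_left hZ0 hW0)
  have hWX : 10000 * (L : ℝ) ^ 4 * 2 ^ (L / 100) * 2 ^ (L / 100) ≤ (P : ℝ) / M := by
    refine le_trans ?_ (zw.trans z1)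
    exact le_mul_of_one_le_right (mul_nonneg (mul_nonneg (mul_nonneg (Nat.ofNat_nonneg _)
      (pow_nonneg (Nat.cast_nonneg _) 4)) hW0) hW0) (one_le_pow₀ one_le_two)
  have hlast : 2 * ((R.card : ℝ) + k) * E ≤ 2 * ((R.card : ℝ) + k) * 2 ^ (L / 100) :=
    mul_le_mul_of_nonneg_left hE1 (mul_nonneg zero_le_two hk0)
  have hq1 : 2 * ((N : ℝ) + R.card * Piy L m1 1 + k) ≤ 2 * (CV0 * RR G r + RR G r) := by linarith
  have h10 := ei4_num (A := CV0 * RR G r + RR G r) (Z := ZI L m1 s d R k t0 G') (X := (P : ℝ) / M)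
    (Lr := L) (q := 2 * ((N : ℝ) + R.card * Piy L m1 1 + k)) (o := oB) (W := 2 ^ (L / 100)) (T := T)
    (k := (R.card : ℝ) + k) hZ.le z6 hLr hk0 hkL (Nat.cast_nonneg T) hT5 hq1 hq0
    hoff hW0 hWZ hWX
  exact (add_le_add le_rfl hlast).trans h10

theorem ei5 (si : SI CV0 CV G r k G' t0 P L M H R t g s m1 d N) (b : ℕ) {K' : ℝ} {n : ℕ}
    (hn : n ∈ Nw P H M b) (hX : XI L m1 r R t (n : ℤ) ≤ K') :
    wI L m1 s d r R t t0 G' (n : ℤ) ≤
      K' ^ k * Real.exp (2 * (2 ^ (RR G r + 4) * E2 G r) * (K' + k)) := by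
  have pb := si.sd.pb
  have hL6 := pb.big
  obtain ⟨-, -, -, -, z5, z6, z7⟩ := sz si.sd.hL hL6 si.sd.hM0 si.sd.hMP si.sd.hH
  obtain ⟨n1, n2⟩ := z7 b n hn
  have hψ0 : ∀ m, 0 ≤ psy L m1 r m := psy_nn L m1 r
  obtain ⟨Bs, hBs⟩ : ∃ Bs : ℝ, Bs = 2 ^ (RR G r + 4) * E2 G r := ⟨_, rfl⟩
  have hBs0 : 0 ≤ Bs := by
    rw [hBs]
    unfold E2
    exact mul_nonneg (pow_nonneg zero_le_two _) (Real.exp_pos _).le
  have hK0 : 0 ≤ K' := (XI_nn L m1 r R t n).trans hX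
  have hsite : ∀ x : {j : ℕ // j ∈ R} ⊕ Fin k, ∃ j : ℕ, j < H ∧ (n : ℤ) - a2 R t x = ((n + j : ℕ) : ℤ) := by
    rintro (j | i)
    · refine ⟨(j : ℕ), mem_range.1 (si.sd.hR j.2), ?_⟩
      show (n : ℤ) - -((j : ℕ) : ℤ) = _
      push_cast
      ring
    · refine ⟨t i, si.tH i, ?_⟩
      show (n : ℤ) - -(t i : ℤ) = _
      push_cast
      ring
  have hm : ∀ x : {j : ℕ // j ∈ R} ⊕ Fin k, (n : ℤ) - a2 R t x ≠ 0 ∧ |(n : ℤ) - a2 R t x| ≤ 2 ^ (L + 4) := by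
    intro x
    obtain ⟨j, hj, h1⟩ := hsite x
    rw [h1]
    have hn0 : 0 < n := lt_of_le_of_lt (Nat.zero_le _) n1
    constructor
    · have : 0 < n + j := by omega
      exact_mod_cast this.ne'
    · have hH := si.sd.hH
      have hsq := ei4_sq L (by omega)
      have h2 : (2 : ℕ) ^ (L + 4) = 2 ^ (L + 3) + 2 ^ (L + 3) := by
        rw [pow_succ 2 (L + 3)]
        ring
      have h3 : (2 : ℕ) ^ L ≤ 2 ^ (L + 3) := Nat.pow_le_pow_right (by norm_num) (by omega)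
      have h4 : n + j ≤ 2 ^ (L + 4) := by omega
      rw [abs_of_nonneg (Int.natCast_nonneg _)]
      exact_mod_cast h4
  have hle : ∀ x : {j : ℕ // j ∈ R} ⊕ Fin k, psy L m1 r ((n : ℤ) - a2 R t x) ≤ K' := by
    intro x
    refine le_trans ?_ hX
    unfold XI
    exact single_le_sum (f := fun x => psy L m1 r ((n : ℤ) - a2 R t x)) (fun y _ => hψ0 _) (mem_univ x)
  have h1 : PT (psy L m1 r) (a2 R t) (sR {j : ℕ // j ∈ R} (Fin k)) (n : ℤ) ≤ K' ^ k := by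
    unfold PT
    refine (prod_le_prod (fun x _ => hψ0 _) (fun x _ => hle x)).trans_eq ?_
    rw [prod_const, sR_card, Fintype.card_fin]
  have h1' : 0 ≤ PT (psy L m1 r) (a2 R t) (sR {j : ℕ // j ∈ R} (Fin k)) (n : ℤ) := by
    unfold PT
    exact prod_nonneg fun x _ => hψ0 _
  have h2 : |gI L m1 s d r R t t0 G' (n : ℤ)| ≤ Real.exp (Bs * (K' + k)) := by
    have h3 := sup_I (a2 R t) (ψ := psy L m1 r) (yy L m1 s) (yh (py L m1) t0 G') (wt_empty _ _)
      (yh_empty _ _ _) (2 ^ d) (2 ^ dd L) (B := Bs) (n : ℤ) hψ0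
      (fun j => by
        rw [hBs]
        exact sup_any pb (yy_abs si) (hm (Sum.inl j)).1 (hm (Sum.inl j)).2)
      (fun i => by
        rw [hBs]
        exact sup_any pb (yh_abs L m1 t0 G') (hm (Sum.inr i)).1 (hm (Sum.inr i)).2)
    refine h3.trans (Real.exp_le_exp.2 (mul_le_mul_of_nonneg_left ?_ hBs0))
    rw [Fintype.card_fin]
    have h4 : ∑ j : {j : ℕ // j ∈ R}, psy L m1 r ((n : ℤ) - a2 R t (Sum.inl j)) ≤ K' := by
      refine le_trans ?_ hX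
      unfold XI
      rw [Fintype.sum_sum_type]
      have h5 : 0 ≤ ∑ i : Fin k, psy L m1 r ((n : ℤ) - a2 R t (Sum.inr i)) := sum_nonneg fun i _ => hψ0 _
      linarith
    linarith
  have h3 : gI L m1 s d r R t t0 G' (n : ℤ) ^ 2 ≤ Real.exp (2 * Bs * (K' + k)) := by
    rw [← sq_abs]
    refine (pow_le_pow_left₀ (abs_nonneg _) h2 2).trans_eq ?_
    rw [← Real.exp_nat_mul]
    congr 1
    push_cast
    ring
  unfold wI
  rw [← hBs]
  exact mul_le_mul h1 h3 (sq_nonneg _) (pow_nonneg hK0 k)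

end Pool.Agent.ISO
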