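import Pool.Agent.ISO.PiLow

/-!
ISO/PikE.  The density `Piy L m1 k` is not too small.
-/

set_option autoImplicit false

open Finset Pool.Agent.AV

namespace Pool.Agent.ISO

private theorem pik_pe (c : ℝ) (k : ℕ) :
    ∃ M : ℕ, ∀ m : ℕ, M ≤ m → c * ((m : ℝ) + 1) ^ k ≤ 2 ^ m := by
  have h := (tendsto_pow_const_div_const_pow_of_one_lt k (one_lt_two : (1 : ℝ) < 2)).const_mul
    (|c| * 2 ^ k)
  rw [mul_zero] at h
  have h1 := h.eventually (gt_mem_nhds (zero_lt_one : (0 : ℝ) < 1))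
  obtain ⟨M, hM⟩ := Filter.eventually_atTop.1 h1
  refine ⟨max M 1, ?_⟩
  intro m hm
  have hm1 : 1 ≤ m := (le_max_right _ _).trans hm
  have hmr : (1 : ℝ) ≤ m := by exact_mod_cast hm1
  have h2 := hM m ((le_max_left _ _).trans hm)
  have hpos : (0 : ℝ) < 2 ^ m := by positivity
  have h3 : |c| * 2 ^ k * (m : ℝ) ^ k < 2 ^ m := by
    have e : |c| * 2 ^ k * ((m : ℝ) ^ k / 2 ^ m) = (|c| * 2 ^ k * (m : ℝ) ^ k) / 2 ^ m := by ring
    rw [e, div_lt_one hpos] at h2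
    exact h2
  have h4 : ((m : ℝ) + 1) ^ k ≤ (2 * (m : ℝ)) ^ k :=
    pow_le_pow_left₀ (by linarith) (by linarith) k
  calc c * ((m : ℝ) + 1) ^ k ≤ |c| * ((m : ℝ) + 1) ^ k :=
        mul_le_mul_of_nonneg_right (le_abs_self c) (by positivity)
    _ ≤ |c| * (2 * (m : ℝ)) ^ k := mul_le_mul_of_nonneg_left h4 (abs_nonneg c)
    _ = |c| * 2 ^ k * (m : ℝ) ^ k := by rw [mul_pow]; ring
    _ ≤ 2 ^ m := h3.le

theorem pik_ev (k : ℕ) : ∃ L0 : ℕ, ∀ L m1 : ℕ, L0 ≤ L → L ^ 6 ≤ 2 ^ m1 → m1 ≤ L →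
    1 ≤ (2 : ℝ) ^ (L / 100) * Piy L m1 k := by
  obtain ⟨c, hc, L1, h1⟩ := pi_low k
  obtain ⟨M, hM⟩ := pik_pe (100 ^ k / c) k
  refine ⟨L1 + 100 * M + 2, ?_⟩
  intro L m1 hL hLm hm
  have hL2 : 2 ≤ L := by omega
  have hL0 : (0 : ℝ) < L := by exact_mod_cast (by omega : 0 < L)
  have hm0 : 0 < m1 := by
    rcases Nat.eq_zero_or_pos m1 with h | h
    · exfalso
      rw [h, pow_zero] at hLm
      have h2 : L ≤ L ^ 6 := Nat.le_self_pow (by norm_num) L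
      omega
    · exact h
  have hm0r : (0 : ℝ) < m1 := by exact_mod_cast hm0
  have hmr : (m1 : ℝ) ≤ L := by exact_mod_cast hm
  have hlog : (1 : ℝ) ≤ (Nat.log 2 L : ℝ) := by
    have : 0 < Nat.log 2 L := Nat.log_pos (by norm_num) hL2
    exact_mod_cast this
  have h2 : (1 : ℝ) / L ≤ (Nat.log 2 L : ℝ) / m1 := div_le_div₀ (by linarith) hlog hm0r hmr
  have h3 : ((1 : ℝ) / L) ^ k ≤ ((Nat.log 2 L : ℝ) / m1) ^ k :=
    pow_le_pow_left₀ (by positivity) h2 k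
  have h4 : c * ((1 : ℝ) / L) ^ k ≤ Piy L m1 k :=
    (mul_le_mul_of_nonneg_left h3 hc.le).trans (h1 L m1 (by omega) hLm)
  have h5 := hM (L / 100) (by omega)
  have h6 : (L : ℝ) ≤ 100 * (((L / 100 : ℕ) : ℝ) + 1) := by
    have : L ≤ 100 * (L / 100 + 1) := by omega
    exact_mod_cast this
  have h7 : (L : ℝ) ^ k ≤ 100 ^ k * (((L / 100 : ℕ) : ℝ) + 1) ^ k := by
    rw [← mul_pow]
    exact pow_le_pow_left₀ hL0.le h6 k
  have h8 : (L : ℝ) ^ k / c ≤ 2 ^ (L / 100) := by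
    refine le_trans ?_ h5
    rw [div_mul_eq_mul_div]
    exact div_le_div_of_nonneg_right h7 hc.le
  have hLk : (0 : ℝ) < (L : ℝ) ^ k := by positivity
  calc (1 : ℝ) = (L : ℝ) ^ k / c * (c * ((1 : ℝ) / L) ^ k) := by
        rw [one_div, inv_pow]
        field_simp
    _ ≤ 2 ^ (L / 100) * Piy L m1 k := mul_le_mul h8 h4 (by positivity) (by positivity)

end Pool.Agent.ISO
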