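import Pool.Agent.ISO.ClsN
import Pool.Agent.ISO.PikE
import Pool.Agent.ISO.YhV
import Pool.Agent.ISO.Ei0
import Pool.Agent.ISO.Ei1
import Pool.Agent.ISO.Ei3
import Pool.Agent.ISO.Ei4
import Pool.Agent.ISO.AttC

/-!
ISO/ClsI.  One residue class: the right number of `n` with at least `m + 1` primes among the `n + t i`, no prime
`n + j` (`j ∈ R`), and few almost primes (elements of `𝒮`) among all `n + j`.
-/

set_option autoImplicit false

open Finset Pool.Agent.RS Pool.Agent.AT Pool.Agent.VOID Pool.Agent.AV Pool.Agent.IPT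

namespace Pool.Agent.ISO

/-- the parameter `t0` -/
private theorem clsI_t0 {c5 : ℝ} {k G' r L m1 t0 : ℕ} (h50 : 0 < c5) (h51 : c5 ≤ 1 / 2) (hk0 : 0 < k)
    (hkc : ((2 ^ G' : ℕ) : ℝ) = k) (hm1 : 1 ≤ m1) (hr : 40000 * k * ((G' : ℝ) + 1) / c5 ≤ r)
    (hms : m1 * (r + 1) ^ 3 * 2 ^ 16 ≤ L) (hL : 20000 ≤ L)
    (ht0 : t0 = ⌊c5 * dd L / (k * ((G' : ℝ) + 1))⌋₊) :
    m1 ≤ t0 ∧ t0 * 2 ^ G' < dd L ∧ k * ((G' : ℝ) + 1) * t0 ≤ c5 * dd L ∧
    (t0 : ℝ) * k ≤ dd L / 2 ∧ c5 * L / 40000 ≤ k * ((G' : ℝ) + 1) * t0 := by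
  have hkr : (1 : ℝ) ≤ k := by exact_mod_cast hk0
  have hG0 : (0 : ℝ) ≤ (G' : ℝ) := Nat.cast_nonneg _
  have hG1 : (1 : ℝ) ≤ (G' : ℝ) + 1 := by linarith
  have hLr : (20000 : ℝ) ≤ L := by exact_mod_cast hL
  have hdd : (L : ℝ) / 20000 ≤ dd L := by
    have h6 : L < 10000 * (L / 10000 + 1) := by omega
    have h7 : (L : ℝ) < 10000 * ((dd L : ℝ) + 1) := by
      unfold dd
      exact_mod_cast h6
    linarith
  have hD0 : (0 : ℝ) < dd L := by linarith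
  have hm1r : (1 : ℝ) ≤ m1 := by exact_mod_cast hm1
  have hms' : m1 * r * 2 ≤ L := by
    refine le_trans ?_ hms
    have h1 : r ≤ (r + 1) ^ 3 := (Nat.le_succ r).trans (Nat.le_self_pow (by norm_num) _)
    exact Nat.mul_le_mul (Nat.mul_le_mul_left _ h1) (by norm_num)
  have hmr : (m1 : ℝ) * r * 2 ≤ L := by exact_mod_cast hms'
  have hkG : 0 < (k : ℝ) * ((G' : ℝ) + 1) := by positivity
  have hX : (m1 : ℝ) ≤ c5 * dd L / (k * ((G' : ℝ) + 1)) := by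
    rw [le_div_iff₀ hkG]
    rw [div_le_iff₀ h50] at hr
    have h1 : (m1 : ℝ) * (40000 * k * ((G' : ℝ) + 1)) ≤ m1 * (r * c5) :=
      mul_le_mul_of_nonneg_left hr (by linarith)
    have h2 : c5 * ((m1 : ℝ) * r * 2) ≤ c5 * L := mul_le_mul_of_nonneg_left hmr h50.le
    have h3 : c5 * ((L : ℝ) / 20000) ≤ c5 * dd L := mul_le_mul_of_nonneg_left hdd h50.le
    nlinarith
  have hll : m1 ≤ t0 := by
    rw [ht0]
    exact Nat.le_floor hX
  have hX0 : 0 ≤ c5 * dd L / (k * ((G' : ℝ) + 1)) := by positivity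
  have hf1 : (t0 : ℝ) ≤ c5 * dd L / (k * ((G' : ℝ) + 1)) := by
    rw [ht0]
    exact Nat.floor_le hX0
  have hf2 : c5 * dd L / (k * ((G' : ℝ) + 1)) < (t0 : ℝ) + 1 := by
    rw [ht0]
    exact Nat.lt_floor_add_one _
  have ht01 : (1 : ℝ) ≤ t0 := by
    have : (m1 : ℝ) ≤ t0 := by exact_mod_cast hll
    linarith
  have hkGt : k * ((G' : ℝ) + 1) * t0 ≤ c5 * dd L := by
    rw [le_div_iff₀ hkG] at hf1
    linarith
  have hktD : (t0 : ℝ) * k ≤ dd L / 2 := by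
    have h1 : (k : ℝ) * t0 ≤ k * ((G' : ℝ) + 1) * t0 := by
      have : 0 ≤ (k : ℝ) * G' * t0 := by positivity
      nlinarith
    have h2 : c5 * dd L ≤ 1 / 2 * dd L := mul_le_mul_of_nonneg_right h51 hD0.le
    linarith
  refine ⟨hll, ?_, hkGt, hktD, ?_⟩
  · have h1 : ((t0 * 2 ^ G' : ℕ) : ℝ) < dd L := by
      rw [Nat.cast_mul, hkc]
      linarith
    exact_mod_cast h1
  · rw [div_lt_iff₀ hkG] at hf2
    have h1 : ((t0 : ℝ) + 1) * (k * ((G' : ℝ) + 1)) ≤ (2 * t0) * (k * ((G' : ℝ) + 1)) :=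
      mul_le_mul_of_nonneg_right (by linarith) hkG.le
    have h3 : c5 * ((L : ℝ) / 20000) ≤ c5 * dd L := mul_le_mul_of_nonneg_left hdd h50.le
    linarith

/-- the hypothesis of `att_c` -/
private theorem clsI_E {c C c5 k G1 t0 m1 D SEv SXv t2 : ℝ} (hc : 0 < c) (hC : 0 < C) (hk : 0 ≤ k)
    (hm : 0 < m1) (ht : 0 < t0) (hD : 0 < D) (h52 : 16 * C * c5 ≤ c)
    (hkGt : k * G1 * t0 ≤ c5 * D) (ht2 : t2 ≤ D / 2) (y2 : c * (t0 / m1) ≤ SXv)
    (y4 : SEv ≤ C * (G1 * t0 ^ 2 / m1)) :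
    4 * k * SEv ≤ SXv * ((D - t2) * Real.log 2) := by
  have hSX0 : 0 < SXv := lt_of_lt_of_le (by positivity) y2
  have h1 : D / 4 ≤ (D - t2) * Real.log 2 := by
    have h2 := Real.log_two_gt_d9
    have h3 : D / 2 ≤ D - t2 := by linarith
    have h4 : D / 2 * (1 / 2) ≤ (D - t2) * Real.log 2 :=
      mul_le_mul h3 (by linarith) (by norm_num) (by linarith)
    linarith
  have h5 : c * (t0 / m1) * (D / 4) ≤ SXv * ((D - t2) * Real.log 2) :=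
    mul_le_mul y2 h1 (by positivity) hSX0.le
  refine le_trans ?_ h5
  have h6 : 4 * k * SEv ≤ 4 * k * (C * (G1 * t0 ^ 2 / m1)) :=
    mul_le_mul_of_nonneg_left y4 (by positivity)
  refine h6.trans ?_
  have e1 : 4 * k * (C * (G1 * t0 ^ 2 / m1)) = (t0 / m1) / 4 * (16 * C * (k * G1 * t0)) := by
    field_simp
    ring
  have e2 : c * (t0 / m1) * (D / 4) = (t0 / m1) / 4 * (c * D) := by ring
  rw [e1, e2]
  refine mul_le_mul_of_nonneg_left ?_ (by positivity)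
  have h7 : 16 * C * (k * G1 * t0) ≤ 16 * C * (c5 * D) :=
    mul_le_mul_of_nonneg_left hkGt (by positivity)
  have h8 : 16 * C * c5 * D ≤ c * D := mul_le_mul_of_nonneg_right h52 hD.le
  linarith

/-- the final numbers -/
private theorem clsI_fin {m k X Z L ρ τ CV0 CV K' Wm A0 G1 S S0 S3 S4 card : ℝ} (hm : 0 ≤ m) (hk : 0 < k)
    (hX : 0 ≤ X) (hZ : 0 ≤ Z) (hL : 0 < L) (hρ : 0 ≤ ρ) (hCV0 : 0 ≤ CV0)
    (hA0 : 10 * m + 3 ≤ A0 * G1) (hlow : A0 * G1 * (X * Z) ≤ S)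
    (hsum : S ≤ m * S0 + k * S3 + k / K' * S4 + k * Wm * card)
    (h0 : S0 ≤ 10 * X * Z) (h3 : S3 ≤ (20 * CV0 * ρ * τ + 1 / L) * X * Z)
    (h4 : S4 ≤ (10 * (CV0 * ρ + ρ) + 1) * X * Z)
    (hK' : K' = 8 * k * (10 * (CV0 * ρ + ρ) + 1)) (h5 : 32 * CV * ρ * τ ≤ 1)
    (hCV : CV = 100 * k * CV0) (hkL : 100 * k ≤ L) : X * Z ≤ k * Wm * card := by
  have hE : 0 ≤ X * Z := mul_nonneg hX hZ
  have hnum : 0 < 10 * (CV0 * ρ + ρ) + 1 := by positivity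
  have e1 : m * S0 ≤ m * (10 * X * Z) := mul_le_mul_of_nonneg_left h0 hm
  have e2 : k * S3 ≤ (1 / 160 + 1 / 100) * (X * Z) := by
    have e3 : k * ((20 * CV0 * ρ * τ + 1 / L) * X * Z) =
        (32 * CV * ρ * τ * (1 / 160) + k / L) * (X * Z) := by
      rw [hCV]
      field_simp
      ring
    have e4 : k / L ≤ 1 / 100 := by
      rw [div_le_div_iff₀ hL (by norm_num)]
      linarith
    refine (mul_le_mul_of_nonneg_left h3 hk.le).trans ?_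
    rw [e3]
    refine mul_le_mul_of_nonneg_right ?_ hE
    linarith
  have e5 : k / K' * S4 ≤ 1 / 8 * (X * Z) := by
    have hK : 0 < K' := by
      rw [hK']
      positivity
    have e6 : k / K' * ((10 * (CV0 * ρ + ρ) + 1) * X * Z) = 1 / 8 * (X * Z) := by
      rw [hK']
      field_simp
    rw [← e6]
    exact mul_le_mul_of_nonneg_left h4 (by positivity)
  have e7 : (10 * m + 3) * (X * Z) ≤ A0 * G1 * (X * Z) := mul_le_mul_of_nonneg_right hA0 hE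
  linarith

/-- the logarithm of `P` -/
private theorem clsI_log {P L : ℕ} (hP : P ≠ 0) (hL : L = Nat.log 2 P) (hL20 : 20000 ≤ L) :
    Real.log P ≤ L := by
  have hPr : (0 : ℝ) < P := by
    have : 0 < P := Nat.pos_of_ne_zero hP
    exact_mod_cast this
  have hLr : (20000 : ℝ) ≤ L := by exact_mod_cast hL20
  have h1 : P < 2 ^ (L + 1) := by
    rw [hL]
    exact Nat.lt_pow_succ_log_self (by norm_num) P
  have h2 : (P : ℝ) ≤ 2 ^ (L + 1) := by exact_mod_cast h1.le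
  have h3 : Real.log P ≤ (L + 1 : ℝ) * Real.log 2 := by
    refine (Real.log_le_log hPr h2).trans ?_
    rw [Real.log_pow]
    push_cast
    exact le_refl _
  have h4 := Real.log_two_lt_d9
  have h5 : (L + 1 : ℝ) * Real.log 2 ≤ (L + 1 : ℝ) * (7 / 10) :=
    mul_le_mul_of_nonneg_left (by linarith) (by positivity)
  linarith

/-- consequences of `log_2 L` being large -/
private theorem clsI_L {Λ κ0 : ℝ} (hκ : 0 < κ0) {k L c : ℕ} (hk : (c : ℝ) * (Nat.log 2 L : ℝ) ≤ Λ * L)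
    (h1 : 2 * Λ ≤ Nat.log 2 L) (h2 : (1 : ℝ) ≤ Nat.log 2 L) (h3 : 2 * k ≤ L) (h4 : 12 / κ0 ≤ L) :
    c + k ≤ L ∧ 1 / (L : ℝ) ≤ κ0 * Nat.log 2 L / 12 := by
  have hL0 : (0 : ℝ) ≤ L := Nat.cast_nonneg _
  constructor
  · have h5 : (c : ℝ) * (Nat.log 2 L : ℝ) ≤ (L : ℝ) / 2 * (Nat.log 2 L : ℝ) := by
      nlinarith
    have h6 : (c : ℝ) ≤ (L : ℝ) / 2 := le_of_mul_le_mul_right h5 (by linarith)
    have h7 : 2 * (k : ℝ) ≤ L := by exact_mod_cast h3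
    have h8 : (c : ℝ) + k ≤ L := by linarith
    exact_mod_cast h8
  · have hL1 : (0 : ℝ) < L := (div_pos (by norm_num) hκ).trans_le h4
    rw [div_le_iff₀ hκ] at h4
    rw [div_le_div_iff₀ hL1 (by norm_num)]
    have h5 : κ0 * L * 1 ≤ κ0 * L * Nat.log 2 L :=
      mul_le_mul_of_nonneg_left h2 (mul_nonneg hκ.le hL0)
    linarith

/-- the upper bound of the density -/
private theorem clsI_V {V lam m1 CU : ℝ} (hCU : CU = 24 * Real.exp 9 / Real.log 2) (hm : 0 < m1)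
    (hlam : 1 ≤ lam) (h : V ≤ 12 * Real.exp 9 * (lam + 1) / (m1 * Real.log 2)) :
    V ≤ CU * lam / m1 := by
  have hl2 : 0 < Real.log 2 := Real.log_pos (by norm_num)
  refine h.trans ?_
  rw [hCU]
  have e : 24 * Real.exp 9 / Real.log 2 * lam / m1 = 12 * Real.exp 9 * (2 * lam) / (m1 * Real.log 2) := by
    field_simp
    ring
  rw [e]
  refine div_le_div_of_nonneg_right ?_ (by positivity)
  exact mul_le_mul_of_nonneg_left (by linarith) (by positivity)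

/-- the final inequality -/
private theorem clsI_end {cp k Wm X Z card lam m1 L : ℝ} {e : ℕ} (hcp : 0 < cp) (hk : 0 < k) (hW : 0 < Wm)
    (hX : 0 ≤ X) (hlam : 0 ≤ lam) (hm1 : 0 < m1) (hmL : m1 ≤ L) (hZ : cp * (lam / m1) ^ e ≤ Z)
    (h : X * Z ≤ k * Wm * card) : cp / (k * Wm) * X * (lam / L) ^ e ≤ card := by
  have h1 : (lam / L) ^ e ≤ (lam / m1) ^ e :=
    pow_le_pow_left₀ (div_nonneg hlam (hm1.le.trans hmL)) (div_le_div_of_nonneg_left hlam hm1 hmL) e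
  have h2 : cp * (lam / L) ^ e ≤ Z := (mul_le_mul_of_nonneg_left h1 hcp.le).trans hZ
  have h3 : X * (cp * (lam / L) ^ e) ≤ k * Wm * card := (mul_le_mul_of_nonneg_left h2 hX).trans h
  have e1 : cp / (k * Wm) * X * (lam / L) ^ e = X * (cp * (lam / L) ^ e) / (k * Wm) := by
    field_simp
  rw [e1, div_le_iff₀ (mul_pos hk hW)]
  linarith

open Classical in
/-- the good `n` -/
private theorem clsI_good {m k L m1 s d r t0 G' H P M b B : ℕ} {R : Finset ℕ} {t : Fin k → ℕ}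
    {K' : ℝ} {𝒮 : Set ℕ} (hS : ∀ x : ℕ, x ∈ 𝒮 ↔ psy L m1 r (x : ℤ) ≠ 0)
    (ht1 : Function.Injective t) (hB : B = ⌊K'⌋₊) :
    (((Nw P H M b).filter (fun n => (∀ j ∈ R, ¬ (n + j).Prime) ∧
          m + 1 ≤ ((univ : Finset (Fin k)).filter (fun i => (n + t i).Prime)).card ∧
          XI L m1 r R t (n : ℤ) ≤ K' ∧ 0 < wI L m1 s d r R t t0 G' (n : ℤ))).card : ℝ) ≤
      (((Nw P H M b).filter (fun n => (∀ j ∈ R, ¬ (n + j).Prime) ∧
        m + 1 ≤ ((univ : Finset (Fin k)).filter (fun i => (n + t i).Prime)).card ∧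
        (∀ i, n + t i ∈ 𝒮) ∧
        ((R ∪ univ.image t).filter (fun j => n + j ∈ 𝒮)).card ≤ B)).card : ℝ) := by
  have hsub : (Nw P H M b).filter (fun n => (∀ j ∈ R, ¬ (n + j).Prime) ∧
          m + 1 ≤ ((univ : Finset (Fin k)).filter (fun i => (n + t i).Prime)).card ∧
          XI L m1 r R t (n : ℤ) ≤ K' ∧ 0 < wI L m1 s d r R t t0 G' (n : ℤ)) ⊆
      (Nw P H M b).filter (fun n => (∀ j ∈ R, ¬ (n + j).Prime) ∧
        m + 1 ≤ ((univ : Finset (Fin k)).filter (fun i => (n + t i).Prime)).card ∧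
        (∀ i, n + t i ∈ 𝒮) ∧
        ((R ∪ univ.image t).filter (fun j => n + j ∈ 𝒮)).card ≤ B) := by
    intro n hn
    rw [mem_filter] at hn ⊢
    obtain ⟨hn0, hn1, hn2, hn3, hn4⟩ := hn
    have hr : ∀ i : Fin k, (n : ℤ) - a2 R t (Sum.inr i) = ((n + t i : ℕ) : ℤ) := by
      intro i
      show (n : ℤ) - (-(t i : ℤ)) = _
      push_cast
      ring
    have hl : ∀ j : {j : ℕ // j ∈ R}, (n : ℤ) - a2 R t (Sum.inl j) = ((n + (j : ℕ) : ℕ) : ℤ) := by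
      intro j
      show (n : ℤ) - (-((j : ℕ) : ℤ)) = _
      push_cast
      ring
    refine ⟨hn0, hn1, hn2, ?_, ?_⟩
    · intro i
      rw [hS]
      intro h0
      have h1 : PT (psy L m1 r) (a2 R t) (sR {j : ℕ // j ∈ R} (Fin k)) (n : ℤ) = 0 := by
        unfold PT
        refine prod_eq_zero (mem_sR i) ?_
        rw [hr i]
        exact h0
      unfold wI at hn4
      rw [h1, zero_mul] at hn4
      exact lt_irrefl _ hn4
    · have h1 : XI L m1 r R t (n : ℤ) = ∑ j ∈ R, psy L m1 r ((n + j : ℕ) : ℤ) +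
          ∑ i : Fin k, psy L m1 r ((n + t i : ℕ) : ℤ) := by
        unfold XI
        rw [Fintype.sum_sum_type]
        congr 1
        · rw [← sum_coe_sort R (fun j => psy L m1 r ((n + j : ℕ) : ℤ))]
          exact sum_congr rfl fun j _ => by rw [hl j]
        · exact sum_congr rfl fun i _ => by rw [hr i]
      have h2 : (((R ∪ univ.image t).filter (fun j => n + j ∈ 𝒮)).card : ℝ) ≤
          XI L m1 r R t (n : ℤ) := by
        calc (((R ∪ univ.image t).filter (fun j => n + j ∈ 𝒮)).card : ℝ) =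
              ∑ _j ∈ (R ∪ univ.image t).filter (fun j => n + j ∈ 𝒮), (1 : ℝ) := by
              rw [sum_const, nsmul_eq_mul, mul_one]
          _ ≤ ∑ j ∈ (R ∪ univ.image t).filter (fun j => n + j ∈ 𝒮),
                psy L m1 r ((n + j : ℕ) : ℤ) := by
              refine sum_le_sum fun j hj => ?_
              rcases psy_int L m1 r ((n + j : ℕ) : ℤ) with h | h
              · exact absurd h ((hS _).1 (mem_filter.1 hj).2)
              · exact h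
          _ ≤ ∑ j ∈ R ∪ univ.image t, psy L m1 r ((n + j : ℕ) : ℤ) :=
              sum_le_sum_of_subset_of_nonneg (filter_subset _ _) fun j _ _ => psy_nn _ _ _ _
          _ ≤ ∑ j ∈ R, psy L m1 r ((n + j : ℕ) : ℤ) +
                ∑ j ∈ univ.image t, psy L m1 r ((n + j : ℕ) : ℤ) := by
              rw [← sum_union_inter]
              exact le_add_of_nonneg_right (sum_nonneg fun j _ => psy_nn _ _ _ _)
          _ = XI L m1 r R t (n : ℤ) := by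
              rw [h1, sum_image fun a _ b _ h => ht1 h]
      rw [hB]
      exact Nat.le_floor (h2.trans hn3)
  exact_mod_cast card_le_card hsub

private theorem clsI_pow {x y : ℕ} (h : 2 ^ x ≤ y) : x ≤ Nat.log 2 y :=
  Nat.le_log_of_pow_le (by norm_num) h

open Classical in
theorem cls_I (m : ℕ) {κ0 : ℝ} (hκ : 0 < κ0) : ∃ k : ℕ, 0 < k ∧ ∀ Λ : ℝ, 0 < Λ →
    ∃ c : ℝ, 0 < c ∧ ∃ B P0 : ℕ, ∀ P : ℕ, P0 ≤ P → ∃ 𝒮 : Set ℕ,
    ∀ (L M H : ℕ) (R : Finset ℕ), AdmV Λ P L M H R → ∀ (b : ℕ) (t : Fin k → ℕ),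
    Function.Injective t → (∀ i, t i < H) → (∀ i, t i ∉ R) →
    (∀ i, Nat.Coprime (b + t i) M ∧ κ0 * ((P : ℝ) / M) * (Nat.log 2 L : ℝ) ≤
      psi M (b + t i) P) →
    c * ((P : ℝ) / M) * ((Nat.log 2 L : ℝ) / L) ^ k ≤
      (((Nw P H M b).filter (fun n => (∀ j ∈ R, ¬ (n + j).Prime) ∧
        m + 1 ≤ ((univ : Finset (Fin k)).filter (fun i => (n + t i).Prime)).card ∧
        (∀ i, n + t i ∈ 𝒮) ∧
        ((R ∪ univ.image t).filter (fun j => n + j ∈ 𝒮)).card ≤ B)).card : ℝ) := by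
  obtain ⟨cy, hcy, Cy, hCy, L1, hyh⟩ := yh_sumsV
  obtain ⟨L2, he1⟩ := ei1
  have hl2 : 0 < Real.log 2 := Real.log_pos (by norm_num)
  obtain ⟨c5, hc5⟩ : ∃ c5 : ℝ, c5 = min (1 / 2) (cy / (16 * Cy)) := ⟨_, rfl⟩
  have h50 : 0 < c5 := by
    rw [hc5]
    exact lt_min (by norm_num) (by positivity)
  have h51 : c5 ≤ 1 / 2 := by
    rw [hc5]
    exact min_le_left _ _
  have h52 : 16 * Cy * c5 ≤ cy := by
    have h1 : c5 ≤ cy / (16 * Cy) := by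
      rw [hc5]
      exact min_le_right _ _
    rw [le_div_iff₀ (by positivity)] at h1
    linarith
  obtain ⟨CU, hCU⟩ : ∃ x : ℝ, x = 24 * Real.exp 9 / Real.log 2 := ⟨_, rfl⟩
  have hCUp : 0 < CU := by
    rw [hCU]
    exact div_pos (mul_pos (by norm_num) (Real.exp_pos _)) hl2
  obtain ⟨A0, hA0⟩ : ∃ x : ℝ, x = c5 * cy ^ 2 * κ0 / (2560000 * Cy * CU) := ⟨_, rfl⟩
  have hA0p : 0 < A0 := by
    rw [hA0]
    positivity
  obtain ⟨G', hG'⟩ := exists_nat_ge ((10 * (m : ℝ) + 3) / A0)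
  have hGG : 10 * (m : ℝ) + 3 ≤ A0 * ((G' : ℝ) + 1) := by
    rw [div_le_iff₀ hA0p] at hG'
    linarith
  obtain ⟨k, hk⟩ : ∃ k : ℕ, k = 2 ^ G' := ⟨_, rfl⟩
  have hk0 : 0 < k := by
    rw [hk]
    positivity
  have hkc : ((2 ^ G' : ℕ) : ℝ) = k := by rw [hk]
  clear hk
  have hkr : (0 : ℝ) < k := by exact_mod_cast hk0
  refine ⟨k, hk0, ?_⟩
  intro Λ hΛ
  obtain ⟨CV0, hCV0⟩ : ∃ x : ℝ, x = 24 * Real.exp 9 * Λ / Real.log 2 := ⟨_, rfl⟩
  have hCV0p : 0 < CV0 := by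
    rw [hCV0]
    exact div_pos (mul_pos (mul_pos (by norm_num) (Real.exp_pos _)) hΛ) hl2
  obtain ⟨CV, hCV⟩ : ∃ x : ℝ, x = 100 * k * CV0 := ⟨_, rfl⟩
  have hCVp : 0 < CV := by
    rw [hCV]
    positivity
  have hk1r : (1 : ℝ) ≤ k := by exact_mod_cast hk0
  have hCVle : CV0 ≤ CV := by
    rw [hCV]
    nlinarith
  obtain ⟨G, r, hG1, hr0, hr, hG2, hG3, h4, h5⟩ := parA CV hCVp
    (k + ⌈40000 * (k : ℝ) * ((G' : ℝ) + 1) / c5⌉₊) 1000 (by norm_num)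
  have hkr0 : k ≤ r := (Nat.le_add_right _ _).trans hr0
  have hr1 : 40000 * (k : ℝ) * ((G' : ℝ) + 1) / c5 ≤ r := by
    have h1 := Nat.le_ceil (40000 * (k : ℝ) * ((G' : ℝ) + 1) / c5)
    have h2 : ⌈40000 * (k : ℝ) * ((G' : ℝ) + 1) / c5⌉₊ ≤ r := (Nat.le_add_left _ _).trans hr0
    exact h1.trans (by exact_mod_cast h2)
  obtain ⟨L3, hpb⟩ := pb_exists CV G r hG1 hr
  obtain ⟨L4, hpi⟩ := pi_of_pb G r k hkr0 hr
  obtain ⟨L5, hpik⟩ := pik_ev k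
  obtain ⟨cp, hcp, L6, hplow⟩ := pi_low k
  have hRR : (0 : ℝ) ≤ (RR G r : ℝ) := Nat.cast_nonneg _
  obtain ⟨K', hK'⟩ : ∃ K' : ℝ, K' = 8 * k * (10 * (CV0 * RR G r + RR G r) + 1) := ⟨_, rfl⟩
  have hK'p : 0 < K' := by
    rw [hK']
    have h1 : 0 ≤ CV0 * RR G r := mul_nonneg hCV0p.le hRR
    have h2 : 0 < 10 * (CV0 * RR G r + RR G r) + 1 := by linarith
    exact mul_pos (mul_pos (by norm_num) hkr) h2
  obtain ⟨B, hB⟩ : ∃ B : ℕ, B = ⌊K'⌋₊ := ⟨_, rfl⟩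
  obtain ⟨Wm, hWm⟩ : ∃ W : ℝ, W = K' ^ k * Real.exp (2 * (2 ^ (RR G r + 4) * E2 G r) * (K' + k)) :=
    ⟨_, rfl⟩
  have hWmp : 0 < Wm := by
    rw [hWm]
    exact mul_pos (pow_pos hK'p _) (Real.exp_pos _)
  obtain ⟨wΛ, hwΛ⟩ : ∃ x : ℕ, x = 2 ^ (⌈2 * Λ⌉₊ + 1) := ⟨_, rfl⟩
  obtain ⟨N0, hN0⟩ : ∃ x : ℕ, x = L1 + L2 + L3 + L4 + L5 + L6 + wΛ + 20000 + 100 * k +
    ⌈12 / κ0⌉₊ := ⟨_, rfl⟩
  refine ⟨cp / (k * Wm), div_pos hcp (mul_pos hkr hWmp), B, 2 ^ N0, ?_⟩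
  intro P hP
  have hNP : N0 ≤ Nat.log 2 P := clsI_pow hP
  obtain ⟨g, s, m1, d, N, pb⟩ := hpb (Nat.log 2 P) (by omega)
  refine ⟨{x : ℕ | psy (Nat.log 2 P) m1 r (x : ℤ) ≠ 0}, ?_⟩
  intro L M H R adm b t ht1 ht2 ht3 hpsi
  have hLP := adm.hL
  rw [← hLP] at hNP pb ⊢
  have hL1 : L1 ≤ L := by omega
  have hL2 : L2 ≤ L := by omega
  have hL4 : L4 ≤ L := by omega
  have hL5 : L5 ≤ L := by omega
  have hL6 : L6 ≤ L := by omega
  have hLw : wΛ ≤ L := by omega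
  have hL20 : 20000 ≤ L := by omega
  have hLk : 100 * k ≤ L := by omega
  have hLκ : ⌈12 / κ0⌉₊ ≤ L := by omega
  clear hN0 hNP
  have hP0 : P ≠ 0 := by
    intro h
    rw [h, Nat.log_zero_right] at hLP
    omega
  have hlogn : ⌈2 * Λ⌉₊ + 1 ≤ Nat.log 2 L := clsI_pow (by rw [← hwΛ]; exact hLw)
  have hlogr : ((⌈2 * Λ⌉₊ + 1 : ℕ) : ℝ) ≤ (Nat.log 2 L : ℝ) := by exact_mod_cast hlogn
  push_cast at hlogr
  have hceil : 2 * Λ ≤ (⌈2 * Λ⌉₊ : ℝ) := Nat.le_ceil _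
  have hlogΛ : 2 * Λ ≤ (Nat.log 2 L : ℝ) := by linarith
  have hlog1 : (1 : ℝ) ≤ (Nat.log 2 L : ℝ) := by
    have h1 : (0 : ℝ) ≤ (⌈2 * Λ⌉₊ : ℝ) := Nat.cast_nonneg _
    linarith
  have hLκr : 12 / κ0 ≤ (L : ℝ) := (Nat.le_ceil _).trans (by exact_mod_cast hLκ)
  obtain ⟨hkL, hbig⟩ := clsI_L (k := k) hκ adm.hk hlogΛ hlog1 (by omega) hLκr
  have hm1p : 1 ≤ m1 := pb.pl.m_pos
  have hL6m : L ^ 6 ≤ 2 ^ m1 := pb.pl.L6
  have hm1L : m1 ≤ L := by
    refine pb.pl.m_le_s.trans ?_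
    rw [pb.pl.hs]
    exact Nat.div_le_self _ _
  have hPI := hpi L hL4 CV g s m1 d N pb
  obtain ⟨t0, ht0⟩ : ∃ t0 : ℕ, t0 = ⌊c5 * dd L / (k * ((G' : ℝ) + 1))⌋₊ := ⟨_, rfl⟩
  obtain ⟨ht0a, ht0b, ht0c, ht0d, ht0e⟩ := clsI_t0 h50 h51 hk0 hkc hm1p hr1 hPI.ms hL20 ht0
  have hLr : (20000 : ℝ) ≤ L := by exact_mod_cast hL20
  have hLp : (0 : ℝ) < L := by linarith
  have sd : SD CV0 CV G r P L M H R g s m1 d N :=
    { pb := pb
      CV0pos := hCV0p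
      CVle := hCVle
      h4 := h4
      hG2 := hG2
      hG3 := hG3
      hL := adm.hL
      hM0 := adm.hM0
      hM := adm.hM
      hMP := adm.hMP
      hH := adm.hH
      hR := adm.hR
      hkL := by omega
      hkV := kV_y hΛ pb hCV0.ge adm.hk }
  have si : SI CV0 CV G r k G' t0 P L M H R t g s m1 d N :=
    { sd := sd
      pi := hPI
      pik := hpik L m1 hL5 hL6m hm1L
      k1 := hk0
      tinj := ht1
      tH := ht2
      tR := ht3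
      hkL := hkL
      t0G := ht0b }
  obtain ⟨y1, y2, y3, y4⟩ := hyh L m1 hL1 hm1p hL6m t0 G' ht0a ht0b.le
  have hm1r : (0 : ℝ) < m1 := by exact_mod_cast hm1p
  have ht0p : (0 : ℝ) < t0 := by
    have h1 : 0 < t0 := by omega
    exact_mod_cast h1
  have hD0 : (0 : ℝ) < dd L := by
    have h1 : 0 < dd L := by omega
    exact_mod_cast h1
  have hSX0 : 0 < SX (py L m1) (yh (py L m1) t0 G') := lt_of_lt_of_le (by positivity) y2
  have hE : 4 * (k : ℝ) * SE (py L m1) (yh (py L m1) t0 G') ≤ SX (py L m1) (yh (py L m1) t0 G') *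
      (((dd L : ℝ) - ((t0 * 2 ^ G' : ℕ) : ℝ)) * Real.log 2) := by
    refine clsI_E hcy hCy hkr.le hm1r ht0p hD0 h52 ht0c ?_ y2 y4
    rw [Nat.cast_mul, hkc]
    exact ht0d
  have hatt := fun i : Fin k => att_c si hE i
  have hM0 : (0 : ℝ) < M := by exact_mod_cast adm.hM0
  have hPr : (0 : ℝ) < P := by
    have : 0 < P := Nat.pos_of_ne_zero hP0
    exact_mod_cast this
  have hPm : 0 < (P : ℝ) / M := div_pos hPr hM0
  have hZP := si_ZI si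
  have hZ0 : 0 ≤ ZI L m1 s d R k t0 G' := (piy_nn L m1 k).trans hZP
  have hQ0 : ∀ i : Fin k, 0 ≤ QI L m1 s d R t0 G' i := fun i =>
    (mul_nonneg (sq_nonneg _) (piy_nn L m1 _)).trans (si_QI si i)
  have hG1r : (0 : ℝ) < (G' : ℝ) + 1 := by positivity
  have hV : Piy L m1 1 ≤ CU * (Nat.log 2 L : ℝ) / m1 :=
    clsI_V hCU hm1r hlog1 (piy_up (by omega) hm1p)
  have hlow := cls_low (k := k) (c := cy) (C := Cy) (c5 := c5) (κ0 := κ0) (CU := CU) (L := (L : ℝ))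
    (m1 := (m1 : ℝ)) (lam := (Nat.log 2 L : ℝ)) (t0 := (t0 : ℝ)) (G1 := (G' : ℝ) + 1)
    (X := (P : ℝ) / M) (Z := ZI L m1 s d R k t0 G') (V := Piy L m1 1)
    (sa := SA (py L m1) (yh (py L m1) t0 G')) (sx := SX (py L m1) (yh (py L m1) t0 G'))
    (lP := Real.log P) (Q := fun i => QI L m1 s d R t0 G' i)
    (T := fun i => ∑ n ∈ (Nw P H M b).filter (fun n => (n + t i).Prime),
      wI L m1 s d r R t t0 G' (n : ℤ)) (ps := fun i => psi M (b + t i) P)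
    hcy hCy h50 hκ hCUp hLp hm1r (by linarith) ht0p hG1r hPm hZ0 y1 hSX0 y3 (piy_nn L m1 1) hV
    hatt hQ0 (fun i => sum_nonneg fun n _ => wI_nn L m1 s d r R t t0 G' _)
    (fun i => he1 CV0 CV G r k G' t0 P L M H R t g s m1 d N si hL2 b i (hpsi i).1)
    (fun i => (hpsi i).2) hbig (clsI_log hP0 hLP hL20) ht0e
  rw [← hA0] at hlow
  have hsum := cls_sumI (k := k) (m := m) (Nw P H M b) R t
    (fun n => wI L m1 s d r R t t0 G' (n : ℤ)) (fun n => XI L m1 r R t (n : ℤ))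
    (fun n => wI_nn L m1 s d r R t t0 G' _) (fun n => XI_nn L m1 r R t _) hK'p
    (Wm := Wm) (fun n hn hX => by
      rw [hWm]
      exact ei5 si b hn hX)
  have hfin := clsI_fin (Nat.cast_nonneg m) hkr hPm.le hZ0 hLp hRR hCV0p.le hGG hlow hsum (ei0 si b)
    (ei3 si b) (ei4 si b) hK' h5 hCV (by exact_mod_cast hLk)
  have hgood := clsI_good (m := m) (s := s) (d := d) (t0 := t0) (G' := G') (H := H) (P := P)
    (M := M) (b := b) (L := L) (m1 := m1) (r := r) (R := R)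
    (𝒮 := {x : ℕ | psy L m1 r (x : ℤ) ≠ 0}) (fun x => Iff.rfl) ht1 hB
  exact (clsI_end hcp hkr hWmp hPm.le (by linarith) hm1r (by exact_mod_cast hm1L)
    ((hplow L m1 hL6 hL6m).trans hZP) hfin).trans hgood

end Pool.Agent.ISO
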