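import Mathlib

/-!
ISO/ClsN.  Two elementary lemmas for the assembly in a class.
-/

set_option autoImplicit false

open Finset

namespace Pool.Agent.ISO

open Classical in
theorem cls_sumI {k m : ℕ} (N R : Finset ℕ) (t : Fin k → ℕ) (w Y : ℕ → ℝ)
    (hw : ∀ n, 0 ≤ w n) (hY : ∀ n, 0 ≤ Y n) {K' Wm : ℝ} (hK : 0 < K')
    (hWm : ∀ n ∈ N, Y n ≤ K' → w n ≤ Wm) :
    ∑ i : Fin k, ∑ n ∈ N.filter (fun n => (n + t i).Prime), w n ≤
      m * ∑ n ∈ N, w n + k * ∑ n ∈ N.filter (fun n => ∃ j ∈ R, (n + j).Prime), w n +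
        k / K' * ∑ n ∈ N, Y n * w n +
        k * Wm * ((N.filter (fun n => (∀ j ∈ R, ¬ (n + j).Prime) ∧
          m + 1 ≤ ((univ : Finset (Fin k)).filter (fun i => (n + t i).Prime)).card ∧
          Y n ≤ K' ∧ 0 < w n)).card : ℝ) := by
  have h1 : ∑ i : Fin k, ∑ n ∈ N.filter (fun n => (n + t i).Prime), w n =
      ∑ n ∈ N, w n * (((univ : Finset (Fin k)).filter (fun i => (n + t i).Prime)).card : ℝ) := by
    have h2 : ∀ i : Fin k, ∑ n ∈ N.filter (fun n => (n + t i).Prime), w n =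
        ∑ n ∈ N, if (n + t i).Prime then w n else 0 := fun i => Finset.sum_filter _ _
    rw [Finset.sum_congr rfl (fun i _ => h2 i), Finset.sum_comm]
    refine Finset.sum_congr rfl fun n _ => ?_
    rw [← Finset.sum_filter, Finset.sum_const, nsmul_eq_mul, mul_comm]
  have hc : ((N.filter (fun n => (∀ j ∈ R, ¬ (n + j).Prime) ∧
          m + 1 ≤ ((univ : Finset (Fin k)).filter (fun i => (n + t i).Prime)).card ∧
          Y n ≤ K' ∧ 0 < w n)).card : ℝ) =
      ∑ n ∈ N, if ((∀ j ∈ R, ¬ (n + j).Prime) ∧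
          m + 1 ≤ ((univ : Finset (Fin k)).filter (fun i => (n + t i).Prime)).card ∧
          Y n ≤ K' ∧ 0 < w n) then (1 : ℝ) else 0 := by
    rw [← Finset.sum_filter, Finset.sum_const, nsmul_eq_mul, mul_one]
  rw [h1, hc, Finset.mul_sum, Finset.mul_sum, Finset.mul_sum, Finset.mul_sum, Finset.sum_filter,
    ← Finset.sum_add_distrib, ← Finset.sum_add_distrib, ← Finset.sum_add_distrib]
  refine Finset.sum_le_sum fun n hn => ?_
  have h0 := hw n
  have hy := hY n
  have hk0 : (0 : ℝ) ≤ k := Nat.cast_nonneg k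
  have hcard : (((univ : Finset (Fin k)).filter (fun i => (n + t i).Prime)).card : ℝ) ≤ k := by
    have h4 := Finset.card_filter_le (univ : Finset (Fin k)) (fun i => (n + t i).Prime)
    rw [Finset.card_univ, Fintype.card_fin] at h4
    exact_mod_cast h4
  have h6 := mul_le_mul_of_nonneg_left hcard h0
  have hm0 : (0 : ℝ) ≤ (m : ℝ) * w n := by positivity
  have hYw : (0 : ℝ) ≤ k / K' * (Y n * w n) := by positivity
  have hind : (0 : ℝ) ≤ k * Wm * (if ((∀ j ∈ R, ¬ (n + j).Prime) ∧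
          m + 1 ≤ ((univ : Finset (Fin k)).filter (fun i => (n + t i).Prime)).card ∧
          Y n ≤ K' ∧ 0 < w n) then (1 : ℝ) else 0) := by
    split_ifs with hg
    · have hW : 0 ≤ Wm := h0.trans (hWm n hn hg.2.2.1)
      positivity
    · simp
  by_cases h : ∃ j ∈ R, (n + j).Prime
  · rw [if_pos h]
    linarith
  · rw [if_neg h, add_zero]
    push Not at h
    by_cases hc2 : m + 1 ≤ ((univ : Finset (Fin k)).filter (fun i => (n + t i).Prime)).card
    · by_cases hYK : Y n ≤ K'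
      · rcases h0.eq_or_lt with hz | hpos
        · have hz0 : w n * (((univ : Finset (Fin k)).filter
              (fun i => (n + t i).Prime)).card : ℝ) = 0 := by
            rw [← hz, zero_mul]
          rw [hz0]
          exact add_nonneg (add_nonneg hm0 hYw) hind
        · have hgood : (∀ j ∈ R, ¬ (n + j).Prime) ∧
            m + 1 ≤ ((univ : Finset (Fin k)).filter (fun i => (n + t i).Prime)).card ∧
            Y n ≤ K' ∧ 0 < w n := ⟨h, hc2, hYK, hpos⟩
          rw [if_pos hgood, mul_one]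
          have h7 : w n * (k : ℝ) ≤ k * Wm := by
            rw [mul_comm]
            exact mul_le_mul_of_nonneg_left (hWm n hn hYK) hk0
          linarith
      · push Not at hYK
        have h8 : w n * (k : ℝ) ≤ k / K' * (Y n * w n) := by
          have e1 : k / K' * (Y n * w n) = w n * k * (Y n / K') := by
            field_simp
          rw [e1]
          have h9 : 1 ≤ Y n / K' := by
            rw [le_div_iff₀ hK]
            linarith
          have h10 : (0 : ℝ) ≤ w n * k := by positivity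
          nlinarith
        linarith
    · push Not at hc2
      have h4 : (((univ : Finset (Fin k)).filter (fun i => (n + t i).Prime)).card : ℝ) ≤ m := by
        exact_mod_cast Nat.lt_succ_iff.1 hc2
      have h5 := mul_le_mul_of_nonneg_left h4 h0
      linarith

theorem cls_low {k : ℕ} {c C c5 κ0 CU L m1 lam t0 G1 X Z V sa sx lP : ℝ} {Q T ps : Fin k → ℝ}
    (hc : 0 < c) (hC : 0 < C) (hc5 : 0 < c5) (hκ : 0 < κ0) (hCU : 0 < CU) (hL : 0 < L)
    (hm1 : 0 < m1) (hlam : 0 < lam) (ht : 0 < t0) (hG : 0 < G1) (hX : 0 < X) (hZ : 0 ≤ Z)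
    (hsa : c * (G1 * t0 / m1) ≤ sa) (hsx0 : 0 < sx) (hsx : sx ≤ C * (t0 / m1))
    (hV0 : 0 ≤ V) (hV : V ≤ CU * lam / m1)
    (hQ : ∀ i, sa ^ 2 / (8 * sx) * Z ≤ V * Q i) (hQ0 : ∀ i, 0 ≤ Q i) (hT0 : ∀ i, 0 ≤ T i)
    (hsite : ∀ i, 1 / 3 * Q i * ps i - Q i * X / L ≤ 2 * lP * T i)
    (hps : ∀ i, κ0 * X * lam ≤ ps i) (hbig : 1 / L ≤ κ0 * lam / 12) (hlP : lP ≤ L)
    (ht0 : c5 * L / 40000 ≤ k * G1 * t0) :
    c5 * c ^ 2 * κ0 / (2560000 * C * CU) * G1 * (X * Z) ≤ ∑ i, T i := by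
  have hsq : c ^ 2 * G1 ^ 2 * t0 / (8 * C * m1) ≤ sa ^ 2 / (8 * sx) := by
    have e1 : c ^ 2 * G1 ^ 2 * t0 / (8 * C * m1) =
        (c * (G1 * t0 / m1)) ^ 2 / (8 * (C * (t0 / m1))) := by
      field_simp
    rw [e1]
    have h2 : 0 ≤ c * (G1 * t0 / m1) := by positivity
    have h3 : (c * (G1 * t0 / m1)) ^ 2 ≤ sa ^ 2 := pow_le_pow_left₀ h2 hsa 2
    exact div_le_div₀ (by positivity) h3 (by positivity) (by linarith)
  have hone : ∀ i, c ^ 2 * G1 ^ 2 * t0 * κ0 * X * Z / (64 * C * CU * L) ≤ T i := by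
    intro i
    have h1 : c ^ 2 * G1 ^ 2 * t0 / (8 * C * m1) * Z ≤ CU * lam / m1 * Q i := by
      refine (mul_le_mul_of_nonneg_right hsq hZ).trans ((hQ i).trans ?_)
      exact mul_le_mul_of_nonneg_right hV (hQ0 i)
    have h2 : c ^ 2 * G1 ^ 2 * t0 / (8 * C * CU * lam) * Z ≤ Q i := by
      have e2 : c ^ 2 * G1 ^ 2 * t0 / (8 * C * CU * lam) * Z =
          (m1 / (CU * lam)) * (c ^ 2 * G1 ^ 2 * t0 / (8 * C * m1) * Z) := by
        field_simp
      have e3 : Q i = (m1 / (CU * lam)) * (CU * lam / m1 * Q i) := by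
        field_simp
      rw [e2, e3]
      exact mul_le_mul_of_nonneg_left h1 (by positivity)
    have h3 : Q i * (X * (κ0 * lam / 4)) ≤ 2 * L * T i := by
      have h4 : Q i * (κ0 * X * lam) ≤ Q i * ps i := mul_le_mul_of_nonneg_left (hps i) (hQ0 i)
      have h5 : Q i * X * (1 / L) ≤ Q i * X * (κ0 * lam / 12) :=
        mul_le_mul_of_nonneg_left hbig (mul_nonneg (hQ0 i) hX.le)
      have h6 : lP * T i ≤ L * T i := mul_le_mul_of_nonneg_right hlP (hT0 i)
      have h7 := hsite i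
      have h8 : Q i * X / L = Q i * X * (1 / L) := by ring
      rw [h8] at h7
      nlinarith
    have h9 : c ^ 2 * G1 ^ 2 * t0 / (8 * C * CU * lam) * Z * (X * (κ0 * lam / 4)) ≤
        2 * L * T i := (mul_le_mul_of_nonneg_right h2 (by positivity)).trans h3
    have e4 : c ^ 2 * G1 ^ 2 * t0 * κ0 * X * Z / (64 * C * CU * L) =
        (1 / (2 * L)) * (c ^ 2 * G1 ^ 2 * t0 / (8 * C * CU * lam) * Z * (X * (κ0 * lam / 4))) := by
      field_simp
      ring
    have e5 : T i = (1 / (2 * L)) * (2 * L * T i) := by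
      field_simp
    rw [e4, e5]
    exact mul_le_mul_of_nonneg_left h9 (by positivity)
  have hsum : (k : ℝ) * (c ^ 2 * G1 ^ 2 * t0 * κ0 * X * Z / (64 * C * CU * L)) ≤ ∑ i, T i := by
    have h1 := Finset.card_nsmul_le_sum (univ : Finset (Fin k)) T
      (c ^ 2 * G1 ^ 2 * t0 * κ0 * X * Z / (64 * C * CU * L)) (fun i _ => hone i)
    rw [Finset.card_univ, Fintype.card_fin, nsmul_eq_mul] at h1
    exact h1
  refine le_trans ?_ hsum
  have e6 : (k : ℝ) * (c ^ 2 * G1 ^ 2 * t0 * κ0 * X * Z / (64 * C * CU * L)) =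
      (c ^ 2 * G1 * κ0 * X * Z / (64 * C * CU * L)) * (k * G1 * t0) := by
    ring
  have e7 : c5 * c ^ 2 * κ0 / (2560000 * C * CU) * G1 * (X * Z) =
      (c ^ 2 * G1 * κ0 * X * Z / (64 * C * CU * L)) * (c5 * L / 40000) := by
    field_simp
    ring
  rw [e6, e7]
  exact mul_le_mul_of_nonneg_left ht0 (by positivity)

end Pool.Agent.ISO
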