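import Pool.Agent.IPT.TDefs

/-!
ISO/CntAdm.  Many admissible tuples in a box.
Tuples with `t i` congruent to `k! * i` modulo `k! * (k+1)`.
-/

set_option autoImplicit false

namespace Pool.Agent.ISO

open Finset Pool.Agent.REC Pool.Agent.IPT

private theorem ca_nu_le (p : ℕ) {k : ℕ} (t : Fin k → ℕ) : nu p t ≤ k := by
  unfold nu
  refine le_trans Finset.card_image_le ?_
  rw [Finset.card_univ, Fintype.card_fin]

private theorem ca_cnt {M : ℕ} (hM : 0 < M) (u N v : ℕ) (hN : 2 * M ≤ N) :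
    (N : ℝ) / (2 * M) ≤ (((Ico u (u + N)).filter (fun x => x ≡ v [MOD M])).card : ℝ) := by
  have h1 := Nat.Ico_filter_modEq_card u (u + N) hM v
  have hMq : (0 : ℚ) < (M : ℚ) := by exact_mod_cast hM
  have h2 : ((N : ℚ)) / (2 * M) ≤ (((Ico u (u + N)).filter (fun x => x ≡ v [MOD M])).card : ℚ) := by
    have h3 : (((Ico u (u + N)).filter (fun x => x ≡ v [MOD M])).card : ℤ) ≥
        ⌈(((u + N : ℕ) : ℚ) - v) / (M : ℚ)⌉ - ⌈((u : ℚ) - v) / (M : ℚ)⌉ := by
      rw [h1]
      exact le_max_left _ _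
    have h4 : (((Ico u (u + N)).filter (fun x => x ≡ v [MOD M])).card : ℚ) ≥
        (⌈(((u + N : ℕ) : ℚ) - v) / (M : ℚ)⌉ : ℚ) - (⌈((u : ℚ) - v) / (M : ℚ)⌉ : ℚ) := by
      exact_mod_cast h3
    have h5 := Int.le_ceil ((((u + N : ℕ) : ℚ) - v) / (M : ℚ))
    have h6 := Int.ceil_lt_add_one (((u : ℚ) - v) / (M : ℚ))
    have h7 : (((u + N : ℕ) : ℚ) - v) / (M : ℚ) = ((u : ℚ) - v) / (M : ℚ) + (N : ℚ) / M := by
      push_cast
      ring
    rw [h7] at h5
    have h8 : (1 : ℚ) ≤ (N : ℚ) / (2 * M) := by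
      rw [le_div_iff₀ (by positivity), one_mul]
      exact_mod_cast hN
    have h9 : (N : ℚ) / M = N / (2 * M) + N / (2 * M) := by
      field_simp
      ring
    rw [h7] at h4
    linarith
  have h10 := (Rat.cast_le (K := ℝ)).2 h2
  push_cast at h10
  exact h10

open Classical in
theorem cnt_adm (k : ℕ) : ∃ c : ℝ, 0 < c ∧ ∃ N0 : ℕ, ∀ N : ℕ, N0 ≤ N → ∀ u : Fin k → ℕ,
    c * (N : ℝ) ^ k ≤ (((Fintype.piFinset (fun i => Ico (u i) (u i + N))).filter (fun t =>
      Function.Injective t ∧ ∀ p : ℕ, p.Prime → nu p t < p)).card : ℝ) := by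
  set M : ℕ := k.factorial * (k + 1) with hM
  have hQ : 0 < k.factorial := Nat.factorial_pos k
  have hM0 : 0 < M := Nat.mul_pos hQ (Nat.succ_pos k)
  have hMr : (0 : ℝ) < (M : ℝ) := by exact_mod_cast hM0
  refine ⟨(1 / (2 * (M : ℝ))) ^ k, by positivity, 2 * M, fun N hN u => ?_⟩
  have hsub : Fintype.piFinset (fun i : Fin k => (Ico (u i) (u i + N)).filter (fun x => x ≡ k.factorial * (i : ℕ) [MOD M])) ⊆
      (Fintype.piFinset (fun i => Ico (u i) (u i + N))).filter (fun t =>
        Function.Injective t ∧ ∀ p : ℕ, p.Prime → nu p t < p) := by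
    intro t ht
    rw [Fintype.mem_piFinset] at ht
    have ht1 : ∀ i, t i ∈ Ico (u i) (u i + N) := fun i => (Finset.mem_filter.1 (ht i)).1
    have ht2 : ∀ i : Fin k, t i ≡ k.factorial * (i : ℕ) [MOD M] := fun i => (Finset.mem_filter.1 (ht i)).2
    rw [Finset.mem_filter, Fintype.mem_piFinset]
    refine ⟨ht1, ?_, ?_⟩
    · intro i j hij
      have h1 : k.factorial * (i : ℕ) ≡ k.factorial * (j : ℕ) [MOD M] := by
        refine (ht2 i).symm.trans ?_
        rw [hij]
        exact ht2 j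
      have hlt : ∀ i : Fin k, k.factorial * (i : ℕ) < M := fun i =>
        Nat.mul_lt_mul_of_pos_left (by have := i.2; omega) hQ
      have h2 : k.factorial * (i : ℕ) = k.factorial * (j : ℕ) := by
        have h3 : k.factorial * (i : ℕ) % M = k.factorial * (j : ℕ) % M := h1
        rwa [Nat.mod_eq_of_lt (hlt i), Nat.mod_eq_of_lt (hlt j)] at h3
      exact Fin.ext (Nat.eq_of_mul_eq_mul_left hQ h2)
    · intro p hp
      rcases Nat.lt_or_ge k p with hkp | hkp
      · exact lt_of_le_of_lt (ca_nu_le p t) hkp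
      · have hdvd : p ∣ k.factorial := (Nat.Prime.dvd_factorial hp).2 hkp
        have h1 : ∀ i, t i % p = 0 := by
          intro i
          have h2 : t i ≡ k.factorial * (i : ℕ) [MOD p] := (ht2 i).of_dvd (hdvd.trans (Dvd.intro _ rfl))
          have h3 : k.factorial * (i : ℕ) % p = 0 := Nat.mod_eq_zero_of_dvd (hdvd.trans (Dvd.intro _ rfl))
          have h4 : t i % p = k.factorial * (i : ℕ) % p := h2
          rw [h4, h3]
        have h2 : nu p t ≤ 1 := by
          unfold nu
          have h3 : (univ : Finset (Fin k)).image (fun i => t i % p) ⊆ {0} := by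
            intro y hy
            obtain ⟨i, _, rfl⟩ := Finset.mem_image.1 hy
            rw [Finset.mem_singleton]
            exact h1 i
          exact (Finset.card_le_card h3).trans (by simp)
        exact lt_of_le_of_lt h2 hp.one_lt
  have hcard := Finset.card_le_card hsub
  have hcard' : ((Fintype.piFinset (fun i : Fin k => (Ico (u i) (u i + N)).filter
      (fun x => x ≡ k.factorial * (i : ℕ) [MOD M]))).card : ℝ) ≤ _ := Nat.cast_le.2 hcard
  refine le_trans ?_ hcard'
  rw [Fintype.card_piFinset, Nat.cast_prod, ← mul_pow]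
  calc (1 / (2 * (M : ℝ)) * (N : ℝ)) ^ k = ∏ _i : Fin k, (1 / (2 * (M : ℝ)) * (N : ℝ)) := by
        rw [Finset.prod_const, Finset.card_univ, Fintype.card_fin]
    _ ≤ ∏ i : Fin k, (((Ico (u i) (u i + N)).filter (fun x => x ≡ k.factorial * (i : ℕ) [MOD M])).card : ℝ) := by
        refine Finset.prod_le_prod (fun _ _ => by positivity) fun i _ => ?_
        have h1 := ca_cnt hM0 (u i) N (k.factorial * (i : ℕ)) hN
        have h2 : 1 / (2 * (M : ℝ)) * (N : ℝ) = (N : ℝ) / (2 * M) := by ring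
        rw [h2]
        exact h1

end Pool.Agent.ISO
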