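import Pool.Agent.ISO.CDefs
import Pool.Agent.IPT.CrtCnt

/-!
ISO/CntR.  Among the classes which avoid the tuple, the proportion of those for which also `b + j` is coprime to
the modulus.
-/

set_option autoImplicit false

namespace Pool.Agent.ISO

open Finset Pool.Agent.REC Pool.Agent.IPT

/-- the class of `-x` -/
private def cl (p x : ℕ) : ℕ := (p - x % p) % p

private theorem cl_lt {p : ℕ} (hp : 0 < p) (x : ℕ) : cl p x < p := Nat.mod_lt _ hp

private theorem dvd_iff_cl {p : ℕ} (hp : 0 < p) (b x : ℕ) : p ∣ b + x ↔ b % p = cl p x := by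
  have h1 : (b + x) % p = (b % p + x % p) % p := Nat.add_mod b x p
  have hb := Nat.mod_lt b hp
  have hx := Nat.mod_lt x hp
  unfold cl
  rw [Nat.dvd_iff_mod_eq_zero, h1]
  rcases Nat.eq_zero_or_pos (x % p) with h0 | h0
  · rw [h0, add_zero, Nat.sub_zero, Nat.mod_self, Nat.mod_eq_of_lt hb]
  · rw [Nat.mod_eq_of_lt (by omega : p - x % p < p)]
    rcases lt_or_ge (b % p + x % p) p with h2 | h2
    · rw [Nat.mod_eq_of_lt h2]
      omega
    · rw [Nat.mod_eq_sub_mod h2, Nat.mod_eq_of_lt (by omega)]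
      omega

private theorem cl_inj {p : ℕ} (hp : 0 < p) {x y : ℕ} (h : cl p x = cl p y) : x % p = y % p := by
  have hx := Nat.mod_lt x hp
  have hy := Nat.mod_lt y hp
  unfold cl at h
  rcases Nat.eq_zero_or_pos (x % p) with h0 | h0 <;> rcases Nat.eq_zero_or_pos (y % p) with h1 | h1
  · rw [h0, h1]
  · rw [h0, Nat.sub_zero, Nat.mod_self, Nat.mod_eq_of_lt (by omega : p - y % p < p)] at h
    omega
  · rw [h1, Nat.sub_zero, Nat.mod_self, Nat.mod_eq_of_lt (by omega : p - x % p < p)] at h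
    omega
  · rw [Nat.mod_eq_of_lt (by omega : p - x % p < p), Nat.mod_eq_of_lt (by omega : p - y % p < p)]
      at h
    omega

/-- allowed classes -/
private def WW (p : ℕ) {k : ℕ} (t : Fin k → ℕ) : Finset ℕ :=
  (range p) \ (univ : Finset (Fin k)).image (fun i => cl p (t i))

private theorem WW_sub (p : ℕ) {k : ℕ} (t : Fin k → ℕ) : WW p t ⊆ range p := sdiff_subset

private theorem mem_WW {p : ℕ} {k : ℕ} {t : Fin k → ℕ} {x : ℕ} :
    x ∈ WW p t ↔ x < p ∧ ∀ i, x ≠ cl p (t i) := by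
  unfold WW
  rw [mem_sdiff, mem_range, mem_image]
  constructor
  · rintro ⟨h1, h2⟩
    exact ⟨h1, fun i hi => h2 ⟨i, mem_univ i, hi.symm⟩⟩
  · rintro ⟨h1, h2⟩
    refine ⟨h1, ?_⟩
    rintro ⟨i, -, hi⟩
    exact h2 i hi.symm

private theorem S_prime {w : ℕ} {R : Finset ℕ} {p : ℕ} (hp : p ∈ prs w \ R) : p.Prime :=
  (mem_prs.1 (mem_sdiff.1 hp).1).1

private theorem copr_iff (w : ℕ) (R : Finset ℕ) (b x : ℕ) :
    Nat.Coprime (b + x) (Mod w R) ↔ ∀ p ∈ prs w \ R, b % p ≠ cl p x := by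
  unfold Pool.Agent.REC.Mod
  rw [Nat.coprime_prod_right_iff]
  refine forall₂_congr fun p hp => ?_
  have hpp : p.Prime := S_prime hp
  rw [Nat.coprime_comm, hpp.coprime_iff_not_dvd, dvd_iff_cl hpp.pos]

private theorem Gb_eq (w : ℕ) (R : Finset ℕ) {k : ℕ} (t : Fin k → ℕ) :
    GbM w R t = (range (∏ p ∈ prs w \ R, p)).filter (fun b => ∀ p ∈ prs w \ R, b % p ∈ WW p t) := by
  unfold GbM
  ext b
  rw [mem_filter, mem_filter]
  have h1 : Mod w R = ∏ p ∈ prs w \ R, p := rfl
  rw [← h1]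
  refine and_congr_right fun _ => ?_
  constructor
  · intro h p hp
    rw [mem_WW]
    exact ⟨Nat.mod_lt _ (S_prime hp).pos, fun i => (copr_iff w R b (t i)).1 (h i) p hp⟩
  · intro h i
    rw [copr_iff]
    intro p hp
    exact (mem_WW.1 (h p hp)).2 i

private theorem card_Gb (w : ℕ) (R : Finset ℕ) {k : ℕ} (t : Fin k → ℕ) :
    (GbM w R t).card = ∏ p ∈ prs w \ R, (WW p t).card := by
  rw [Gb_eq]
  exact crt_eq _ (fun p hp => S_prime hp) (fun p => WW p t) fun p _ => WW_sub p t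

private theorem one_le_prod_real {s : Finset ℕ} {f : ℕ → ℝ} (h : ∀ i ∈ s, 1 ≤ f i) :
    1 ≤ ∏ i ∈ s, f i :=
  Finset.prod_induction f (fun x => 1 ≤ x) (fun _ _ ha hb => one_le_mul_of_one_le_of_one_le ha hb)
    le_rfl h

private theorem tot_eq (w : ℕ) (R : Finset ℕ) :
    ((Mod w R).totient : ℝ) / (Mod w R : ℝ) = ∏ q ∈ prs w \ R, (1 - 1 / (q : ℝ)) := by
  have hpf : (Mod w R).primeFactors = prs w \ R := by
    unfold Pool.Agent.REC.Mod
    exact Nat.primeFactors_prod fun p hp => S_prime hp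
  have h1 : (Nat.totient (Mod w R) : ℝ) = (Mod w R : ℝ) *
      ∏ q ∈ prs w \ R, (1 - 1 / (q : ℝ)) := by
    have h := Nat.totient_eq_mul_prod_factors (Mod w R)
    rw [hpf] at h
    have h' := congrArg (fun z : ℚ => (z : ℝ)) h
    push_cast at h'
    rw [h']
    simp only [one_div]
  have h2 : (Mod w R : ℝ) ≠ 0 := by
    have := Mod_pos w R
    exact_mod_cast this.ne'
  rw [h1, mul_div_cancel_left₀ _ h2]

private theorem Ph_ge (w : ℕ) (R : Finset ℕ) {k : ℕ} (t : Fin k → ℕ) (j : ℕ) :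
    ∏ p ∈ (prs w \ R).filter (fun p => ∃ i, j % p = t i % p), (1 - 1 / (p : ℝ))⁻¹ ≤ Ph w t j := by
  have hge : ∀ p : ℕ, p.Prime → 1 ≤ (1 - 1 / (p : ℝ))⁻¹ := by
    intro p hp
    have hp2 : (2 : ℝ) ≤ p := by exact_mod_cast hp.two_le
    have hp0 : (0 : ℝ) < p := by linarith
    have hph : 1 / (p : ℝ) ≤ 1 / 2 := one_div_le_one_div_of_le (by norm_num) hp2
    have h0 : 0 < 1 / (p : ℝ) := by positivity
    exact (one_le_inv₀ (by linarith)).2 (by linarith)
  have hsub : (prs w \ R).filter (fun p => ∃ i, j % p = t i % p) ⊆ Ta w t j := by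
    unfold Ta
    exact filter_subset_filter _ sdiff_subset
  unfold Ph
  rw [← prod_sdiff hsub]
  refine le_mul_of_one_le_left ?_ ?_
  · refine prod_nonneg fun p hp => ?_
    have := hge p (S_prime (mem_filter.1 hp).1)
    linarith
  · refine one_le_prod_real fun p hp => ?_
    have h1 : p ∈ Ta w t j := (mem_sdiff.1 hp).1
    unfold Ta at h1
    exact hge p (mem_prs.1 (mem_filter.1 h1).1).1

theorem cnt_R {w k : ℕ} (R : Finset ℕ) {t : Fin k → ℕ} (h : ∀ p : ℕ, p.Prime → nu p t < p)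
    (j : ℕ) : (((GbM w R t).filter (fun b => Nat.Coprime (b + j) (Mod w R))).card : ℝ) ≤
      (GbM w R t).card * (((Mod w R).totient : ℝ) / (Mod w R : ℝ) * Ph w t j) := by
  have h1 : ((GbM w R t).filter (fun b => Nat.Coprime (b + j) (Mod w R))).card =
      ∏ p ∈ prs w \ R, ((WW p t).erase (cl p j)).card := by
    rw [← crt_eq _ (fun p hp => S_prime hp) (fun p => (WW p t).erase (cl p j))
      fun p _ => (erase_subset _ _).trans (WW_sub p t), Gb_eq, filter_filter]
    congr 1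
    ext b
    rw [mem_filter, mem_filter]
    refine and_congr_right fun _ => ?_
    rw [copr_iff]
    constructor
    · rintro ⟨h2, h3⟩ p hp
      exact mem_erase.2 ⟨h3 p hp, h2 p hp⟩
    · intro h2
      exact ⟨fun p hp => (mem_erase.1 (h2 p hp)).2, fun p hp => (mem_erase.1 (h2 p hp)).1⟩
  have hdn : 0 ≤ ∏ q ∈ prs w \ R, (1 - 1 / (q : ℝ)) := by
    refine prod_nonneg fun p hp => ?_
    have hp2 : (2 : ℝ) ≤ p := by exact_mod_cast (S_prime hp).two_le
    have hph : 1 / (p : ℝ) ≤ 1 / 2 := one_div_le_one_div_of_le (by norm_num) hp2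
    linarith
  have h0 : ((∏ p ∈ prs w \ R, ((WW p t).erase (cl p j)).card : ℕ) : ℝ) ≤
      (GbM w R t).card * ((∏ q ∈ prs w \ R, (1 - 1 / (q : ℝ))) *
        ∏ p ∈ (prs w \ R).filter (fun p => ∃ i, j % p = t i % p), (1 - 1 / (p : ℝ))⁻¹) := by
    rw [card_Gb, prod_filter, ← prod_mul_distrib]
    push_cast
    rw [← prod_mul_distrib]
    refine prod_le_prod (fun p _ => Nat.cast_nonneg _) fun p hp => ?_
    have hpp := S_prime hp
    have hp2 : (2 : ℝ) ≤ p := by exact_mod_cast hpp.two_le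
    have hp0 : (0 : ℝ) < p := by linarith
    have hq : (0 : ℝ) < 1 - 1 / (p : ℝ) := by
      rw [sub_pos, div_lt_one hp0]
      linarith
    split_ifs with hc
    · rw [mul_inv_cancel₀ hq.ne', mul_one]
      exact_mod_cast card_le_card (erase_subset _ _)
    · rw [mul_one]
      have h2 : cl p j ∈ WW p t := by
        rw [mem_WW]
        exact ⟨cl_lt hpp.pos j, fun i hi => hc ⟨i, cl_inj hpp.pos hi⟩⟩
      rw [card_erase_of_mem h2]
      have h3 : 0 < (WW p t).card := card_pos.2 ⟨_, h2⟩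
      rw [Nat.cast_sub (by omega), Nat.cast_one]
      have h4 : ((WW p t).card : ℝ) ≤ p := by
        have := card_le_card (WW_sub p t)
        rw [card_range] at this
        exact_mod_cast this
      have h5 : ((WW p t).card : ℝ) * (1 / p) ≤ 1 := by
        rw [mul_one_div, div_le_one hp0]
        exact h4
      linarith
  rw [h1, tot_eq]
  refine h0.trans ?_
  refine mul_le_mul_of_nonneg_left ?_ (Nat.cast_nonneg _)
  exact mul_le_mul_of_nonneg_left (Ph_ge w R t j) hdn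

end Pool.Agent.ISO
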