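import Pool.Agent.AV.Cc
import Pool.Agent.IPT.Defs

/-!
ISO/Defs.  Isolated prime tuples with positive proportion.  Definitions.

Notation: `ι` indexes the large primes `p i`, `κ` the sites `a j`, `σ : ι → Option κ` (see RS/Base, VOID/Defs,
IPT/Defs).  Weights: `PT S0 n * GP n ^ 2`, where `PT S0` is the product of the values of the small sieve `ψ` at
the attracting sites `n - a j`, and in `GP` the products of `ψ` run only over the repelled nonempty cells (`tL σ`).
-/

set_option autoImplicit false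

open Finset Pool.Agent.RS Pool.Agent.AT Pool.Agent.VOID Pool.Agent.AV Pool.Agent.IPT

namespace Pool.Agent.ISO

section general

variable {ι κ : Type} [Fintype ι] [DecidableEq ι] [DecidableEq κ]

/-- `∏_{j ∈ T} ψ (n - a j)` -/
noncomputable def PT (ψ : ℤ → ℝ) (a : κ → ℤ) (T : Finset κ) (n : ℤ) : ℝ := ∏ j ∈ T, ψ (n - a j)

variable [Fintype κ]

/-- `∑_σ Z σ * PT (τ σ) n * EE σ n` -/
noncomputable def GP (p : ι → ℕ) (a : κ → ℤ) (ψ : ℤ → ℝ) (τ : (ι → Option κ) → Finset κ)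
    (Z : (ι → Option κ) → ℝ) (n : ℤ) : ℝ :=
  ∑ σ, Z σ * (PT ψ a (τ σ) n * EE p a σ n)

/-- the diagonal sum -/
noncomputable def MZ (p : ι → ℕ) (W : ℕ → ℝ) (τ : (ι → Option κ) → Finset κ)
    (Z : (ι → Option κ) → ℝ) : ℝ :=
  ∑ σ, Z σ ^ 2 / PH p (supp σ) * W (τ σ).card

end general

section two

variable {ι α β : Type} [Fintype ι] [DecidableEq ι] [DecidableEq α] [DecidableEq β] [Fintype α]

/-- the repelled sites with a nonempty cell -/
def tL (σ : ι → Option (α ⊕ β)) : Finset (α ⊕ β) := (Tc (lp σ)).map Function.Embedding.inl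

omit [DecidableEq β] in
theorem tL_card (σ : ι → Option (α ⊕ β)) : (tL σ).card = (Tc (lp σ)).card := card_map _

/-- the attracting sites -/
def sR (α β : Type) [Fintype β] : Finset (α ⊕ β) := (univ : Finset β).map Function.Embedding.inr

theorem sR_card (α β : Type) [Fintype β] : (sR α β).card = Fintype.card β := by
  unfold sR
  rw [card_map, card_univ]

omit [DecidableEq α] [DecidableEq β] in
theorem mem_sR {α β : Type} [Fintype β] (i : β) : (Sum.inr i : α ⊕ β) ∈ sR α β := by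
  unfold sR
  rw [mem_map]
  exact ⟨i, mem_univ _, rfl⟩

omit [DecidableEq β] in
theorem inr_tL (σ : ι → Option (α ⊕ β)) (i : β) : (Sum.inr i : α ⊕ β) ∉ tL σ := by
  unfold tL
  rw [mem_map]
  rintro ⟨x, _, hx⟩
  exact Sum.inl_ne_inr hx

omit [DecidableEq β] in
theorem inl_tL (σ : ι → Option (α ⊕ β)) (j : α) :
    (Sum.inl j : α ⊕ β) ∈ tL σ ↔ cell (lp σ) j ≠ ∅ := by
  unfold tL
  rw [mem_map]
  constructor
  · rintro ⟨x, hx, h⟩
    have h1 : x = j := Sum.inl_injective h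
    subst h1
    exact (mem_filter.1 hx).2
  · intro h
    exact ⟨j, mem_filter.2 ⟨mem_univ _, h⟩, rfl⟩

omit [DecidableEq β] in
theorem sR_tL [Fintype β] (σ : ι → Option (α ⊕ β)) : Disjoint (sR α β) (tL σ) := by
  rw [Finset.disjoint_left]
  intro x hx hx'
  unfold sR at hx
  obtain ⟨i, _, rfl⟩ := mem_map.1 hx
  exact inr_tL σ i hx'

end two

/-! ### concrete data -/

/-- the coefficients -/
noncomputable def YI (L m1 s d : ℕ) (R : Finset ℕ) (k t0 G' : ℕ) :
    (Iy L m1 → Option ({j : ℕ // j ∈ R} ⊕ Fin k)) → ℝ :=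
  Y2 (py L m1) (yy L m1 s) (yh (py L m1) t0 G') (2 ^ d) (2 ^ dd L)

/-- the large-prime factor of the weight -/
noncomputable def gI (L m1 s d r : ℕ) (R : Finset ℕ) {k : ℕ} (t : Fin k → ℕ) (t0 G' : ℕ) (n : ℤ) : ℝ :=
  GP (py L m1) (a2 R t) (psy L m1 r) tL (YI L m1 s d R k t0 G') n

/-- the weight -/
noncomputable def wI (L m1 s d r : ℕ) (R : Finset ℕ) {k : ℕ} (t : Fin k → ℕ) (t0 G' : ℕ) (n : ℤ) : ℝ :=
  PT (psy L m1 r) (a2 R t) (sR {j : ℕ // j ∈ R} (Fin k)) n * gI L m1 s d r R t t0 G' n ^ 2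

/-- its mean, up to constants -/
noncomputable def ZI (L m1 s d : ℕ) (R : Finset ℕ) (k t0 G' : ℕ) : ℝ :=
  MZ (py L m1) (fun j => Piy L m1 (k + j)) tL (YI L m1 s d R k t0 G')

/-- the mean after the collapse at the attracting site `i` -/
noncomputable def QI (L m1 s d : ℕ) (R : Finset ℕ) {k : ℕ} (t0 G' : ℕ) (i : Fin k) : ℝ :=
  MZ (py L m1) (fun j => Piy L m1 (k - 1 + j)) (tL (α := {j : ℕ // j ∈ R}) (β := Fin k))
    (ZB (py L m1) (yy L m1 s) (yh (py L m1) t0 G') (2 ^ d) (2 ^ dd L) i)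

/-- the mass of all products of the large primes up to `2 ^ t` -/
noncomputable def NV (L m1 t : ℕ) : ℝ :=
  open Classical in
  ∑ S ∈ (univ : Finset (Finset (Iy L m1))).filter (fun S => PP (py L m1) S ≤ 2 ^ t),
    1 / PH (py L m1) S

end Pool.Agent.ISO
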