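import Pool.Agent.AT.PtD
import Pool.Agent.AT.Av

/-!
ISO/ExJ.  Intervals with exactly `m` primes near a given index; many primes up to `x / 2`.
-/

set_option autoImplicit false

open Finset Filter Topology Pool.Agent.AT

namespace Pool.Agent.ISO

private lemma two_le_pn (r : ℕ) : (2 : ℝ) ≤ pn r := by
  unfold pn
  exact_mod_cast (Nat.prime_nth_prime r).two_le

private lemma pn_mono {a b : ℕ} (h : a ≤ b) : pn a ≤ pn b := by
  unfold pn
  exact_mod_cast (Nat.nth_monotone Nat.infinite_setOfPred_prime) h

theorem ex_one (m : ℕ) {lam ε : ℝ} (hl : 0 < lam) (hε : 0 < ε) (hε1 : ε ≤ 1) :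
    ∃ r0 : ℕ, ∀ r : ℕ, r0 ≤ r →
    ε * Real.log (pn r) ≤ pn (r + 1) - pn r → pn (r + m) - pn r ≤ lam / 2 * Real.log (pn r) →
    (2 * lam + 2) * Real.log (pn r) ≤ pn (r + m + 1) - pn (r + m) →
    ∀ n : ℕ, pn r ≤ n → (n : ℝ) < pn r + ε * Real.log (pn r) →
    ((Ioc n (n + ⌊lam * Real.log n⌋₊)).filter Nat.Prime).card = m := by
  refine ⟨0, ?_⟩
  intro r _ h1 h2 h3 n hn1 hn2
  have hp2 := two_le_pn r
  have hl0 : 0 < Real.log (pn r) := Real.log_pos (by linarith)
  have hl2 : Real.log 2 ≤ Real.log (pn r) := Real.log_le_log (by norm_num) hp2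
  have hlp : Real.log (pn r) ≤ pn r := by
    have := Real.log_le_sub_one_of_pos (show 0 < pn r by linarith)
    linarith
  have hn0 : (0 : ℝ) < n := by linarith
  have hεl : ε * Real.log (pn r) ≤ Real.log (pn r) := by nlinarith
  have hn3 : (n : ℝ) ≤ 2 * pn r := by linarith
  have hlogn1 : Real.log (pn r) ≤ Real.log n := Real.log_le_log (by linarith) hn1
  have hlogn2 : Real.log n ≤ Real.log 2 + Real.log (pn r) := by
    rw [← Real.log_mul (by norm_num) (by linarith)]
    exact Real.log_le_log hn0 hn3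
  have hlogn0 : 0 ≤ lam * Real.log n := by nlinarith
  have hfl : (⌊lam * Real.log n⌋₊ : ℝ) ≤ lam * Real.log n := Nat.floor_le hlogn0
  have hEq : (Ioc n (n + ⌊lam * Real.log n⌋₊)).filter Nat.Prime =
      (range m).image (fun j => Nat.nth Nat.Prime (r + 1 + j)) := by
    ext q
    simp only [mem_filter, mem_Ioc, mem_image, mem_range]
    constructor
    · rintro ⟨⟨hq1, hq2⟩, hq⟩
      have hk : Nat.nth Nat.Prime (Nat.count Nat.Prime q) = q := Nat.nth_count hq
      have hlt1 : r < Nat.count Nat.Prime q := by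
        by_contra hcon
        push Not at hcon
        have h4 : pn (Nat.count Nat.Prime q) ≤ pn r := pn_mono hcon
        have h5 : pn (Nat.count Nat.Prime q) = q := by unfold pn; rw [hk]
        rw [h5] at h4
        have h6 : (n : ℝ) < q := by exact_mod_cast hq1
        linarith
      have hlt2 : Nat.count Nat.Prime q < r + m + 1 := by
        by_contra hcon
        push Not at hcon
        have h4 : pn (r + m + 1) ≤ pn (Nat.count Nat.Prime q) := pn_mono hcon
        have h5 : pn (Nat.count Nat.Prime q) = q := by unfold pn; rw [hk]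
        rw [h5] at h4
        have h6 : (q : ℝ) ≤ n + ⌊lam * Real.log n⌋₊ := by exact_mod_cast hq2
        have h7 : pn r ≤ pn (r + m) := pn_mono (by omega)
        have h8 : lam * Real.log n ≤ lam * (2 * Real.log (pn r)) :=
          mul_le_mul_of_nonneg_left (by linarith) hl.le
        nlinarith
      refine ⟨Nat.count Nat.Prime q - (r + 1), by omega, ?_⟩
      have : r + 1 + (Nat.count Nat.Prime q - (r + 1)) = Nat.count Nat.Prime q := by omega
      rw [this, hk]
    · rintro ⟨j, hj, rfl⟩
      refine ⟨⟨?_, ?_⟩, Nat.prime_nth_prime _⟩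
      · have h4 : pn (r + 1) ≤ pn (r + 1 + j) := pn_mono (by omega)
        have h5 : (n : ℝ) < (Nat.nth Nat.Prime (r + 1 + j) : ℕ) := by
          change (n : ℝ) < pn (r + 1 + j)
          linarith
        exact_mod_cast h5
      · have h4 : pn (r + 1 + j) ≤ pn (r + m) := pn_mono (by omega)
        have h5 : Nat.nth Nat.Prime (r + 1 + j) - n ≤ ⌊lam * Real.log n⌋₊ := by
          apply Nat.le_floor
          have h6 : ((Nat.nth Nat.Prime (r + 1 + j) - n : ℕ) : ℝ) ≤
              max ((Nat.nth Nat.Prime (r + 1 + j) : ℝ) - n) 0 := by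
            rcases le_total n (Nat.nth Nat.Prime (r + 1 + j)) with hle | hle
            · rw [Nat.cast_sub hle]
              exact le_max_left _ _
            · rw [Nat.sub_eq_zero_of_le hle]
              simp
          refine h6.trans (max_le ?_ hlogn0)
          change pn (r + 1 + j) - n ≤ lam * Real.log n
          have h7 : lam / 2 * Real.log (pn r) ≤ lam * Real.log n := by nlinarith
          linarith
        omega
  rw [hEq, card_image_of_injective, card_range]
  intro a b hab
  have h4 := Nat.nth_injective Nat.infinite_setOfPred_prime hab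
  omega

theorem pi_low' : ∃ c : ℝ, 0 < c ∧ ∀ᶠ x : ℕ in atTop,
    c * x / Real.log x ≤ (((range (x / 2)).filter Nat.Prime).card : ℝ) := by
  obtain ⟨c, hc, P0, h⟩ := theta_int
  refine ⟨c / 20, by positivity, ?_⟩
  filter_upwards [eventually_ge_atTop (max 40 (10 * P0 + 10))] with x hx
  have hx40 : 40 ≤ x := le_trans (le_max_left _ _) hx
  have hxP : 10 * P0 + 10 ≤ x := le_trans (le_max_right _ _) hx
  have h1 := h (x / 10) (by omega)
  have hlx : 0 < Real.log x := Real.log_pos (by exact_mod_cast (by omega : 1 < x))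
  have hsub : (Ioc (x / 10) (4 * (x / 10))).filter Nat.Prime ⊆ (range (x / 2)).filter Nat.Prime := by
    intro q hq
    simp only [mem_filter, mem_Ioc, mem_range] at hq ⊢
    exact ⟨by omega, hq.2⟩
  have h2 : ∑ q ∈ (Ioc (x / 10) (4 * (x / 10))).filter Nat.Prime, Real.log q ≤
      (((range (x / 2)).filter Nat.Prime).card : ℝ) * Real.log x := by
    calc ∑ q ∈ (Ioc (x / 10) (4 * (x / 10))).filter Nat.Prime, Real.log q
        ≤ ∑ _q ∈ (Ioc (x / 10) (4 * (x / 10))).filter Nat.Prime, Real.log x := by
          apply sum_le_sum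
          intro q hq
          simp only [mem_filter, mem_Ioc] at hq
          apply Real.log_le_log
          · exact_mod_cast hq.2.pos
          · exact_mod_cast (by omega : q ≤ x)
      _ = (((Ioc (x / 10) (4 * (x / 10))).filter Nat.Prime).card : ℝ) * Real.log x := by
          rw [sum_const, nsmul_eq_mul]
      _ ≤ _ := by
          apply mul_le_mul_of_nonneg_right _ hlx.le
          exact_mod_cast card_le_card hsub
  rw [div_le_iff₀ hlx]
  refine le_trans ?_ (h1.trans h2)
  have h3 : (x : ℝ) ≤ 10 * ((x / 10 : ℕ) : ℝ) + 9 := by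
    exact_mod_cast (by omega : x ≤ 10 * (x / 10) + 9)
  have h4 : (40 : ℝ) ≤ x := by exact_mod_cast hx40
  have h5 : (x : ℝ) / 20 ≤ ((x / 10 : ℕ) : ℝ) := by linarith
  calc c / 20 * x = c * (x / 20) := by ring
    _ ≤ c * ((x / 10 : ℕ) : ℝ) := mul_le_mul_of_nonneg_left h5 hc.le

end Pool.Agent.ISO
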