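import Pool.Agent.ISO.IdxI
import Pool.Agent.ISO.ExJ

/-!
ISO/ExI.  A positive proportion of the intervals `(n, n + lam log n]` contains exactly `m` primes.
-/

set_option autoImplicit false

open Finset Filter Topology Pool.Agent.AT Pool.Agent.AV

namespace Pool.Agent.ISO

private theorem ei_nth_ge (r : ℕ) : r ≤ Nat.nth Nat.Prime r :=
  (Nat.nth_strictMono Nat.infinite_setOf_prime).id_le r

/-- the eventual inequalities -/
private theorem ei_ev {η : ℝ} (hη : 0 < η) (K : ℝ) : ∀ᶠ x : ℕ in atTop,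
    Real.log x ≤ η * Real.sqrt x ∧ K ≤ Real.sqrt x ∧ 0 < Real.log x := by
  have h1 : ∀ᶠ y : ℝ in atTop, Real.log y ≤ η * Real.sqrt y := by
    have h2 := (isLittleO_log_rpow_atTop (by norm_num : (0 : ℝ) < 1 / 2)).bound hη
    filter_upwards [h2, eventually_ge_atTop 1] with y hy hy1
    rw [Real.norm_of_nonneg (Real.log_nonneg hy1), Real.norm_of_nonneg (by positivity),
      ← Real.sqrt_eq_rpow] at hy
    exact hy
  have h3 : ∀ᶠ y : ℝ in atTop, K ≤ Real.sqrt y :=
    Real.tendsto_sqrt_atTop.eventually_ge_atTop K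
  have h4 : ∀ᶠ y : ℝ in atTop, 0 < Real.log y :=
    Real.tendsto_log_atTop.eventually_gt_atTop 0
  exact (tendsto_natCast_atTop_atTop (R := ℝ)).eventually (h1.and (h3.and h4))

open Classical in
theorem exact_I (m : ℕ) (lam : ℝ) (hl : 0 < lam) : ∃ c : ℝ, 0 < c ∧ ∀ᶠ x : ℕ in atTop,
    c * x ≤ (((range x).filter (fun n : ℕ =>
      ((Ioc n (n + ⌊lam * Real.log n⌋₊)).filter Nat.Prime).card = m)).card : ℝ) := by
  obtain ⟨ε1, c1, hε1, hc1, N0, hN0⟩ := idx_I m (lam / 2) (2 * lam + 2) (by linarith) (by linarith)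
  obtain ⟨ε, hεdef⟩ : ∃ ε, ε = min ε1 1 := ⟨_, rfl⟩
  have hε : 0 < ε := by
    rw [hεdef]
    exact lt_min hε1 one_pos
  have hεle : ε ≤ 1 := by
    rw [hεdef]
    exact min_le_right _ _
  have hεle1 : ε ≤ ε1 := by
    rw [hεdef]
    exact min_le_left _ _
  obtain ⟨r0, hr0⟩ := ex_one m hl hε hεle
  obtain ⟨c2, hc2, hpi⟩ := pi_low'
  refine ⟨c1 * c2 * ε / 4, by positivity, ?_⟩
  have hη : 0 < c1 * c2 / 4 := by positivity
  filter_upwards [hpi, ei_ev hη ((r0 : ℝ) + 1 + c1 * N0), eventually_ge_atTop 2] with x hx1 hx2 hx3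
  obtain ⟨hlog, hK, hlogpos⟩ := hx2
  obtain ⟨N, hN⟩ : ∃ N, N = ((range (x / 2)).filter Nat.Prime).card := ⟨_, rfl⟩
  rw [← hN] at hx1
  have hxpos : (0 : ℝ) < x := by
    have : 0 < x := by omega
    exact_mod_cast this
  have hsq : Real.sqrt x * Real.sqrt x = x := Real.mul_self_sqrt hxpos.le
  have hsqpos : 0 < Real.sqrt x := Real.sqrt_pos.2 hxpos
  -- `4 √x ≤ c1 N`
  have hNlow : 4 * Real.sqrt x ≤ c1 * N := by
    have h1 : 4 * Real.sqrt x / c1 ≤ c2 * x / Real.log x := by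
      rw [div_le_div_iff₀ hc1 hlogpos]
      calc 4 * Real.sqrt x * Real.log x ≤ 4 * Real.sqrt x * (c1 * c2 / 4 * Real.sqrt x) :=
            mul_le_mul_of_nonneg_left hlog (by positivity)
        _ = c2 * (Real.sqrt x * Real.sqrt x) * c1 := by ring
        _ = c2 * x * c1 := by rw [hsq]
    have h2 := h1.trans hx1
    rw [div_le_iff₀ hc1] at h2
    linarith
  have hc1N0 : c1 * N0 ≤ Real.sqrt x := by
    have : (0 : ℝ) ≤ r0 := Nat.cast_nonneg _
    linarith
  have hr0x : (r0 : ℝ) + 1 ≤ Real.sqrt x := by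
    have : 0 ≤ c1 * (N0 : ℝ) := by positivity
    linarith
  have hNN0 : N0 ≤ N := by
    have h1 : c1 * (N0 : ℝ) ≤ c1 * N := by linarith
    exact_mod_cast le_of_mul_le_mul_left h1 hc1
  have hG := hN0 N hNN0
  obtain ⟨G, hGdef⟩ : ∃ G, G = (range N).filter (fun r =>
      ε1 * Real.log (pn r) ≤ pn (r + 1) - pn r ∧ pn (r + m) - pn r ≤ lam / 2 * Real.log (pn r) ∧
      (2 * lam + 2) * Real.log (pn r) ≤ pn (r + m + 1) - pn (r + m)) := ⟨_, rfl⟩
  rw [← hGdef] at hG
  obtain ⟨r1, hr1⟩ : ∃ r1, r1 = ⌊c1 * N / 2⌋₊ := ⟨_, rfl⟩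
  have hr1le : (r1 : ℝ) ≤ c1 * N / 2 := by
    rw [hr1]
    exact Nat.floor_le (by positivity)
  have hr1ge : Real.sqrt x ≤ r1 ∧ (r0 : ℝ) ≤ r1 := by
    have h1 : c1 * N / 2 < (r1 : ℝ) + 1 := by
      rw [hr1]
      exact Nat.lt_floor_add_one _
    have h2 : (0 : ℝ) ≤ r0 := Nat.cast_nonneg _
    constructor <;> linarith
  obtain ⟨G', hG'def⟩ : ∃ G', G' = G.filter (fun r => r1 ≤ r) := ⟨_, rfl⟩
  have hG'card : c1 * N / 2 ≤ (G'.card : ℝ) := by
    have h1 : G.card ≤ G'.card + r1 := by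
      have h2 : G ⊆ G' ∪ range r1 := by
        intro r hr
        rw [mem_union, hG'def, mem_filter, mem_range]
        by_cases h : r1 ≤ r
        · exact Or.inl ⟨hr, h⟩
        · exact Or.inr (by omega)
      have h3 := (card_le_card h2).trans (card_union_le _ _)
      rw [card_range] at h3
      exact h3
    have h4 : (G.card : ℝ) ≤ G'.card + r1 := by exact_mod_cast h1
    linarith
  -- properties of the good indices
  have hprop : ∀ r ∈ G', r < N ∧ r1 ≤ r ∧ ε1 * Real.log (pn r) ≤ pn (r + 1) - pn r ∧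
      pn (r + m) - pn r ≤ lam / 2 * Real.log (pn r) ∧
      (2 * lam + 2) * Real.log (pn r) ≤ pn (r + m + 1) - pn (r + m) := by
    intro r hr
    rw [hG'def, mem_filter, hGdef, mem_filter, mem_range] at hr
    exact ⟨hr.1.1, hr.2, hr.1.2.1, hr.1.2.2.1, hr.1.2.2.2⟩
  have hlogr : ∀ r ∈ G', Real.log x / 2 ≤ Real.log (pn r) := by
    intro r hr
    obtain ⟨_, h1, _⟩ := hprop r hr
    have h2 : Real.sqrt x ≤ pn r := by
      unfold pn
      have h3 : (r1 : ℝ) ≤ (Nat.nth Nat.Prime r : ℝ) := by exact_mod_cast h1.trans (ei_nth_ge r)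
      exact hr1ge.1.trans h3
    have h4 := Real.log_le_log hsqpos h2
    rw [Real.log_sqrt hxpos.le] at h4
    exact h4
  have hpos : ∀ r ∈ G', 0 < Real.log (pn r) := by
    intro r hr
    have := hlogr r hr
    linarith
  obtain ⟨S, hS⟩ : ∃ S : ℕ → Finset ℕ, S = fun r => Ico (Nat.nth Nat.Prime r)
    (Nat.nth Nat.Prime r + ⌈ε * Real.log (pn r)⌉₊) := ⟨_, rfl⟩
  have hSmem : ∀ r ∈ G', ∀ n ∈ S r, Nat.nth Nat.Prime r ≤ n ∧
      (n : ℝ) < pn r + ε * Real.log (pn r) := by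
    intro r hr n hn
    rw [hS, mem_Ico] at hn
    refine ⟨hn.1, ?_⟩
    have h1 : n - Nat.nth Nat.Prime r < ⌈ε * Real.log (pn r)⌉₊ := by omega
    rw [Nat.lt_ceil, Nat.cast_sub hn.1] at h1
    unfold pn
    unfold pn at h1
    linarith
  have hSup : ∀ r ∈ G', ∀ n ∈ S r, n < Nat.nth Nat.Prime (r + 1) := by
    intro r hr n hn
    have h1 := (hSmem r hr n hn).2
    have h2 := (hprop r hr).2.2.1
    have h3 : ε * Real.log (pn r) ≤ ε1 * Real.log (pn r) :=
      mul_le_mul_of_nonneg_right hεle1 (hpos r hr).le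
    have h4 : (n : ℝ) < pn (r + 1) := by linarith
    unfold pn at h4
    exact_mod_cast h4
  have hSx : ∀ r ∈ G', ∀ n ∈ S r, n < x := by
    intro r hr n hn
    have h1 := (hSmem r hr n hn).2
    have h2 : ε * Real.log (pn r) ≤ 1 * Real.log (pn r) :=
      mul_le_mul_of_nonneg_right hεle (hpos r hr).le
    have h3 : Nat.nth Nat.Prime r < x / 2 := by
      apply Nat.nth_lt_of_lt_count
      rw [Nat.count_eq_card_filter_range, ← hN]
      exact (hprop r hr).1
    have h4 : (0 : ℝ) < pn r := by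
      unfold pn
      exact_mod_cast (Nat.prime_nth_prime r).pos
    have h5 := Real.log_le_sub_one_of_pos h4
    have h6 : (n : ℝ) < 2 * pn r := by linarith
    unfold pn at h6
    have h7 : n < 2 * Nat.nth Nat.Prime r := by exact_mod_cast h6
    omega
  have hdisj : (G' : Set ℕ).PairwiseDisjoint S := by
    have key : ∀ r ∈ G', ∀ r' ∈ G', r < r' → Disjoint (S r) (S r') := by
      intro r hr r' hr' hlt
      rw [Finset.disjoint_left]
      intro n hn hn'
      have h1 := hSup r hr n hn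
      have h2 := (hSmem r' hr' n hn').1
      have h3 : Nat.nth Nat.Prime (r + 1) ≤ Nat.nth Nat.Prime r' :=
        Nat.nth_monotone Nat.infinite_setOf_prime hlt
      omega
    intro r hr r' hr' hne
    rcases lt_or_gt_of_ne hne with h | h
    · exact key r hr r' hr' h
    · exact (key r' hr' r hr h).symm
  have hsub : G'.biUnion S ⊆ (range x).filter (fun n : ℕ =>
      ((Ioc n (n + ⌊lam * Real.log n⌋₊)).filter Nat.Prime).card = m) := by
    intro n hn
    rw [mem_biUnion] at hn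
    obtain ⟨r, hr, hnr⟩ := hn
    rw [mem_filter, mem_range]
    refine ⟨hSx r hr n hnr, ?_⟩
    obtain ⟨h1, h2⟩ := hSmem r hr n hnr
    obtain ⟨g1, g2, g3, g4, g5⟩ := hprop r hr
    have h3 : ε * Real.log (pn r) ≤ ε1 * Real.log (pn r) :=
      mul_le_mul_of_nonneg_right hεle1 (hpos r hr).le
    refine hr0 r ?_ (h3.trans g3) g4 g5 n ?_ h2
    · have : r0 ≤ r1 := by exact_mod_cast hr1ge.2
      omega
    · unfold pn
      exact_mod_cast h1
  have hcard : (G'.card : ℝ) * (ε * (Real.log x / 2)) ≤ ((G'.biUnion S).card : ℝ) := by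
    rw [card_biUnion hdisj, Nat.cast_sum, ← nsmul_eq_mul]
    apply card_nsmul_le_sum
    intro r hr
    rw [hS]
    simp only [Nat.card_Ico, Nat.add_sub_cancel_left]
    refine le_trans ?_ (Nat.le_ceil _)
    exact mul_le_mul_of_nonneg_left (hlogr r hr) hε.le
  have hfin : ((G'.biUnion S).card : ℝ) ≤ (((range x).filter (fun n : ℕ =>
      ((Ioc n (n + ⌊lam * Real.log n⌋₊)).filter Nat.Prime).card = m)).card : ℝ) := by
    exact_mod_cast card_le_card hsub
  refine le_trans ?_ (hcard.trans hfin)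
  have hN1 : c2 * x ≤ N * Real.log x := by
    rwa [div_le_iff₀ hlogpos] at hx1
  calc c1 * c2 * ε / 4 * x = c1 * ε / 4 * (c2 * x) := by ring
    _ ≤ c1 * ε / 4 * (N * Real.log x) := mul_le_mul_of_nonneg_left hN1 (by positivity)
    _ = c1 * N / 2 * (ε * (Real.log x / 2)) := by ring
    _ ≤ (G'.card : ℝ) * (ε * (Real.log x / 2)) :=
        mul_le_mul_of_nonneg_right hG'card (by positivity)

end Pool.Agent.ISO
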