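import Pool.Agent.ISO.FinI
import Pool.Agent.ISO.ExI
import Pool.Agent.ISO.CellM
import Pool.Agent.AV.IxC

/-! ISO/Fin.  Consequences in the final form. -/

set_option autoImplicit false

open Finset Filter Topology Pool.Agent.AT Pool.Agent.AV

namespace Pool.Agent.ISO

theorem patt : Patt := by
  intro m δ hδ
  obtain ⟨K, hK, h⟩ := patt_I m
  exact ⟨K, hK, fun Λ0 hΛ => h δ hδ Λ0 hΛ⟩

theorem pow_log_le {c : ℝ} (hc : 0 < c) (k : ℕ) :
    ∀ᶠ x : ℕ in atTop, 2 ≤ c * x / Real.log x ^ k := by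
  have h1 : Tendsto (fun x : ℝ => Real.log x ^ k / x) atTop (𝓝 0) :=
    (Real.isLittleO_pow_log_id_atTop (n := k)).tendsto_div_nhds_zero
  have h2 := (h1.comp tendsto_natCast_atTop_atTop).eventually (gt_mem_nhds (show (0 : ℝ) < c / 2 by positivity))
  filter_upwards [h2, eventually_ge_atTop 3] with x hx hx3
  have hx0 : (0 : ℝ) < x := by
    have : 0 < x := by omega
    exact_mod_cast this
  have hl : 0 < Real.log x := Real.log_pos (by exact_mod_cast (by omega : 1 < x))
  have hlk : 0 < Real.log x ^ k := pow_pos hl k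
  rw [le_div_iff₀ hlk]
  have h3 : Real.log x ^ k / x < c / 2 := hx
  rw [div_lt_iff₀ hx0] at h3
  linarith

end Pool.Agent.ISO
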