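import Pool.Agent.ISO.TupP

/-!
ISO/FinI.  Isolated prime tuples, centred, up to `x`.
-/

set_option autoImplicit false

open Finset Filter Pool.Agent.IPT

namespace Pool.Agent.ISO

open Classical in
theorem iso_tuples (m : ℕ) : ∃ k : ℕ, 0 < k ∧ ∀ Λ : ℝ, 0 < Λ → ∃ c : ℝ, 0 < c ∧
    ∀ᶠ x : ℕ in atTop, ∀ t : Fin k → ℕ, Function.Injective t →
    (∀ p : ℕ, p.Prime → nu p t < p) → (∀ i, (t i : ℝ) ≤ Λ * Real.log x) →
    c * x / Real.log x ^ k ≤ (((Icc 1 x).filter (fun n : ℕ =>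
      (∀ q : ℕ, q.Prime → |(q : ℝ) - n| ≤ Λ * Real.log x → ∃ i, q = n + t i) ∧
      m + 1 ≤ ((univ : Finset (Fin k)).filter (fun i => (n + t i).Prime)).card)).card : ℝ) := by
  obtain ⟨k, hk, h⟩ := tup_P m
  refine ⟨k, hk, fun Λ hΛ => ?_⟩
  obtain ⟨c, hc, B, P0, hP⟩ := h (3 * Λ + 3) (by positivity)
  refine ⟨c / 8, by positivity, ?_⟩
  have hcast : Tendsto (fun x : ℕ => (x : ℝ)) atTop atTop := tendsto_natCast_atTop_atTop
  have hlogT : Tendsto (fun x : ℕ => Real.log (x : ℝ)) atTop atTop :=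
    Real.tendsto_log_atTop.comp hcast
  have E1 : ∀ᶠ x : ℝ in atTop, ‖Real.log x‖ ≤ (1 / (16 * Λ)) * ‖x‖ :=
    Real.isLittleO_log_id_atTop.bound (by positivity)
  filter_upwards [hcast.eventually E1, hlogT.eventually_ge_atTop (2 + (Λ + 1) * Real.log 8),
    eventually_ge_atTop (8 * P0 + 100)] with x hx1 hx2 hx3
  intro t ht hnu htx
  have hx0 : (100 : ℝ) ≤ (x : ℝ) := by exact_mod_cast (by omega : 100 ≤ x)
  have hl8 : 0 < Real.log 8 := Real.log_pos (by norm_num)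
  have hlog2 : 2 ≤ Real.log x := by nlinarith
  have hlog0 : 0 < Real.log x := by linarith
  rw [Real.norm_of_nonneg hlog0.le, Real.norm_of_nonneg (by linarith)] at hx1
  have hx1' : Λ * Real.log x ≤ x / 16 := by
    have := mul_le_mul_of_nonneg_left hx1 hΛ.le
    calc Λ * Real.log x ≤ Λ * (1 / (16 * Λ) * x) := this
      _ = x / 16 := by field_simp
  obtain ⟨W, hW⟩ : ∃ W : ℕ, W = ⌈Λ * Real.log x⌉₊ + 1 := ⟨_, rfl⟩
  have hW1 : Λ * Real.log x < W := by
    rw [hW]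
    push_cast
    linarith [Nat.le_ceil (Λ * Real.log x)]
  have hW2 : (W : ℝ) < Λ * Real.log x + 2 := by
    rw [hW]
    push_cast
    linarith [Nat.ceil_lt_add_one (a := Λ * Real.log x) (by positivity)]
  have hW8 : 8 * W ≤ x := by
    have : (8 * W : ℝ) ≤ x := by linarith
    exact_mod_cast this
  have hWpos : 1 ≤ W := by omega
  obtain ⟨P, hPd⟩ : ∃ P : ℕ, P = (x - W) / 4 := ⟨_, rfl⟩
  have hP8 : x ≤ 8 * P := by omega
  have hP0 : P0 ≤ P := by omega
  have hPx : 4 * P + W ≤ x := by omega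
  have hPpos : (0 : ℝ) < P := by exact_mod_cast (by omega : 0 < P)
  have hxpos : (0 : ℝ) < x := by linarith
  have hP8' : (x : ℝ) / 8 ≤ P := by
    have : (x : ℝ) ≤ 8 * P := by exact_mod_cast hP8
    linarith
  have hPx' : (P : ℝ) ≤ x := by exact_mod_cast (by omega : P ≤ x)
  have hlogP : Real.log x - Real.log 8 ≤ Real.log P := by
    rw [← Real.log_div hxpos.ne' (by norm_num)]
    exact Real.log_le_log (by positivity) hP8'
  have hlogPx : Real.log P ≤ Real.log x := Real.log_le_log hPpos hPx'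
  have hlogPpos : 0 < Real.log P := by nlinarith
  have hH : ((3 * W : ℕ) : ℝ) ≤ (3 * Λ + 3) * Real.log P := by
    have h1 : (3 * Λ + 3) * (Real.log x - Real.log 8) ≤ (3 * Λ + 3) * Real.log P :=
      mul_le_mul_of_nonneg_left hlogP (by positivity)
    push_cast
    nlinarith
  obtain ⟨𝒮, h𝒮⟩ := hP P hP0
  have htW : ∀ i, t i < W := fun i => by exact_mod_cast (htx i).trans_lt hW1
  have h1 := h𝒮 (3 * W) hH (fun i => W + t i) (fun i j hij => ht (Nat.add_left_cancel hij))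
    (fun i => by have := htW i; show W + t i < 3 * W; omega)
    (fun p hp => by rw [nu_add]; exact hnu p hp)
  have h2 : c / 8 * x / Real.log x ^ k ≤ c * P / Real.log P ^ k := by
    have h3 : c / 8 * x ≤ c * P := by nlinarith
    have h4 : Real.log P ^ k ≤ Real.log x ^ k := pow_le_pow_left₀ hlogPpos.le hlogPx k
    exact div_le_div₀ (by positivity) h3 (by positivity) h4
  refine h2.trans (h1.trans (Nat.cast_le.2 ?_))
  refine Finset.card_le_card_of_injOn (fun n => n + W) ?_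
    (fun a _ b _ hab => Nat.add_right_cancel hab)
  intro n hn
  rw [Finset.mem_coe, Finset.mem_filter, Finset.mem_Ioc] at hn
  obtain ⟨⟨hn1, hn2⟩, hn3, hn4, -⟩ := hn
  rw [Finset.mem_coe, Finset.mem_filter, Finset.mem_Icc]
  refine ⟨⟨?_, ?_⟩, ?_, ?_⟩
  · show 1 ≤ n + W
    omega
  · show n + W ≤ x
    omega
  · intro q hq hqn
    have h5 : |(q : ℝ) - ((n + W : ℕ) : ℝ)| < (W : ℝ) := lt_of_le_of_lt hqn hW1
    have h6 : |(q : ℤ) - ((n + W : ℕ) : ℤ)| < (W : ℤ) := by exact_mod_cast h5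
    rw [abs_lt] at h6
    obtain ⟨j, hj⟩ : ∃ j, q = n + j := ⟨q - n, by omega⟩
    subst hj
    obtain ⟨i, hi⟩ := hn3 j (by omega) hq
    exact ⟨i, by rw [hi]; ring⟩
  · refine hn4.trans (le_of_eq ?_)
    congr 1
    ext i
    rw [Finset.mem_filter, Finset.mem_filter, add_assoc]

end Pool.Agent.ISO
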