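import Pool.Agent.ISO.CDefs
import Pool.Agent.IPT.CrtCnt
import Pool.Agent.Helper52.PrimeSums

/-!
ISO/GbLow.  The number of the classes which avoid an admissible tuple has the right order.
-/

set_option autoImplicit false

namespace Pool.Agent.ISO

open Finset Pool.Agent.REC Pool.Agent.IPT

private theorem gbl_sub {S T : Finset ℕ} (hTS : T ⊆ S) {f : ℕ → ℝ} (h0 : ∀ p ∈ S, 0 ≤ f p)
    (h1 : ∀ p ∈ S, f p ≤ 1) : ∏ p ∈ S, f p ≤ ∏ p ∈ T, f p := by
  rw [← Finset.prod_sdiff hTS]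
  have h2 : ∏ p ∈ S \ T, f p ≤ 1 :=
    Finset.prod_le_one (fun p hp => h0 p (mem_sdiff.1 hp).1) (fun p hp => h1 p (mem_sdiff.1 hp).1)
  have h3 : 0 ≤ ∏ p ∈ T, f p := Finset.prod_nonneg fun p hp => h0 p (hTS hp)
  nlinarith

private theorem gbl_one_sub (S : Finset ℕ) (f : ℕ → ℝ) (h0 : ∀ p ∈ S, 0 ≤ f p)
    (h1 : ∀ p ∈ S, f p ≤ 1) : 1 - ∑ p ∈ S, f p ≤ ∏ p ∈ S, (1 - f p) := by
  induction S using Finset.induction_on with
  | empty => simp
  | insert a S ha ih =>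
    have ih' := ih (fun p hp => h0 p (mem_insert_of_mem hp)) (fun p hp => h1 p (mem_insert_of_mem hp))
    rw [sum_insert ha, prod_insert ha]
    have h2 : ∏ p ∈ S, (1 - f p) ≤ 1 :=
      Finset.prod_le_one (fun p hp => by linarith [h1 p (mem_insert_of_mem hp)])
        (fun p hp => by linarith [h0 p (mem_insert_of_mem hp)])
    have h3 := h0 a (mem_insert_self a S)
    nlinarith

private def gcl (p x : ℕ) : ℕ := (p - x % p) % p

private theorem gbl_dvd {p : ℕ} (hp : 0 < p) (b x : ℕ) : p ∣ b + x ↔ b % p = gcl p x := by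
  have h1 : (b + x) % p = (b % p + x % p) % p := Nat.add_mod b x p
  have hb := Nat.mod_lt b hp
  have hx := Nat.mod_lt x hp
  unfold gcl
  rw [Nat.dvd_iff_mod_eq_zero, h1]
  rcases Nat.eq_zero_or_pos (x % p) with h0 | h0
  · rw [h0, add_zero, Nat.sub_zero, Nat.mod_self, Nat.mod_eq_of_lt hb]
  · rw [Nat.mod_eq_of_lt (by omega : p - x % p < p)]
    rcases lt_or_ge (b % p + x % p) p with h2 | h2
    · rw [Nat.mod_eq_of_lt h2]
      omega
    · rw [Nat.mod_eq_sub_mod h2, Nat.mod_eq_of_lt (by omega)]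
      omega

private def GW (p : ℕ) {k : ℕ} (t : Fin k → ℕ) : Finset ℕ :=
  (range p) \ (univ : Finset (Fin k)).image (fun i => gcl p (t i))

private theorem gbl_mem {p : ℕ} {k : ℕ} {t : Fin k → ℕ} {x : ℕ} :
    x ∈ GW p t ↔ x < p ∧ ∀ i, x ≠ gcl p (t i) := by
  unfold GW
  rw [mem_sdiff, mem_range, mem_image]
  constructor
  · rintro ⟨h1, h2⟩
    exact ⟨h1, fun i hi => h2 ⟨i, mem_univ i, hi.symm⟩⟩
  · rintro ⟨h1, h2⟩
    refine ⟨h1, ?_⟩
    rintro ⟨i, -, hi⟩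
    exact h2 i hi.symm

private theorem gbl_card (p : ℕ) {k : ℕ} (t : Fin k → ℕ) :
    (p : ℝ) - nu p t ≤ ((GW p t).card : ℝ) := by
  have h1 : ((univ : Finset (Fin k)).image (fun i => gcl p (t i))).card ≤ nu p t := by
    have h2 : (univ : Finset (Fin k)).image (fun i => gcl p (t i)) =
        ((univ : Finset (Fin k)).image (fun i => t i % p)).image (fun y => (p - y) % p) := by
      rw [image_image]
      rfl
    rw [h2]
    exact card_image_le
  have h3 : p - nu p t ≤ (GW p t).card := by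
    have h4 := le_card_sdiff ((univ : Finset (Fin k)).image (fun i => gcl p (t i))) (range p)
    rw [card_range] at h4
    unfold GW
    omega
  have h5 : p ≤ (GW p t).card + nu p t := by omega
  have h6 : (p : ℝ) ≤ ((GW p t).card : ℝ) + nu p t := by exact_mod_cast h5
  linarith

private theorem gbl_prime {w : ℕ} {R : Finset ℕ} {p : ℕ} (hp : p ∈ prs w \ R) : p.Prime :=
  (mem_prs.1 (mem_sdiff.1 hp).1).1

private theorem gbl_eq (w : ℕ) (R : Finset ℕ) {k : ℕ} (t : Fin k → ℕ) :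
    (GbM w R t).card = ∏ p ∈ prs w \ R, (GW p t).card := by
  rw [← crt_eq _ (fun p hp => gbl_prime hp) (fun p => GW p t) fun p _ => sdiff_subset]
  unfold GbM
  have h1 : Mod w R = ∏ p ∈ prs w \ R, p := rfl
  rw [← h1]
  congr 1
  ext b
  rw [mem_filter, mem_filter]
  refine and_congr_right fun _ => ?_
  have h2 : ∀ x, Nat.Coprime (b + x) (Mod w R) ↔ ∀ p ∈ prs w \ R, b % p ≠ gcl p x := by
    intro x
    unfold Pool.Agent.REC.Mod
    rw [Nat.coprime_prod_right_iff]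
    refine forall₂_congr fun p hp => ?_
    have hpp := gbl_prime hp
    rw [Nat.coprime_comm, hpp.coprime_iff_not_dvd, gbl_dvd hpp.pos]
  constructor
  · intro h p hp
    rw [gbl_mem]
    exact ⟨Nat.mod_lt _ (gbl_prime hp).pos, fun i => (h2 (t i)).1 (h i) p hp⟩
  · intro h i
    rw [h2]
    intro p hp
    exact (gbl_mem.1 (h p hp)).2 i

private theorem gbl_dens {w : ℕ} (hw : 2 ≤ w) :
    Real.exp (-9) / 2 / (Nat.log 2 w : ℝ) ≤ ∏ p ∈ prs w, (1 - 1 / (p : ℝ)) := by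
  have hl : 1 ≤ Nat.log 2 w := Nat.log_pos (by norm_num) hw
  have h1 := Helper52.prod_lower (a := Nat.log 2 w + 1) (by omega)
  have h2 : ∏ q ∈ Helper52.pr 0 (2 ^ (Nat.log 2 w + 1)), (1 - 1 / (q : ℝ)) ≤
      ∏ p ∈ prs w, (1 - 1 / (p : ℝ)) := by
    refine gbl_sub ?_ ?_ ?_
    · intro p hp
      have h3 := mem_prs.1 hp
      rw [Helper52.mem_pr]
      exact ⟨h3.1.pos, h3.2.trans (Nat.lt_pow_succ_log_self (by norm_num) w).le, h3.1⟩
    · intro p hp
      have h3 := (Helper52.mem_pr.1 hp).2.2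
      have h4 : (1 : ℝ) ≤ p := by exact_mod_cast h3.one_lt.le
      have h5 : 1 / (p : ℝ) ≤ 1 := by
        rw [div_le_one (by linarith)]
        exact h4
      linarith
    · intro p _
      have h5 : 0 ≤ 1 / (p : ℝ) := by positivity
      linarith
  refine le_trans ?_ (h1.trans h2)
  have hlr : (1 : ℝ) ≤ (Nat.log 2 w : ℝ) := by exact_mod_cast hl
  rw [div_div]
  refine div_le_div_of_nonneg_left (Real.exp_pos _).le (by positivity) ?_
  push_cast
  linarith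

private theorem gbl_tail (K : ℕ) (hK : 1 ≤ K) (N : ℕ) :
    ∑ n ∈ Ioc K N, 1 / (n : ℝ) ^ 2 ≤ 1 / (K : ℝ) := by
  have hK' : (1 : ℝ) ≤ K := by exact_mod_cast hK
  rcases le_total N K with h | h
  · rw [Ioc_eq_empty (by omega), sum_empty]
    positivity
  · have key : ∀ N : ℕ, K ≤ N → ∑ n ∈ Ioc K N, 1 / (n : ℝ) ^ 2 ≤ 1 / (K : ℝ) - 1 / N := by
      intro N hN
      induction N, hN using Nat.le_induction with
      | base => simp
      | succ n hn ih =>
        rw [← Finset.insert_Ioc_right_eq_Ioc_add_one (by omega : K ≤ n), Finset.sum_insert (by simp)]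
        have hn' : (1 : ℝ) ≤ n := by exact_mod_cast hK.trans hn
        have h1 : 1 / (((n + 1 : ℕ) : ℝ)) ^ 2 ≤ 1 / (n : ℝ) - 1 / ((n + 1 : ℕ) : ℝ) := by
          push_cast
          rw [div_sub_div _ _ (by positivity) (by positivity), div_le_div_iff₀ (by positivity) (by positivity)]
          nlinarith
        linarith
    have h2 := key N h
    have h3 : 0 ≤ 1 / (N : ℝ) := by positivity
    linarith

private theorem gbl_fac {k : ℕ} {x : ℝ} (hx : 0 ≤ x) (hx1 : x ≤ 1) (h : (k : ℝ) ^ 2 * x ^ 2 ≤ 1) :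
    (1 - (k : ℝ) ^ 2 * x ^ 2) * (1 - x) ^ k ≤ 1 - k * x := by
  have h1 : 1 + (k : ℝ) * x ≤ (1 + x) ^ k := one_add_mul_le_pow (by linarith) k
  have h2 : (1 - x) ^ k * (1 + x) ^ k ≤ 1 := by
    rw [← mul_pow]
    exact pow_le_one₀ (mul_nonneg (by linarith) (by linarith)) (by nlinarith)
  have h3 : 0 ≤ (1 - x) ^ k := pow_nonneg (by linarith) k
  have hkx : 0 ≤ (k : ℝ) * x := by positivity
  have h4 : (1 - x) ^ k * (1 + k * x) ≤ 1 := (mul_le_mul_of_nonneg_left h1 h3).trans h2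
  have h5 : 0 ≤ 1 - k * x := by nlinarith
  calc (1 - (k : ℝ) ^ 2 * x ^ 2) * (1 - x) ^ k = (1 - k * x) * ((1 - x) ^ k * (1 + k * x)) := by ring
    _ ≤ (1 - k * x) * 1 := mul_le_mul_of_nonneg_left h4 h5
    _ = _ := mul_one _

theorem gb_low (k : ℕ) : ∃ c : ℝ, 0 < c ∧ ∀ (w : ℕ) (R : Finset ℕ) (t : Fin k → ℕ), 2 ≤ w →
    (∀ p : ℕ, p.Prime → nu p t < p) →
    c * (Mod w R : ℝ) / (Nat.log 2 w : ℝ) ^ k ≤ ((GbM w R t).card : ℝ) := by
  obtain ⟨K, hKd⟩ : ∃ K : ℕ, K = 2 * k ^ 2 + 2 := ⟨_, rfl⟩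
  have hc1 : 0 < ∏ p ∈ prs K, 1 / (p : ℝ) := Finset.prod_pos fun p hp => by
    have := (mem_prs.1 hp).1.pos
    have : (0 : ℝ) < p := by exact_mod_cast this
    positivity
  refine ⟨(∏ p ∈ prs K, 1 / (p : ℝ)) * (1 / 2 * (Real.exp (-9) / 2) ^ k), by positivity, ?_⟩
  intro w R t hw ht
  have hl : 1 ≤ Nat.log 2 w := Nat.log_pos (by norm_num) hw
  have hlr : (0 : ℝ) < (Nat.log 2 w : ℝ) := by exact_mod_cast hl
  have hnk : ∀ p, nu p t ≤ k := by
    intro p
    unfold nu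
    refine card_image_le.trans ?_
    rw [card_univ, Fintype.card_fin]
  -- the factors
  have hF : ∀ p ∈ prs w, 1 / (p : ℝ) ≤ 1 - (nu p t : ℝ) / p ∧ 1 - (nu p t : ℝ) / p ≤ 1 := by
    intro p hp
    have h1 := (mem_prs.1 hp).1
    have h2 : (0 : ℝ) < p := by exact_mod_cast h1.pos
    have h3 : nu p t + 1 ≤ p := ht p h1
    have h4 : (nu p t : ℝ) + 1 ≤ p := by exact_mod_cast h3
    constructor
    · rw [div_le_iff₀ h2, sub_mul, div_mul_cancel₀ _ h2.ne']
      linarith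
    · have : 0 ≤ (nu p t : ℝ) / p := by positivity
      linarith
  have hF0 : ∀ p ∈ prs w, 0 ≤ 1 - (nu p t : ℝ) / p := fun p hp =>
    le_trans (by positivity) (hF p hp).1
  have hprod : (Mod w R : ℝ) * ∏ p ∈ prs w \ R, (1 - (nu p t : ℝ) / p) ≤ ((GbM w R t).card : ℝ) := by
    rw [gbl_eq]
    unfold Pool.Agent.REC.Mod
    push_cast
    rw [← Finset.prod_mul_distrib]
    refine Finset.prod_le_prod (fun p hp => ?_) (fun p hp => ?_)
    · exact mul_nonneg (Nat.cast_nonneg _) (hF0 p (mem_sdiff.1 hp).1)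
    · have h2 : (0 : ℝ) < p := by exact_mod_cast (gbl_prime hp).pos
      have h3 := gbl_card p t
      calc (p : ℝ) * (1 - (nu p t : ℝ) / p) = p - nu p t := by
            field_simp
        _ ≤ _ := h3
  refine le_trans ?_ hprod
  have h1 : ∏ p ∈ prs w, (1 - (nu p t : ℝ) / p) ≤ ∏ p ∈ prs w \ R, (1 - (nu p t : ℝ) / p) :=
    gbl_sub sdiff_subset hF0 (fun p hp => (hF p hp).2)
  have h2 : (∏ p ∈ prs K, 1 / (p : ℝ)) ≤
      ∏ p ∈ (prs w).filter (fun p => p ≤ K), (1 - (nu p t : ℝ) / p) := by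
    have h3 : (∏ p ∈ prs K, 1 / (p : ℝ)) ≤ ∏ p ∈ (prs w).filter (fun p => p ≤ K), 1 / (p : ℝ) := by
      refine gbl_sub ?_ (fun p _ => by positivity) ?_
      · intro p hp
        obtain ⟨h4, h5⟩ := mem_filter.1 hp
        exact mem_prs.2 ⟨(mem_prs.1 h4).1, h5⟩
      · intro p hp
        have h4 : (1 : ℝ) ≤ p := by exact_mod_cast (mem_prs.1 hp).1.one_lt.le
        rw [div_le_one (by linarith)]
        exact h4
    refine h3.trans (Finset.prod_le_prod (fun p _ => by positivity) fun p hp => ?_)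
    exact (hF p (mem_filter.1 hp).1).1
  have h3 : 1 / 2 * (Real.exp (-9) / 2 / (Nat.log 2 w : ℝ)) ^ k ≤
      ∏ p ∈ (prs w).filter (fun p => ¬ p ≤ K), (1 - (nu p t : ℝ) / p) := by
    have hx : ∀ p ∈ (prs w).filter (fun p => ¬ p ≤ K), 0 ≤ 1 / (p : ℝ) ∧ 1 / (p : ℝ) ≤ 1 ∧
        (k : ℝ) ^ 2 * (1 / (p : ℝ)) ^ 2 ≤ 1 := by
      intro p hp
      obtain ⟨h4, h5⟩ := mem_filter.1 hp
      have h6 : K < p := by omega
      have h7 : (1 : ℝ) ≤ p := by exact_mod_cast (mem_prs.1 h4).1.one_lt.le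
      refine ⟨by positivity, ?_, ?_⟩
      · rw [div_le_one (by linarith)]
        exact h7
      · have h8 : k ^ 2 ≤ p ^ 2 := by nlinarith
        have h9 : (k : ℝ) ^ 2 ≤ (p : ℝ) ^ 2 := by exact_mod_cast h8
        rw [one_div, inv_pow, ← div_eq_mul_inv, div_le_one (by positivity)]
        exact h9
    have e1 : ∏ p ∈ (prs w).filter (fun p => ¬ p ≤ K),
        ((1 - (k : ℝ) ^ 2 * (1 / (p : ℝ)) ^ 2) * (1 - 1 / (p : ℝ)) ^ k) ≤
        ∏ p ∈ (prs w).filter (fun p => ¬ p ≤ K), (1 - (nu p t : ℝ) / p) := by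
      refine Finset.prod_le_prod (fun p hp => ?_) (fun p hp => ?_)
      · obtain ⟨h4, h5, h6⟩ := hx p hp
        exact mul_nonneg (by linarith) (pow_nonneg (by linarith) k)
      · obtain ⟨h4, h5, h6⟩ := hx p hp
        refine (gbl_fac h4 h5 h6).trans ?_
        have h7 : (nu p t : ℝ) ≤ k := by exact_mod_cast hnk p
        have h8 : (nu p t : ℝ) / p ≤ k * (1 / (p : ℝ)) := by
          rw [mul_one_div]
          exact div_le_div_of_nonneg_right h7 (Nat.cast_nonneg _)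
        linarith
    refine le_trans ?_ e1
    rw [Finset.prod_mul_distrib]
    have e2 : (1 : ℝ) / 2 ≤ ∏ p ∈ (prs w).filter (fun p => ¬ p ≤ K),
        (1 - (k : ℝ) ^ 2 * (1 / (p : ℝ)) ^ 2) := by
      refine le_trans ?_ (gbl_one_sub _ _ (fun p _ => by positivity) (fun p hp => (hx p hp).2.2))
      rw [← Finset.mul_sum]
      have e3 : ∑ p ∈ (prs w).filter (fun p => ¬ p ≤ K), (1 / (p : ℝ)) ^ 2 ≤ 1 / (K : ℝ) := by
        have e4 : ∑ p ∈ (prs w).filter (fun p => ¬ p ≤ K), (1 / (p : ℝ)) ^ 2 =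
            ∑ p ∈ (prs w).filter (fun p => ¬ p ≤ K), 1 / (p : ℝ) ^ 2 :=
          Finset.sum_congr rfl fun p _ => by rw [div_pow, one_pow]
        rw [e4]
        refine le_trans (Finset.sum_le_sum_of_subset_of_nonneg ?_ fun p _ _ => by positivity)
          (gbl_tail K (by omega) w)
        intro p hp
        obtain ⟨h4, h5⟩ := mem_filter.1 hp
        rw [mem_Ioc]
        exact ⟨by omega, (mem_prs.1 h4).2⟩
      have e5 : (k : ℝ) ^ 2 * (1 / (K : ℝ)) ≤ 1 / 2 := by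
        rw [hKd, mul_one_div]
        push_cast
        rw [div_le_div_iff₀ (by positivity) (by norm_num)]
        nlinarith
      have e6 : (k : ℝ) ^ 2 * ∑ p ∈ (prs w).filter (fun p => ¬ p ≤ K), (1 / (p : ℝ)) ^ 2 ≤
          (k : ℝ) ^ 2 * (1 / (K : ℝ)) := mul_le_mul_of_nonneg_left e3 (by positivity)
      linarith
    have e7 : (Real.exp (-9) / 2 / (Nat.log 2 w : ℝ)) ^ k ≤
        ∏ p ∈ (prs w).filter (fun p => ¬ p ≤ K), (1 - 1 / (p : ℝ)) ^ k := by
      rw [Finset.prod_pow]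
      refine pow_le_pow_left₀ (by positivity) ?_ k
      refine (gbl_dens hw).trans (gbl_sub (filter_subset _ _) ?_ ?_)
      · intro p hp
        have h4 : (1 : ℝ) ≤ p := by exact_mod_cast (mem_prs.1 hp).1.one_lt.le
        have h5 : 1 / (p : ℝ) ≤ 1 := by
          rw [div_le_one (by linarith)]
          exact h4
        linarith
      · intro p _
        have h5 : 0 ≤ 1 / (p : ℝ) := by positivity
        linarith
    exact mul_le_mul e2 e7 (by positivity) (by linarith)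
  have h4 : (∏ p ∈ prs K, 1 / (p : ℝ)) * (1 / 2 * (Real.exp (-9) / 2 / (Nat.log 2 w : ℝ)) ^ k) ≤
      ∏ p ∈ prs w, (1 - (nu p t : ℝ) / p) := by
    rw [← Finset.prod_filter_mul_prod_filter_not (prs w) (fun p => p ≤ K)]
    refine mul_le_mul h2 h3 (by positivity) (le_trans hc1.le h2)
  have hM : (0 : ℝ) ≤ (Mod w R : ℝ) := Nat.cast_nonneg _
  calc (∏ p ∈ prs K, 1 / (p : ℝ)) * (1 / 2 * (Real.exp (-9) / 2) ^ k) * (Mod w R : ℝ) /
        (Nat.log 2 w : ℝ) ^ k
      = (Mod w R : ℝ) * ((∏ p ∈ prs K, 1 / (p : ℝ)) *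
        (1 / 2 * (Real.exp (-9) / 2 / (Nat.log 2 w : ℝ)) ^ k)) := by
        rw [div_pow (Real.exp (-9) / 2)]
        ring
    _ ≤ _ := mul_le_mul_of_nonneg_left (h4.trans h1) hM

end Pool.Agent.ISO
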