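import Pool.Agent.Helper24.PairBound
import Pool.Agent.REC.AvgPhi

/-!
ISO/PairS.  Few pairs of very close primes.
-/

set_option autoImplicit false

namespace Pool.Agent.ISO

open Finset

private lemma ps_sum (H : ℕ) :
    ∑ h ∈ Icc 1 H, ∏ p ∈ h.primeFactors, (1 + 1 / (p : ℝ)) ≤ Real.exp 2 * H := by
  refine le_trans (sum_le_sum ?_) (Pool.Agent.REC.avg_phi H)
  intro h _
  have h1 : (0 : ℝ) ≤ ∏ p ∈ h.primeFactors, (1 + 1 / (p : ℝ)) :=
    prod_nonneg fun p _ => by positivity
  have h2 : (1 : ℝ) ≤ ∏ p ∈ h.primeFactors, (1 - 1 / (p : ℝ))⁻¹ := by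
    have h3 : ∏ p ∈ h.primeFactors, (1 : ℝ) ≤ ∏ p ∈ h.primeFactors, (1 - 1 / (p : ℝ))⁻¹ := by
      apply prod_le_prod
      · intro p _; norm_num
      · intro p hp
        have hp2 : (2 : ℝ) ≤ p := by exact_mod_cast (Nat.prime_of_mem_primeFactors hp).two_le
        have h4 : (1 : ℝ) / p ≤ 1 / 2 := one_div_le_one_div_of_le (by norm_num) hp2
        have h5 : (0 : ℝ) < 1 / p := by positivity
        rw [one_le_inv₀ (by linarith)]
        linarith
    simpa using h3
  exact le_mul_of_one_le_right h1 h2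

private lemma ps_one (h : ℕ) : (1 : ℝ) ≤ ∏ p ∈ h.primeFactors, (1 + 1 / (p : ℝ)) := by
  have h1 : ∏ p ∈ h.primeFactors, (1 : ℝ) ≤ ∏ p ∈ h.primeFactors, (1 + 1 / (p : ℝ)) := by
    apply prod_le_prod
    · intro p _; norm_num
    · intro p _
      have : (0 : ℝ) ≤ 1 / p := by positivity
      linarith
  simpa using h1

private lemma ps_lin {ε : ℝ} (hε : 0 < ε) :
    ∀ᶠ x : ℕ in Filter.atTop, Real.log x ≤ ε * x := by
  have h1 := (isLittleO_log_rpow_atTop (r := 1) (by norm_num)).bound hε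
  have h2 := (tendsto_natCast_atTop_atTop (R := ℝ)).eventually h1
  filter_upwards [h2, Filter.eventually_ge_atTop 1] with x h3 h4
  rw [Real.rpow_one] at h3
  have hx : (0 : ℝ) ≤ x := by positivity
  rw [Real.norm_of_nonneg (Real.log_nonneg (by exact_mod_cast h4)), Real.norm_of_nonneg hx] at h3
  exact h3

open Classical in
theorem close_pairs : ∃ C : ℝ, 0 < C ∧ ∀ ε : ℝ, 0 < ε → ∃ x0 : ℕ, ∀ x : ℕ, x0 ≤ x →
    (((Icc 1 x).filter (fun q => q.Prime ∧ ∃ q' : ℕ, q'.Prime ∧ q < q' ∧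
      (q' : ℝ) ≤ q + ε * Real.log x)).card : ℝ) ≤ C * ε * x / Real.log x := by
  refine ⟨2501 * Real.exp 2 + 1, by positivity, ?_⟩
  intro ε hε
  have hlog : Filter.Tendsto (fun x : ℕ => Real.log x) Filter.atTop Filter.atTop :=
    Real.tendsto_log_atTop.comp tendsto_natCast_atTop_atTop
  have ev := (Pool.Agent.Helper24.eventually_level.and (hlog.eventually_ge_atTop 1)).and
    ((ps_lin hε).and (Filter.eventually_ge_atTop 1))
  obtain ⟨x0, hx0⟩ := Filter.eventually_atTop.mp ev
  refine ⟨x0, ?_⟩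
  intro x hx
  obtain ⟨⟨⟨Z, hZ2, hZlog, hZ12⟩, hl1⟩, hlin, hx1⟩ := hx0 x hx
  have hxp : (0 : ℝ) < x := by exact_mod_cast hx1
  have hlp : (0 : ℝ) < Real.log x := by linarith
  set H : ℕ := ⌊ε * Real.log x⌋₊ with hH
  have hHle : (H : ℝ) ≤ ε * Real.log x := Nat.floor_le (by positivity)
  have hsub : (Icc 1 x).filter (fun q => q.Prime ∧ ∃ q' : ℕ, q'.Prime ∧ q < q' ∧
      (q' : ℝ) ≤ q + ε * Real.log x) ⊆
      {2} ∪ ((Icc 1 H).filter Even).biUnion
        (fun h => (Nat.primesLE x).filter (fun p => (p + h).Prime)) := by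
    intro q hq
    rw [mem_filter, mem_Icc] at hq
    obtain ⟨⟨_, hqx⟩, hqp, q', hq'p, hlt, hle⟩ := hq
    rw [mem_union, mem_singleton, mem_biUnion]
    rcases Nat.even_or_odd (q' - q) with he | ho
    · right
      refine ⟨q' - q, ?_, ?_⟩
      · rw [mem_filter, mem_Icc]
        refine ⟨⟨by omega, ?_⟩, he⟩
        apply Nat.le_floor
        rw [Nat.cast_sub hlt.le]
        linarith
      · rw [mem_filter, Nat.mem_primesLE]
        refine ⟨⟨hqx, hqp⟩, ?_⟩
        have : q + (q' - q) = q' := by omega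
        rw [this]
        exact hq'p
    · left
      by_contra hne
      have h1 : Odd q := hqp.odd_of_ne_two hne
      have h2 : Odd q' := hq'p.odd_of_ne_two (by have := hqp.two_le; omega)
      have h3 : Even (q' - q) := Nat.Odd.sub_odd h2 h1
      exact (Nat.not_even_iff_odd.mpr ho) h3
  have hterm : ∀ h ∈ (Icc 1 H).filter Even,
      (((Nat.primesLE x).filter (fun p => (p + h).Prime)).card : ℝ) ≤
        2501 * (x / Real.log x ^ 2) * ∏ p ∈ h.primeFactors, (1 + 1 / (p : ℝ)) := by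
    intro h hh
    rw [mem_filter, mem_Icc] at hh
    have h6 := Pool.Agent.Helper24.card_prime_pairs_explicit hh.2 (by omega : h ≠ 0) x Z hZ2
    have hG := ps_one h
    set G : ℝ := ∏ p ∈ h.primeFactors, (1 + 1 / (p : ℝ)) with hGdef
    have hZl : 0 < Real.log Z := by linarith
    have h8 : 4 * x * G / (Real.log Z) ^ 2 ≤ 4 * x * G / (Real.log x / 25) ^ 2 := by gcongr
    have h9 : 4 * x * G / (Real.log x / 25) ^ 2 = 2500 * (x / Real.log x ^ 2) * G := by
      field_simp
      ring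
    have h10 : (x : ℝ) / Real.log x ^ 2 ≤ (x / Real.log x ^ 2) * G :=
      le_mul_of_one_le_right (by positivity) hG
    linarith
  have hcard : (((Icc 1 x).filter (fun q => q.Prime ∧ ∃ q' : ℕ, q'.Prime ∧ q < q' ∧
      (q' : ℝ) ≤ q + ε * Real.log x)).card : ℝ) ≤
      1 + ∑ h ∈ (Icc 1 H).filter Even,
        (((Nat.primesLE x).filter (fun p => (p + h).Prime)).card : ℝ) := by
    have h1 := card_le_card hsub
    have h2 := h1.trans (card_union_le _ _)
    have h3 : (((Icc 1 H).filter Even).biUnion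
        (fun h => (Nat.primesLE x).filter (fun p => (p + h).Prime))).card ≤
        ∑ h ∈ (Icc 1 H).filter Even, ((Nat.primesLE x).filter (fun p => (p + h).Prime)).card :=
      card_biUnion_le
    rw [card_singleton] at h2
    exact_mod_cast h2.trans (Nat.add_le_add_left h3 1)
  have hs1 : ∑ h ∈ (Icc 1 H).filter Even,
        (((Nat.primesLE x).filter (fun p => (p + h).Prime)).card : ℝ) ≤
      2501 * (x / Real.log x ^ 2) * (Real.exp 2 * H) := by
    calc ∑ h ∈ (Icc 1 H).filter Even,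
        (((Nat.primesLE x).filter (fun p => (p + h).Prime)).card : ℝ)
        ≤ ∑ h ∈ (Icc 1 H).filter Even,
          2501 * (x / Real.log x ^ 2) * ∏ p ∈ h.primeFactors, (1 + 1 / (p : ℝ)) :=
          sum_le_sum hterm
      _ ≤ ∑ h ∈ Icc 1 H,
          2501 * (x / Real.log x ^ 2) * ∏ p ∈ h.primeFactors, (1 + 1 / (p : ℝ)) := by
          apply sum_le_sum_of_subset_of_nonneg (filter_subset _ _)
          intro h _ _
          have := ps_one h
          positivity
      _ = 2501 * (x / Real.log x ^ 2) * ∑ h ∈ Icc 1 H, ∏ p ∈ h.primeFactors, (1 + 1 / (p : ℝ)) := by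
          rw [mul_sum]
      _ ≤ _ := mul_le_mul_of_nonneg_left (ps_sum H) (by positivity)
  have hs2 : 2501 * (x / Real.log x ^ 2) * (Real.exp 2 * H) ≤
      2501 * Real.exp 2 * ε * x / Real.log x := by
    calc 2501 * (x / Real.log x ^ 2) * (Real.exp 2 * H)
        ≤ 2501 * (x / Real.log x ^ 2) * (Real.exp 2 * (ε * Real.log x)) := by gcongr
      _ = 2501 * Real.exp 2 * ε * x / Real.log x := by
          field_simp
  have h1 : 1 ≤ ε * x / Real.log x := by
    rw [le_div_iff₀ hlp]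
    linarith
  calc (((Icc 1 x).filter (fun q => q.Prime ∧ ∃ q' : ℕ, q'.Prime ∧ q < q' ∧
      (q' : ℝ) ≤ q + ε * Real.log x)).card : ℝ)
      ≤ ε * x / Real.log x + 2501 * Real.exp 2 * ε * x / Real.log x := by linarith
    _ = (2501 * Real.exp 2 + 1) * ε * x / Real.log x := by ring

end Pool.Agent.ISO
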