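import Pool.Agent.ISO.IdxJ
import Pool.Agent.ISO.PairS

/-!
ISO/IdxI.  Indices `r` with `m` small gaps, a long gap after them and a first gap which is not too small.
PLAN.  `idx_J m` with `δ1 = δ / 2` and `2 Λ` gives `c1`.  For `N` large take `P = p_N / 5` (template `ixB` in AV/IxB), so an index `r` with
`p_r ≤ 5 P ≤ p_N` has `r ≤ N` (remove `r = N`, one element, or take `P = (p_N - 1) / 5`).  `log P - 1 ≤ log p_r ≤ log P + 2` for
`P/2 ≤ p_r ≤ 5 P`, so `δ1 log P ≤ δ log p_r` and `2 Λ log P ≥ Λ log p_r`.  Remove the `r` with `p_{r+1} - p_r < ε log p_r`: by `close_pairs`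
at `x = 5 P` (`q = p_r`, `q' = p_{r+1}`, `r ↦ p_r` injective) at most `C ε 5 P / log (5 P) ≤ c1 P / (2 log P)` for
`ε = c1 / (10 C)`.  `N log p_N ≤ C' p_N` (`cheb` in AV/IxA) gives `P / log P ≥ c N`.
-/

set_option autoImplicit false

open Finset Filter Topology Pool.Agent.AT Pool.Agent.IPT Pool.Agent.AV

namespace Pool.Agent.ISO

open Classical in
theorem idx_I (m : ℕ) (δ Λ : ℝ) (hδ : 0 < δ) (hΛ : 0 < Λ) : ∃ ε c : ℝ, 0 < ε ∧ 0 < c ∧
    ∃ N0 : ℕ, ∀ N : ℕ, N0 ≤ N → c * N ≤ (((range N).filter (fun r =>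
      ε * Real.log (pn r) ≤ pn (r + 1) - pn r ∧ pn (r + m) - pn r ≤ δ * Real.log (pn r) ∧
      Λ * Real.log (pn r) ≤ pn (r + m + 1) - pn (r + m))).card : ℝ) := by
  obtain ⟨c1, hc1, P1, hP1⟩ := idx_J m (δ / 2) (2 * Λ) (by positivity) (by positivity)
  obtain ⟨C, hC, hcp⟩ := close_pairs
  obtain ⟨C', hC', N1, hN1⟩ := cheb
  have hε : 0 < c1 / (10 * C) := by positivity
  obtain ⟨x0, hx0⟩ := hcp (c1 / (10 * C)) hε
  obtain ⟨ε, hεd⟩ : ∃ ε, ε = c1 / (10 * C) := ⟨_, rfl⟩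
  rw [← hεd] at hx0 hε
  have hcast : Tendsto (fun P : ℕ => (P : ℝ)) atTop atTop := tendsto_natCast_atTop_atTop
  have hlog := Real.tendsto_log_atTop.comp hcast
  have ev1 : ∀ᶠ P : ℕ in atTop, 4 ≤ Real.log P := hlog.eventually_ge_atTop _
  obtain ⟨P3, hP3⟩ := eventually_atTop.1 ev1
  obtain ⟨Pm, hPm⟩ : ∃ Pm, Pm = P1 + x0 + P3 + 256 := ⟨_, rfl⟩
  refine ⟨ε, c1 / (20 * C'), hε, by positivity, N1 + 5 * Pm + 5, fun N hN => ?_⟩
  have hinf : (Set.ofPred Nat.Prime).Infinite := Nat.infinite_setOfPred_prime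
  obtain ⟨pN, hpN⟩ : ∃ pN, pN = Nat.nth Nat.Prime N := ⟨_, rfl⟩
  have hpNp : pN.Prime := by
    rw [hpN]
    exact Nat.nth_mem_of_infinite hinf _
  have hpNN : N + 2 ≤ pN := by
    rw [hpN]
    exact Nat.add_two_le_nth_prime N
  obtain ⟨P, hP⟩ : ∃ P, P = pN / 5 := ⟨_, rfl⟩
  have hP5 : 5 * P ≤ pN := by omega
  have hP5' : pN ≤ 5 * P + 4 := by omega
  have hPm' : Pm ≤ P := by omega
  have hP256 : 256 ≤ P := by omega
  have hP5n : 5 * P ≠ pN := by
    intro h
    rw [← h] at hpNp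
    exact Nat.not_prime_mul (by norm_num) (by omega) hpNp
  have hP5l : 5 * P < pN := by omega
  have hPp : (0 : ℝ) < P := by
    have : 0 < P := by omega
    exact_mod_cast this
  have e1 : 4 ≤ Real.log P := hP3 P (by omega)
  have hG0 := hP1 P (by omega)
  obtain ⟨ℓ, hℓ⟩ : ∃ ℓ, ℓ = Real.log P := ⟨_, rfl⟩
  rw [← hℓ] at e1 hG0
  have hℓ0 : 0 < ℓ := by linarith
  obtain ⟨G, hG⟩ : ∃ G, G = (range (5 * P)).filter (fun r =>
      (P : ℝ) / 2 ≤ pn r ∧ pn r ≤ 5 * P ∧ pn (r + m) - pn r ≤ δ / 2 * ℓ ∧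
      2 * Λ * ℓ ≤ pn (r + m + 1) - pn (r + m)) := ⟨_, rfl⟩
  rw [← hG] at hG0
  have hGm : ∀ r ∈ G, (P : ℝ) / 2 ≤ pn r ∧ pn r ≤ 5 * P ∧ pn (r + m) - pn r ≤ δ / 2 * ℓ ∧
      2 * Λ * ℓ ≤ pn (r + m + 1) - pn (r + m) := by
    intro r hr
    rw [hG] at hr
    exact (mem_filter.1 hr).2
  -- logarithms
  have hlr : ∀ r ∈ G, ℓ - 1 ≤ Real.log (pn r) ∧ Real.log (pn r) ≤ ℓ + 2 ∧
      Real.log (pn r) ≤ Real.log ((5 * P : ℕ) : ℝ) := by
    intro r hr
    obtain ⟨h1, h2, _, _⟩ := hGm r hr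
    have hr0 : 0 < pn r := by linarith
    refine ⟨?_, ?_, ?_⟩
    · have h3 : Real.log (P / 2) ≤ Real.log (pn r) := Real.log_le_log (by positivity) h1
      rw [Real.log_div hPp.ne' (by norm_num)] at h3
      have h4 := Real.log_two_lt_d9
      rw [hℓ]
      linarith
    · have h3 : Real.log (pn r) ≤ Real.log (5 * P) := Real.log_le_log hr0 h2
      rw [Real.log_mul (by norm_num) hPp.ne'] at h3
      have h4 : Real.log 5 ≤ 2 := by
        rw [Real.log_le_iff_le_exp (by norm_num)]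
        have h3 := Real.add_one_le_exp (1 : ℝ)
        have h4 : Real.exp 2 = Real.exp 1 * Real.exp 1 := by
          rw [← Real.exp_add]
          norm_num
        have h5 := Real.exp_one_gt_d9
        rw [h4]
        nlinarith
      rw [hℓ]
      linarith
    · refine Real.log_le_log hr0 ?_
      push_cast
      exact h2
  -- the bad indices
  obtain ⟨B, hB⟩ : ∃ B, B = G.filter (fun r => pn (r + 1) - pn r < ε * Real.log (pn r)) := ⟨_, rfl⟩
  have hBc : (B.card : ℝ) ≤ c1 / 2 * (P / ℓ) := by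
    have h1 := hx0 (5 * P) (by omega)
    have h2 : B.card ≤ (((Icc 1 (5 * P)).filter (fun q => q.Prime ∧ ∃ q' : ℕ, q'.Prime ∧ q < q' ∧
      (q' : ℝ) ≤ q + ε * Real.log ((5 * P : ℕ) : ℝ))).card) := by
      refine card_le_card_of_injOn (fun r => Nat.nth Nat.Prime r) ?_ ?_
      · intro r hr
        have hr' : r ∈ B := hr
        rw [hB, mem_filter] at hr'
        obtain ⟨hrG, hrb⟩ := hr'
        obtain ⟨g1, g2, _, _⟩ := hGm r hrG
        have hrp : (Nat.nth Nat.Prime r).Prime := Nat.nth_mem_of_infinite hinf _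
        have hrp' : (Nat.nth Nat.Prime (r + 1)).Prime := Nat.nth_mem_of_infinite hinf _
        have hlt : Nat.nth Nat.Prime r < Nat.nth Nat.Prime (r + 1) :=
          Nat.nth_strictMono hinf (Nat.lt_succ_self _)
        rw [mem_coe, mem_filter, mem_Icc]
        have g2' : Nat.nth Nat.Prime r ≤ 5 * P := by
          unfold pn at g2
          exact_mod_cast g2
        refine ⟨⟨hrp.one_le, g2'⟩, hrp, Nat.nth Nat.Prime (r + 1), hrp', hlt, ?_⟩
        have h3 := (hlr r hrG).2.2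
        have h4 := mul_le_mul_of_nonneg_left h3 hε.le
        have h5 : pn (r + 1) ≤ pn r + ε * Real.log ((5 * P : ℕ) : ℝ) := by linarith
        exact h5
      · intro a _ b _ hab
        exact (Nat.nth_strictMono hinf).injective hab
    have h3 : (B.card : ℝ) ≤ C * ε * ((5 * P : ℕ) : ℝ) / Real.log ((5 * P : ℕ) : ℝ) := by
      refine le_trans ?_ h1
      exact_mod_cast h2
    have h4 : ℓ ≤ Real.log ((5 * P : ℕ) : ℝ) := by
      rw [hℓ]
      refine Real.log_le_log hPp ?_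
      push_cast
      linarith
    have h5 : C * ε * ((5 * P : ℕ) : ℝ) / Real.log ((5 * P : ℕ) : ℝ) ≤
        C * ε * ((5 * P : ℕ) : ℝ) / ℓ := by
      exact div_le_div_of_nonneg_left (by positivity) hℓ0 h4
    have h6 : C * ε * ((5 * P : ℕ) : ℝ) / ℓ = c1 / 2 * (P / ℓ) := by
      rw [hεd]
      push_cast
      field_simp
      ring
    linarith
  -- the good indices are in the target
  obtain ⟨T, hT⟩ : ∃ T, T = (range N).filter (fun r =>
      ε * Real.log (pn r) ≤ pn (r + 1) - pn r ∧ pn (r + m) - pn r ≤ δ * Real.log (pn r) ∧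
      Λ * Real.log (pn r) ≤ pn (r + m + 1) - pn (r + m)) := ⟨_, rfl⟩
  rw [← hT]
  have hGT : G ⊆ T ∪ B := by
    intro r hr
    rw [mem_union]
    by_cases hb : pn (r + 1) - pn r < ε * Real.log (pn r)
    · right
      rw [hB, mem_filter]
      exact ⟨hr, hb⟩
    · left
      rw [not_lt] at hb
      obtain ⟨g1, g2, g3, g4⟩ := hGm r hr
      obtain ⟨l1, l2, _⟩ := hlr r hr
      rw [hT, mem_filter, mem_range]
      refine ⟨?_, hb, ?_, ?_⟩
      · by_contra hrN
        rw [not_lt] at hrN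
        have h1 : Nat.nth Nat.Prime N ≤ Nat.nth Nat.Prime r :=
          (Nat.nth_strictMono hinf).monotone hrN
        rw [← hpN] at h1
        have g2' : Nat.nth Nat.Prime r ≤ 5 * P := by
          unfold pn at g2
          exact_mod_cast g2
        omega
      · have h1 : ℓ ≤ 2 * Real.log (pn r) := by linarith
        have h2 : δ / 2 * ℓ ≤ δ / 2 * (2 * Real.log (pn r)) :=
          mul_le_mul_of_nonneg_left h1 (by positivity)
        have h3 : δ / 2 * (2 * Real.log (pn r)) = δ * Real.log (pn r) := by ring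
        linarith
      · have h1 : Real.log (pn r) ≤ 2 * ℓ := by linarith
        have h2 : Λ * Real.log (pn r) ≤ Λ * (2 * ℓ) := mul_le_mul_of_nonneg_left h1 hΛ.le
        have h3 : Λ * (2 * ℓ) = 2 * Λ * ℓ := by ring
        linarith
  have hcard : (G.card : ℝ) ≤ T.card + B.card := by
    have h1 := (card_le_card hGT).trans (card_union_le T B)
    exact_mod_cast h1
  have hTc : c1 / 2 * (P / ℓ) ≤ T.card := by
    have h1 : c1 * P / ℓ = c1 / 2 * (P / ℓ) + c1 / 2 * (P / ℓ) := by ring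
    linarith
  -- conclusion
  have h2 := hN1 N (by omega)
  have h3 : pn N = (pN : ℝ) := by rw [hpN]; rfl
  rw [h3] at h2
  have h4 : (pN : ℝ) ≤ 10 * P := by
    have : pN ≤ 10 * P := by omega
    exact_mod_cast this
  have h5 : ℓ ≤ Real.log pN := by
    rw [hℓ]
    refine Real.log_le_log hPp ?_
    have : P ≤ pN := by omega
    exact_mod_cast this
  have h6 : (N : ℝ) * ℓ ≤ 10 * C' * P := by
    have h7 : (N : ℝ) * ℓ ≤ N * Real.log pN := mul_le_mul_of_nonneg_left h5 (Nat.cast_nonneg _)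
    have h8 : C' * pN ≤ C' * (10 * P) := mul_le_mul_of_nonneg_left h4 hC'.le
    linarith
  have h7 : (N : ℝ) ≤ 10 * C' * (P / ℓ) := by
    rw [← mul_div_assoc, le_div_iff₀ hℓ0]
    exact h6
  have h8 : c1 / (20 * C') * N ≤ c1 / (20 * C') * (10 * C' * (P / ℓ)) :=
    mul_le_mul_of_nonneg_left h7 (by positivity)
  have h9 : c1 / (20 * C') * (10 * C' * (P / ℓ)) = c1 / 2 * (P / ℓ) := by
    field_simp
    ring
  linarith

end Pool.Agent.ISO
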