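import Pool.Agent.ISO.WinI
import Pool.Agent.AV.IxA

/-!
ISO/IdxJ.  Clusters of primes followed by a long gap: from windows to indices.
A good window gives the index of the first of its last `m + 1` primes; each index arises at most `D` times.
-/

set_option autoImplicit false

open Finset Filter Topology Pool.Agent.AT Pool.Agent.IPT Pool.Agent.AV

namespace Pool.Agent.ISO

private theorem count_add' (n H : ℕ) : Nat.count Nat.Prime (n + H) =
    Nat.count Nat.Prime n + ((Ico n (n + H)).filter Nat.Prime).card := by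
  rw [Nat.count_eq_card_filter_range, Nat.count_eq_card_filter_range]
  have hU : (range (n + H)).filter Nat.Prime =
      (range n).filter Nat.Prime ∪ (Ico n (n + H)).filter Nat.Prime := by
    ext q
    simp only [mem_filter, mem_union, mem_range, mem_Ico]
    constructor
    · rintro ⟨ha, hb⟩
      by_cases hq : q < n
      · exact Or.inl ⟨hq, hb⟩
      · exact Or.inr ⟨⟨by omega, ha⟩, hb⟩
    · rintro (⟨ha, hb⟩ | ⟨⟨_, ha⟩, hb⟩)
      · exact ⟨by omega, hb⟩
      · exact ⟨ha, hb⟩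
  rw [hU, card_union_of_disjoint]
  rw [disjoint_left]
  intro q hq hq'
  rw [mem_filter, mem_range] at hq
  rw [mem_filter, mem_Ico] at hq'
  omega

private theorem core {m k n H D : ℕ} (hDH : D ≤ H) {t : Fin k → ℕ} (ht : Function.Injective t)
    (htD : ∀ i, t i < D) (hall : ∀ j < H, (n + j).Prime → ∃ i, j = t i) (I : Finset (Fin k))
    (hI : ∀ i ∈ I, (n + t i).Prime) (hm : m + 1 ≤ I.card) :
    m + 1 ≤ Nat.count Nat.Prime (n + D) ∧
    n ≤ Nat.nth Nat.Prime (Nat.count Nat.Prime (n + D) - (m + 1)) ∧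
    Nat.nth Nat.Prime (Nat.count Nat.Prime (n + D) - (m + 1) + m) < n + D ∧
    n + H ≤ Nat.nth Nat.Prime (Nat.count Nat.Prime (n + D) - (m + 1) + m + 1) := by
  have hinf : (Set.ofPred Nat.Prime).Infinite := Nat.infinite_setOfPred_prime
  have h1 := count_add' n D
  have h2 : I.card ≤ ((Ico n (n + D)).filter Nat.Prime).card := by
    apply Finset.card_le_card_of_injOn (fun i => n + t i)
    · intro i hi
      have h3 := htD i
      have h4 : n ≤ n + t i := Nat.le_add_right _ _
      have h5 : n + t i < n + D := by omega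
      exact mem_coe.2 (mem_filter.2 ⟨mem_Ico.2 ⟨h4, h5⟩, hI i hi⟩)
    · intro i _ i' _ h
      have h' : n + t i = n + t i' := h
      exact ht (by omega)
  have h3 : Nat.count Nat.Prime (n + H) = Nat.count Nat.Prime (n + D) := by
    have h4 := count_add' (n + D) (H - D)
    have h5 : n + D + (H - D) = n + H := by omega
    rw [h5] at h4
    have h6 : (Ico (n + D) (n + H)).filter Nat.Prime = ∅ := by
      rw [Finset.filter_eq_empty_iff]
      intro q hq hp
      rw [mem_Ico] at hq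
      have h7 : n + (q - n) = q := by omega
      obtain ⟨i, hi⟩ := hall (q - n) (by omega) (by rw [h7]; exact hp)
      have := htD i
      omega
    rw [h6, card_empty, add_zero] at h4
    exact h4
  refine ⟨by omega, ?_, ?_, ?_⟩
  · exact (Nat.count_le_iff_le_nth hinf).1 (by omega)
  · apply Nat.nth_lt_of_lt_count
    omega
  · exact (Nat.count_le_iff_le_nth hinf).1 (by omega)

private theorem fin_count {W T : Finset ℕ} {D : ℕ} (r : ℕ → ℕ) (h1 : ∀ n ∈ W, r n ∈ T)
    (h2 : ∀ n ∈ W, n ≤ Nat.nth Nat.Prime (r n) ∧ Nat.nth Nat.Prime (r n) < n + D) :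
    W.card ≤ D * T.card := by
  have hfib : ∀ a ∈ W.image r, (W.filter (fun n => r n = a)).card ≤ D := by
    intro a _
    have hsub : W.filter (fun n => r n = a) ⊆
        Ico (Nat.nth Nat.Prime a + 1 - D) (Nat.nth Nat.Prime a + 1) := by
      intro n hn
      rw [mem_filter] at hn
      obtain ⟨hnW, hna⟩ := hn
      obtain ⟨e1, e2⟩ := h2 n hnW
      rw [hna] at e1 e2
      rw [mem_Ico]
      omega
    refine (card_le_card hsub).trans ?_
    rw [Nat.card_Ico]
    omega
  have hc := Finset.card_le_mul_card_image (f := r) W D hfib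
  have hi : (W.image r).card ≤ T.card := by
    apply card_le_card
    intro a ha
    rw [mem_image] at ha
    obtain ⟨n, hn, rfl⟩ := ha
    exact h1 n hn
  exact hc.trans (Nat.mul_le_mul_left _ hi)

open Classical in
theorem idx_J (m : ℕ) (δ Λ : ℝ) (hδ : 0 < δ) (hΛ : 0 < Λ) : ∃ c : ℝ, 0 < c ∧
    ∃ P0 : ℕ, ∀ P : ℕ, P0 ≤ P → c * P / Real.log P ≤ (((range (5 * P)).filter (fun r =>
      (P : ℝ) / 2 ≤ pn r ∧ pn r ≤ 5 * P ∧ pn (r + m) - pn r ≤ δ * Real.log P ∧
      Λ * Real.log P ≤ pn (r + m + 1) - pn (r + m))).card : ℝ) := by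
  obtain ⟨k, _, hw⟩ := win_I m
  obtain ⟨Λ1, hΛ1⟩ : ∃ Λ1 : ℝ, Λ1 = Λ + δ + 2 := ⟨_, rfl⟩
  have hΛ10 : 0 < Λ1 := by rw [hΛ1]; linarith
  obtain ⟨c, hc, P0, hP0⟩ := hw δ Λ1 hδ hΛ10
  refine ⟨c / δ, by positivity, max P0 (⌈16 * Λ1 ^ 2⌉₊ + 3), ?_⟩
  intro P hP
  have hPa : P0 ≤ P := (le_max_left _ _).trans hP
  have hPb : ⌈16 * Λ1 ^ 2⌉₊ + 3 ≤ P := (le_max_right _ _).trans hP
  have hP3 : (3 : ℝ) ≤ P := by
    have : 3 ≤ P := by omega
    exact_mod_cast this
  have hPpos : (0 : ℝ) < P := by linarith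
  have hlog1 : 1 ≤ Real.log P := by
    rw [Real.le_log_iff_exp_le hPpos]
    have := Real.exp_one_lt_d9
    linarith
  have hlog0 : 0 < Real.log P := by linarith
  have hP16 : 16 * Λ1 ^ 2 ≤ P := by
    calc 16 * Λ1 ^ 2 ≤ (⌈16 * Λ1 ^ 2⌉₊ : ℝ) := Nat.le_ceil _
      _ ≤ P := by exact_mod_cast (by omega : ⌈16 * Λ1 ^ 2⌉₊ ≤ P)
  have hsq : 4 * Λ1 ≤ Real.sqrt P := by
    apply Real.le_sqrt_of_sq_le
    nlinarith
  have hsq0 : 0 < Real.sqrt P := Real.sqrt_pos.2 hPpos
  have hss : Real.sqrt P * Real.sqrt P = P := Real.mul_self_sqrt hPpos.le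
  have hlogs : Real.log P ≤ 2 * Real.sqrt P := by
    have h4 := Real.log_le_sub_one_of_pos hsq0
    have h5 : Real.log (Real.sqrt P) = Real.log P / 2 := Real.log_sqrt hPpos.le
    rw [h5] at h4
    linarith
  have hbig : Λ1 * Real.log P ≤ P / 2 := by
    have h5 := mul_le_mul_of_nonneg_left hlogs hΛ10.le
    have h6 := mul_le_mul_of_nonneg_right hsq hsq0.le
    rw [hss] at h6
    linarith
  obtain ⟨D, hD⟩ : ∃ D : ℕ, D = ⌊δ * Real.log P⌋₊ := ⟨_, rfl⟩
  obtain ⟨H, hH⟩ : ∃ H : ℕ, H = D + ⌈Λ * Real.log P⌉₊ := ⟨_, rfl⟩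
  have hDr : (D : ℝ) ≤ δ * Real.log P := by
    rw [hD]
    exact Nat.floor_le (by positivity)
  have hΛl : 0 ≤ Λ * Real.log P := by positivity
  have hHr : (H : ℝ) ≤ Λ1 * Real.log P := by
    have h5 := Nat.ceil_lt_add_one hΛl
    rw [hH, hΛ1]
    push_cast
    nlinarith
  have hDH : D ≤ H := by omega
  have hHP : 2 * H ≤ P := by
    have : 2 * (H : ℝ) ≤ P := by linarith
    exact_mod_cast this
  have hcard := hP0 P hPa H hHr (fun _ => 0) (fun i => by rw [← hD]; omega)
  rw [← hD] at hcard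
  obtain ⟨T, hT⟩ : ∃ T : Finset ℕ, T = (range (5 * P)).filter (fun r =>
      (P : ℝ) / 2 ≤ pn r ∧ pn r ≤ 5 * P ∧ pn (r + m) - pn r ≤ δ * Real.log P ∧
      Λ * Real.log P ≤ pn (r + m + 1) - pn (r + m)) := ⟨_, rfl⟩
  rw [← hT]
  have hfin : (D : ℝ) * (T.card : ℝ) ≤ δ * Real.log P * (T.card : ℝ) :=
    mul_le_mul_of_nonneg_right hDr (Nat.cast_nonneg _)
  have hmain : c * P ≤ δ * Real.log P * (T.card : ℝ) := by
    refine hcard.trans (le_trans ?_ hfin)
    rw [← Nat.cast_mul, Nat.cast_le]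
    apply fin_count (fun n => Nat.count Nat.Prime (n + D) - (m + 1))
    · intro n hn
      obtain ⟨hn1, t, ht1, ht2, ht3, ht4⟩ := mem_filter.1 hn
      rw [mem_Ioc] at hn1
      obtain ⟨e0, e1, e2, e3⟩ := core hDH ht1 (fun i => by have := (ht2 i).2; omega) ht3 _
        (fun i hi => (mem_filter.1 hi).2) ht4
      have hcn : Nat.count Nat.Prime (n + D) ≤ n + D := Nat.count_le _
      have hmono : Nat.nth Nat.Prime (Nat.count Nat.Prime (n + D) - (m + 1)) ≤
          Nat.nth Nat.Prime (Nat.count Nat.Prime (n + D) - (m + 1) + m) :=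
        Nat.nth_monotone Nat.infinite_setOfPred_prime (by omega)
      rw [hT, mem_filter, mem_range]
      obtain ⟨r, hr⟩ : ∃ r : ℕ, r = Nat.count Nat.Prime (n + D) - (m + 1) := ⟨_, rfl⟩
      rw [← hr] at e1 e2 e3 hmono
      show Nat.count Nat.Prime (n + D) - (m + 1) < 5 * P ∧ _
      rw [← hr]
      have c1 : (P : ℝ) - H < n := by
        have : P < n + H := by omega
        have : (P : ℝ) < n + H := by exact_mod_cast this
        linarith
      have c2 : (n : ℝ) ≤ pn r := by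
        unfold pn
        exact_mod_cast e1
      have c3 : pn (r + m) < n + D := by
        unfold pn
        exact_mod_cast e2
      have c4 : pn r ≤ pn (r + m) := by
        unfold pn
        exact_mod_cast hmono
      have c5 : (n : ℝ) + H ≤ pn (r + m + 1) := by
        unfold pn
        exact_mod_cast e3
      have c6 : (2 : ℝ) * H ≤ P := by exact_mod_cast hHP
      have c7 : (n : ℝ) ≤ 4 * P := by exact_mod_cast hn1.2
      have c8 : (D : ℝ) ≤ H := by exact_mod_cast hDH
      have c9 : (H : ℝ) = D + ⌈Λ * Real.log P⌉₊ := by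
        rw [hH]
        push_cast
        ring
      have c10 : Λ * Real.log P ≤ ⌈Λ * Real.log P⌉₊ := Nat.le_ceil _
      refine ⟨by omega, by linarith, by linarith, by linarith, by linarith⟩
    · intro n hn
      obtain ⟨hn1, t, ht1, ht2, ht3, ht4⟩ := mem_filter.1 hn
      obtain ⟨e0, e1, e2, e3⟩ := core hDH ht1 (fun i => by have := (ht2 i).2; omega) ht3 _
        (fun i hi => (mem_filter.1 hi).2) ht4
      have hmono : Nat.nth Nat.Prime (Nat.count Nat.Prime (n + D) - (m + 1)) ≤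
          Nat.nth Nat.Prime (Nat.count Nat.Prime (n + D) - (m + 1) + m) :=
        Nat.nth_monotone Nat.infinite_setOfPred_prime (by omega)
      exact ⟨e1, by
        show Nat.nth Nat.Prime (Nat.count Nat.Prime (n + D) - (m + 1)) < n + D
        omega⟩
  rw [div_mul_eq_mul_div, div_div, div_le_iff₀ (by positivity)]
  linarith

end Pool.Agent.ISO
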