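import Pool.Agent.ISO.Defs
import Pool.Agent.IPT.Split
import Pool.Agent.IPT.CgB
import Pool.Agent.RS.Decomp

/-!
ISO/MassG.  The untruncated masses for a general left factor: moments and the Markov bound for the tail.
-/

set_option autoImplicit false

open Finset Pool.Agent.RS Pool.Agent.IPT

namespace Pool.Agent.ISO

variable {ι α β : Type} [Fintype ι] [DecidableEq ι] [DecidableEq α] [DecidableEq β] [Fintype α]
  [Fintype β]

/-- the mass without the level condition of the β part -/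
noncomputable def wbG (p : ι → ℕ) (A : (ι → Option α) → ℝ) (yH : Finset ι → ℝ)
    (σ : ι → Option (α ⊕ β)) : ℝ :=
  (A (lp σ) * Yt yH (rp σ)) ^ 2 / PH p (supp σ)

private theorem PH_pos' {p : ι → ℕ} (hp : ∀ i, 2 ≤ p i) (S : Finset ι) : 0 < PH p S :=
  lt_of_lt_of_le one_pos (one_le_PH hp S)

private theorem wbG_nonneg {p : ι → ℕ} (hp : ∀ i, 2 ≤ p i) (A : (ι → Option α) → ℝ) (yH : Finset ι → ℝ)
    (σ : ι → Option (α ⊕ β)) : 0 ≤ wbG p A yH σ :=
  div_nonneg (sq_nonneg _) (PH_pos' hp _).le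

private theorem wbG_split {p : ι → ℕ} (hp : ∀ i, 2 ≤ p i) (A : (ι → Option α) → ℝ) (yH : Finset ι → ℝ)
    (hH0 : yH ∅ = 1) (σ : ι → Option (α ⊕ β)) (m : β) :
    wbG p A yH σ = wbG p A yH (era σ (Sum.inr m)) *
      (yH (cell σ (Sum.inr m)) ^ 2 / PH p (cell σ (Sum.inr m))) := by
  have h1 := (PH_pos' hp (cell σ (Sum.inr m))).ne'
  have h2 := (PH_pos' hp (supp (era σ (Sum.inr m)))).ne'
  unfold wbG
  rw [PH_supp_split p σ (Sum.inr m), lp_era_inr, rp_era_inr, Yt_split yH hH0 (rp σ) m,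
    ← cell_inr]
  field_simp

private theorem sx_term {p : ι → ℕ} (hp : ∀ i, 2 ≤ p i) (yH : Finset ι → ℝ) (S : Finset ι) :
    0 ≤ yH S ^ 2 / PH p S := div_nonneg (sq_nonneg _) (PH_pos' hp _).le

private theorem log_PP_nonneg {p : ι → ℕ} (hp : ∀ i, 2 ≤ p i) (S : Finset ι) :
    0 ≤ Real.log (PP p S) := Real.log_nonneg (one_le_PP hp S)

private theorem sub_univ {f : Finset ι → ℝ} (hf : ∀ S, 0 ≤ f S) (U : Finset ι) :
    ∑ S ∈ (univ \ U).powerset, f S ≤ ∑ S : Finset ι, f S :=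
  Finset.sum_le_sum_of_subset_of_nonneg (subset_univ _) (fun S _ _ => hf S)

open Classical in
theorem wbG_all {p : ι → ℕ} (hp : ∀ i, 2 ≤ p i) (A : (ι → Option α) → ℝ) (yH : Finset ι → ℝ)
    (hH0 : yH ∅ = 1) (m : β) :
    ∑ σ : ι → Option (α ⊕ β), wbG p A yH σ ≤
      SX p yH * ∑ σ ∈ (univ : Finset (ι → Option (α ⊕ β))).filter
        (fun σ => cell σ (Sum.inr m) = ∅), wbG p A yH σ := by
  have h1 : ∑ σ : ι → Option (α ⊕ β), wbG p A yH σ =
      ∑ σ : ι → Option (α ⊕ β), (fun (s : ι → Option (α ⊕ β)) (S : Finset ι) =>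
        wbG p A yH s * (yH S ^ 2 / PH p S)) (era σ (Sum.inr m)) (cell σ (Sum.inr m)) :=
    Finset.sum_congr rfl fun σ _ => wbG_split hp A yH hH0 σ m
  rw [h1]
  refine (decomp (Sum.inr m) (fun (s : ι → Option (α ⊕ β)) (S : Finset ι) =>
        wbG p A yH s * (yH S ^ 2 / PH p S))).le.trans ?_
  rw [Finset.mul_sum]
  refine Finset.sum_le_sum fun σ _ => ?_
  beta_reduce
  rw [← Finset.mul_sum, mul_comm (SX p yH)]
  exact mul_le_mul_of_nonneg_left (sub_univ (sx_term hp yH) _) (wbG_nonneg hp A yH σ)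

open Classical in
private theorem wbG_log {p : ι → ℕ} (hp : ∀ i, 2 ≤ p i) (A : (ι → Option α) → ℝ) (yH : Finset ι → ℝ) (hH0 : yH ∅ = 1)
    {m m' : β} (hm : m' ≠ m) :
    ∑ σ ∈ (univ : Finset (ι → Option (α ⊕ β))).filter (fun σ => cell σ (Sum.inr m) = ∅),
        wbG p A yH σ * Real.log (PP p (cell σ (Sum.inr m'))) ≤
      SE p yH * ∑ σ ∈ (univ : Finset (ι → Option (α ⊕ β))).filter
        (fun σ => cell σ (Sum.inr m) = ∅ ∧ cell σ (Sum.inr m') = ∅), wbG p A yH σ := by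
  have hne : (Sum.inr m : α ⊕ β) ≠ Sum.inr m' := fun h => hm (Sum.inr.inj h).symm
  have h1 : ∑ σ ∈ (univ : Finset (ι → Option (α ⊕ β))).filter
        (fun σ => cell σ (Sum.inr m) = ∅),
        wbG p A yH σ * Real.log (PP p (cell σ (Sum.inr m'))) =
      ∑ σ : ι → Option (α ⊕ β), (fun (s : ι → Option (α ⊕ β)) (S : Finset ι) =>
        if cell s (Sum.inr m) = ∅ then
          wbG p A yH s * (yH S ^ 2 / PH p S * Real.log (PP p S)) else 0)
            (era σ (Sum.inr m')) (cell σ (Sum.inr m')) := by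
    rw [Finset.sum_filter]
    refine Finset.sum_congr rfl fun σ _ => ?_
    beta_reduce
    rw [cell_era_of_ne σ hne]
    by_cases h : cell σ (Sum.inr m) = ∅
    · rw [if_pos h, if_pos h, wbG_split hp A yH hH0 σ m']
      ring
    · rw [if_neg h, if_neg h]
  rw [h1]
  refine (decomp (Sum.inr m') (fun (s : ι → Option (α ⊕ β)) (S : Finset ι) =>
        if cell s (Sum.inr m) = ∅ then
          wbG p A yH s * (yH S ^ 2 / PH p S * Real.log (PP p S)) else 0)).le.trans ?_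
  rw [Finset.mul_sum, Finset.sum_filter, Finset.sum_filter]
  refine Finset.sum_le_sum fun σ _ => ?_
  beta_reduce
  by_cases h' : cell σ (Sum.inr m') = ∅
  · by_cases h : cell σ (Sum.inr m) = ∅
    · rw [if_pos h', if_pos ⟨h, h'⟩]
      simp only [h, if_true]
      rw [← Finset.mul_sum, mul_comm (SE p yH)]
      exact mul_le_mul_of_nonneg_left (sub_univ (f := fun S => yH S ^ 2 / PH p S *
        Real.log (PP p S)) (fun S => mul_nonneg (sx_term hp yH S) (log_PP_nonneg hp S)) _)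
        (wbG_nonneg hp A yH σ)
    · rw [if_pos h', if_neg (fun hh => h hh.1)]
      simp only [h, if_false, Finset.sum_const_zero, le_refl]
  · rw [if_neg h', if_neg (fun hh => h' hh.2)]

theorem wbG_level {p : ι → ℕ} (hp : ∀ i, 2 ≤ p i) {A : (ι → Option α) → ℝ} (yH : Finset ι → ℝ)
    {DR T1 : ℝ} (hA : ∀ τ, A τ ≠ 0 → PP p (supp τ) ≤ DR)
    (hT : 0 ≤ T1) (hs : ∀ S, yH S ≠ 0 → PP p S ≤ T1) {σ : ι → Option (α ⊕ β)}
    (h : wbG p A yH σ ≠ 0) : PP p (supp σ) ≤ DR * T1 ^ Fintype.card β := by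
  classical
  have h1 : A (lp σ) * Yt yH (rp σ) ≠ 0 := by
    intro h0
    apply h
    unfold wbG
    rw [h0]
    simp
  have h2 : PP p (supp (lp σ)) ≤ DR := hA _ (left_ne_zero_of_mul h1)
  have h3 : Yt yH (rp σ) ≠ 0 := right_ne_zero_of_mul h1
  have h4 : ∀ j : β, PP p (cell (rp σ) j) ≤ T1 := by
    intro j
    apply hs
    intro h0
    apply h3
    unfold Yt
    exact Finset.prod_eq_zero (Finset.mem_univ j) h0
  rw [PP_split]
  have h5 : PP p (supp (rp σ)) ≤ T1 ^ Fintype.card β := by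
    rw [PP_supp_eq_prod]
    calc ∏ j : β, PP p (cell (rp σ) j) ≤ ∏ _j : β, T1 :=
          Finset.prod_le_prod (fun j _ => le_trans zero_le_one (one_le_PP hp _))
            (fun j _ => h4 j)
      _ = T1 ^ Fintype.card β := by
          rw [Finset.prod_const, Finset.card_univ]
  have h6 : 0 ≤ PP p (supp (lp σ)) := le_trans zero_le_one (one_le_PP hp _)
  exact mul_le_mul h2 h5 (le_trans zero_le_one (one_le_PP hp _)) (h6.trans h2)

private theorem SX_nonneg {p : ι → ℕ} (hp : ∀ i, 2 ≤ p i) (yH : Finset ι → ℝ) :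
    0 ≤ SX p yH := Finset.sum_nonneg fun S _ => sx_term hp yH S

private theorem SX_pos {p : ι → ℕ} (hp : ∀ i, 2 ≤ p i) (yH : Finset ι → ℝ)
    (hH0 : yH ∅ = 1) : 0 < SX p yH := by
  have h1 : yH ∅ ^ 2 / PH p ∅ ≤ SX p yH := by
    unfold SX
    exact Finset.single_le_sum (f := fun S : Finset ι => yH S ^ 2 / PH p S)
      (fun S _ => sx_term hp yH S) (Finset.mem_univ ∅)
  rw [hH0, PH_empty] at h1
  norm_num at h1
  linarith

private theorem SE_nonneg {p : ι → ℕ} (hp : ∀ i, 2 ≤ p i) (yH : Finset ι → ℝ) :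
    0 ≤ SE p yH :=
  Finset.sum_nonneg fun S _ => mul_nonneg (sx_term hp yH S) (log_PP_nonneg hp S)

private theorem inner_low {p : ι → ℕ} (hp : ∀ i, 2 ≤ p i) (yH : Finset ι → ℝ)
    (hHn : ∀ S, 0 ≤ yH S) (hHm : ∀ S T : Finset ι, T ⊆ S → yH S ≤ yH T) {T1 : ℝ}
    (hs : ∀ S, yH S ≠ 0 → PP p S ≤ T1) (U : Finset ι)
    (hU : ∑ i ∈ U, 1 / ((p i : ℝ) - 1) ≤ 1 / 2) :
    SX p yH / 2 ≤ ∑ S ∈ (univ \ U).powerset, yH S ^ 2 / PH p S := by
  have h1 := cg_ge (p := p) hp (y := fun S => yH S ^ 2) (fun S => sq_nonneg _)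
    (fun S T hST => pow_le_pow_left₀ (hHn S) (hHm S T hST) 2) (D := 0) (V := 0) (T1 := T1)
    (fun S hS => hs S (fun h0 => hS (by simp [h0]))) le_rfl (by simp) U
  have h2 : cg p (fun S => yH S ^ 2) 0 0 U =
      ∑ S ∈ (univ \ U).powerset, yH S ^ 2 / PH p S := by
    unfold cg
    refine Finset.sum_congr rfl fun S _ => ?_
    rw [if_pos (by simp)]
  have h3 : SA p (fun S => yH S ^ 2) = SX p yH := rfl
  rw [h2, h3] at h1
  have h4 := SX_nonneg hp yH
  nlinarith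

open Classical in
private theorem wbG_low {p : ι → ℕ} (hp : ∀ i, 2 ≤ p i) (A : (ι → Option α) → ℝ) (yH : Finset ι → ℝ) (hH0 : yH ∅ = 1)
    (hHn : ∀ S, 0 ≤ yH S) (hHm : ∀ S T : Finset ι, T ⊆ S → yH S ≤ yH T) {DR T1 : ℝ}
    (hA : ∀ τ, A τ ≠ 0 → PP p (supp τ) ≤ DR)
    (hT : 0 ≤ T1) (hs : ∀ S, yH S ≠ 0 → PP p S ≤ T1)
    (hN2 : ∀ S : Finset ι, PP p S ≤ DR * T1 ^ Fintype.card β →
      ∑ i ∈ S, 1 / ((p i : ℝ) - 1) ≤ 1 / 2) {m m' : β} (hm : m' ≠ m) :
    SX p yH / 2 * ∑ σ ∈ (univ : Finset (ι → Option (α ⊕ β))).filter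
        (fun σ => cell σ (Sum.inr m) = ∅ ∧ cell σ (Sum.inr m') = ∅), wbG p A yH σ ≤
      ∑ σ ∈ (univ : Finset (ι → Option (α ⊕ β))).filter (fun σ => cell σ (Sum.inr m) = ∅),
        wbG p A yH σ := by
  have hne : (Sum.inr m : α ⊕ β) ≠ Sum.inr m' := fun h => hm (Sum.inr.inj h).symm
  have h1 : ∑ σ ∈ (univ : Finset (ι → Option (α ⊕ β))).filter
        (fun σ => cell σ (Sum.inr m) = ∅), wbG p A yH σ =
      ∑ σ : ι → Option (α ⊕ β), (fun (s : ι → Option (α ⊕ β)) (S : Finset ι) =>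
        if cell s (Sum.inr m) = ∅ then
          wbG p A yH s * (yH S ^ 2 / PH p S) else 0)
            (era σ (Sum.inr m')) (cell σ (Sum.inr m')) := by
    rw [Finset.sum_filter]
    refine Finset.sum_congr rfl fun σ _ => ?_
    beta_reduce
    rw [cell_era_of_ne σ hne]
    by_cases h : cell σ (Sum.inr m) = ∅
    · rw [if_pos h, if_pos h]
      exact wbG_split hp A yH hH0 σ m'
    · rw [if_neg h, if_neg h]
  rw [h1]
  refine le_trans ?_ (decomp (Sum.inr m') (fun (s : ι → Option (α ⊕ β)) (S : Finset ι) =>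
        if cell s (Sum.inr m) = ∅ then
          wbG p A yH s * (yH S ^ 2 / PH p S) else 0)).ge
  rw [Finset.mul_sum, Finset.sum_filter, Finset.sum_filter]
  refine Finset.sum_le_sum fun σ _ => ?_
  beta_reduce
  by_cases h' : cell σ (Sum.inr m') = ∅
  · by_cases h : cell σ (Sum.inr m) = ∅
    · rw [if_pos h', if_pos ⟨h, h'⟩]
      simp only [h, if_true]
      rw [← Finset.mul_sum, mul_comm (SX p yH / 2)]
      by_cases h0 : wbG p A yH σ = 0
      · rw [h0, zero_mul, zero_mul]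
      · exact mul_le_mul_of_nonneg_left (inner_low hp yH hHn hHm hs _
          (hN2 _ (wbG_level hp yH hA hT hs h0))) (wbG_nonneg hp A yH σ)
    · rw [if_pos h', if_neg (fun hh => h hh.1)]
      simp only [h, if_false, Finset.sum_const_zero, le_refl]
  · rw [if_neg h', if_neg (fun hh => h' hh.2)]

private theorem log_supp {p : ι → ℕ} (hp : ∀ i, 2 ≤ p i) (σ : ι → Option (α ⊕ β)) :
    Real.log (PP p (supp (rp σ))) = ∑ m' : β, Real.log (PP p (cell σ (Sum.inr m'))) := by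
  rw [PP_supp_eq_prod, Real.log_prod (fun m' _ =>
    (lt_of_lt_of_le one_pos (one_le_PP hp (cell (rp σ) m'))).ne')]
  refine Finset.sum_congr rfl fun m' _ => ?_
  rw [cell_inr]

open Classical in
theorem wbG_tail {p : ι → ℕ} (hp : ∀ i, 2 ≤ p i) {A : (ι → Option α) → ℝ} {yH : Finset ι → ℝ}
    (hH0 : yH ∅ = 1) (hHn : ∀ S, 0 ≤ yH S) (hHm : ∀ S T : Finset ι, T ⊆ S → yH S ≤ yH T)
    {DR T1 T : ℝ} (hA : ∀ τ, A τ ≠ 0 → PP p (supp τ) ≤ DR)
    (hT1 : 0 ≤ T1) (hT : 1 < T) (hs : ∀ S, yH S ≠ 0 → PP p S ≤ T1)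
    (hN2 : ∀ S : Finset ι, PP p S ≤ DR * T1 ^ Fintype.card β →
      ∑ i ∈ S, 1 / ((p i : ℝ) - 1) ≤ 1 / 2)
    (hE : 4 * (Fintype.card β : ℝ) * SE p yH ≤ SX p yH * Real.log T) (m : β) :
    ∑ σ ∈ (univ : Finset (ι → Option (α ⊕ β))).filter
        (fun σ => cell σ (Sum.inr m) = ∅ ∧ T < PP p (supp (rp σ))), wbG p A yH σ ≤
      1 / 2 * ∑ σ ∈ (univ : Finset (ι → Option (α ⊕ β))).filter
        (fun σ => cell σ (Sum.inr m) = ∅), wbG p A yH σ := by
  have hlT : 0 < Real.log T := Real.log_pos hT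
  have hSX := SX_pos hp yH hH0
  have hSE := SE_nonneg hp yH
  set Y := ∑ σ ∈ (univ : Finset (ι → Option (α ⊕ β))).filter
        (fun σ => cell σ (Sum.inr m) = ∅), wbG p A yH σ with hY
  have hY0 : 0 ≤ Y := Finset.sum_nonneg fun σ _ => wbG_nonneg hp A yH σ
  set t : β → ℝ := fun m' => ∑ σ ∈ (univ : Finset (ι → Option (α ⊕ β))).filter
    (fun σ => cell σ (Sum.inr m) = ∅),
      wbG p A yH σ * Real.log (PP p (cell σ (Sum.inr m'))) with ht
  have h1 : ∀ m' : β, SX p yH * t m' ≤ 2 * SE p yH * Y := by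
    intro m'
    by_cases hm : m' = m
    · have h0 : t m' = 0 := by
        rw [ht]
        refine Finset.sum_eq_zero fun σ hσ => ?_
        rw [Finset.mem_filter] at hσ
        rw [hm, hσ.2, PP_empty, Real.log_one, mul_zero]
      rw [h0, mul_zero]
      positivity
    · have h2 := wbG_log hp A yH hH0 hm (α := α)
      have h3 := wbG_low hp A yH hH0 hHn hHm hA hT1 hs hN2 hm (α := α)
      have h4 : t m' ≤ SE p yH * ∑ σ ∈ (univ : Finset (ι → Option (α ⊕ β))).filter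
        (fun σ => cell σ (Sum.inr m) = ∅ ∧ cell σ (Sum.inr m') = ∅), wbG p A yH σ := h2
      have h5 := mul_le_mul_of_nonneg_left h4 hSX.le
      have h6 := mul_le_mul_of_nonneg_left h3 hSE
      linarith
  have h2 : SX p yH * ∑ m' : β, t m' ≤ (Fintype.card β : ℝ) * (2 * SE p yH * Y) := by
    rw [Finset.mul_sum]
    calc ∑ m' : β, SX p yH * t m' ≤ ∑ _m' : β, 2 * SE p yH * Y :=
          Finset.sum_le_sum fun m' _ => h1 m'
      _ = (Fintype.card β : ℝ) * (2 * SE p yH * Y) := by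
          rw [Finset.sum_const, Finset.card_univ, nsmul_eq_mul]
  have h3 : ∑ m' : β, t m' ≤ 1 / 2 * (Real.log T * Y) := by
    have h4 := mul_le_mul_of_nonneg_right hE hY0
    have h5 : SX p yH * ∑ m' : β, t m' ≤ SX p yH * (1 / 2 * (Real.log T * Y)) := by
      linarith
    exact le_of_mul_le_mul_left h5 hSX
  have h4 : Real.log T * ∑ σ ∈ (univ : Finset (ι → Option (α ⊕ β))).filter
        (fun σ => cell σ (Sum.inr m) = ∅ ∧ T < PP p (supp (rp σ))), wbG p A yH σ ≤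
      ∑ m' : β, t m' := by
    have h5 : ∑ m' : β, t m' = ∑ σ ∈ (univ : Finset (ι → Option (α ⊕ β))).filter
        (fun σ => cell σ (Sum.inr m) = ∅),
          wbG p A yH σ * Real.log (PP p (supp (rp σ))) := by
      rw [ht, Finset.sum_comm]
      refine Finset.sum_congr rfl fun σ _ => ?_
      rw [log_supp hp, Finset.mul_sum]
    rw [h5, Finset.mul_sum, Finset.sum_filter, Finset.sum_filter]
    refine Finset.sum_le_sum fun σ _ => ?_
    by_cases h : cell σ (Sum.inr m) = ∅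
    · rw [if_pos h]
      by_cases h' : T < PP p (supp (rp σ))
      · rw [if_pos ⟨h, h'⟩, mul_comm]
        exact mul_le_mul_of_nonneg_left (Real.log_le_log (by linarith) h'.le)
          (wbG_nonneg hp A yH σ)
      · rw [if_neg (fun hh => h' hh.2)]
        exact mul_nonneg (wbG_nonneg hp A yH σ) (log_PP_nonneg hp _)
    · rw [if_neg (fun hh => h hh.1), if_neg h]
  have h5 := h4.trans h3
  have h6 : Real.log T * ∑ σ ∈ (univ : Finset (ι → Option (α ⊕ β))).filter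
        (fun σ => cell σ (Sum.inr m) = ∅ ∧ T < PP p (supp (rp σ))), wbG p A yH σ ≤
      Real.log T * (1 / 2 * Y) := by linarith
  exact le_of_mul_le_mul_left h6 hlT

end Pool.Agent.ISO
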