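import Pool.Agent.ISO.CDefs
import Pool.Agent.IPT.ScaleX
import Pool.Agent.IPT.PRemX
import Pool.Agent.AT.Av

/-!
ISO/ModX.  The modulus: for all large `P` a modulus `Mod w R` with the right number of primes in all classes.
-/

set_option autoImplicit false

namespace Pool.Agent.ISO

open Finset Pool.Agent.REC Pool.Agent.IPT Pool.Agent.AT

private theorem cheb_of : ∃ c : ℝ, 0 < c ∧ ∀ᶠ P : ℕ in Filter.atTop,
    c * P ≤ ∑ m ∈ Ioc P (4 * P), ArithmeticFunction.vonMangoldt m := by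
  obtain ⟨c, hc, P0, h⟩ := theta_int
  refine ⟨c, hc, ?_⟩
  filter_upwards [Filter.eventually_ge_atTop P0] with P hP
  refine (h P hP).trans ?_
  have h1 : ∑ q ∈ (Ioc P (4 * P)).filter Nat.Prime, Real.log q =
      ∑ q ∈ (Ioc P (4 * P)).filter Nat.Prime, ArithmeticFunction.vonMangoldt q := by
    refine sum_congr rfl fun q hq => ?_
    rw [ArithmeticFunction.vonMangoldt_apply_prime (mem_filter.1 hq).2]
  rw [h1]
  exact sum_le_sum_of_subset_of_nonneg (filter_subset _ _)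
    fun _ _ _ => ArithmeticFunction.vonMangoldt_nonneg

/-- lower bound for the primes in the classes -/
private theorem num_psi {cθ P M φ lw lam ψ : ℝ} (hc : 0 < cθ) (hP : 0 ≤ P) (hM : 0 < M)
    (hφ0 : 0 < φ) (hlw : 0 < lw) (hφ : φ ≤ 8 * M / lw) (hlam : lam ≤ 2 * lw)
    (hψ : cθ / 2 * P / φ ≤ ψ) : cθ / 32 * (P / M) * lam ≤ ψ := by
  refine le_trans ?_ hψ
  have h1 : cθ / 2 * P / (8 * M / lw) ≤ cθ / 2 * P / φ :=
    div_le_div_of_nonneg_left (by positivity) hφ0 hφ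
  refine le_trans ?_ h1
  have h2 : cθ / 2 * P / (8 * M / lw) = cθ / 32 * (P / M) * (2 * lw) := by
    field_simp
    ring
  rw [h2]
  exact mul_le_mul_of_nonneg_left hlam (by positivity)

/-- totient bound with one omitted prime -/
private theorem totX {w : ℕ} (hw : 2 ≤ w) {R : Finset ℕ} (hR : R ⊆ prs w) {p1 : ℕ}
    (hp1 : p1.Prime) (h : ∑ p ∈ R.erase p1, 1 / (p : ℝ) ≤ 1 / 2)
    (hlw : (0 : ℝ) < (Nat.log 2 w : ℝ)) :
    (Nat.totient (Mod w R) : ℝ) ≤ 8 * (Mod w R : ℝ) / (Nat.log 2 w : ℝ) := by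
  have hsub : R.erase p1 ⊆ prs w := (erase_subset _ _).trans hR
  have h1 := Mod_totient hw hsub h
  have hM0 : (0 : ℝ) < Mod w R := by exact_mod_cast Mod_pos w R
  by_cases hmem : p1 ∈ R
  · have h2 : prs w \ R.erase p1 = insert p1 (prs w \ R) := by
      ext q
      simp only [mem_sdiff, mem_erase, mem_insert]
      constructor
      · rintro ⟨a1, a2⟩
        by_cases hq : q = p1
        · exact Or.inl hq
        · exact Or.inr ⟨a1, fun hqR => a2 ⟨hq, hqR⟩⟩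
      · rintro (a1 | ⟨a1, a2⟩)
        · subst a1
          exact ⟨hR hmem, fun a2 => a2.1 rfl⟩
        · exact ⟨a1, fun a3 => a2 a3.2⟩
    have h3 : Mod w (R.erase p1) = p1 * Mod w R := by
      unfold Pool.Agent.REC.Mod
      rw [h2, prod_insert]
      exact fun a => (mem_sdiff.1 a).2 hmem
    have hcop : Nat.Coprime p1 (Mod w R) := by
      rw [hp1.coprime_iff_not_dvd, prime_dvd_Mod hp1]
      exact fun a => a.2 hmem
    rw [h3, Nat.totient_mul hcop, Nat.totient_prime hp1, Nat.cast_mul,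
      Nat.cast_sub hp1.one_lt.le, Nat.cast_mul, Nat.cast_one, le_div_iff₀ hlw] at h1
    rw [le_div_iff₀ hlw]
    have hp2 : (2 : ℝ) ≤ p1 := by exact_mod_cast hp1.two_le
    obtain ⟨x, hx⟩ : ∃ x : ℝ, x = (Nat.totient (Mod w R) : ℝ) * (Nat.log 2 w : ℝ) := ⟨_, rfl⟩
    have hx0 : 0 ≤ x := by
      rw [hx]
      positivity
    have h4 : ((p1 : ℝ) - 1) * x ≤ 4 * (p1 * (Mod w R : ℝ)) := by
      rw [hx, ← mul_assoc]
      exact h1
    rw [← hx]
    have h5 : (p1 : ℝ) / 2 * x ≤ ((p1 : ℝ) - 1) * x := mul_le_mul_of_nonneg_right (by linarith) hx0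
    have h6 : (p1 : ℝ) / 2 * x ≤ (p1 : ℝ) / 2 * (8 * (Mod w R : ℝ)) := by
      refine (h5.trans h4).trans (le_of_eq ?_)
      ring
    exact le_of_mul_le_mul_left h6 (by linarith)
  · rw [erase_eq_of_notMem hmem] at h1
    refine h1.trans ?_
    gcongr
    norm_num

private theorem ev_facts : ∀ᶠ P : ℕ in Filter.atTop, 20000000 ≤ Real.log P ∧
    2 ≤ Real.log (Real.log P) := by
  have h1 : Filter.Tendsto (fun P : ℕ => Real.log (P : ℝ)) Filter.atTop Filter.atTop :=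
    Real.tendsto_log_atTop.comp tendsto_natCast_atTop_atTop
  have h2 := Real.tendsto_log_atTop.comp h1
  filter_upwards [h1.eventually_ge_atTop 20000000, h2.eventually_ge_atTop 2] with P e1 e2
  exact ⟨e1, e2⟩

theorem mod_X : ∃ κ0 : ℝ, 0 < κ0 ∧ ∃ P0 : ℕ, ∀ P : ℕ, P0 ≤ P → ∀ L : ℕ, L = Nat.log 2 P →
    ∃ (w : ℕ) (R : Finset ℕ), 2 ≤ w ∧ w ≤ L ∧ Nat.log 2 L ≤ 2 * Nat.log 2 w ∧ R ⊆ prs w ∧
      ((Mod w R : ℕ) : ℝ) ≤ (P : ℝ) ^ (1 / 1000 : ℝ) ∧
      ((Mod w R).totient : ℝ) ≤ 8 * (Mod w R : ℝ) / (Nat.log 2 w : ℝ) ∧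
      ∀ r : ℕ, r.Coprime (Mod w R) →
        κ0 * ((P : ℝ) / (Mod w R : ℝ)) * (Nat.log 2 L : ℝ) ≤ psi (Mod w R) r P := by
  obtain ⟨cθ, hcθ, hcheb⟩ := cheb_of
  obtain ⟨Pa, hprem⟩ := primes_removedX hcθ hcheb
  obtain ⟨Pb, hgood⟩ := goodX_all
  obtain ⟨Pc, hPc⟩ := Filter.eventually_atTop.1 ev_facts
  refine ⟨cθ / 32, by positivity, max Pa (max Pb Pc), ?_⟩
  intro P hP L hL
  have hPa : Pa ≤ P := (le_max_left _ _).trans hP
  have hPb : Pb ≤ P := (le_max_left _ _).trans ((le_max_right _ _).trans hP)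
  have hPc' : Pc ≤ P := (le_max_right _ _).trans ((le_max_right _ _).trans hP)
  obtain ⟨hX, hl⟩ := hPc P hPc'
  obtain ⟨p1, hp1, hG⟩ := hgood P hPb
  obtain ⟨X, hXd⟩ : ∃ X : ℝ, X = Real.log P := ⟨_, rfl⟩
  rw [← hXd] at hX hl
  have hP0 : P ≠ 0 := by
    rintro rfl
    rw [hXd] at hX
    norm_num at hX
  have hPr : (0 : ℝ) < P := by exact_mod_cast Nat.pos_of_ne_zero hP0
  obtain ⟨w, hw⟩ : ∃ w : ℕ, w = ⌊X / 2000⌋₊ := ⟨_, rfl⟩
  have hX0 : 0 < X := by linarith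
  have hw1 : (w : ℝ) ≤ X / 2000 := by
    rw [hw]
    exact Nat.floor_le (by positivity)
  have hw2 : X / 2000 < (w : ℝ) + 1 := by
    rw [hw]
    exact Nat.lt_floor_add_one _
  have hlog2 : Real.log 2 < 1 := by
    have := Real.log_two_lt_d9
    linarith
  have hlog2' : (1 : ℝ) / 2 < Real.log 2 := by
    have := Real.log_two_gt_d9
    linarith
  have hPL : 2 ^ L ≤ P := by
    rw [hL]
    exact Nat.pow_log_le_self 2 hP0
  have hPL2 : P < 2 ^ (L + 1) := by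
    rw [hL]
    exact Nat.lt_pow_succ_log_self (by norm_num) P
  have hL1 : (L : ℝ) * Real.log 2 ≤ X := by
    rw [hXd, ← Real.log_pow]
    refine Real.log_le_log (by positivity) ?_
    exact_mod_cast hPL
  have hL2 : X ≤ ((L : ℝ) + 1) * Real.log 2 := by
    have h : X ≤ Real.log ((2 : ℝ) ^ (L + 1)) := by
      rw [hXd]
      refine Real.log_le_log hPr ?_
      exact_mod_cast hPL2.le
    rw [Real.log_pow] at h
    push_cast at h
    exact h
  have hL0 : (0 : ℝ) ≤ L := Nat.cast_nonneg _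
  have hL3 : X ≤ (L : ℝ) + 1 := by nlinarith
  have hL4 : (L : ℝ) ≤ 2 * X := by nlinarith
  have hwbig : (8192 : ℝ) ≤ (w : ℝ) := by linarith
  have hwb : 8192 ≤ w := by exact_mod_cast hwbig
  have hwL : w ≤ L := by
    have : (w : ℝ) ≤ L := by linarith
    exact_mod_cast this
  have hLw : L ≤ 2 ^ 13 * w := by
    have : (L : ℝ) ≤ 2 ^ 13 * w := by linarith
    exact_mod_cast this
  have hlogw : 13 ≤ Nat.log 2 w := Nat.le_log_of_pow_le (by norm_num) (by omega)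
  have hlogL : Nat.log 2 L ≤ 2 * Nat.log 2 w := by
    have h1 : Nat.log 2 L ≤ Nat.log 2 (2 ^ 13 * w) := Nat.log_mono_right hLw
    have h2 : Nat.log 2 (2 ^ 13 * w) < Nat.log 2 w + 14 := by
      refine Nat.log_lt_of_lt_pow (by positivity) ?_
      have h3 := Nat.lt_pow_succ_log_self (b := 2) (by norm_num) w
      calc 2 ^ 13 * w < 2 ^ 13 * 2 ^ (Nat.log 2 w + 1) := by
            exact Nat.mul_lt_mul_of_pos_left h3 (by positivity)
        _ = 2 ^ (Nat.log 2 w + 14) := by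
            rw [← pow_add]
            congr 1
            ring
    omega
  obtain ⟨R, hRw, -, hRs, hpsi⟩ := hprem P hPa p1 hp1 hG (Real.log X) (by rw [hXd]) w
    (by rw [← hXd]; linarith)
  have hl4 : (2 : ℝ) ≤ Real.log X ^ 4 := by
    have h1 : (2 : ℝ) ^ 4 ≤ Real.log X ^ 4 := pow_le_pow_left₀ (by norm_num) hl 4
    linarith
  have hRs2 : ∑ p ∈ R.erase p1, 1 / (p : ℝ) ≤ 1 / 2 :=
    hRs.trans (one_div_le_one_div_of_le (by norm_num) hl4)
  have hlw : (0 : ℝ) < (Nat.log 2 w : ℝ) := by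
    have : 0 < Nat.log 2 w := by omega
    exact_mod_cast this
  have hMtot := totX (by omega) hRw hp1 hRs2 hlw
  have hMpos := Mod_pos w R
  have hMr : (0 : ℝ) < (Mod w R : ℝ) := by exact_mod_cast hMpos
  have hφ0 : (0 : ℝ) < ((Mod w R).totient : ℝ) := by exact_mod_cast Nat.totient_pos.2 hMpos
  refine ⟨w, R, by omega, hwL, hlogL, hRw, ?_, hMtot, fun r hr => ?_⟩
  · refine (Mod_le w R).trans ?_
    have h4 : (4 : ℝ) ^ w = Real.exp ((w : ℝ) * Real.log 4) := by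
      rw [Real.exp_nat_mul, Real.exp_log (by norm_num)]
    have h5 : (P : ℝ) ^ (1 / 1000 : ℝ) = Real.exp (X * (1 / 1000)) := by
      rw [Real.rpow_def_of_pos hPr, hXd]
    rw [h4, h5]
    refine Real.exp_le_exp.2 ?_
    have h6 : Real.log 4 = 2 * Real.log 2 := by
      have : (4 : ℝ) = 2 ^ 2 := by norm_num
      rw [this, Real.log_pow]
      norm_num
    rw [h6]
    have hw0 : (0 : ℝ) ≤ w := Nat.cast_nonneg _
    nlinarith
  · refine num_psi hcθ hPr.le hMr hφ0 hlw hMtot ?_ (hpsi r hr)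
    exact_mod_cast hlogL

end Pool.Agent.ISO
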