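import Pool.Agent.ISO.QuadF
import Pool.Agent.VOID.Off
import Pool.Agent.VOID.MomU

/-!
ISO/MomF.  Upper bound of the mean of `PT S0 * PT S1 * GP ^ 2` (`S1 ⊆ S0`, `S1` disjoint from the sets `τ σ`).
-/

set_option autoImplicit false

open Finset Pool.Agent.RS Pool.Agent.VOID

namespace Pool.Agent.ISO

variable {ι κ : Type} [Fintype ι] [DecidableEq ι] [DecidableEq κ] [Fintype κ]

omit [Fintype ι] [DecidableEq ι] [Fintype κ] in
private theorem momf_ext {T U : Finset κ} (hT : T ⊆ U) (f : κ → ℝ) :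
    ∏ j ∈ T, f j = ∏ j ∈ U, f j ^ (if j ∈ T then 1 else 0) := by
  rw [← Finset.prod_subset hT (fun j _ hj => by rw [if_neg hj, pow_zero])]
  refine Finset.prod_congr rfl fun j hj => ?_
  rw [if_pos hj, pow_one]

omit [Fintype ι] [DecidableEq ι] in
private theorem momf_anti {Q1 : ℕ} {a : κ → ℤ} {ψ : ℤ → ℝ} {Wψ : ℝ} {Pi : ℕ → ℝ} {V1 : ℝ}
    {K : ℕ} (hs : SS Q1 ψ Wψ Pi V1 K a) : Antitone Pi := by
  refine antitone_nat_of_succ_le fun r => ?_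
  calc Pi (r + 1) ≤ V1 * Pi r := hs.pi_step r
    _ ≤ 1 * Pi r := mul_le_mul_of_nonneg_right hs.V1_le_one (hs.pi_nonneg r)
    _ = Pi r := one_mul _

omit [Fintype ι] [DecidableEq ι] in
private theorem momf_pt {Q1 : ℕ} {a : κ → ℤ} {ψ : ℤ → ℝ} {Wψ : ℝ} {Pi : ℕ → ℝ} {V1 : ℝ}
    {K : ℕ} (hs : SS Q1 ψ Wψ Pi V1 K a) (T : Finset κ) (n : ℤ) : 0 ≤ PT ψ a T n :=
  Finset.prod_nonneg fun _ _ => hs.nonneg _

omit [Fintype ι] [DecidableEq ι] in
private theorem momf_up {Q1 : ℕ} {a : κ → ℤ} {ψ : ℤ → ℝ} {Wψ : ℝ} {Pi : ℕ → ℝ} {V1 : ℝ}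
    {K : ℕ} (hs : SS Q1 ψ Wψ Pi V1 K a) (S0 S1 T T' : Finset κ) (hS1 : S1 ⊆ S0)
    (hT : Disjoint S1 T) (hT' : Disjoint S1 T') (hK : (S0 ∪ (T ∪ T')).card ≤ K) :
    mean Q1 (fun n => PT ψ a S0 n * PT ψ a S1 n * (PT ψ a T n * PT ψ a T' n)) ≤
      2 * Pi (S0 ∪ (T ∪ T')).card := by
  obtain ⟨U, hUdef⟩ : ∃ U, U = S0 ∪ (T ∪ T') := ⟨_, rfl⟩
  rw [← hUdef] at hK ⊢
  have h0 : S0 ⊆ U := by
    rw [hUdef]
    exact Finset.subset_union_left
  have h1 : S1 ⊆ U := hS1.trans h0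
  have h2 : T ⊆ U := by
    rw [hUdef]
    exact Finset.subset_union_left.trans Finset.subset_union_right
  have h3 : T' ⊆ U := by
    rw [hUdef]
    exact Finset.subset_union_right.trans Finset.subset_union_right
  have h4 := hs.up U (fun j => ((if j ∈ S0 then 1 else 0) + (if j ∈ S1 then 1 else 0)) +
    ((if j ∈ T then 1 else 0) + (if j ∈ T' then 1 else 0))) hK (by
      intro j hj
      rw [hUdef, Finset.mem_union, Finset.mem_union] at hj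
      by_cases hj1 : j ∈ S1
      · have a1 : j ∈ S0 := hS1 hj1
        have a2 : j ∉ T := Finset.disjoint_left.1 hT hj1
        have a3 : j ∉ T' := Finset.disjoint_left.1 hT' hj1
        rw [if_pos hj1, if_pos a1, if_neg a2, if_neg a3]
        omega
      · rw [if_neg hj1]
        split_ifs with a1 a2 a3 a3 a2 a3 <;> first | omega | (exfalso; tauto))
  have h5 : (fun n => PT ψ a S0 n * PT ψ a S1 n * (PT ψ a T n * PT ψ a T' n)) = fun n =>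
      ∏ j ∈ U, ψ (n - a j) ^ (((if j ∈ S0 then 1 else 0) + (if j ∈ S1 then 1 else 0)) +
        ((if j ∈ T then 1 else 0) + (if j ∈ T' then 1 else 0))) := by
    funext n
    unfold PT
    rw [momf_ext h0 (fun j => ψ (n - a j)), momf_ext h1 (fun j => ψ (n - a j)),
      momf_ext h2 (fun j => ψ (n - a j)), momf_ext h3 (fun j => ψ (n - a j)),
      ← Finset.prod_mul_distrib, ← Finset.prod_mul_distrib, ← Finset.prod_mul_distrib]
    refine Finset.prod_congr rfl fun j _ => ?_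
    rw [pow_add, pow_add, pow_add]
  rw [h5]
  exact h4

theorem momF {p : ι → ℕ} {Q1 : ℕ} {a : κ → ℤ} {z : ℝ} (h : Hy p Q1 a z) {ψ : ℤ → ℝ} {Wψ : ℝ}
    {Pi : ℕ → ℝ} {V1 : ℝ} {K : ℕ} (hs : SS Q1 ψ Wψ Pi V1 K a) (S0 S1 : Finset κ)
    (hS1 : S1 ⊆ S0) (τ : (ι → Option κ) → Finset κ) (Z : (ι → Option κ) → ℝ)
    (hZ1 : ∀ σ, |Z σ| ≤ 1) (hd1 : ∀ σ, Z σ ≠ 0 → Disjoint S1 (τ σ)) {Nt N' : ℕ}
    (hT : ∀ σ, Z σ ≠ 0 → (τ σ).card ≤ Nt) (hN : ∀ σ, Z σ ≠ 0 → (supp σ).card ≤ N')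
    (hK : S0.card + 2 * Nt ≤ K) :
    mean (Q1 * ∏ i, p i) (fun n => PT ψ a S0 n * PT ψ a S1 n * GP p a ψ τ Z n ^ 2) ≤
      (∑ σ, Z σ ^ 2 / PH p (supp σ) * (2 * Pi (S0 ∪ τ σ).card)) +
        2 * Pi S0.card * offB κ p N' z := by
  have hPH : ∀ σ : ι → Option κ, 0 < PH p (supp σ) := fun σ =>
    lt_of_lt_of_le one_pos (one_le_PH h.two _)
  have hF0 : Per Q1 (fun n => PT ψ a S0 n * PT ψ a S1 n) := by
    intro n
    show PT ψ a S0 (n + (Q1 : ℤ)) * PT ψ a S1 (n + (Q1 : ℤ)) = PT ψ a S0 n * PT ψ a S1 n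
    rw [per_PT hs.per S0 n, per_PT hs.per S1 n]
  have hcard : ∀ σ σ', Z σ ≠ 0 → Z σ' ≠ 0 → (S0 ∪ (τ σ ∪ τ σ')).card ≤ K := by
    intro σ σ' h1 h2
    have h3 := Finset.card_union_le S0 (τ σ ∪ τ σ')
    have h4 := Finset.card_union_le (τ σ) (τ σ')
    have h5 := hT σ h1
    have h6 := hT σ' h2
    omega
  have hq := quadF h.two h.cop h.Q1pos h.copQ h.sep hs.per hF0 τ Z (U := 2 * Pi S0.card)
    (mul_nonneg (by norm_num) (hs.pi_nonneg _)) (fun σ σ' h1 h2 => by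
      rw [abs_of_nonneg (mean_nonneg fun n => mul_nonneg (mul_nonneg (momf_pt hs _ n)
        (momf_pt hs _ n)) (mul_nonneg (momf_pt hs _ n) (momf_pt hs _ n)))]
      refine (momf_up hs S0 S1 (τ σ) (τ σ') hS1 (hd1 σ h1) (hd1 σ' h2)
        (hcard σ σ' h1 h2)).trans ?_
      have h3 := momf_anti hs (Finset.card_le_card
        (Finset.subset_union_left (s₁ := S0) (s₂ := τ σ ∪ τ σ')))
      linarith)
  have hoff := off h.two h.zpos h.zle Z hZ1 hN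
  have h1 := (abs_le.1 hq).2
  have h2 : ∑ σ, Z σ ^ 2 / PH p (supp σ) *
      mean Q1 (fun n => PT ψ a S0 n * PT ψ a S1 n * PT ψ a (τ σ) n ^ 2) ≤
      ∑ σ, Z σ ^ 2 / PH p (supp σ) * (2 * Pi (S0 ∪ τ σ).card) := by
    refine Finset.sum_le_sum fun σ _ => ?_
    by_cases h0 : Z σ = 0
    · rw [h0]
      simp
    · refine mul_le_mul_of_nonneg_left ?_ (div_nonneg (sq_nonneg _) (hPH σ).le)
      have h3 := momf_up hs S0 S1 (τ σ) (τ σ) hS1 (hd1 σ h0) (hd1 σ h0) (hcard σ σ h0 h0)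
      rw [Finset.union_self] at h3
      simpa only [pow_two] using h3
  have h3 : 2 * Pi S0.card * offs p Z ≤ 2 * Pi S0.card * offB κ p N' z :=
    mul_le_mul_of_nonneg_left hoff (mul_nonneg (by norm_num) (hs.pi_nonneg _))
  linarith

end Pool.Agent.ISO
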