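import Pool.Agent.ISO.Defs
import Pool.Agent.AV.PyF
import Pool.Agent.RS.Tot
import Pool.Agent.Helper52.PrimeSums

/-!
ISO/NVb.  The mass `NV L m1 t` of all products `≤ 2 ^ t` of the primes in `(2^m1, 2^dd L]`.
-/

set_option autoImplicit false

open Finset Pool.Agent.RS Pool.Agent.AT Pool.Agent.VOID Pool.Agent.AV

namespace Pool.Agent.ISO

/-- transfer of the sum -/
private theorem nvb_eq {L m1 : ℕ} (t : ℕ) :
    (open Classical in ∑ S ∈ (prz (2 ^ dd L) \ EB L m1 (dd L) ∅).powerset.filter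
      (fun S : Finset ℕ => (∏ q ∈ S, (q : ℝ)) ≤ 2 ^ t), 1 / ∏ q ∈ S, ((q : ℝ) - 1)) = NV L m1 t := by
  classical
  unfold NV
  symm
  refine Finset.sum_nbij' (fun S => S.map (Function.Embedding.subtype _))
    (fun S => S.subtype _) ?_ ?_ ?_ ?_ ?_
  · intro S hS
    rw [Finset.mem_filter] at hS
    rw [Finset.mem_filter, Finset.mem_powerset]
    constructor
    · intro q hq
      rw [Finset.mem_map] at hq
      obtain ⟨a, ha, rfl⟩ := hq
      exact a.2
    · rw [Finset.prod_map]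
      exact hS.2
  · intro S hS
    rw [Finset.mem_filter, Finset.mem_powerset] at hS
    rw [Finset.mem_filter]
    have h4 : (S.subtype (· ∈ prz (2 ^ dd L) \ EB L m1 (dd L) ∅)).map
        (Function.Embedding.subtype _) = S := by
      rw [Finset.subtype_map]
      exact Finset.filter_true_of_mem fun x hx => hS.1 hx
    have h5 : PP (py L m1) (S.subtype (· ∈ prz (2 ^ dd L) \ EB L m1 (dd L) ∅)) =
        ∏ q ∈ S, (q : ℝ) := by
      conv_rhs => rw [← h4]
      rw [Finset.prod_map]; rfl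
    exact ⟨Finset.mem_univ _, by rw [h5]; exact hS.2⟩
  · intro S _
    exact Finset.map_injective (Function.Embedding.subtype _) (by
      rw [Finset.subtype_map]
      refine Finset.filter_true_of_mem fun x hx => ?_
      rw [Finset.mem_map] at hx
      obtain ⟨a, _, rfl⟩ := hx
      exact a.2)
  · intro S hS
    rw [Finset.mem_filter, Finset.mem_powerset] at hS
    rw [Finset.subtype_map]
    exact Finset.filter_true_of_mem fun x hx => hS.1 hx
  · intro S _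
    rw [Finset.prod_map]; rfl

theorem nv_low : ∃ c : ℝ, 0 < c ∧ ∃ L0 : ℕ, ∀ L m1 t : ℕ, L0 ≤ L → 1 ≤ m1 → L ^ 6 ≤ 2 ^ m1 →
    m1 ≤ t → t ≤ dd L → c * (t : ℝ) / m1 ≤ NV L m1 t := by
  classical
  have hlog2 : 0 < Real.log 2 := Real.log_pos (by norm_num)
  refine ⟨Real.exp (-9) * Real.log 2 / 2, by positivity, 4, ?_⟩
  intro L m1 t hL hm hLm hmt ht
  have hmr : (0 : ℝ) < m1 := by exact_mod_cast hm
  have hmd : m1 ≤ dd L := hmt.trans ht
  have h1 := tot2 (z := 2 ^ dd L) (y := 2 ^ t) (one_le_pow₀ (by norm_num))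
    (by push_cast; exact pow_le_pow_right₀ (by norm_num) ht) (eb_sub (L := L) hmd ∅)
  have e1 : (∑ S ∈ (prz (2 ^ dd L) \ EB L m1 (dd L) ∅).powerset.filter
      (fun S : Finset ℕ => (∏ q ∈ S, (q : ℝ)) ≤ 2 ^ t), 1 / ∏ q ∈ S, ((q : ℝ) - 1)) = NV L m1 t := by
    rw [← nvb_eq t]
  rw [e1] at h1
  refine le_trans ?_ h1
  rw [Real.log_pow]
  have h2 := eb_low (L := L) (m1 := m1) (s := dd L) hL hm hmd hLm (B := ∅) (by simp) (by simp)
  calc Real.exp (-9) * Real.log 2 / 2 * (t : ℝ) / (m1 : ℝ)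
      = Real.exp (-9) / (2 * (m1 : ℝ)) * ((t : ℝ) * Real.log 2) := by
        field_simp
    _ ≤ (∏ q ∈ EB L m1 (dd L) ∅, (1 - 1 / (q : ℝ))) * ((t : ℝ) * Real.log 2) :=
        mul_le_mul_of_nonneg_right h2 (by positivity)

private theorem nvb_two {L m1 : ℕ} (i : Iy L m1) : (2 : ℝ) ≤ py L m1 i := by
  exact_mod_cast (big_mem i.2).1.two_le

private theorem nvb_le_PP {L m1 : ℕ} {S : Finset (Iy L m1)} {i : Iy L m1} (hi : i ∈ S) :
    (py L m1 i : ℝ) ≤ PP (py L m1) S := by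
  unfold PP
  rw [← Finset.mul_prod_erase S _ hi]
  have h1 : (1 : ℝ) ≤ ∏ j ∈ S.erase i, (py L m1 j : ℝ) := by
    have h2 := Finset.prod_le_prod (s := S.erase i) (f := fun _ => (1 : ℝ))
      (g := fun j => (py L m1 j : ℝ)) (fun _ _ => zero_le_one) (fun j _ => by
        have := nvb_two j
        linarith)
    rwa [Finset.prod_const_one] at h2
  have h3 := nvb_two i
  nlinarith

private theorem nvb_split {a b : ℕ} (hab : a ≤ b) :
    ∏ q ∈ Helper52.pr 0 (2 ^ b), (1 - 1 / (q : ℝ)) =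
      (∏ q ∈ Helper52.pr 0 (2 ^ a), (1 - 1 / (q : ℝ))) *
        ∏ q ∈ Helper52.pr (2 ^ a) (2 ^ b), (1 - 1 / (q : ℝ)) := by
  have hpw : 2 ^ a ≤ 2 ^ b := Nat.pow_le_pow_right (by norm_num) hab
  rw [← Finset.prod_union]
  · apply Finset.prod_congr _ (fun _ _ => rfl)
    ext q
    rw [mem_union, Helper52.mem_pr, Helper52.mem_pr, Helper52.mem_pr]
    have h2 : 0 < 2 ^ a := by positivity
    constructor
    · rintro ⟨x, y, z⟩
      by_cases h : q ≤ 2 ^ a
      · left; exact ⟨x, h, z⟩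
      · right; exact ⟨by omega, y, z⟩
    · rintro (⟨x, y, z⟩ | ⟨x, y, z⟩)
      · exact ⟨x, by omega, z⟩
      · exact ⟨by omega, y, z⟩
  · rw [Finset.disjoint_left]
    intro q h1 h2
    rw [Helper52.mem_pr] at h1 h2
    omega

/-- the product of `1 + 1/(q-1)` over the primes between `2 ^ a` and `2 ^ b` -/
private theorem nvb_up {a b : ℕ} (ha : 1 ≤ a) (hab : a ≤ b) :
    ∏ q ∈ Helper52.pr (2 ^ a) (2 ^ b), (1 + 1 / ((q : ℝ) - 1)) ≤
      Real.exp 9 / Real.log 2 * b / a := by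
  have hl2 : 0 < Real.log 2 := Real.log_pos (by norm_num)
  have har : (0:ℝ) < a := by exact_mod_cast ha
  have hbr : (0:ℝ) < b := by exact_mod_cast (by omega : 0 < b)
  have h1 := nvb_split hab
  have h2 := Helper52.prod_upper ha
  have h3 := Helper52.prod_lower (a := b) (by omega)
  set A := ∏ q ∈ Helper52.pr 0 (2 ^ a), (1 - 1 / (q : ℝ)) with hA
  set B := ∏ q ∈ Helper52.pr 0 (2 ^ b), (1 - 1 / (q : ℝ)) with hB
  set M := ∏ q ∈ Helper52.pr (2 ^ a) (2 ^ b), (1 - 1 / (q : ℝ)) with hM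
  have hMpos : 0 < M := by
    apply Finset.prod_pos
    intro q hq
    rw [Helper52.mem_pr] at hq
    have hq2 : (2:ℝ) ≤ q := by exact_mod_cast hq.2.2.two_le
    have : 1 / (q:ℝ) < 1 := by rw [div_lt_one (by linarith)]; linarith
    linarith
  have hX : ∏ q ∈ Helper52.pr (2 ^ a) (2 ^ b), (1 + 1 / ((q : ℝ) - 1)) = M⁻¹ := by
    rw [hM, ← Finset.prod_inv_distrib]
    apply Finset.prod_congr rfl
    intro q hq
    rw [Helper52.mem_pr] at hq
    have hq2 : (2:ℝ) ≤ q := by exact_mod_cast hq.2.2.two_le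
    have h5 : (q : ℝ) - 1 ≠ 0 := by linarith
    have h6 : (q : ℝ) ≠ 0 := by linarith
    have h7 : 1 - 1 / (q : ℝ) = ((q : ℝ) - 1) / q := by field_simp
    rw [h7, inv_div]
    field_simp
    ring
  rw [hX]
  have h4 : Real.exp (-9) / b ≤ 1 / (a * Real.log 2) * M := by
    calc Real.exp (-9) / b ≤ B := h3
      _ = A * M := h1
      _ ≤ 1 / (a * Real.log 2) * M := mul_le_mul_of_nonneg_right h2 hMpos.le
  have h5 : Real.exp (-9) * Real.exp 9 = 1 := by rw [← Real.exp_add]; norm_num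
  rw [inv_le_iff_one_le_mul₀ hMpos]
  have h6 : 1 / (a * Real.log 2) * M * (Real.exp 9 * b) =
      M * (Real.exp 9 / Real.log 2 * b / a) := by
    field_simp
  have h7 : Real.exp (-9) / b * (Real.exp 9 * b) = 1 := by
    field_simp
    linarith
  have h8 := mul_le_mul_of_nonneg_right h4 (by positivity : (0:ℝ) ≤ Real.exp 9 * b)
  rw [h6, h7] at h8
  linarith

theorem nv_up : ∃ C : ℝ, 0 < C ∧ ∃ L0 : ℕ, ∀ L m1 t : ℕ, L0 ≤ L → 1 ≤ m1 → L ^ 6 ≤ 2 ^ m1 →
    m1 ≤ t → NV L m1 t ≤ C * (t : ℝ) / m1 := by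
  classical
  have hl2 : 0 < Real.log 2 := Real.log_pos (by norm_num)
  refine ⟨Real.exp 9 / Real.log 2, by positivity, 4, ?_⟩
  intro L m1 t hL hm hLm hmt
  have hPH : ∀ S : Finset (Iy L m1), 0 ≤ 1 / PH (py L m1) S := fun S => by
    have h := one_le_PH (p := py L m1) (fun i => (big_mem i.2).1.two_le) S
    positivity
  set W : Finset (Iy L m1) := univ.filter (fun i => py L m1 i ≤ 2 ^ t) with hW
  have h1 : (univ : Finset (Finset (Iy L m1))).filter (fun S => PP (py L m1) S ≤ 2 ^ t) ⊆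
      W.powerset := by
    intro S hS
    rw [Finset.mem_filter] at hS
    rw [Finset.mem_powerset]
    intro i hi
    rw [hW, Finset.mem_filter]
    refine ⟨Finset.mem_univ _, ?_⟩
    have h2 := (nvb_le_PP hi).trans hS.2
    have h3 : (py L m1 i : ℝ) ≤ ((2 ^ t : ℕ) : ℝ) := by push_cast; exact h2
    exact_mod_cast h3
  have h2 : NV L m1 t ≤ ∑ S ∈ W.powerset, 1 / PH (py L m1) S := by
    unfold NV
    exact Finset.sum_le_sum_of_subset_of_nonneg h1 (fun S _ _ => hPH S)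
  have h3 : ∑ S ∈ W.powerset, 1 / PH (py L m1) S = ∏ i ∈ W, (1 + 1 / ((py L m1 i : ℝ) - 1)) := by
    rw [Finset.prod_one_add]
    apply Finset.sum_congr rfl
    intro S _
    unfold PH
    rw [Finset.prod_div_distrib, Finset.prod_const_one]
  have h4 : ∏ i ∈ W, (1 + 1 / ((py L m1 i : ℝ) - 1)) =
      ∏ q ∈ W.image (py L m1), (1 + 1 / ((q : ℝ) - 1)) := by
    have hinj : ∀ a b : Iy L m1, py L m1 a = py L m1 b → a = b := fun a b h => Subtype.ext h
    rw [Finset.prod_image fun a _ b _ h => hinj a b h]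
  have h5 : W.image (py L m1) ⊆ Helper52.pr (2 ^ m1) (2 ^ t) := by
    intro q hq
    obtain ⟨i, hi, rfl⟩ := Finset.mem_image.1 hq
    rw [hW, Finset.mem_filter] at hi
    rw [Helper52.mem_pr]
    exact ⟨(big_mem i.2).2.1, hi.2, (big_mem i.2).1⟩
  have hq0 : ∀ q ∈ Helper52.pr (2 ^ m1) (2 ^ t), 0 ≤ 1 / ((q : ℝ) - 1) := by
    intro q hq
    rw [Helper52.mem_pr] at hq
    have hq2 : (2:ℝ) ≤ q := by exact_mod_cast hq.2.2.two_le
    exact div_nonneg zero_le_one (by linarith)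
  have h6 : ∏ q ∈ W.image (py L m1), (1 + 1 / ((q : ℝ) - 1)) ≤
      ∏ q ∈ Helper52.pr (2 ^ m1) (2 ^ t), (1 + 1 / ((q : ℝ) - 1)) := by
    apply Finset.prod_le_prod_of_subset_of_one_le h5
    · intro q hq
      have h := hq0 q (h5 hq)
      linarith
    · intro q hq _
      have h := hq0 q hq
      linarith
  calc NV L m1 t ≤ ∑ S ∈ W.powerset, 1 / PH (py L m1) S := h2
    _ = ∏ i ∈ W, (1 + 1 / ((py L m1 i : ℝ) - 1)) := h3
    _ = ∏ q ∈ W.image (py L m1), (1 + 1 / ((q : ℝ) - 1)) := h4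
    _ ≤ _ := h6
    _ ≤ _ := nvb_up hm hmt

end Pool.Agent.ISO
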