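import Pool.Agent.AV.ParE

/-! ISO/ParI.  Numerical facts about the parameters. -/

set_option autoImplicit false

open Finset Pool.Agent.RS Pool.Agent.AT Pool.Agent.VOID Pool.Agent.AV

namespace Pool.Agent.ISO

/-- numerical facts -/
structure PI (G r k L m1 d N : ℕ) : Prop where
  RL : 10 ^ 4 * RR G r ≤ L
  Nk : N + k ≤ RR G r
  N2 : (d + dd L) / m1 ≤ RR G r
  ms : m1 * (r + 1) ^ 3 * 2 ^ 16 ≤ L
  lev : ((2 : ℝ) ^ (m1 * (4 * r + 4))) ^ k *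
    (2 ^ d * 2 ^ dd L * (2 ^ (m1 * (4 * r + 4))) ^ N) ^ 2 ≤ 2 ^ (L / 1000)
  w3 : ((2 : ℝ) ^ (m1 * (4 * r + 4))) ^ (k + 1) * (2 * (2 ^ d * 2 ^ dd L) ^ 2 *
    (3 ^ RR G r * (2 ^ (m1 * (4 * r + 4))) ^ N)) ^ 2 ≤ 2 ^ (L / 100)

private theorem pi_levA {L d D w N k x y : ℕ} (h1 : w * N ≤ 4 * x) (h2 : w * (k + 1) ≤ 4 * y)
    (h3 : d ≤ x) (h4 : 10 ^ 5 * x ≤ L) (h5 : D * 10000 ≤ L) (h6 : 655360000 * y ≤ L)
    (h7 : 10 ^ 6 ≤ L) :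
    ((2 : ℝ) ^ w) ^ k * (2 ^ d * 2 ^ D * (2 ^ w) ^ N) ^ 2 ≤ 2 ^ (L / 1000) := by
  have e : ((2 : ℝ) ^ w) ^ k * (2 ^ d * 2 ^ D * (2 ^ w) ^ N) ^ 2 =
      2 ^ (w * k + (d + D + w * N) * 2) := by
    rw [← pow_mul, ← pow_mul, ← pow_add, ← pow_add, ← pow_mul, ← pow_add]
  have h8 : w * k ≤ 4 * y := by
    have h9 : w * (k + 1) = w * k + w := by ring
    omega
  rw [e]
  exact pow_le_pow_right₀ (by norm_num) (by omega)

private theorem pi_w3A {R L d D w N k x y : ℕ} (h1 : w * N ≤ 4 * x) (h2 : w * (k + 1) ≤ 4 * y)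
    (h3 : d ≤ x) (h4 : 10 ^ 5 * x ≤ L) (h5 : D * 10000 ≤ L) (h6 : 655360000 * y ≤ L)
    (h7 : 10 ^ 6 ≤ L) (h8 : 10 ^ 4 * R ≤ L) :
    ((2 : ℝ) ^ w) ^ (k + 1) * (2 * (2 ^ d * 2 ^ D) ^ 2 * (3 ^ R * (2 ^ w) ^ N)) ^ 2 ≤
      2 ^ (L / 100) := by
  have h9 : (3 : ℝ) ^ R ≤ 2 ^ (2 * R) := by
    rw [pow_mul 2 2 R]
    exact pow_le_pow_left₀ (by norm_num) (by norm_num) _
  have e1 : (3 : ℝ) ^ R * (2 ^ w) ^ N ≤ 2 ^ (2 * R + w * N) := by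
    rw [pow_add, pow_mul 2 w N]
    exact mul_le_mul_of_nonneg_right h9 (by positivity)
  have e2 : 2 * ((2 : ℝ) ^ d * 2 ^ D) ^ 2 * (3 ^ R * (2 ^ w) ^ N) ≤
      2 ^ (1 + (d + D) * 2 + (2 * R + w * N)) := by
    have e : (2 : ℝ) ^ (1 + (d + D) * 2 + (2 * R + w * N)) =
        2 * ((2 : ℝ) ^ d * 2 ^ D) ^ 2 * 2 ^ (2 * R + w * N) := by
      rw [pow_add _ (1 + (d + D) * 2), pow_add 2 1, pow_one, pow_mul 2 (d + D) 2, pow_add 2 d D]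
    rw [e]
    exact mul_le_mul_of_nonneg_left e1 (by positivity)
  have e3 := pow_le_pow_left₀ (by positivity) e2 2
  have e4 : ((2 : ℝ) ^ w) ^ (k + 1) * (2 * (2 ^ d * 2 ^ D) ^ 2 * (3 ^ R * (2 ^ w) ^ N)) ^ 2 ≤
      2 ^ (w * (k + 1) + (1 + (d + D) * 2 + (2 * R + w * N)) * 2) := by
    rw [pow_add _ (w * (k + 1)), pow_mul 2 w (k + 1), pow_mul 2 _ 2]
    exact mul_le_mul_of_nonneg_left e3 (by positivity)
  refine e4.trans (pow_le_pow_right₀ (by norm_num) ?_)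
  omega

theorem pi_of_pb (G r k : ℕ) (hk : k ≤ r) (hr : 10 * 1000 ≤ r) : ∃ L0 : ℕ, ∀ L : ℕ, L0 ≤ L →
    ∀ (CV : ℝ) (g s m1 d N : ℕ), PB CV G r L g s m1 d N → PI G r k L m1 d N := by
  refine ⟨10 ^ 4 * RR G r, ?_⟩
  intro L hL CV g s m1 d N hp
  have hpl := hp.pl
  have hb := hp.big
  have hm0 := hpl.m_pos
  have hRR : RR G r = 2 * ((r + 1) ^ 3 * 2 ^ g) := by
    rw [hpl.hg]
    unfold RR
    ring
  obtain ⟨R, hR⟩ : ∃ R, R = RR G r := ⟨_, rfl⟩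
  have hLm := hpl.L_le
  rw [← hR] at hRR hLm hL
  have hg16 : 2 ^ 16 ≤ 2 ^ g := by
    refine Nat.pow_le_pow_right (by norm_num) ?_
    rw [hpl.hg]
    exact Nat.le_add_left _ _
  -- `d`
  have hd1 : 100 * 1000 * (r + 1) * d ≤ L := by
    rw [hpl.hd, mul_comm]
    exact Nat.div_mul_le_self _ _
  have hx4 : 10 ^ 5 * ((r + 1) * d) ≤ L := by
    refine le_trans (le_of_eq ?_) hd1
    ring
  have hdx : d ≤ (r + 1) * d := Nat.le_mul_of_pos_left _ (by omega)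
  have hD : dd L * 10000 ≤ L := by
    unfold dd
    exact Nat.div_mul_le_self _ _
  -- `ms`
  have hs1 : s * (r + 1) ^ 3 ≤ L := by
    rw [hpl.hs]
    exact Nat.div_mul_le_self _ _
  have hms : m1 * (r + 1) ^ 3 * 2 ^ 16 ≤ L := by
    refine le_trans ?_ hs1
    calc m1 * (r + 1) ^ 3 * 2 ^ 16 = (m1 * 2 ^ 16) * (r + 1) ^ 3 := by ring
      _ ≤ (m1 * 2 ^ g) * (r + 1) ^ 3 :=
        Nat.mul_le_mul_right _ (Nat.mul_le_mul_left _ hg16)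
      _ ≤ s * (r + 1) ^ 3 := Nat.mul_le_mul_right _ hpl.s_low
  have hy : 655360000 * ((r + 1) ^ 2 * m1) ≤ L := by
    refine le_trans ?_ hms
    calc 655360000 * ((r + 1) ^ 2 * m1) = (r + 1) ^ 2 * m1 * (10000 * 2 ^ 16) := by ring
      _ ≤ (r + 1) ^ 2 * m1 * ((r + 1) * 2 ^ 16) :=
        Nat.mul_le_mul_left _ (Nat.mul_le_mul_right _ (by omega))
      _ = m1 * (r + 1) ^ 3 * 2 ^ 16 := by ring
  have hwN : m1 * (4 * r + 4) * N ≤ 4 * ((r + 1) * d) := by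
    calc m1 * (4 * r + 4) * N = 4 * ((r + 1) * (N * m1)) := by ring
      _ ≤ 4 * ((r + 1) * d) := Nat.mul_le_mul_left _ (Nat.mul_le_mul_left _ hpl.Nm_le)
  have hwk : m1 * (4 * r + 4) * (k + 1) ≤ 4 * ((r + 1) ^ 2 * m1) := by
    calc m1 * (4 * r + 4) * (k + 1) ≤ m1 * (4 * r + 4) * (r + 1) :=
          Nat.mul_le_mul_left _ (by omega)
      _ = 4 * ((r + 1) ^ 2 * m1) := by ring
  refine ⟨?_, ?_, ?_, hms, ?_, ?_⟩
  · rw [← hR]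
    exact hL
  · rw [← hR]
    have h1 : 2 * N ≤ R := by
      have h2 : 100 * 1000 * (r + 1) * (N * m1) ≤ R * m1 :=
        (Nat.mul_le_mul_left _ hpl.Nm_le).trans (hd1.trans hLm)
      have h3 : 100 * 1000 * (r + 1) * N ≤ R := by
        refine Nat.le_of_mul_le_mul_right (c := m1) ?_ hm0
        rw [mul_assoc]
        exact h2
      refine le_trans ?_ h3
      exact Nat.mul_le_mul_right _ (by omega)
    have h4 : 2 * k ≤ R := by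
      rw [hRR]
      refine Nat.mul_le_mul_left _ ?_
      have h5 : r + 1 ≤ (r + 1) ^ 3 := Nat.le_self_pow (by norm_num) _
      have h6 : (r + 1) ^ 3 ≤ (r + 1) ^ 3 * 2 ^ g := Nat.le_mul_of_pos_right _ (by positivity)
      omega
    omega
  · rw [← hR]
    refine Nat.div_le_of_le_mul ?_
    have h1 : d + dd L ≤ L := by omega
    rw [mul_comm]
    exact h1.trans hLm
  · exact pi_levA hwN hwk hdx hx4 hD hy hb
  · rw [← hR]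
    exact pi_w3A hwN hwk hdx hx4 hD hy hb hL

end Pool.Agent.ISO
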