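import Pool.Agent.ISO.WinI
import Pool.Agent.AV.IxB

/-! ISO/PattI.  POSITIVE PROPORTION OF PATTERNS, with a number `K` of points independent of `δ`. -/

set_option autoImplicit false

open Finset Filter Topology Pool.Agent.RS Pool.Agent.AT Pool.Agent.VOID Pool.Agent.AV

namespace Pool.Agent.ISO

open Classical in
theorem patt_I (m : ℕ) : ∃ K : ℕ, 0 < K ∧ ∀ δ : ℝ, 0 < δ → ∀ Λ0 : ℝ, 0 < Λ0 →
    ∃ c : ℝ, 0 < c ∧ ∃ N0 : ℕ, ∀ N : ℕ, N0 ≤ N → ∀ β : Fin K → ℝ,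
    (∀ i, 0 ≤ β i ∧ β i ≤ Λ0) → (∀ i j, i < j → β i + δ ≤ β j) →
    c * N ≤ (((range N).filter (fun n => ∃ i : Fin (m + 1) → Fin K, StrictMono i ∧
      ∀ r : Fin m, |2 * √(pn (n + r)) * dn (n + r) / Real.log (pn (n + r)) -
        (β (i r.succ) - β (i r.castSucc))| < δ)).card : ℝ) := by
  obtain ⟨K, hKpos, hwin⟩ := win_I m
  refine ⟨K, hKpos, fun δ hδ Λ0 hΛ => ?_⟩
  obtain ⟨c, hc, P1, hc1⟩ := hwin (δ / 16) (Λ0 + δ + 2) (by positivity) (by positivity)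
  obtain ⟨C, hC, N1, hC1⟩ := cheb
  obtain ⟨P2, hP2⟩ := nrm hΛ hδ
  -- `P` large
  have hcast : Tendsto (fun P : ℕ => (P : ℝ)) atTop atTop := tendsto_natCast_atTop_atTop
  have hlog := Real.tendsto_log_atTop.comp hcast
  have ev1 : ∀ᶠ P : ℕ in atTop, 16 / δ + 4 ≤ Real.log P := hlog.eventually_ge_atTop _
  have hε : 0 < 1 / (4 * (Λ0 + δ + 2)) := by positivity
  have ev2 : ∀ᶠ P : ℕ in atTop, ‖Real.log P‖ ≤ 1 / (4 * (Λ0 + δ + 2)) * ‖(P : ℝ)‖ :=
    hcast.eventually (Real.isLittleO_log_id_atTop.bound hε)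
  obtain ⟨P3, hP3⟩ := eventually_atTop.1 (ev1.and ev2)
  obtain ⟨Pm, hPm⟩ : ∃ Pm, Pm = P1 + P2 + P3 + 256 := ⟨_, rfl⟩
  refine ⟨c / (20 * C * (Λ0 + δ + 2)), by positivity, N1 + 5 * Pm + 5, ?_⟩
  intro N hN β hβ1 hβ2
  have hinf : (Set.ofPred Nat.Prime).Infinite := Nat.infinite_setOfPred_prime
  obtain ⟨pN, hpN⟩ : ∃ pN, pN = Nat.nth Nat.Prime N := ⟨_, rfl⟩
  have hpNN : N + 2 ≤ pN := by
    rw [hpN]
    exact Nat.add_two_le_nth_prime N
  obtain ⟨P, hP⟩ : ∃ P, P = pN / 5 := ⟨_, rfl⟩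
  have hP5 : 5 * P ≤ pN := by omega
  have hP5' : pN ≤ 5 * P + 4 := by omega
  have hPm' : Pm ≤ P := by omega
  have hP256 : 256 ≤ P := by omega
  have hPp : (0 : ℝ) < P := by
    have : 0 < P := by omega
    exact_mod_cast this
  obtain ⟨e1, e2⟩ := hP3 P (by omega)
  obtain ⟨ℓ, hℓ⟩ : ∃ ℓ, ℓ = Real.log P := ⟨_, rfl⟩
  rw [← hℓ] at e1 e2
  have hℓ4 : 4 ≤ ℓ := by
    have : 0 ≤ 16 / δ := by positivity
    linarith
  have hℓ0 : 0 < ℓ := by linarith
  have hδℓ : 16 ≤ δ * ℓ := by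
    have h1 : 16 / δ ≤ ℓ := by linarith
    rw [div_le_iff₀ hδ] at h1
    linarith
  rw [Real.norm_of_nonneg hℓ0.le, Real.norm_of_nonneg hPp.le] at e2
  have hLP : 2 * ((Λ0 + δ + 2) * ℓ) ≤ P / 2 := by
    have h1 := mul_le_mul_of_nonneg_left e2 (show (0 : ℝ) ≤ Λ0 + δ + 2 by positivity)
    have h2 : (Λ0 + δ + 2) * (1 / (4 * (Λ0 + δ + 2)) * P) = P / 4 := by
      have : Λ0 + δ + 2 ≠ 0 := by positivity
      field_simp
    linarith
  obtain ⟨E, hE'⟩ : ∃ E, E = ⌊δ / 16 * ℓ⌋₊ := ⟨_, rfl⟩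
  have hE2 : (E : ℝ) ≤ δ / 16 * ℓ := by
    rw [hE']
    exact Nat.floor_le (by positivity)
  obtain ⟨H, hH⟩ : ∃ H, H = ⌈Λ0 * ℓ⌉₊ + E + 1 := ⟨_, rfl⟩
  have hceil1 : Λ0 * ℓ ≤ (⌈Λ0 * ℓ⌉₊ : ℝ) := Nat.le_ceil _
  have hceil2 : (⌈Λ0 * ℓ⌉₊ : ℝ) < Λ0 * ℓ + 1 := Nat.ceil_lt_add_one (by positivity)
  have hHr : (H : ℝ) = (⌈Λ0 * ℓ⌉₊ : ℝ) + E + 1 := by
    rw [hH]
    push_cast
    ring
  have hH1 : (H : ℝ) ≤ (Λ0 + δ + 2) * ℓ := by
    have h4 : (Λ0 + δ + 2) * ℓ = Λ0 * ℓ + δ * ℓ + 2 * ℓ := by ring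
    rw [h4]
    have h5 : δ / 16 * ℓ ≤ δ * ℓ := mul_le_mul_of_nonneg_right (by linarith) hℓ0.le
    linarith
  have hH2 : (H : ℝ) ≤ 2 * ((Λ0 + δ + 2) * ℓ) := by
    have : 0 ≤ (Λ0 + δ + 2) * ℓ := by positivity
    linarith
  have hHP : (H : ℝ) ≤ P / 2 := hH2.trans hLP
  have hHP' : 2 * H ≤ P := by
    have : (2 * H : ℝ) ≤ P := by linarith
    exact_mod_cast this
  -- the clusters
  obtain ⟨u, hu⟩ : ∃ u : Fin K → ℕ, u = fun i => ⌊β i * ℓ⌋₊ := ⟨_, rfl⟩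
  have hu1 : ∀ i, (u i : ℝ) ≤ β i * ℓ := by
    intro i
    rw [hu]
    exact Nat.floor_le (mul_nonneg (hβ1 i).1 hℓ0.le)
  have hu2 : ∀ i, β i * ℓ < u i + 1 := by
    intro i
    rw [hu]
    exact Nat.lt_floor_add_one _
  have hcfg : Cfg H u E := by
    refine ⟨fun i => ?_, fun i j hij => ?_⟩
    · have h3 : β i * ℓ ≤ Λ0 * ℓ := mul_le_mul_of_nonneg_right (hβ1 i).2 hℓ0.le
      have h4 : ((u i + E : ℕ) : ℝ) ≤ (H : ℝ) := by
        rw [hHr]
        push_cast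
        linarith [hu1 i]
      exact_mod_cast h4
    · have h3 : (β i + δ) * ℓ ≤ β j * ℓ := mul_le_mul_of_nonneg_right (hβ2 i j hij) hℓ0.le
      have h4 : ((u i + E : ℕ) : ℝ) ≤ (u j : ℝ) := by
        push_cast
        have := hu1 i
        have := hu2 j
        have h5 : (β i + δ) * ℓ = β i * ℓ + δ * ℓ := by ring
        linarith
      exact_mod_cast h4
  have hW := hc1 P (by omega) H (by rw [← hℓ]; exact hH1) u (by
    intro i
    rw [← hℓ, ← hE']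
    exact hcfg.hin i)
  obtain ⟨W, hWd⟩ : ∃ W, W = (Ioc (P - H) (4 * P)).filter (fun n => ∃ t : Fin K → ℕ,
      Function.Injective t ∧
      (∀ i, u i ≤ t i ∧ t i < u i + ⌊δ / 16 * Real.log P⌋₊) ∧
      (∀ j < H, (n + j).Prime → ∃ i, j = t i) ∧
      m + 1 ≤ ((univ : Finset (Fin K)).filter (fun i => (n + t i).Prime)).card) := ⟨_, rfl⟩
  rw [← hWd] at hW
  have hWm : ∀ n ∈ W, P - H < n ∧ n ≤ 4 * P ∧
      (∀ q ∈ Ico n (n + H), q.Prime → ∃ i, n + u i ≤ q ∧ q < n + u i + E) ∧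
      (∀ i, ∀ q q' : ℕ, q.Prime → q'.Prime → n + u i ≤ q → q < n + u i + E →
        n + u i ≤ q' → q' < n + u i + E → q = q') ∧
      m + 1 ≤ ((Ico n (n + H)).filter Nat.Prime).card := by
    intro n hn
    rw [hWd] at hn
    obtain ⟨hn1, t, ht1, ht2, ht3, ht4⟩ := mem_filter.1 hn
    rw [mem_Ioc] at hn1
    rw [← hℓ, ← hE'] at ht2
    have hone : ∀ i, ∀ q : ℕ, q.Prime → n + u i ≤ q → q < n + u i + E → q = n + t i := by
      intro i q hq h1 h2
      have h3 := hcfg.hin i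
      obtain ⟨i', hi'⟩ := ht3 (q - n) (by omega) (by
        have : n + (q - n) = q := by omega
        rw [this]
        exact hq)
      have h4 := ht2 i'
      have h5 : i' = i := by
        rcases lt_trichotomy i' i with h | h | h
        · have := hcfg.hdis i' i h
          omega
        · exact h
        · have := hcfg.hdis i i' h
          omega
      rw [h5] at hi'
      omega
    refine ⟨hn1.1, hn1.2, ?_, ?_, ?_⟩
    · intro q hq hqp
      rw [mem_Ico] at hq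
      obtain ⟨i, hi⟩ := ht3 (q - n) (by omega) (by
        have : n + (q - n) = q := by omega
        rw [this]
        exact hqp)
      have := ht2 i
      exact ⟨i, by omega, by omega⟩
    · intro i q q' hq hq' h1 h2 h3 h4
      rw [hone i q hq h1 h2, hone i q' hq' h3 h4]
    · refine ht4.trans ?_
      refine card_le_card_of_injOn (fun i => n + t i) ?_ ?_
      · intro i hi
        have hi' := (mem_filter.1 (mem_coe.1 hi)).2
        refine mem_coe.2 (mem_filter.2 ⟨mem_Ico.2 ⟨Nat.le_add_right _ _, ?_⟩, hi'⟩)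
        have h1 := ht2 i
        have h2 := hcfg.hin i
        show n + t i < n + H
        omega
      · intro i _ j _ hij
        have : n + t i = n + t j := hij
        exact ht1 (by omega)
  have hpt : ∀ n ∈ W, ∃ i : Fin (m + 1) → Fin K, StrictMono i ∧ ∀ r : Fin (m + 1),
      n + u (i r) ≤ Nat.nth Nat.Prime (Nat.count Nat.Prime n + r) ∧
      Nat.nth Nat.Prime (Nat.count Nat.Prime n + r) < n + u (i r) + E := by
    intro n hn
    obtain ⟨_, _, h3, h4, h5⟩ := hWm n hn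
    exact pt1c hcfg h3 h4 h5
  have hx1 : ∀ n ∈ W, Nat.nth Nat.Prime (Nat.count Nat.Prime n) < n + H := by
    intro n hn
    obtain ⟨i, _, hi⟩ := hpt n hn
    have h1 := (hi 0).2
    have h2 := hcfg.hin (i 0)
    have h3 : Nat.count Nat.Prime n + ((0 : Fin (m + 1)) : ℕ) = Nat.count Nat.Prime n := rfl
    rw [h3] at h1
    omega
  have hx2 : ∀ n ∈ W, Nat.count Nat.Prime n < N := by
    intro n hn
    obtain ⟨_, h2, _, _, _⟩ := hWm n hn
    have h1 := hx1 n hn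
    by_contra hlt
    rw [not_lt] at hlt
    have h3 : Nat.nth Nat.Prime N ≤ Nat.nth Nat.Prime (Nat.count Nat.Prime n) :=
      (Nat.nth_strictMono hinf).monotone hlt
    rw [← hpN] at h3
    omega
  have hx3 : ∀ n ∈ W, (fun n => ∃ i : Fin (m + 1) → Fin K, StrictMono i ∧
      ∀ r : Fin m, |2 * √(pn (n + r)) * dn (n + r) / Real.log (pn (n + r)) -
        (β (i r.succ) - β (i r.castSucc))| < δ) (Nat.count Nat.Prime n) := by
    intro n hn
    obtain ⟨i, hi, hir⟩ := hpt n hn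
    obtain ⟨hn1, hn2, _, _, _⟩ := hWm n hn
    refine ⟨i, hi, fun r => ?_⟩
    have ha := hir r.castSucc
    have hb := hir r.succ
    have f1 : Nat.count Nat.Prime n + ((r.castSucc : Fin (m + 1)) : ℕ) =
      Nat.count Nat.Prime n + (r : ℕ) := rfl
    have f2 : Nat.count Nat.Prime n + ((r.succ : Fin (m + 1)) : ℕ) =
      Nat.count Nat.Prime n + (r : ℕ) + 1 := rfl
    rw [f1] at ha
    rw [f2] at hb
    have hlt : Nat.nth Nat.Prime (Nat.count Nat.Prime n + r) <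
        Nat.nth Nat.Prime (Nat.count Nat.Prime n + r + 1) :=
      Nat.nth_strictMono hinf (Nat.lt_succ_self _)
    unfold dn pn
    obtain ⟨q, hq⟩ : ∃ q, q = Nat.nth Nat.Prime (Nat.count Nat.Prime n + r) := ⟨_, rfl⟩
    obtain ⟨q', hq'⟩ : ∃ q', q' = Nat.nth Nat.Prime (Nat.count Nat.Prime n + r + 1) := ⟨_, rfl⟩
    rw [← hq] at ha hlt ⊢
    rw [← hq'] at hb hlt ⊢
    obtain ⟨k, hk⟩ : ∃ k, k = i r.castSucc := ⟨_, rfl⟩
    obtain ⟨k', hk'⟩ : ∃ k', k' = i r.succ := ⟨_, rfl⟩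
    rw [← hk] at ha ⊢
    rw [← hk'] at hb ⊢
    have hkk : k < k' := by
      rw [hk, hk']
      exact hi (Fin.castSucc_lt_succ)
    have c1 : (n : ℝ) + u k ≤ q := by exact_mod_cast ha.1
    have c2 : (q : ℝ) < n + u k + E := by exact_mod_cast ha.2
    have c3 : (n : ℝ) + u k' ≤ q' := by exact_mod_cast hb.1
    have c4 : (q' : ℝ) < n + u k' + E := by exact_mod_cast hb.2
    have c5 : (q : ℝ) ≤ q' := by exact_mod_cast hlt.le
    have c6 : (u k : ℝ) + E ≤ H := by exact_mod_cast hcfg.hin k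
    have c7 : (0 : ℝ) ≤ u k := Nat.cast_nonneg _
    have c8 : (0 : ℝ) ≤ E := Nat.cast_nonneg _
    have c9 : (P : ℝ) ≤ 2 * n := by
      have : P ≤ 2 * n := by omega
      exact_mod_cast this
    have c10 : (n : ℝ) ≤ 4 * P := by exact_mod_cast hn2
    have d1 := hu1 k
    have d2 := hu2 k
    have d3 := hu1 k'
    have d4 := hu2 k'
    have ht0 : 0 ≤ β k' - β k := by
      have := hβ2 k k' hkk
      linarith
    have ht1 : β k' - β k ≤ Λ0 := by
      have := (hβ1 k').2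
      have := (hβ1 k).1
      linarith
    refine hP2 P (by omega) q q' (β k' - β k) (by linarith) (by linarith) c5 ht0 ht1 ?_
    rw [← hℓ]
    have h1 : (β k' - β k) * ℓ = β k' * ℓ - β k * ℓ := by ring
    rw [h1]
    refine abs_le.2 ⟨?_, ?_⟩ <;> linarith
  have hcount := ix_count (H := H) (N := N) (J := fun n => ∃ i : Fin (m + 1) → Fin K,
    StrictMono i ∧ ∀ r : Fin m, |2 * √(pn (n + r)) * dn (n + r) / Real.log (pn (n + r)) -
      (β (i r.succ) - β (i r.castSucc))| < δ) hx1 hx2 hx3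
  -- conclusion
  obtain ⟨A, hA⟩ : ∃ A : ℝ, A = (((range N).filter (fun n => ∃ i : Fin (m + 1) → Fin K,
      StrictMono i ∧ ∀ r : Fin m, |2 * √(pn (n + r)) * dn (n + r) / Real.log (pn (n + r)) -
        (β (i r.succ) - β (i r.castSucc))| < δ)).card : ℝ) := ⟨_, rfl⟩
  have hcount2 : (W.card : ℝ) ≤ H * A := by
    rw [hA]
    convert hcount
  rw [← hA]
  have hA0 : 0 ≤ A := by
    rw [hA]
    exact Nat.cast_nonneg _
  have h1 : c * P ≤ 2 * ((Λ0 + δ + 2) * ℓ) * A :=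
    hW.trans (hcount2.trans (mul_le_mul_of_nonneg_right hH2 hA0))
  have h2 := hC1 N (by omega)
  have h3 : pn N = (pN : ℝ) := by rw [hpN]; rfl
  rw [h3] at h2
  have h4 : (pN : ℝ) ≤ 10 * P := by
    have : pN ≤ 10 * P := by omega
    exact_mod_cast this
  have h5 : ℓ ≤ Real.log pN := by
    rw [hℓ]
    refine Real.log_le_log hPp ?_
    have : P ≤ pN := by omega
    exact_mod_cast this
  have h6 : (N : ℝ) * ℓ ≤ 10 * C * P := by
    have h7 : (N : ℝ) * ℓ ≤ N * Real.log pN := mul_le_mul_of_nonneg_left h5 (Nat.cast_nonneg _)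
    have h8 : C * pN ≤ C * (10 * P) := mul_le_mul_of_nonneg_left h4 hC.le
    linarith
  have h7 : c * (N * ℓ) ≤ 20 * C * (Λ0 + δ + 2) * A * ℓ := by
    have h8 : c * (N * ℓ) ≤ c * (10 * C * P) := mul_le_mul_of_nonneg_left h6 hc.le
    have h9 : 10 * C * (c * P) ≤ 10 * C * (2 * ((Λ0 + δ + 2) * ℓ) * A) :=
      mul_le_mul_of_nonneg_left h1 (by positivity)
    have h10 : c * (10 * C * P) = 10 * C * (c * P) := by ring
    have h11 : 10 * C * (2 * ((Λ0 + δ + 2) * ℓ) * A) = 20 * C * (Λ0 + δ + 2) * A * ℓ := by ring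
    linarith
  have h8 : c * N ≤ 20 * C * (Λ0 + δ + 2) * A := by
    refine le_of_mul_le_mul_right ?_ hℓ0
    have : c * N * ℓ = c * (N * ℓ) := by ring
    rw [this]
    exact h7
  have h9 : 0 < 20 * C * (Λ0 + δ + 2) := by positivity
  rw [div_mul_eq_mul_div, div_le_iff₀ h9]
  linarith

end Pool.Agent.ISO
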