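import Pool.Agent.AV.Cc
import Pool.Agent.VOID.V1B
import Pool.Agent.Helper52.PrimeSums

/-!
ISO/PiLow.  The density `Piy L m1 k` of the event that `k` given shifts have no small prime factor.
-/

set_option autoImplicit false

open Finset Pool.Agent.RS Pool.Agent.AT Pool.Agent.VOID Pool.Agent.AV

namespace Pool.Agent.ISO

private theorem pil_factor {q : ℕ} (hq : 2 ≤ q) (j : ℕ) :
    max 0 (1 - ((j + 1 : ℕ) : ℝ) / q) ≤ max 0 (1 - ((1 : ℕ) : ℝ) / q) * max 0 (1 - (j : ℝ) / q) := by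
  have hq' : (2 : ℝ) ≤ q := by exact_mod_cast hq
  have hq0 : (0 : ℝ) < q := by linarith
  apply max_le
  · exact mul_nonneg (le_max_left _ _) (le_max_left _ _)
  · have h1 : (0 : ℝ) ≤ 1 - ((1 : ℕ) : ℝ) / q := by
      rw [Nat.cast_one, sub_nonneg, div_le_one hq0]
      linarith
    rw [max_eq_right h1]
    have h2 : (1 - ((1 : ℕ) : ℝ) / q) * (1 - (j : ℝ) / q) ≤
        (1 - ((1 : ℕ) : ℝ) / q) * max 0 (1 - (j : ℝ) / q) :=
      mul_le_mul_of_nonneg_left (le_max_right _ _) h1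
    refine le_trans ?_ h2
    have h3 : (1 - ((1 : ℕ) : ℝ) / q) * (1 - (j : ℝ) / q) =
        1 - ((j + 1 : ℕ) : ℝ) / q + j / (q * q) := by
      push_cast
      field_simp
      ring
    rw [h3]
    have h4 : (0 : ℝ) ≤ j / (q * q) := by positivity
    linarith

theorem piy_zero (L m1 : ℕ) : Piy L m1 0 = 1 := by
  unfold Piy PiV
  apply Finset.prod_eq_one
  intro i _
  apply Finset.prod_eq_one
  intro q _
  rw [Nat.cast_zero, zero_div, sub_zero]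
  exact max_eq_right zero_le_one

theorem piy_nn (L m1 j : ℕ) : 0 ≤ Piy L m1 j := by
  unfold Piy PiV
  exact Finset.prod_nonneg (fun i _ => Finset.prod_nonneg (fun q _ => le_max_left _ _))

theorem piy_step (L m1 j : ℕ) : Piy L m1 (j + 1) ≤ Piy L m1 1 * Piy L m1 j := by
  unfold Piy PiV
  rw [← Finset.prod_mul_distrib]
  apply Finset.prod_le_prod
  · intro i _
    exact Finset.prod_nonneg (fun q _ => le_max_left _ _)
  · intro i hi
    rw [← Finset.prod_mul_distrib]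
    apply Finset.prod_le_prod
    · intro q _
      exact le_max_left _ _
    · intro q hq
      exact pil_factor (bk_mem hq).1.two_le j

theorem piy_anti (L m1 : ℕ) (i j : ℕ) (h : i ≤ j) : Piy L m1 j ≤ Piy L m1 i := by
  unfold Piy PiV
  apply Finset.prod_le_prod
  · intro l _
    exact Finset.prod_nonneg (fun q _ => le_max_left _ _)
  · intro l _
    apply Finset.prod_le_prod
    · intro q _
      exact le_max_left _ _
    · intro q _
      apply max_le_max le_rfl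
      have h1 : (i : ℝ) / q ≤ (j : ℝ) / q := by
        apply div_le_div_of_nonneg_right _ (Nat.cast_nonneg q)
        exact_mod_cast h
      linarith

/-- the upper bound of the density for one shift (`V1_le` of VOID/V1B with `B = ∅`) -/
theorem piy_up {L m1 : ℕ} (hL : 4 ≤ L) (hm : 1 ≤ m1) :
    Piy L m1 1 ≤ 12 * Real.exp 9 * ((Nat.log 2 L : ℝ) + 1) / (m1 * Real.log 2) :=
  V1_le hL hm (fun b hb => absurd hb (notMem_empty b)) (by simp)

private theorem prod_split {a b : ℕ} (hab : a ≤ b) :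
    ∏ q ∈ Helper52.pr 0 (2 ^ b), (1 - 1 / (q : ℝ)) =
      (∏ q ∈ Helper52.pr 0 (2 ^ a), (1 - 1 / (q : ℝ))) *
        ∏ q ∈ Helper52.pr (2 ^ a) (2 ^ b), (1 - 1 / (q : ℝ)) := by
  have hpw : 2 ^ a ≤ 2 ^ b := Nat.pow_le_pow_right (by norm_num) hab
  rw [← Finset.prod_union]
  · apply Finset.prod_congr _ (fun _ _ => rfl)
    ext q
    rw [mem_union, Helper52.mem_pr, Helper52.mem_pr, Helper52.mem_pr]
    have h2 : 0 < 2 ^ a := by positivity
    constructor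
    · rintro ⟨x, y, z⟩
      by_cases h : q ≤ 2 ^ a
      · left; exact ⟨x, h, z⟩
      · right; exact ⟨by omega, y, z⟩
    · rintro (⟨x, y, z⟩ | ⟨x, y, z⟩)
      · exact ⟨x, by omega, z⟩
      · exact ⟨by omega, y, z⟩
  · rw [Finset.disjoint_left]
    intro q h1 h2
    rw [Helper52.mem_pr] at h1 h2
    omega

private theorem one_sub_pos {q : ℕ} (hq : q.Prime) : 0 < 1 - 1 / (q : ℝ) ∧ 1 - 1 / (q : ℝ) ≤ 1 := by
  have hq2 : (2 : ℝ) ≤ q := by exact_mod_cast hq.two_le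
  have h1 : 1 / (q : ℝ) < 1 := by
    rw [div_lt_one (by linarith)]
    linarith
  have h2 : 0 < 1 / (q : ℝ) := by positivity
  constructor <;> linarith

/-- the product of `1 - 1/q` over the primes between `2 ^ a` and `2 ^ b` -/
private theorem prod_dn {a b : ℕ} (ha : 1 ≤ a) (hab : a ≤ b) :
    Real.log 2 / Real.exp 9 * ((a : ℝ) / b) ≤
      ∏ q ∈ Helper52.pr (2 ^ a) (2 ^ b), (1 - 1 / (q : ℝ)) := by
  have hl2 : 0 < Real.log 2 := Real.log_pos (by norm_num)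
  have har : (0 : ℝ) < a := by exact_mod_cast ha
  have hbr : (0 : ℝ) < b := by exact_mod_cast (by omega : 0 < b)
  have h1 := prod_split hab
  have h2 := Helper52.prod_upper ha
  have h3 := Helper52.prod_lower (a := b) (by omega)
  have hMpos : 0 ≤ ∏ q ∈ Helper52.pr (2 ^ a) (2 ^ b), (1 - 1 / (q : ℝ)) := by
    apply Finset.prod_nonneg
    intro q hq
    rw [Helper52.mem_pr] at hq
    exact (one_sub_pos hq.2.2).1.le
  obtain ⟨M, hM⟩ : ∃ M, M = ∏ q ∈ Helper52.pr (2 ^ a) (2 ^ b), (1 - 1 / (q : ℝ)) := ⟨_, rfl⟩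
  rw [← hM] at h1 hMpos ⊢
  rw [h1] at h3
  have h4 : Real.exp (-9) / b ≤ 1 / (a * Real.log 2) * M :=
    h3.trans (mul_le_mul_of_nonneg_right h2 hMpos)
  have h5 : Real.exp (-9) = (Real.exp 9)⁻¹ := Real.exp_neg 9
  rw [h5] at h4
  have he : 0 < Real.exp 9 := Real.exp_pos 9
  have h6 := mul_le_mul_of_nonneg_left h4 (mul_pos har hl2).le
  have h7 : (a : ℝ) * Real.log 2 * (1 / (a * Real.log 2) * M) = M := by
    field_simp
  have h8 : (a : ℝ) * Real.log 2 * ((Real.exp 9)⁻¹ / b) = Real.log 2 / Real.exp 9 * ((a : ℝ) / b) := by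
    field_simp
  rw [h7, h8] at h6
  exact h6

private theorem weier {ι : Type} [DecidableEq ι] (S : Finset ι) (f : ι → ℝ) (h0 : ∀ i ∈ S, 0 ≤ f i)
    (h1 : ∀ i ∈ S, f i ≤ 1) : 1 - ∑ i ∈ S, f i ≤ ∏ i ∈ S, (1 - f i) ∧ ∏ i ∈ S, (1 - f i) ≤ 1 ∧
      0 ≤ ∏ i ∈ S, (1 - f i) := by
  induction S using Finset.induction_on with
  | empty => simp
  | insert i S hi ih =>
    obtain ⟨a1, a2, a3⟩ := ih (fun j hj => h0 j (mem_insert_of_mem hj))
      (fun j hj => h1 j (mem_insert_of_mem hj))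
    have b0 := h0 i (mem_insert_self i S)
    have b1 := h1 i (mem_insert_self i S)
    rw [Finset.sum_insert hi, Finset.prod_insert hi]
    refine ⟨by nlinarith, by nlinarith, by nlinarith⟩

private theorem bern_up {x : ℝ} (h0 : 0 ≤ x) (h1 : x ≤ 1) (k : ℕ) :
    (1 - x) ^ k ≤ 1 - k * x + (k : ℝ) ^ 2 * x ^ 2 := by
  induction k with
  | zero => simp
  | succ k ih =>
    have h2 : (1 - x) ^ (k + 1) ≤ (1 - k * x + (k : ℝ) ^ 2 * x ^ 2) * (1 - x) := by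
      rw [pow_succ]
      exact mul_le_mul_of_nonneg_right ih (by linarith)
    refine h2.trans ?_
    have hk : (0 : ℝ) ≤ k := Nat.cast_nonneg k
    have h3 : (1 - ((k + 1 : ℕ) : ℝ) * x + ((k + 1 : ℕ) : ℝ) ^ 2 * x ^ 2) -
        (1 - k * x + (k : ℝ) ^ 2 * x ^ 2) * (1 - x) = (k + 1) * x ^ 2 + (k : ℝ) ^ 2 * x ^ 3 := by
      push_cast
      ring
    have h4 : 0 ≤ ((k : ℝ) + 1) * x ^ 2 + (k : ℝ) ^ 2 * x ^ 3 := by positivity
    linarith

private theorem fac_low {x : ℝ} (h0 : 0 ≤ x) (h1 : x ≤ 1) (k : ℕ) (h2 : 2 * (k : ℝ) ^ 2 * x ^ 2 ≤ 1) :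
    (1 - x) ^ k * (1 - 2 * (k : ℝ) ^ 2 * x ^ 2) ≤ 1 - k * x := by
  have h3 : (1 - x) ^ k * (1 - 2 * (k : ℝ) ^ 2 * x ^ 2) ≤
      (1 - k * x + (k : ℝ) ^ 2 * x ^ 2) * (1 - 2 * (k : ℝ) ^ 2 * x ^ 2) :=
    mul_le_mul_of_nonneg_right (bern_up h0 h1 k) (by linarith)
  refine h3.trans ?_
  obtain ⟨y, hy⟩ : ∃ y, y = (k : ℝ) * x := ⟨_, rfl⟩
  have e1 : (k : ℝ) ^ 2 * x ^ 2 = y ^ 2 := by rw [hy]; ring
  have e2 : 2 * (k : ℝ) ^ 2 * x ^ 2 = 2 * y ^ 2 := by rw [hy]; ring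
  rw [e2, e1, ← hy]
  have h5 : (1 - y) - (1 - y + y ^ 2) * (1 - 2 * y ^ 2) = y ^ 2 * ((1 - y) ^ 2 + y ^ 2) := by ring
  have h6 : 0 ≤ y ^ 2 * ((1 - y) ^ 2 + y ^ 2) := by positivity
  linarith

theorem pi_low (k : ℕ) : ∃ c : ℝ, 0 < c ∧ ∃ L0 : ℕ, ∀ L m1 : ℕ, L0 ≤ L → L ^ 6 ≤ 2 ^ m1 →
    c * ((Nat.log 2 L : ℝ) / m1) ^ k ≤ Piy L m1 k := by
  classical
  have hl2 : 0 < Real.log 2 := Real.log_pos (by norm_num)
  refine ⟨(Real.log 2 / Real.exp 9) ^ k / 2, by positivity, 4 * k ^ 2 + 4, ?_⟩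
  intro L m1 hL hLm
  have hL4 : 4 ≤ L := by omega
  have hLL : L ≤ L ^ 6 := Nat.le_self_pow (by norm_num) L
  have hL1 : 1 < L ^ 6 := by omega
  have hm : 1 ≤ m1 := by
    by_contra hcon
    have h0 : m1 = 0 := by omega
    rw [h0, pow_zero] at hLm
    omega
  obtain ⟨a, ha⟩ : ∃ a, a = Nat.log 2 (L ^ 6) := ⟨_, rfl⟩
  have ha1 : 2 ^ a ≤ L ^ 6 := by rw [ha]; exact Nat.pow_log_le_self 2 (by omega)
  have ha2 : 1 ≤ a := by rw [ha]; exact Nat.le_log_of_pow_le (by norm_num) (by omega)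
  have ha3 : Nat.log 2 L ≤ a := by rw [ha]; exact Nat.log_mono_right hLL
  have ham : a ≤ m1 := (Nat.pow_le_pow_iff_right (by norm_num : 1 < 2)).1 (ha1.trans hLm)
  have hmr : (0 : ℝ) < m1 := by exact_mod_cast hm
  obtain ⟨S, hS⟩ : ∃ S, S = prz (2 ^ m1) \ excl L ∅ (2 ^ m1) := ⟨_, rfl⟩
  have hPi : Piy L m1 k = ∏ q ∈ S, max 0 (1 - (k : ℝ) / q) := by
    unfold Piy PiV
    rw [bk_prod (by omega) hm fun q => max 0 (1 - (k : ℝ) / q), hS]
  have hmemS : ∀ q ∈ S, L ^ 6 < q ∧ q ≤ 2 ^ m1 ∧ q.Prime := by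
    intro q hq
    rw [hS, Finset.mem_sdiff] at hq
    obtain ⟨h1, h2⟩ := hq
    have h3 := h1
    unfold prz at h1
    rw [Finset.mem_filter, Finset.mem_Icc] at h1
    refine ⟨?_, h1.1.2, h1.2⟩
    by_contra hcon
    apply h2
    unfold excl
    rw [Finset.mem_filter]
    exact ⟨h3, Or.inl (by omega)⟩
  -- the two products
  have hX : ∀ q ∈ S, (4 * (k : ℝ) ^ 2 + 4) ≤ (q : ℝ) := by
    intro q hq
    have h1 := (hmemS q hq).1
    have h2 : 4 * k ^ 2 + 4 ≤ q := by omega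
    exact_mod_cast h2
  have hsmall : ∀ q ∈ S, 2 * (k : ℝ) ^ 2 * (1 / (q : ℝ)) ^ 2 ≤ 1 := by
    intro q hq
    have h1 := hX q hq
    have hq0 : (0 : ℝ) < q := by
      have := sq_nonneg (k : ℝ)
      linarith
    rw [one_div, inv_pow, ← div_eq_mul_inv, div_le_one (by positivity)]
    nlinarith [sq_nonneg (k : ℝ)]
  have hfac : ∀ q ∈ S, (1 - 1 / (q : ℝ)) ^ k * (1 - 2 * (k : ℝ) ^ 2 * (1 / (q : ℝ)) ^ 2) ≤
      max 0 (1 - (k : ℝ) / q) := by
    intro q hq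
    have h1 := one_sub_pos (hmemS q hq).2.2
    have h2 := fac_low (x := 1 / (q : ℝ)) (by linarith) (by linarith) k (hsmall q hq)
    refine h2.trans (le_trans (le_of_eq ?_) (le_max_right _ _))
    rw [mul_one_div]
  have hprod : (∏ q ∈ S, (1 - 1 / (q : ℝ))) ^ k * ∏ q ∈ S, (1 - 2 * (k : ℝ) ^ 2 * (1 / (q : ℝ)) ^ 2) ≤
      Piy L m1 k := by
    rw [hPi, ← Finset.prod_pow, ← Finset.prod_mul_distrib]
    apply Finset.prod_le_prod
    · intro q hq
      have h1 := one_sub_pos (hmemS q hq).2.2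
      have h2 := hsmall q hq
      exact mul_nonneg (pow_nonneg h1.1.le k) (by linarith)
    · exact hfac
  have hA : Real.log 2 / Real.exp 9 * ((a : ℝ) / m1) ≤ ∏ q ∈ S, (1 - 1 / (q : ℝ)) := by
    refine (prod_dn ha2 ham).trans ?_
    have hsub : S ⊆ Helper52.pr (2 ^ a) (2 ^ m1) := by
      intro q hq
      rw [Helper52.mem_pr]
      obtain ⟨h1, h2, h3⟩ := hmemS q hq
      exact ⟨by omega, h2, h3⟩
    rw [← Finset.prod_sdiff hsub]
    have h1 : ∏ q ∈ Helper52.pr (2 ^ a) (2 ^ m1) \ S, (1 - 1 / (q : ℝ)) ≤ 1 := by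
      apply Finset.prod_le_one
      · intro q hq
        have h2 := (Helper52.mem_pr.1 (Finset.sdiff_subset hq)).2.2
        exact (one_sub_pos h2).1.le
      · intro q hq
        have h2 := (Helper52.mem_pr.1 (Finset.sdiff_subset hq)).2.2
        exact (one_sub_pos h2).2
    have h2 : 0 ≤ ∏ q ∈ S, (1 - 1 / (q : ℝ)) :=
      Finset.prod_nonneg fun q hq => (one_sub_pos (hmemS q hq).2.2).1.le
    exact mul_le_of_le_one_left h2 h1
  have hB : (1 : ℝ) / 2 ≤ ∏ q ∈ S, (1 - 2 * (k : ℝ) ^ 2 * (1 / (q : ℝ)) ^ 2) := by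
    refine le_trans ?_ (weier S (fun q => 2 * (k : ℝ) ^ 2 * (1 / (q : ℝ)) ^ 2)
      (fun q _ => by positivity) hsmall).1
    have h1 : ∑ q ∈ S, 2 * (k : ℝ) ^ 2 * (1 / (q : ℝ)) ^ 2 ≤ 2 * (k : ℝ) ^ 2 * (1 / (L ^ 6 : ℕ)) := by
      rw [← Finset.mul_sum]
      apply mul_le_mul_of_nonneg_left _ (by positivity)
      have h2 : S ⊆ Finset.Ioc (L ^ 6) (2 ^ m1) := by
        intro q hq
        rw [Finset.mem_Ioc]
        exact ⟨(hmemS q hq).1, (hmemS q hq).2.1⟩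
      have h3 : ∑ q ∈ S, (1 / (q : ℝ)) ^ 2 ≤ ∑ q ∈ Finset.Ioc (L ^ 6) (2 ^ m1), ((q : ℝ) ^ 2)⁻¹ := by
        refine (Finset.sum_le_sum_of_subset_of_nonneg h2 fun q _ _ => by positivity).trans
          (le_of_eq ?_)
        refine Finset.sum_congr rfl fun q _ => ?_
        rw [one_div, inv_pow]
      have h4 := sum_Ioc_inv_sq_le_sub (α := ℝ) (k := L ^ 6) (n := 2 ^ m1) (by omega) hLm
      have h5 : (0 : ℝ) ≤ ((2 ^ m1 : ℕ) : ℝ)⁻¹ := by positivity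
      have h6 : (1 : ℝ) / ((L ^ 6 : ℕ) : ℝ) = ((L ^ 6 : ℕ) : ℝ)⁻¹ := one_div _
      rw [h6]
      linarith
    have h7 : 2 * (k : ℝ) ^ 2 * (1 / ((L ^ 6 : ℕ) : ℝ)) ≤ 1 / 2 := by
      have h8 : (4 * (k : ℝ) ^ 2 + 4) ≤ ((L ^ 6 : ℕ) : ℝ) := by
        have h9 : 4 * k ^ 2 + 4 ≤ L ^ 6 := by omega
        exact_mod_cast h9
      have h10 : (0 : ℝ) < ((L ^ 6 : ℕ) : ℝ) := by
        have := sq_nonneg (k : ℝ)
        linarith
      rw [mul_one_div, div_le_iff₀ h10]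
      linarith
    linarith
  have hlog : ((Nat.log 2 L : ℝ) / m1) ≤ (a : ℝ) / m1 := by
    apply div_le_div_of_nonneg_right _ hmr.le
    exact_mod_cast ha3
  have hlog0 : 0 ≤ ((Nat.log 2 L : ℝ) / m1) := by positivity
  have hc0 : 0 ≤ Real.log 2 / Real.exp 9 := by positivity
  calc (Real.log 2 / Real.exp 9) ^ k / 2 * ((Nat.log 2 L : ℝ) / m1) ^ k
      = (Real.log 2 / Real.exp 9 * ((Nat.log 2 L : ℝ) / m1)) ^ k * (1 / 2) := by
        rw [mul_pow]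
        ring
    _ ≤ (∏ q ∈ S, (1 - 1 / (q : ℝ))) ^ k *
        ∏ q ∈ S, (1 - 2 * (k : ℝ) ^ 2 * (1 / (q : ℝ)) ^ 2) := by
        apply mul_le_mul _ hB (by norm_num) (pow_nonneg
          (Finset.prod_nonneg fun q hq => (one_sub_pos (hmemS q hq).2.2).1.le) k)
        apply pow_le_pow_left₀ (mul_nonneg hc0 hlog0)
        exact (mul_le_mul_of_nonneg_left hlog hc0).trans hA
    _ ≤ Piy L m1 k := hprod

end Pool.Agent.ISO
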