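import Pool.Agent.ISO.Defs
import Pool.Agent.VOID.Orth
import Pool.Agent.VOID.Quad

/-!
ISO/QuadF.  Mean square over a complete period, for a general family `τ` of sets of sites, as in VOID/Quad.
-/

set_option autoImplicit false

open Finset Pool.Agent.RS Pool.Agent.VOID

namespace Pool.Agent.ISO

variable {ι κ : Type} [Fintype ι] [DecidableEq ι] [DecidableEq κ]

theorem per_PT {Q1 : ℕ} {a : κ → ℤ} {ψ : ℤ → ℝ} (hψ : Per Q1 ψ) (T : Finset κ) :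
    Per Q1 (PT ψ a T) := by
  intro n
  unfold PT
  refine Finset.prod_congr rfl fun j _ => ?_
  have h := hψ (n - a j)
  have h2 : n + (Q1 : ℤ) - a j = n - a j + (Q1 : ℤ) := by ring
  rw [h2]
  exact h

variable [Fintype κ]

theorem quadF {p : ι → ℕ} (hp : ∀ i, 2 ≤ p i) (hc : ∀ i j, i ≠ j → Nat.Coprime (p i) (p j))
    {Q1 : ℕ} (hQ1 : 0 < Q1) (hcQ : ∀ i, Nat.Coprime Q1 (p i)) {a : κ → ℤ}
    (hd : ∀ i j j', j ≠ j' → ¬ (p i : ℤ) ∣ a j - a j') {ψ F0 : ℤ → ℝ} (hψ : Per Q1 ψ)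
    (hF0 : Per Q1 F0) (τ : (ι → Option κ) → Finset κ) (Z : (ι → Option κ) → ℝ) {U : ℝ}
    (hU0 : 0 ≤ U)
    (hU : ∀ σ σ', Z σ ≠ 0 → Z σ' ≠ 0 →
      |mean Q1 (fun n => F0 n * (PT ψ a (τ σ) n * PT ψ a (τ σ') n))| ≤ U) :
    |mean (Q1 * ∏ i, p i) (fun n => F0 n * GP p a ψ τ Z n ^ 2) -
      ∑ σ, Z σ ^ 2 / PH p (supp σ) * mean Q1 (fun n => F0 n * PT ψ a (τ σ) n ^ 2)| ≤
      U * offs p Z := by
  classical
  set m : (ι → Option κ) → (ι → Option κ) → ℝ := fun σ σ' =>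
    mean Q1 (fun n => F0 n * (PT ψ a (τ σ) n * PT ψ a (τ σ') n)) with hm
  set g : (ι → Option κ) → (ι → Option κ) → ℝ := fun σ σ' =>
    ∏ i, GG (p i) (σ i) (σ' i) with hg
  have hper : ∀ σ σ' : ι → Option κ, Per Q1 (fun n => F0 n * (PT ψ a (τ σ) n * PT ψ a (τ σ') n)) := by
    intro σ σ' n
    show F0 (n + (Q1 : ℤ)) * (PT ψ a (τ σ) (n + (Q1 : ℤ)) * PT ψ a (τ σ') (n + (Q1 : ℤ))) = _
    rw [hF0 n, per_PT hψ (τ σ) n, per_PT hψ (τ σ') n]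
  have h1 : (fun n => F0 n * GP p a ψ τ Z n ^ 2) = fun n => ∑ σ, ∑ σ', (Z σ * Z σ') *
      (F0 n * (PT ψ a (τ σ) n * PT ψ a (τ σ') n) * (EE p a σ n * EE p a σ' n)) := by
    funext n
    unfold GP
    rw [pow_two, Finset.sum_mul_sum, Finset.mul_sum]
    refine Finset.sum_congr rfl fun σ _ => ?_
    rw [Finset.mul_sum]
    refine Finset.sum_congr rfl fun σ' _ => ?_
    ring
  have h2 : mean (Q1 * ∏ i, p i) (fun n => F0 n * GP p a ψ τ Z n ^ 2) =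
      ∑ σ, ∑ σ', (Z σ * Z σ') * (m σ σ' * g σ σ') := by
    rw [h1, mean_sum]
    refine Finset.sum_congr rfl fun σ _ => ?_
    rw [mean_sum]
    refine Finset.sum_congr rfl fun σ' _ => ?_
    rw [mean_const_mul (Q := Q1 * ∏ i, p i) (Z σ * Z σ')
      (F := fun n => F0 n * (PT ψ a (τ σ) n * PT ψ a (τ σ') n) * (EE p a σ n * EE p a σ' n))]
    rw [orth hp hc hQ1 hcQ hd (hper σ σ') σ σ']
  have h3 : ∀ σ, ∑ σ', (Z σ * Z σ') * (m σ σ' * g σ σ') =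
      Z σ ^ 2 / PH p (supp σ) * mean Q1 (fun n => F0 n * PT ψ a (τ σ) n ^ 2) +
      ∑ σ' ∈ (univ : Finset (ι → Option κ)).erase σ, (Z σ * Z σ') * (m σ σ' * g σ σ') := by
    intro σ
    rw [← Finset.add_sum_erase _ _ (Finset.mem_univ σ)]
    have h4 : (Z σ * Z σ) * (m σ σ * g σ σ) =
        Z σ ^ 2 / PH p (supp σ) * mean Q1 (fun n => F0 n * PT ψ a (τ σ) n ^ 2) := by
      have h5 : g σ σ = 1 / PH p (supp σ) := prod_GG_self p σ
      have h6 : m σ σ = mean Q1 (fun n => F0 n * PT ψ a (τ σ) n ^ 2) := by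
        show mean Q1 (fun n => F0 n * (PT ψ a (τ σ) n * PT ψ a (τ σ) n)) = _
        have h7 : (fun n => F0 n * (PT ψ a (τ σ) n * PT ψ a (τ σ) n)) =
            fun n => F0 n * PT ψ a (τ σ) n ^ 2 := by
          funext n
          ring
        rw [h7]
      rw [h5, h6]
      ring
    rw [h4]
  rw [h2, Finset.sum_congr rfl fun σ _ => h3 σ, Finset.sum_add_distrib, add_sub_cancel_left]
  unfold offs
  rw [Finset.mul_sum]
  refine (Finset.abs_sum_le_sum_abs _ _).trans (Finset.sum_le_sum fun σ _ => ?_)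
  rw [Finset.mul_sum]
  refine (Finset.abs_sum_le_sum_abs _ _).trans (Finset.sum_le_sum fun σ' _ => ?_)
  rw [abs_mul, abs_mul (m σ σ')]
  by_cases hz : Z σ * Z σ' = 0
  · rw [hz]
    simp
  · have hz1 : Z σ ≠ 0 := fun h => hz (by rw [h, zero_mul])
    have hz2 : Z σ' ≠ 0 := fun h => hz (by rw [h, mul_zero])
    have h8 : |m σ σ'| ≤ U := hU σ σ' hz1 hz2
    have h9 : 0 ≤ |Z σ * Z σ'| * |g σ σ'| := mul_nonneg (abs_nonneg _) (abs_nonneg _)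
    calc |Z σ * Z σ'| * (|m σ σ'| * |g σ σ'|) = |m σ σ'| * (|Z σ * Z σ'| * |g σ σ'|) := by ring
      _ ≤ U * (|Z σ * Z σ'| * |g σ σ'|) := mul_le_mul_of_nonneg_right h8 h9

end Pool.Agent.ISO
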