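import Pool.Agent.ISO.Defs
import Pool.Agent.ISO.ParI
import Pool.Agent.AV.Sd
import Pool.Agent.IPT.YhF
import Pool.Agent.IPT.Split
import Pool.Agent.IPT.CgB

/-!
ISO/SdI.  The standing data `SI` and the first facts: sites, bounds and levels of the coefficients, counts.
Proved with the facts of AV/Sd, IPT/YhF, IPT/Split, IPT/CgB.
-/

set_option autoImplicit false

open Finset Pool.Agent.RS Pool.Agent.AT Pool.Agent.VOID Pool.Agent.AV Pool.Agent.IPT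

namespace Pool.Agent.ISO

/-- all the data -/
structure SI (CV0 CV : ℝ) (G r k G' t0 P L M H : ℕ) (R : Finset ℕ) (t : Fin k → ℕ)
    (g s m1 d N : ℕ) : Prop where
  sd : SD CV0 CV G r P L M H R g s m1 d N
  pi : PI G r k L m1 d N
  pik : 1 ≤ (2 : ℝ) ^ (L / 100) * Piy L m1 k
  k1 : 1 ≤ k
  tinj : Function.Injective t
  tH : ∀ i, t i < H
  tR : ∀ i, t i ∉ R
  hkL : R.card + k ≤ L
  t0G : t0 * 2 ^ G' < dd L

variable {CV0 CV : ℝ} {G r k G' t0 P L M H : ℕ} {R : Finset ℕ} {t : Fin k → ℕ} {g s m1 d N : ℕ}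

private theorem sdi_hp {L m1 : ℕ} : ∀ i : Iy L m1, 2 ≤ py L m1 i := fun i => (py_mem i).1.two_le

private theorem sdi_PP0 {L m1 : ℕ} (S : Finset (Iy L m1)) : 0 < PP (py L m1) S :=
  lt_of_lt_of_le one_pos (one_le_PP sdi_hp S)

private theorem sdi_Yt {ι κ : Type} [Fintype ι] [DecidableEq ι] [DecidableEq κ] [Fintype κ]
    {y : Finset ι → ℝ} (hy : ∀ S, |y S| ≤ 1) (σ : ι → Option κ) : |Yt y σ| ≤ 1 := by
  unfold Yt
  rw [Finset.abs_prod]
  exact Finset.prod_le_one (fun _ _ => abs_nonneg _) fun _ _ => hy _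

theorem si_a (si : SI CV0 CV G r k G' t0 P L M H R t g s m1 d N) :
    (∀ x, |a2 R t x| < (L : ℤ) ^ 2) ∧ Function.Injective (a2 R t) := by
  have hH : (H : ℤ) ≤ (L : ℤ) ^ 2 := by exact_mod_cast si.sd.hH
  refine ⟨?_, ?_⟩
  · rintro (j | i)
    · have h1 : (j : ℕ) < H := mem_range.1 (si.sd.hR j.2)
      have h2 : ((j : ℕ) : ℤ) < (H : ℤ) := by exact_mod_cast h1
      show |(-((j : ℕ) : ℤ))| < (L : ℤ) ^ 2
      rw [abs_neg, Nat.abs_cast]
      exact lt_of_lt_of_le h2 hH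
    · have h2 : ((t i : ℕ) : ℤ) < (H : ℤ) := by exact_mod_cast si.tH i
      show |(-((t i : ℕ) : ℤ))| < (L : ℤ) ^ 2
      rw [abs_neg, Nat.abs_cast]
      exact lt_of_lt_of_le h2 hH
  · rintro (j | i) (j' | i') h
    · have h1 : (-((j : ℕ) : ℤ)) = -((j' : ℕ) : ℤ) := h
      have h2 : (j : ℕ) = (j' : ℕ) := by exact_mod_cast neg_injective h1
      rw [Subtype.ext h2]
    · have h1 : (-((j : ℕ) : ℤ)) = -((t i' : ℕ) : ℤ) := h
      have h2 : (j : ℕ) = t i' := by exact_mod_cast neg_injective h1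
      exact absurd (h2 ▸ j.2) (si.tR i')
    · have h1 : (-((t i : ℕ) : ℤ)) = -((j' : ℕ) : ℤ) := h
      have h2 : t i = (j' : ℕ) := by exact_mod_cast neg_injective h1
      exact absurd (h2 ▸ j'.2) (si.tR i)
    · have h1 : (-((t i : ℕ) : ℤ)) = -((t i' : ℕ) : ℤ) := h
      have h2 : t i = t i' := by exact_mod_cast neg_injective h1
      rw [si.tinj h2]

theorem si_card (si : SI CV0 CV G r k G' t0 P L M H R t g s m1 d N) :
    Fintype.card ({j : ℕ // j ∈ R} ⊕ Fin k) ≤ L + 2 := by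
  rw [Fintype.card_sum, Fintype.card_coe, Fintype.card_fin]
  have := si.hkL
  omega

theorem yy_abs (si : SI CV0 CV G r k G' t0 P L M H R t g s m1 d N) (S : Finset (Iy L m1)) :
    |yy L m1 s S| ≤ 1 :=
  wt_abs sdi_hp (hlog_y si.sd.pb si.sd.hG3).2 S

theorem yh_abs (L m1 t0 G' : ℕ) (S : Finset (Iy L m1)) : |yh (py L m1) t0 G' S| ≤ 1 := by
  rw [abs_of_nonneg (yh_nonneg _ _ _ _), ← yh_empty (py L m1) t0 G']
  exact yh_mono sdi_hp t0 G' S ∅ (Finset.empty_subset S)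

private theorem sdi_lev {L m1 : ℕ} {α β : Type} [DecidableEq α] [DecidableEq β]
    {σ : Iy L m1 → Option (α ⊕ β)} {a b : ℝ} (h1 : PP (py L m1) (supp (lp σ)) ≤ a)
    (h2 : PP (py L m1) (supp (rp σ)) ≤ b) : PP (py L m1) (supp σ) ≤ a * b := by
  rw [PP_split]
  exact mul_le_mul h1 h2 (sdi_PP0 _).le ((sdi_PP0 _).le.trans h1)

private theorem sdi_tL (si : SI CV0 CV G r k G' t0 P L M H R t g s m1 d N)
    {σ : Iy L m1 → Option ({j : ℕ // j ∈ R} ⊕ Fin k)}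
    (h1 : PP (py L m1) (supp (lp σ)) ≤ 2 ^ d) : (tL σ).card ≤ N := by
  have h2 := py_card si.sd.pb.pl.m_pos _ h1
  have h3 := card_Tc_le (lp σ)
  rw [tL_card, si.sd.pb.pl.hN]
  exact h3.trans h2

theorem si_YI (si : SI CV0 CV G r k G' t0 P L M H R t g s m1 d N)
    (σ : Iy L m1 → Option ({j : ℕ // j ∈ R} ⊕ Fin k)) :
    |YI L m1 s d R k t0 G' σ| ≤ 1 ∧ (YI L m1 s d R k t0 G' σ ≠ 0 →
      PP (py L m1) (supp σ) ≤ 2 ^ d * 2 ^ dd L ∧ (tL σ).card ≤ N) := by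
  unfold YI Y2
  constructor
  · rw [abs_mul]
    exact mul_le_one₀ (Yd_abs (yy_abs si) _ _) (abs_nonneg _) (Yd_abs (yh_abs L m1 t0 G') _ _)
  · intro h
    have h1 := Yd_supp (left_ne_zero_of_mul h)
    have h2 := Yd_supp (right_ne_zero_of_mul h)
    exact ⟨sdi_lev h1 h2, sdi_tL si h1⟩

theorem si_ZA (si : SI CV0 CV G r k G' t0 P L M H R t g s m1 d N) (j : {j : ℕ // j ∈ R})
    (σ : Iy L m1 → Option ({j : ℕ // j ∈ R} ⊕ Fin k)) :
    |ZA (py L m1) (yy L m1 s) (yh (py L m1) t0 G') (2 ^ d) (2 ^ dd L) j σ| ≤ 1 ∧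
    (ZA (py L m1) (yy L m1 s) (yh (py L m1) t0 G') (2 ^ d) (2 ^ dd L) j σ ≠ 0 →
      PP (py L m1) (supp σ) ≤ 2 ^ d * 2 ^ dd L ∧ (tL σ).card ≤ N ∧
        cell σ (Sum.inl j) = ∅) := by
  unfold ZA
  by_cases hc : cell σ (Sum.inl j) = ∅
  · rw [if_pos hc]
    constructor
    · rw [abs_mul, abs_mul]
      have h1 := cg_wt_abs (D := (2 : ℝ) ^ d) (sdi_hp (L := L) (m1 := m1))
        (hlog_y si.sd.pb si.sd.hG3).1 (sdi_PP0 (supp (lp σ))) (supp σ)
      exact mul_le_one₀ (mul_le_one₀ (sdi_Yt (yy_abs si) _) (abs_nonneg _) h1) (abs_nonneg _)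
        (Yd_abs (yh_abs L m1 t0 G') _ _)
    · intro h
      have h2 := Yd_supp (right_ne_zero_of_mul h)
      have h1 : PP (py L m1) (supp (lp σ)) ≤ 2 ^ d := by
        by_contra hcon
        exact right_ne_zero_of_mul (left_ne_zero_of_mul h)
          (cg_zero sdi_hp _ (sdi_PP0 _) (not_le.1 hcon) _)
      exact ⟨sdi_lev h1 h2, sdi_tL si h1, hc⟩
  · rw [if_neg hc]
    exact ⟨by rw [abs_zero]; exact zero_le_one, fun h => absurd rfl h⟩

theorem si_ZB (si : SI CV0 CV G r k G' t0 P L M H R t g s m1 d N) (i : Fin k)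
    (σ : Iy L m1 → Option ({j : ℕ // j ∈ R} ⊕ Fin k)) :
    |ZB (py L m1) (yy L m1 s) (yh (py L m1) t0 G') (2 ^ d) (2 ^ dd L) i σ| ≤
      SA (py L m1) (yh (py L m1) t0 G') ∧
    (ZB (py L m1) (yy L m1 s) (yh (py L m1) t0 G') (2 ^ d) (2 ^ dd L) i σ ≠ 0 →
      PP (py L m1) (supp σ) ≤ 2 ^ d * 2 ^ dd L ∧ (tL σ).card ≤ N ∧
        cell σ (Sum.inr i) = ∅) := by
  have hy0 : ∀ S, 0 ≤ yh (py L m1) t0 G' S := yh_nonneg _ _ _
  have hSA : 0 ≤ SA (py L m1) (yh (py L m1) t0 G') :=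
    (cg_nonneg sdi_hp hy0 1 1 ∅).trans (cg_le sdi_hp hy0 1 1 ∅)
  unfold ZB
  by_cases hc : cell σ (Sum.inr i) = ∅
  · rw [if_pos hc]
    constructor
    · rw [abs_mul, abs_mul]
      have h1 := cg_nonneg sdi_hp hy0 (2 ^ dd L) (PP (py L m1) (supp (rp σ))) (supp σ)
      have h2 := cg_le sdi_hp hy0 (2 ^ dd L) (PP (py L m1) (supp (rp σ))) (supp σ)
      have h3 : |cg (py L m1) (yh (py L m1) t0 G') (2 ^ dd L) (PP (py L m1) (supp (rp σ))) (supp σ)| ≤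
          SA (py L m1) (yh (py L m1) t0 G') := by
        rw [abs_of_nonneg h1]
        exact h2
      have h4 : |Yt (yh (py L m1) t0 G') (rp σ)| ≤ 1 := sdi_Yt (yh_abs L m1 t0 G') _
      have h5 : |Yd (py L m1) (yy L m1 s) (2 ^ d) (lp σ)| ≤ 1 := Yd_abs (yy_abs si) _ _
      have h6 := mul_le_mul h4 h3 (abs_nonneg _) zero_le_one
      have h7 := mul_le_mul h5 h6 (mul_nonneg (abs_nonneg _) (abs_nonneg _)) zero_le_one
      rw [one_mul, one_mul] at h7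
      exact h7
    · intro h
      have h1 := Yd_supp (left_ne_zero_of_mul h)
      have h2 : PP (py L m1) (supp (rp σ)) ≤ 2 ^ dd L := by
        by_contra hcon
        exact right_ne_zero_of_mul (right_ne_zero_of_mul h)
          (cg_zero sdi_hp _ (sdi_PP0 _) (not_le.1 hcon) _)
      exact ⟨sdi_lev h1 h2, sdi_tL si h1, hc⟩
  · rw [if_neg hc]
    exact ⟨by rw [abs_zero]; exact hSA, fun h => absurd rfl h⟩

theorem si_N2 (si : SI CV0 CV G r k G' t0 P L M H R t g s m1 d N) {κ : Type} [DecidableEq κ]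
    {σ : Iy L m1 → Option κ} (h : PP (py L m1) (supp σ) ≤ 2 ^ d * 2 ^ dd L) :
    (supp σ).card ≤ (d + dd L) / m1 := by
  rw [← pow_add] at h
  exact py_card si.sd.pb.pl.m_pos _ h

open Classical in
theorem si_cnt (si : SI CV0 CV G r k G' t0 P L M H R t g s m1 d N) {κ : Type} [DecidableEq κ]
    [Fintype κ] (hκ : Fintype.card κ ≤ L + 2) (Z : (Iy L m1 → Option κ) → ℝ)
    (hZ : ∀ σ, Z σ ≠ 0 → PP (py L m1) (supp σ) ≤ 2 ^ d * 2 ^ dd L) :
    (((univ : Finset (Iy L m1 → Option κ)).filter (fun σ => Z σ ≠ 0)).card : ℝ) ≤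
      2 * (2 ^ d * 2 ^ dd L) ^ 2 := by
  have hL : 4 ≤ L := by
    have := si.sd.pb.big
    omega
  have h1 := cnt_y (L := L) (m1 := m1) hL κ hκ (D := 2 ^ d * 2 ^ dd L) (by positivity)
  refine le_trans ?_ h1
  have h2 : ((univ : Finset (Iy L m1 → Option κ)).filter (fun σ => Z σ ≠ 0)) ⊆
      (univ : Finset (Iy L m1 → Option κ)).filter
        (fun σ => PP (py L m1) (supp σ) ≤ 2 ^ d * 2 ^ dd L) := by
    intro σ hσ
    rw [mem_filter] at hσ ⊢
    exact ⟨mem_univ _, hZ σ hσ.2⟩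
  exact_mod_cast card_le_card h2

end Pool.Agent.ISO
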