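import Pool.Agent.ISO.SdI
import Pool.Agent.ISO.PiLow
import Pool.Agent.AT.Wm

/-!
ISO/SdJ.  Further facts about the standing data.
-/

set_option autoImplicit false

open Finset Pool.Agent.RS Pool.Agent.AT Pool.Agent.VOID Pool.Agent.AV Pool.Agent.IPT

namespace Pool.Agent.ISO

variable {CV0 CV : ℝ} {G r k G' t0 P L M H : ℕ} {R : Finset ℕ} {t : Fin k → ℕ} {g s m1 d N : ℕ}

private theorem sj_hp {L m1 : ℕ} (i : Iy L m1) : 2 ≤ py L m1 i := (py_mem i).1.two_le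

private theorem sj_PH {L m1 : ℕ} (S : Finset (Iy L m1)) : 0 < PH (py L m1) S :=
  lt_of_lt_of_le one_pos (one_le_PH sj_hp S)

private theorem sj_PP {L m1 : ℕ} (S : Finset (Iy L m1)) : 0 < PP (py L m1) S :=
  lt_of_lt_of_le one_pos (one_le_PP sj_hp S)

private theorem sj_supp {ι κ : Type} [Fintype ι] [DecidableEq κ] :
    supp (fun _ : ι => (none : Option κ)) = ∅ := by
  simp [supp]

private theorem sj_cell {ι κ : Type} [Fintype ι] [DecidableEq κ] (j : κ) :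
    cell (fun _ : ι => (none : Option κ)) j = ∅ := by
  simp [cell]

private theorem sj_Yt {ι κ : Type} [Fintype ι] [DecidableEq ι] [DecidableEq κ] [Fintype κ] {y : Finset ι → ℝ}
    (hy : y ∅ = 1) : Yt y (fun _ : ι => (none : Option κ)) = 1 := by
  unfold Yt
  refine Finset.prod_eq_one fun j _ => ?_
  rw [sj_cell, hy]

private theorem sj_Yd {ι κ : Type} [Fintype ι] [DecidableEq ι] [DecidableEq κ] [Fintype κ] {y : Finset ι → ℝ}
    (p : ι → ℕ) {D : ℝ} (hy : y ∅ = 1) (hD : 1 ≤ D) : Yd p y D (fun _ : ι => (none : Option κ)) = 1 := by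
  unfold Yd
  rw [sj_supp, PP_empty, if_pos hD, sj_Yt hy]

private theorem sj_tL {ι α β : Type} [Fintype ι] [DecidableEq ι] [DecidableEq α] [DecidableEq β] [Fintype α] :
    (tL (fun _ : ι => (none : Option (α ⊕ β)))).card = 0 := by
  rw [tL_card, Finset.card_eq_zero]
  have e1 : lp (fun _ : ι => (none : Option (α ⊕ β))) = fun _ => none := rfl
  rw [e1]
  unfold Tc
  refine Finset.filter_eq_empty_iff.2 fun j _ h => h (sj_cell j)

private theorem sj_nn (L m1 j : ℕ) : 0 ≤ Piy L m1 j := piy_nn L m1 j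

theorem si_pos (si : SI CV0 CV G r k G' t0 P L M H R t g s m1 d N) : 0 < Piy L m1 k := by
  rcases (piy_nn L m1 k).eq_or_lt with h | h
  · have h1 := si.pik
    rw [← h, mul_zero] at h1
    exact absurd h1 (by norm_num)
  · exact h

theorem si_ZI (si : SI CV0 CV G r k G' t0 P L M H R t g s m1 d N) :
    Piy L m1 k ≤ ZI L m1 s d R k t0 G' := by
  unfold ZI MZ
  have h1 := Finset.single_le_sum
    (f := fun σ : Iy L m1 → Option ({j : ℕ // j ∈ R} ⊕ Fin k) =>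
      YI L m1 s d R k t0 G' σ ^ 2 / PH (py L m1) (supp σ) * Piy L m1 (k + (tL σ).card))
    (s := Finset.univ) (fun σ _ => mul_nonneg (div_nonneg (sq_nonneg _) (sj_PH _).le) (piy_nn _ _ _))
    (Finset.mem_univ (fun _ : Iy L m1 => (none : Option ({j : ℕ // j ∈ R} ⊕ Fin k))))
  refine le_trans (le_of_eq ?_) h1
  have h4 : YI L m1 s d R k t0 G' (fun _ : Iy L m1 => (none : Option ({j : ℕ // j ∈ R} ⊕ Fin k))) = 1 := by
    unfold YI Y2
    have e1 : lp (fun _ : Iy L m1 => (none : Option ({j : ℕ // j ∈ R} ⊕ Fin k))) =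
        fun _ => none := rfl
    have e2 : rp (fun _ : Iy L m1 => (none : Option ({j : ℕ // j ∈ R} ⊕ Fin k))) =
        fun _ => none := rfl
    have hy : yy L m1 s ∅ = 1 := wt_empty _ _
    have d1 : (1 : ℝ) ≤ 2 ^ d := one_le_pow₀ (by norm_num)
    have d2 : (1 : ℝ) ≤ 2 ^ dd L := one_le_pow₀ (by norm_num)
    rw [e1, e2, sj_Yd (py L m1) hy d1, sj_Yd (py L m1) (yh_empty _ _ _) d2, one_mul]
  show Piy L m1 k = YI L m1 s d R k t0 G' (fun _ : Iy L m1 => (none : Option ({j : ℕ // j ∈ R} ⊕ Fin k))) ^ 2 /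
    PH (py L m1) (supp (fun _ : Iy L m1 => (none : Option ({j : ℕ // j ∈ R} ⊕ Fin k)))) *
    Piy L m1 (k + (tL (fun _ : Iy L m1 => (none : Option ({j : ℕ // j ∈ R} ⊕ Fin k)))).card)
  rw [h4, sj_supp, sj_tL, PH_empty, add_zero]
  norm_num

theorem si_SA (L m1 t0 G' : ℕ) : 1 ≤ SA (py L m1) (yh (py L m1) t0 G') := by
  unfold SA
  have h1 := Finset.single_le_sum
    (f := fun S : Finset (Iy L m1) => yh (py L m1) t0 G' S / PH (py L m1) S)
    (s := Finset.univ) (fun S _ => div_nonneg (yh_nonneg _ _ _ _) (sj_PH _).le)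
    (Finset.mem_univ (∅ : Finset (Iy L m1)))
  refine le_trans (le_of_eq ?_) h1
  show 1 = yh (py L m1) t0 G' ∅ / PH (py L m1) ∅
  rw [yh_empty, PH_empty, div_one]

theorem si_QI (si : SI CV0 CV G r k G' t0 P L M H R t g s m1 d N) (i : Fin k) :
    SA (py L m1) (yh (py L m1) t0 G') ^ 2 * Piy L m1 (k - 1) ≤ QI L m1 s d R t0 G' i := by
  unfold QI MZ
  have h1 := Finset.single_le_sum
    (f := fun σ : Iy L m1 → Option ({j : ℕ // j ∈ R} ⊕ Fin k) =>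
      ZB (py L m1) (yy L m1 s) (yh (py L m1) t0 G') (2 ^ d) (2 ^ dd L) i σ ^ 2 / PH (py L m1) (supp σ) *
        Piy L m1 (k - 1 + (tL σ).card))
    (s := Finset.univ) (fun σ _ => mul_nonneg (div_nonneg (sq_nonneg _) (sj_PH _).le) (piy_nn _ _ _))
    (Finset.mem_univ (fun _ : Iy L m1 => (none : Option ({j : ℕ // j ∈ R} ⊕ Fin k))))
  refine le_trans (le_of_eq ?_) h1
  have h4 : ZB (py L m1) (yy L m1 s) (yh (py L m1) t0 G') (2 ^ d) (2 ^ dd L) i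
      (fun _ : Iy L m1 => (none : Option ({j : ℕ // j ∈ R} ⊕ Fin k))) =
      SA (py L m1) (yh (py L m1) t0 G') := by
    unfold ZB
    have e1 : lp (fun _ : Iy L m1 => (none : Option ({j : ℕ // j ∈ R} ⊕ Fin k))) =
        fun _ => none := rfl
    have e2 : rp (fun _ : Iy L m1 => (none : Option ({j : ℕ // j ∈ R} ⊕ Fin k))) =
        fun _ => none := rfl
    have hy : yy L m1 s ∅ = 1 := wt_empty _ _
    have d1 : (1 : ℝ) ≤ 2 ^ d := one_le_pow₀ (by norm_num)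
    rw [if_pos (sj_cell _), e1, e2, sj_Yd (py L m1) hy d1,
      sj_Yt (yh_empty _ _ _), sj_supp, sj_supp, PP_empty, cg_one, one_mul, one_mul]
    intro S hS
    exact (yh_supp hS).trans (pow_le_pow_right₀ one_le_two si.t0G.le)
  show SA (py L m1) (yh (py L m1) t0 G') ^ 2 * Piy L m1 (k - 1) =
    ZB (py L m1) (yy L m1 s) (yh (py L m1) t0 G') (2 ^ d) (2 ^ dd L) i
      (fun _ : Iy L m1 => (none : Option ({j : ℕ // j ∈ R} ⊕ Fin k))) ^ 2 /
    PH (py L m1) (supp (fun _ : Iy L m1 => (none : Option ({j : ℕ // j ∈ R} ⊕ Fin k)))) *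
    Piy L m1 (k - 1 + (tL (fun _ : Iy L m1 => (none : Option ({j : ℕ // j ∈ R} ⊕ Fin k)))).card)
  rw [h4, sj_supp, sj_tL, PH_empty, add_zero, div_one]

theorem si_cg1 (si : SI CV0 CV G r k G' t0 P L M H R t g s m1 d N) (V : ℝ)
    (U : Finset (Iy L m1)) (hV : 0 < V) : |cg (py L m1) (yy L m1 s) (2 ^ d) V U| ≤ 1 :=
  cg_wt_abs sj_hp (hlog_y si.sd.pb si.sd.hG3).1 hV U

private theorem sj_z {L m1 : ℕ} (i : Iy L m1) : (2 : ℝ) ^ m1 ≤ (py L m1 i : ℝ) - 1 := by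
  have h1 : 2 ^ m1 + 1 ≤ py L m1 i := (py_mem i).2.1
  have h2 : ((2 : ℝ) ^ m1 + 1) ≤ (py L m1 i : ℝ) := by exact_mod_cast h1
  linarith

theorem si_cg2 (si : SI CV0 CV G r k G' t0 P L M H R t g s m1 d N)
    (σ : Iy L m1 → Option ({j : ℕ // j ∈ R} ⊕ Fin k))
    (h1 : PP (py L m1) (supp (lp σ)) ≤ 2 ^ d / 2 ^ s)
    (h2 : PP (py L m1) (supp (rp σ)) ≤ 2 ^ dd L) :
    |cg (py L m1) (yy L m1 s) (2 ^ d) (PP (py L m1) (supp (lp σ))) (supp σ)| ≤
      2 * (RR G r : ℝ) / 2 ^ m1 := by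
  have h2pow : ∀ n : ℕ, (0 : ℝ) < 2 ^ n := fun n => pow_pos two_pos n
  obtain ⟨hHpos, hHlog⟩ := hlog_y si.sd.pb si.sd.hG3
  have hS1 : (1 : ℝ) ≤ 2 ^ s := one_le_pow₀ (by norm_num)
  have hU1 : PP (py L m1) (supp (lp σ)) * (2 : ℝ) ^ s ≤ 2 ^ d := by
    rwa [le_div_iff₀ (h2pow s)] at h1
  refine (cg_wt_small sj_hp hS1 hHpos hHlog (sj_PP _) hU1 _).trans ?_
  have h3 : ∑ i ∈ supp σ, 2 / ((py L m1 i : ℝ) - 1) ≤ ∑ _i ∈ supp σ, 2 / (2 : ℝ) ^ m1 :=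
    Finset.sum_le_sum fun i _ => div_le_div_of_nonneg_left zero_le_two (h2pow m1) (sj_z i)
  refine h3.trans ?_
  rw [sum_const, nsmul_eq_mul]
  have hsd0 : (2 : ℝ) ^ d / 2 ^ s ≤ 2 ^ d := div_le_self (h2pow d).le hS1
  have h4 : PP (py L m1) (supp σ) ≤ 2 ^ d * 2 ^ dd L := by
    rw [PP_split]
    exact mul_le_mul (h1.trans hsd0) h2 (sj_PP _).le (h2pow d).le
  have h5 : ((supp σ).card : ℝ) ≤ RR G r := by
    exact_mod_cast (si_N2 si h4).trans si.pi.N2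
  rw [mul_div_assoc', mul_comm ((supp σ).card : ℝ) 2]
  apply div_le_div_of_nonneg_right _ (h2pow m1).le
  linarith only [h5]

theorem si_sq (si : SI CV0 CV G r k G' t0 P L M H R t g s m1 d N) :
    ∑ i, (Fintype.card {j : ℕ // j ∈ R} : ℝ) * Fintype.card (Fin k) /
      ((py L m1 i : ℝ) - 1) ^ 2 ≤ 1 / 2 := by
  have hL : 10 ^ 6 ≤ L := si.sd.pb.big
  have hLr : (10 : ℝ) ^ 6 ≤ L := by exact_mod_cast hL
  have h4L : 4 ≤ L := by omega
  have h3 : ∑ i : Iy L m1, 1 / (py L m1 i : ℝ) ^ 2 ≤ 1 / (L : ℝ) ^ 6 := by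
    have e1 : ∑ i : Iy L m1, 1 / (py L m1 i : ℝ) ^ 2 =
        ∑ q ∈ prz (2 ^ dd L) \ EB L m1 (dd L) ∅, 1 / (q : ℝ) ^ 2 :=
      Finset.sum_coe_sort (prz (2 ^ dd L) \ EB L m1 (dd L) ∅) fun q => 1 / (q : ℝ) ^ 2
    rw [e1]
    refine (Finset.sum_le_sum_of_subset_of_nonneg ?_ fun q _ _ => by positivity).trans
      (sum_inv_sq h4L ∅ (2 ^ dd L))
    exact Finset.sdiff_subset_sdiff (Finset.Subset.refl _) Finset.subset_union_left
  have hcR : (Fintype.card {j : ℕ // j ∈ R} : ℝ) ≤ L := by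
    have h5 : Fintype.card {j : ℕ // j ∈ R} ≤ L := by
      rw [Fintype.card_coe]
      have := si.hkL
      omega
    exact_mod_cast h5
  have hck : (Fintype.card (Fin k) : ℝ) ≤ L := by
    have h5 : Fintype.card (Fin k) ≤ L := by
      rw [Fintype.card_fin]
      have := si.hkL
      omega
    exact_mod_cast h5
  have hc : (Fintype.card {j : ℕ // j ∈ R} : ℝ) * Fintype.card (Fin k) ≤ (L : ℝ) ^ 2 := by
    rw [sq]
    exact mul_le_mul hcR hck (Nat.cast_nonneg _) (Nat.cast_nonneg _)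
  have h6 : ∀ i : Iy L m1, (Fintype.card {j : ℕ // j ∈ R} : ℝ) * Fintype.card (Fin k) /
      ((py L m1 i : ℝ) - 1) ^ 2 ≤ 4 * (L : ℝ) ^ 2 * (1 / (py L m1 i : ℝ) ^ 2) := by
    intro i
    have h7 : (2 : ℝ) ≤ py L m1 i := by exact_mod_cast sj_hp i
    rw [mul_one_div, div_le_div_iff₀ (by nlinarith) (by positivity)]
    have h8 : (py L m1 i : ℝ) ^ 2 ≤ 4 * ((py L m1 i : ℝ) - 1) ^ 2 := by nlinarith
    calc (Fintype.card {j : ℕ // j ∈ R} : ℝ) * Fintype.card (Fin k) * (py L m1 i : ℝ) ^ 2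
        ≤ (L : ℝ) ^ 2 * (4 * ((py L m1 i : ℝ) - 1) ^ 2) := mul_le_mul hc h8 (sq_nonneg _) (sq_nonneg _)
      _ = 4 * (L : ℝ) ^ 2 * ((py L m1 i : ℝ) - 1) ^ 2 := by ring
  refine (Finset.sum_le_sum fun i _ => h6 i).trans ?_
  rw [← Finset.mul_sum]
  refine (mul_le_mul_of_nonneg_left h3 (by positivity)).trans ?_
  rw [mul_one_div, div_le_div_iff₀ (by positivity) (by norm_num)]
  have c2 : (8 : ℝ) ≤ (L : ℝ) ^ 4 := by
    have : (10 : ℝ) ^ 6 ≤ (L : ℝ) ^ 4 := by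
      calc (10 : ℝ) ^ 6 ≤ L := hLr
        _ = (L : ℝ) ^ 1 := (pow_one _).symm
        _ ≤ (L : ℝ) ^ 4 := pow_le_pow_right₀ (by linarith) (by norm_num)
    linarith
  have c3 : (L : ℝ) ^ 6 = (L : ℝ) ^ 2 * L ^ 4 := by ring
  rw [c3]
  have c4 : (0 : ℝ) ≤ (L : ℝ) ^ 2 := sq_nonneg _
  nlinarith

theorem si_mono (si : SI CV0 CV G r k G' t0 P L M H R t g s m1 d N) (S T : Finset (Iy L m1))
    (h : T ⊆ S) : |yy L m1 s S| ≤ |yy L m1 s T| ∧
      |yh (py L m1) t0 G' S| ≤ |yh (py L m1) t0 G' T| := by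
  obtain ⟨hHpos, hHlog⟩ := hlog_y si.sd.pb si.sd.hG3
  refine ⟨wt_mono sj_hp hHpos hHlog S T h, ?_⟩
  rw [abs_of_nonneg (yh_nonneg _ _ _ _), abs_of_nonneg (yh_nonneg _ _ _ _)]
  exact yh_mono sj_hp t0 G' S T h

theorem si_N3 (si : SI CV0 CV G r k G' t0 P L M H R t g s m1 d N) (S : Finset (Iy L m1))
    (hS : PP (py L m1) S ≤ 2 ^ d * (2 ^ (t0 * 2 ^ G')) ^ Fintype.card (Fin k)) :
    ∑ i ∈ S, 1 / ((py L m1 i : ℝ) - 1) ≤ 1 / 2 := by
  have hL : 10 ^ 6 ≤ L := si.sd.pb.big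
  have hLr : (10 : ℝ) ^ 6 ≤ L := by exact_mod_cast hL
  have hm := si.sd.pb.pl.m_pos
  have h1 : PP (py L m1) S ≤ 2 ^ (d + t0 * 2 ^ G' * k) := by
    rw [pow_add, pow_mul, ← Fintype.card_fin k]
    exact hS
  have h2 := py_card hm S h1
  have hddL : dd L ≤ L := by
    unfold dd
    exact Nat.div_le_self _ _
  have hdL : d ≤ L := by
    rw [si.sd.pb.pl.hd]
    exact Nat.div_le_self _ _
  have hkL : k ≤ L := by
    have := si.hkL
    omega
  have h3 : S.card ≤ L + L * L := by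
    refine h2.trans ((Nat.div_le_self _ _).trans ?_)
    exact Nat.add_le_add hdL (Nat.mul_le_mul (si.t0G.le.trans hddL) hkL)
  have h4 : ∑ i ∈ S, 1 / ((py L m1 i : ℝ) - 1) ≤ ∑ _i ∈ S, 1 / (L : ℝ) ^ 6 := by
    refine Finset.sum_le_sum fun i _ => ?_
    have h5 : (L : ℝ) ^ 6 ≤ (2 : ℝ) ^ m1 := by exact_mod_cast si.sd.pb.pl.L6
    exact one_div_le_one_div_of_le (by positivity) (h5.trans (sj_z i))
  refine h4.trans ?_
  rw [sum_const, nsmul_eq_mul]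
  have h6 : (S.card : ℝ) ≤ (L : ℝ) + L * L := by exact_mod_cast h3
  rw [mul_one_div, div_le_div_iff₀ (by positivity) (by norm_num)]
  have c2 : (4 : ℝ) ≤ (L : ℝ) ^ 4 := by
    have : (10 : ℝ) ^ 6 ≤ (L : ℝ) ^ 4 := by
      calc (10 : ℝ) ^ 6 ≤ L := hLr
        _ = (L : ℝ) ^ 1 := (pow_one _).symm
        _ ≤ (L : ℝ) ^ 4 := pow_le_pow_right₀ (by linarith) (by norm_num)
    linarith
  have c3 : (L : ℝ) ^ 6 = (L * L : ℝ) * L ^ 4 := by ring
  have c4 : (L : ℝ) ≤ L * L := by nlinarith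
  rw [c3]
  nlinarith

end Pool.Agent.ISO
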