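import Pool.Agent.ISO.CntR
import Pool.Agent.IPT.AvgT
import Pool.Agent.IPT.SgF
import Pool.Agent.Helper52.PrimeSums

/-!
ISO/SurvA.  The average number of survivors, and Markov's inequality.
-/

set_option autoImplicit false

namespace Pool.Agent.ISO

open Finset Pool.Agent.REC Pool.Agent.IPT

theorem surv_avg {w k : ℕ} (R : Finset ℕ) {t : Fin k → ℕ} (h : ∀ p : ℕ, p.Prime → nu p t < p)
    (H : ℕ) : ∑ b ∈ GbM w R t, ((SvM w R b H).card : ℝ) ≤
      (GbM w R t).card * (((Mod w R).totient : ℝ) / (Mod w R : ℝ) *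
        (H * Real.exp k + (dens w)⁻¹ ^ k)) := by
  have e1 : ∑ b ∈ GbM w R t, ((SvM w R b H).card : ℝ) =
      ∑ j ∈ range H, (((GbM w R t).filter (fun b => Nat.Coprime (b + j) (Mod w R))).card : ℝ) := by
    unfold SvM
    simp only [Finset.card_filter]
    push_cast
    exact Finset.sum_comm
  have h0 : (0 : ℝ) ≤ (GbM w R t).card * (((Mod w R).totient : ℝ) / (Mod w R : ℝ)) := by positivity
  have h1 : ∑ j ∈ range H, Ph w t j ≤ H * Real.exp k + (dens w)⁻¹ ^ k := by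
    have h2 := avg_T w H t
    have h3 : (H : ℝ) * Sg w t ≤ H * Real.exp k :=
      mul_le_mul_of_nonneg_left (Sg_exp w t) (Nat.cast_nonneg H)
    linarith
  calc ∑ b ∈ GbM w R t, ((SvM w R b H).card : ℝ)
      = ∑ j ∈ range H, (((GbM w R t).filter (fun b => Nat.Coprime (b + j) (Mod w R))).card : ℝ) := e1
    _ ≤ ∑ j ∈ range H, ((GbM w R t).card * (((Mod w R).totient : ℝ) / (Mod w R : ℝ) * Ph w t j)) :=
        Finset.sum_le_sum fun j _ => cnt_R R h j
    _ = (GbM w R t).card * (((Mod w R).totient : ℝ) / (Mod w R : ℝ)) * ∑ j ∈ range H, Ph w t j := by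
        rw [Finset.mul_sum]
        refine Finset.sum_congr rfl fun j _ => ?_
        ring
    _ ≤ (GbM w R t).card * (((Mod w R).totient : ℝ) / (Mod w R : ℝ)) *
        (H * Real.exp k + (dens w)⁻¹ ^ k) := mul_le_mul_of_nonneg_left h1 h0
    _ = _ := by ring

theorem dens_low {w : ℕ} (hw : 2 ≤ w) : Real.exp (-9) / (2 * (Nat.log 2 w : ℝ)) ≤ dens w := by
  obtain ⟨m, hm⟩ : ∃ m, m = Nat.log 2 w := ⟨_, rfl⟩
  have hm1 : 1 ≤ m := by
    rw [hm]
    exact Nat.log_pos (by norm_num) hw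
  have hlt : w < 2 ^ (m + 1) := by
    rw [hm]
    exact Nat.lt_pow_succ_log_self (by norm_num) w
  have hpr : Pool.Agent.Helper52.pr 0 (2 ^ (m + 1)) = prs (2 ^ (m + 1)) := by
    ext q
    rw [Pool.Agent.Helper52.mem_pr, mem_prs]
    constructor
    · rintro ⟨_, h2, h3⟩
      exact ⟨h3, h2⟩
    · rintro ⟨h2, h3⟩
      exact ⟨h2.pos, h3, h2⟩
  have hlo := Pool.Agent.Helper52.prod_lower (a := m + 1) (by omega)
  rw [hpr] at hlo
  have hfac : ∀ p ∈ prs (2 ^ (m + 1)), (0 : ℝ) ≤ 1 - 1 / (p : ℝ) ∧ 1 - 1 / (p : ℝ) ≤ 1 := by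
    intro p hp
    have h2 : (2 : ℝ) ≤ p := by exact_mod_cast (mem_prs.1 hp).1.two_le
    have h3 : 1 / (p : ℝ) ≤ 1 := by
      rw [div_le_one (by linarith)]
      linarith
    have h4 : 0 ≤ 1 / (p : ℝ) := by positivity
    constructor <;> linarith
  have hsub : prs w ⊆ prs (2 ^ (m + 1)) := by
    intro p hp
    rw [mem_prs] at hp ⊢
    exact ⟨hp.1, by omega⟩
  have hmono : REC.dens (2 ^ (m + 1)) ≤ REC.dens w := by
    unfold REC.dens
    rw [← Finset.prod_sdiff hsub]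
    have h1 : ∏ p ∈ prs (2 ^ (m + 1)) \ prs w, (1 - 1 / (p : ℝ)) ≤ 1 :=
      Finset.prod_le_one (fun p hp => (hfac p (Finset.mem_sdiff.1 hp).1).1)
        (fun p hp => (hfac p (Finset.mem_sdiff.1 hp).1).2)
    have h2 : 0 ≤ ∏ p ∈ prs w, (1 - 1 / (p : ℝ)) :=
      Finset.prod_nonneg fun p hp => (hfac p (hsub hp)).1
    calc _ ≤ 1 * ∏ p ∈ prs w, (1 - 1 / (p : ℝ)) := mul_le_mul_of_nonneg_right h1 h2
      _ = _ := one_mul _
  rw [← hm]
  have hmr : (1 : ℝ) ≤ m := by exact_mod_cast hm1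
  calc Real.exp (-9) / (2 * (m : ℝ)) ≤ Real.exp (-9) / ((m + 1 : ℕ) : ℝ) := by
        refine div_le_div_of_nonneg_left (Real.exp_pos _).le (by positivity) ?_
        push_cast
        linarith
    _ ≤ REC.dens (2 ^ (m + 1)) := hlo
    _ ≤ REC.dens w := hmono

private theorem sa_large (k : ℕ) : ∃ L0 : ℕ, ∀ L : ℕ, L0 ≤ L →
    (2 * Real.exp 9 * (Nat.log 2 L : ℝ)) ^ k ≤ L := by
  have hc : (0 : ℝ) < ((4 * Real.exp 9) ^ k)⁻¹ := by positivity
  have h1 := (Real.isLittleO_pow_log_id_atTop (n := k)).bound hc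
  have h2 := tendsto_natCast_atTop_atTop (R := ℝ) |>.eventually h1
  obtain ⟨L0, hL0⟩ := Filter.eventually_atTop.1 h2
  refine ⟨max L0 1, fun L hL => ?_⟩
  have hL1 : 1 ≤ L := le_trans (le_max_right _ _) hL
  have hL1r : (1 : ℝ) ≤ L := by exact_mod_cast hL1
  have h3 := hL0 L (le_trans (le_max_left _ _) hL)
  have hlog : 0 ≤ Real.log L := Real.log_nonneg hL1r
  rw [Real.norm_of_nonneg (by positivity), id, Real.norm_of_nonneg (by positivity)] at h3
  have h4 : (Nat.log 2 L : ℝ) ≤ 2 * Real.log L := by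
    have h5 : (2 : ℝ) ^ Nat.log 2 L ≤ L := by
      have := Nat.pow_log_le_self 2 (x := L) (by omega)
      exact_mod_cast this
    have h6 := Real.log_le_log (by positivity) h5
    rw [Real.log_pow] at h6
    have h7 := Real.log_two_gt_d9
    have h8 : (0 : ℝ) ≤ (Nat.log 2 L : ℝ) := Nat.cast_nonneg _
    nlinarith
  calc (2 * Real.exp 9 * (Nat.log 2 L : ℝ)) ^ k ≤ (4 * Real.exp 9 * Real.log L) ^ k := by
        refine pow_le_pow_left₀ (by positivity) ?_ k
        have := Real.exp_pos 9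
        nlinarith
    _ = (4 * Real.exp 9) ^ k * Real.log L ^ k := mul_pow _ _ _
    _ ≤ (4 * Real.exp 9) ^ k * (((4 * Real.exp 9) ^ k)⁻¹ * L) :=
        mul_le_mul_of_nonneg_left h3 (by positivity)
    _ = L := by
        rw [← mul_assoc, mul_inv_cancel₀ (by positivity), one_mul]

theorem half_good (k : ℕ) {Λ : ℝ} (hΛ : 0 < Λ) : ∃ Λ' : ℝ, 0 < Λ' ∧ ∃ L0 : ℕ, ∀ L : ℕ, L0 ≤ L →
    ∀ (w : ℕ) (R : Finset ℕ), 2 ≤ w → w ≤ L → Nat.log 2 L ≤ 2 * Nat.log 2 w →
    ((Mod w R).totient : ℝ) ≤ 8 * (Mod w R : ℝ) / (Nat.log 2 w : ℝ) →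
    ∀ (H : ℕ) (t : Fin k → ℕ), (H : ℝ) ≤ Λ * L → (∀ p : ℕ, p.Prime → nu p t < p) →
    ((GbM w R t).card : ℝ) / 2 ≤ (((GbM w R t).filter (fun b =>
      ((SvM w R b H).card : ℝ) * (Nat.log 2 L : ℝ) ≤ Λ' * L)).card : ℝ) := by
  obtain ⟨L0, hL0⟩ := sa_large k
  obtain ⟨c, hc⟩ : ∃ c : ℝ, c = Λ * Real.exp k + 1 := ⟨_, rfl⟩
  have hc0 : 0 < c := by
    rw [hc]
    positivity
  refine ⟨32 * c, by linarith, max L0 1, fun L hL w R hw hwL hlog hφ H t hH hadm => ?_⟩
  have hL1 : 1 ≤ L := le_trans (le_max_right _ _) hL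
  have hLp : (0 : ℝ) < L := by exact_mod_cast hL1
  have h1 := hL0 L (le_trans (le_max_left _ _) hL)
  have hlw1 : 1 ≤ Nat.log 2 w := Nat.log_pos (by norm_num) hw
  have hlw : (0 : ℝ) < (Nat.log 2 w : ℝ) := by exact_mod_cast hlw1
  have hlwL : (Nat.log 2 w : ℝ) ≤ (Nat.log 2 L : ℝ) := by
    exact_mod_cast Nat.log_mono_right hwL
  have hlL : (Nat.log 2 L : ℝ) ≤ 2 * (Nat.log 2 w : ℝ) := by exact_mod_cast hlog
  have hM : (0 : ℝ) < (Mod w R : ℝ) := by
    have : 0 < Mod w R := Finset.prod_pos fun p hp => (mem_prs.1 (Finset.mem_sdiff.1 hp).1).1.pos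
    exact_mod_cast this
  have hφ' : ((Mod w R).totient : ℝ) / (Mod w R : ℝ) ≤ 8 / (Nat.log 2 w : ℝ) := by
    rw [div_le_div_iff₀ hM hlw]
    rw [le_div_iff₀ hlw] at hφ
    exact hφ
  have hd := dens_low hw
  have hd0 : (0 : ℝ) < Real.exp (-9) / (2 * (Nat.log 2 w : ℝ)) := by positivity
  have hdi : (dens w)⁻¹ ≤ 2 * Real.exp 9 * (Nat.log 2 w : ℝ) := by
    have h2 : (dens w)⁻¹ ≤ (Real.exp (-9) / (2 * (Nat.log 2 w : ℝ)))⁻¹ := inv_anti₀ hd0 hd
    refine h2.trans (le_of_eq ?_)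
    rw [inv_div, Real.exp_neg]
    field_simp
  have hdik : (dens w)⁻¹ ^ k ≤ L := by
    refine le_trans (pow_le_pow_left₀ (inv_nonneg.2 (hd0.le.trans hd)) hdi k) ?_
    refine le_trans (pow_le_pow_left₀ (by positivity) ?_ k) h1
    exact mul_le_mul_of_nonneg_left hlwL (by positivity)
  have hHe : (H : ℝ) * Real.exp k ≤ Λ * L * Real.exp k :=
    mul_le_mul_of_nonneg_right hH (Real.exp_pos _).le
  have hsum := surv_avg (w := w) R hadm H
  have hG : (0 : ℝ) ≤ ((GbM w R t).card : ℝ) := Nat.cast_nonneg _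
  have hlL0 : (0 : ℝ) ≤ (Nat.log 2 L : ℝ) := Nat.cast_nonneg _
  have htot : (∑ b ∈ GbM w R t, ((SvM w R b H).card : ℝ)) * (Nat.log 2 L : ℝ) ≤
      (GbM w R t).card * (16 * c * L) := by
    calc (∑ b ∈ GbM w R t, ((SvM w R b H).card : ℝ)) * (Nat.log 2 L : ℝ)
        ≤ (GbM w R t).card * (((Mod w R).totient : ℝ) / (Mod w R : ℝ) *
            (H * Real.exp k + (dens w)⁻¹ ^ k)) * (Nat.log 2 L : ℝ) :=
          mul_le_mul_of_nonneg_right hsum hlL0
      _ ≤ (GbM w R t).card * (8 / (Nat.log 2 w : ℝ) * (c * L)) * (2 * (Nat.log 2 w : ℝ)) := by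
          refine mul_le_mul ?_ hlL hlL0 (by positivity)
          refine mul_le_mul_of_nonneg_left ?_ hG
          have h5 : (H : ℝ) * Real.exp k + (dens w)⁻¹ ^ k ≤ c * L := by
            rw [hc]
            have : (Λ * Real.exp k + 1) * (L : ℝ) = Λ * L * Real.exp k + L := by ring
            rw [this]
            linarith
          have h6 : (0 : ℝ) ≤ H * Real.exp k + (dens w)⁻¹ ^ k := by
            have : 0 ≤ (dens w)⁻¹ := inv_nonneg.2 (hd0.le.trans hd)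
            positivity
          exact mul_le_mul hφ' h5 h6 (by positivity)
      _ = (GbM w R t).card * (16 * c * L) := by
          field_simp
          ring
  obtain ⟨B, hB⟩ : ∃ B : Finset ℕ, B = (GbM w R t).filter (fun b =>
      ¬ ((SvM w R b H).card : ℝ) * (Nat.log 2 L : ℝ) ≤ 32 * c * L) := ⟨_, rfl⟩
  have hBs : (B.card : ℝ) * (32 * c * L) ≤ (GbM w R t).card * (16 * c * L) := by
    calc (B.card : ℝ) * (32 * c * L) = ∑ b ∈ B, 32 * c * (L : ℝ) := by
          rw [Finset.sum_const, nsmul_eq_mul]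
      _ ≤ ∑ b ∈ B, ((SvM w R b H).card : ℝ) * (Nat.log 2 L : ℝ) := by
          refine Finset.sum_le_sum fun b hb => ?_
          rw [hB] at hb
          exact (not_le.1 (mem_filter.1 hb).2).le
      _ ≤ ∑ b ∈ GbM w R t, ((SvM w R b H).card : ℝ) * (Nat.log 2 L : ℝ) := by
          refine Finset.sum_le_sum_of_subset_of_nonneg ?_ fun b _ _ => by positivity
          rw [hB]
          exact Finset.filter_subset _ _
      _ = (∑ b ∈ GbM w R t, ((SvM w R b H).card : ℝ)) * (Nat.log 2 L : ℝ) := by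
          rw [Finset.sum_mul]
      _ ≤ _ := htot
  have hBc : (B.card : ℝ) ≤ ((GbM w R t).card : ℝ) / 2 := by
    have h7 : (0 : ℝ) < 16 * c * L := by positivity
    have h8 : (B.card : ℝ) * 2 * (16 * c * L) ≤ (GbM w R t).card * (16 * c * L) := by
      calc (B.card : ℝ) * 2 * (16 * c * L) = (B.card : ℝ) * (32 * c * L) := by ring
        _ ≤ _ := hBs
    have h9 := le_of_mul_le_mul_right h8 h7
    linarith
  have hcard := Finset.card_filter_add_card_filter_not (s := GbM w R t) (fun b =>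
      ((SvM w R b H).card : ℝ) * (Nat.log 2 L : ℝ) ≤ 32 * c * L)
  rw [← hB] at hcard
  have hcard' : (((GbM w R t).filter (fun b =>
      ((SvM w R b H).card : ℝ) * (Nat.log 2 L : ℝ) ≤ 32 * c * L)).card : ℝ) + B.card =
        (GbM w R t).card := by exact_mod_cast hcard
  linarith

end Pool.Agent.ISO
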