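import Pool.Agent.ISO.ClsI
import Pool.Agent.ISO.SurvA
import Pool.Agent.ISO.GbLow
import Pool.Agent.ISO.ModX

/-!
ISO/TupP.  Isolated prime tuples: the sum over the residue classes.
Sum of `cls_I` over the good classes of `GbM w R t` (`half_good`, `gb_low`).
-/

set_option autoImplicit false

open Finset Pool.Agent.RS Pool.Agent.AT Pool.Agent.VOID Pool.Agent.AV Pool.Agent.IPT Pool.Agent.REC

namespace Pool.Agent.ISO

private theorem tup_sq {L : ℕ} (h : 5 ≤ L) : L ^ 2 + L ≤ 2 ^ L := by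
  induction L, h using Nat.le_induction with
  | base => norm_num
  | succ n hn ih =>
    have h1 : (n + 1) ^ 2 + (n + 1) ≤ 2 * (n ^ 2 + n) := by nlinarith
    have h2 : 2 ^ (n + 1) = 2 * 2 ^ n := pow_succ' 2 n
    linarith

private theorem tup_log {P : ℕ} (hL : 5 ≤ Nat.log 2 P) :
    2 ^ Nat.log 2 P ≤ P ∧ Real.log P ≤ (Nat.log 2 P : ℝ) ∧ (Nat.log 2 P : ℝ) ≤ 2 * Real.log P := by
  have hP : P ≠ 0 := by
    rintro rfl
    simp at hL
  have hPr : (0 : ℝ) < P := by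
    have : 0 < P := Nat.pos_of_ne_zero hP
    exact_mod_cast this
  set L := Nat.log 2 P with hLdef
  have h0 : 2 ^ L ≤ P := Nat.pow_log_le_self 2 hP
  have hLr : (5 : ℝ) ≤ L := by exact_mod_cast hL
  refine ⟨h0, ?_, ?_⟩
  · have h1 : P < 2 ^ (L + 1) := Nat.lt_pow_succ_log_self (by norm_num) P
    have h2 : (P : ℝ) ≤ 2 ^ (L + 1) := by exact_mod_cast h1.le
    have h3 : Real.log P ≤ (L + 1 : ℝ) * Real.log 2 := by
      refine (Real.log_le_log hPr h2).trans ?_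
      rw [Real.log_pow]
      push_cast
      exact le_refl _
    have h4 := Real.log_two_lt_d9
    have h5 : (L + 1 : ℝ) * Real.log 2 ≤ (L + 1 : ℝ) * (7 / 10) :=
      mul_le_mul_of_nonneg_left (by linarith) (by positivity)
    linarith
  · have h2 : (2 : ℝ) ^ L ≤ P := by exact_mod_cast h0
    have h3 : (L : ℝ) * Real.log 2 ≤ Real.log P := by
      rw [← Real.log_pow]
      exact Real.log_le_log (by positivity) h2
    have h4 := Real.log_two_gt_d9
    nlinarith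

/-- the numbers -/
private theorem tup_num {c1 c2 P M lL lw L lP g N S : ℝ} {k : ℕ} (hc1 : 0 < c1) (hc2 : 0 < c2)
    (hP : 0 ≤ P) (hM : 0 < M) (hlw : 0 < lw) (hle : lw ≤ lL) (hL : 0 < L) (hlP : L ≤ 2 * lP)
    (hg : c2 * M / lw ^ k ≤ g) (hN : g / 2 ≤ N) (hS : N * (c1 * (P / M) * (lL / L) ^ k) ≤ S) :
    c1 * c2 / 2 ^ (k + 1) * P / lP ^ k ≤ S := by
  have hlP0 : 0 < lP := by linarith
  have h1 : c2 * M / lw ^ k / 2 ≤ N := le_trans (by linarith) hN
  have h2 : 0 ≤ c1 * (P / M) * (lL / L) ^ k := by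
    have : 0 ≤ lL := hlw.le.trans hle
    positivity
  refine le_trans ?_ ((mul_le_mul_of_nonneg_right h1 h2).trans hS)
  have e1 : c2 * M / lw ^ k / 2 * (c1 * (P / M) * (lL / L) ^ k) =
      c1 * c2 / 2 * P * ((lL / lw) ^ k * (1 / L) ^ k) := by
    rw [div_pow, div_pow, div_pow, one_pow]
    field_simp
  have e2 : c1 * c2 / 2 ^ (k + 1) * P / lP ^ k = c1 * c2 / 2 * P * (1 * (1 / (2 * lP)) ^ k) := by
    rw [div_pow, one_pow, mul_pow, pow_succ]
    field_simp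
  rw [e1, e2]
  refine mul_le_mul_of_nonneg_left ?_ (by positivity)
  have h3 : 0 ≤ lL := hlw.le.trans hle
  refine mul_le_mul ?_ ?_ (by positivity) (by positivity)
  · refine one_le_pow₀ ?_
    rw [le_div_iff₀ hlw]
    linarith
  · refine pow_le_pow_left₀ (by positivity) ?_ k
    exact one_div_le_one_div_of_le hL hlP

open Classical in
theorem tup_P (m : ℕ) : ∃ k : ℕ, 0 < k ∧ ∀ Λ : ℝ, 0 < Λ → ∃ c : ℝ, 0 < c ∧ ∃ B P0 : ℕ,
    ∀ P : ℕ, P0 ≤ P → ∃ 𝒮 : Set ℕ, ∀ H : ℕ, (H : ℝ) ≤ Λ * Real.log P →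
    ∀ t : Fin k → ℕ, Function.Injective t → (∀ i, t i < H) → (∀ p : ℕ, p.Prime → nu p t < p) →
    c * P / Real.log P ^ k ≤ (((Ioc (P - H) (4 * P)).filter (fun n =>
      (∀ j < H, (n + j).Prime → ∃ i, j = t i) ∧
      m + 1 ≤ ((univ : Finset (Fin k)).filter (fun i => (n + t i).Prime)).card ∧
      (∀ i, n + t i ∈ 𝒮) ∧ ((range H).filter (fun j => n + j ∈ 𝒮)).card ≤ B)).card : ℝ) := by
  obtain ⟨κ0, hκ0, PX, hX⟩ := mod_X
  obtain ⟨k, hk, hcls⟩ := cls_I m hκ0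
  refine ⟨k, hk, fun Λ hΛ => ?_⟩
  obtain ⟨Λ', hΛ', Lh, hhalf⟩ := half_good k hΛ
  obtain ⟨c1, hc1, B, Pc, hcls'⟩ := hcls Λ' hΛ'
  obtain ⟨c2, hc2, hgb⟩ := gb_low k
  refine ⟨c1 * c2 / 2 ^ (k + 1), by positivity, B,
    max PX (max Pc (2 ^ (Lh + ⌈Λ⌉₊ + 5))), fun P hP => ?_⟩
  have hPX : PX ≤ P := (le_max_left _ _).trans hP
  have hPc : Pc ≤ P := (le_max_left _ _).trans ((le_max_right _ _).trans hP)
  have hP2 : 2 ^ (Lh + ⌈Λ⌉₊ + 5) ≤ P := (le_max_right _ _).trans ((le_max_right _ _).trans hP)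
  have hN0 : Lh + ⌈Λ⌉₊ + 5 ≤ Nat.log 2 P := Nat.le_log_of_pow_le (by norm_num) hP2
  obtain ⟨𝒮0, h𝒮0⟩ := hcls' P hPc
  obtain ⟨L, hL⟩ : ∃ L : ℕ, L = Nat.log 2 P := ⟨_, rfl⟩
  obtain ⟨hPL, hlog1, hlog2⟩ := tup_log (P := P) (by omega)
  rw [← hL] at hN0 hPL hlog1 hlog2
  have hL5 : 5 ≤ L := by omega
  have hLr : (5 : ℝ) ≤ L := by exact_mod_cast hL5
  have hLΛ : Λ ≤ L := (Nat.le_ceil Λ).trans (by exact_mod_cast (by omega : ⌈Λ⌉₊ ≤ L))
  obtain ⟨w, R, hw2, hwL, hLw, hRw, hMP, htot, hpsi⟩ := hX P hPX L hL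
  obtain ⟨M, hM⟩ : ∃ M : ℕ, M = Mod w R := ⟨_, rfl⟩
  refine ⟨{n | n ∈ 𝒮0 ∧ Nat.Coprime n M}, fun H hH t htinj htH hnu => ?_⟩
  have hHL : (H : ℝ) ≤ Λ * L := hH.trans (mul_le_mul_of_nonneg_left hlog1 hΛ.le)
  have hHL2 : H ≤ L ^ 2 := by
    have h1 : (H : ℝ) ≤ (L : ℝ) ^ 2 := by
      refine hHL.trans ?_
      rw [sq]
      exact mul_le_mul_of_nonneg_right hLΛ (by linarith)
    exact_mod_cast h1
  have hhg := hhalf L (by omega) w R hw2 hwL hLw htot H t hHL hnu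
  have hgbc := hgb w R t hw2 hnu
  have hMpos : 0 < M := by
    rw [hM]
    exact Mod_pos w R
  have hMr : (0 : ℝ) < M := by exact_mod_cast hMpos
  have hPbig : H + w ≤ P := by
    have := tup_sq hL5
    omega
  obtain ⟨𝒢, h𝒢⟩ : ∃ 𝒢 : Finset ℕ, 𝒢 = (GbM w R t).filter (fun b =>
      ((SvM w R b H).card : ℝ) * (Nat.log 2 L : ℝ) ≤ Λ' * L) := ⟨_, rfl⟩
  rw [← h𝒢] at hhg
  set Rb : ℕ → Finset ℕ := fun b => SvM w R b H \ (univ : Finset (Fin k)).image t with hRb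
  have hadm : ∀ b ∈ 𝒢, AdmV Λ' P L M H (Rb b) := by
    intro b hb
    rw [h𝒢, mem_filter] at hb
    refine ⟨hL, hMpos, ?_, ?_, hHL2, ?_, ?_⟩
    · intro q hq hLq
      rw [Nat.coprime_comm, hq.coprime_iff_not_dvd, hM, prime_dvd_Mod hq]
      rintro ⟨h1, -⟩
      have h2 : L ≤ L ^ 6 := Nat.le_self_pow (by norm_num) L
      omega
    · rw [hM]
      exact hMP
    · exact sdiff_subset.trans (filter_subset _ _)
    · refine le_trans (mul_le_mul_of_nonneg_right ?_ (Nat.cast_nonneg _)) hb.2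
      exact_mod_cast card_le_card sdiff_subset
  have hcopM : ∀ b ∈ 𝒢, ∀ i, Nat.Coprime (b + t i) M := by
    intro b hb i
    rw [h𝒢, mem_filter] at hb
    have h1 := hb.1
    unfold GbM at h1
    rw [mem_filter] at h1
    rw [hM]
    exact h1.2 i
  obtain ⟨N, hN⟩ : ∃ N : ℕ → Finset ℕ, N = fun b => (Nw P H M b).filter (fun n =>
      (∀ j ∈ Rb b, ¬ (n + j).Prime) ∧
        m + 1 ≤ ((univ : Finset (Fin k)).filter (fun i => (n + t i).Prime)).card ∧
        (∀ i, n + t i ∈ 𝒮0) ∧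
        ((Rb b ∪ univ.image t).filter (fun j => n + j ∈ 𝒮0)).card ≤ B) := ⟨_, rfl⟩
  have hNc : ∀ b ∈ 𝒢, c1 * ((P : ℝ) / M) * ((Nat.log 2 L : ℝ) / L) ^ k ≤ ((N b).card : ℝ) := by
    intro b hb
    rw [hN]
    refine h𝒮0 L M H (Rb b) (hadm b hb) b t htinj htH ?_ ?_
    · intro i hi
      simp only [hRb, mem_sdiff] at hi
      exact hi.2 (mem_image_of_mem t (mem_univ i))
    · intro i
      refine ⟨hcopM b hb i, ?_⟩
      have h1 := hcopM b hb i
      rw [hM] at h1 ⊢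
      exact hpsi _ h1
  have hNmem : ∀ b n, n ∈ N b → (P - H < n ∧ n ≤ 4 * P) ∧ n ≡ b [MOD M] := by
    intro b n hn
    rw [hN] at hn
    have h1 := (mem_filter.1 hn).1
    unfold Nw at h1
    rw [mem_filter, mem_Ioc] at h1
    exact h1
  have hcop : ∀ b n j, n ≡ b [MOD M] → (Nat.Coprime (n + j) M ↔ Nat.Coprime (b + j) M) := by
    intro b n j h
    have h2 : Nat.gcd (n + j) M = Nat.gcd (b + j) M := (Nat.ModEq.add_right j h).gcd_eq
    unfold Nat.Coprime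
    rw [h2]
  set T : Finset ℕ := (Ioc (P - H) (4 * P)).filter (fun n =>
      (∀ j < H, (n + j).Prime → ∃ i, j = t i) ∧
      m + 1 ≤ ((univ : Finset (Fin k)).filter (fun i => (n + t i).Prime)).card ∧
      (∀ i, n + t i ∈ {n | n ∈ 𝒮0 ∧ Nat.Coprime n M}) ∧
      ((range H).filter (fun j => n + j ∈ {n | n ∈ 𝒮0 ∧ Nat.Coprime n M})).card ≤ B) with hT
  have hsub : ∀ b ∈ 𝒢, N b ⊆ T := by
    intro b hb n hn
    obtain ⟨h1, h2⟩ := hNmem b n hn
    rw [hN] at hn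
    obtain ⟨-, n1, n2, n3, n4⟩ := mem_filter.1 hn
    rw [hT, mem_filter, mem_Ioc]
    refine ⟨h1, ?_, n2, ?_, ?_⟩
    · intro j hj hjp
      by_contra hno
      push Not at hno
      refine n1 j ?_ hjp
      have hcopq : Nat.Coprime (n + j) M := by
        rw [hjp.coprime_iff_not_dvd, hM, prime_dvd_Mod hjp]
        rintro ⟨h3, -⟩
        omega
      simp only [hRb]
      rw [mem_sdiff]
      refine ⟨?_, fun hmem => ?_⟩
      · unfold SvM
        rw [mem_filter, mem_range, ← hM]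
        exact ⟨hj, (hcop b n j h2).1 hcopq⟩
      · obtain ⟨i, -, hi⟩ := mem_image.1 hmem
        exact hno i hi.symm
    · intro i
      exact ⟨n3 i, (hcop b n (t i) h2).2 (hcopM b hb i)⟩
    · refine le_trans (card_le_card ?_) n4
      intro j hj
      rw [mem_filter, mem_range] at hj
      obtain ⟨hjH, hj1, hj2⟩ := hj
      rw [mem_filter]
      refine ⟨?_, hj1⟩
      rw [mem_union]
      by_cases hji : j ∈ (univ : Finset (Fin k)).image t
      · exact Or.inr hji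
      · left
        simp only [hRb]
        rw [mem_sdiff]
        refine ⟨?_, hji⟩
        unfold SvM
        rw [mem_filter, mem_range, ← hM]
        exact ⟨hjH, (hcop b n j h2).1 hj2⟩
  have hbM : ∀ b ∈ 𝒢, b < M := by
    intro b hb
    rw [h𝒢, mem_filter] at hb
    have h1 := hb.1
    unfold GbM at h1
    rw [mem_filter, mem_range] at h1
    rw [hM]
    exact h1.1
  have hdisj : (𝒢 : Set ℕ).PairwiseDisjoint N := by
    intro b hb b' hb' hne
    rw [Function.onFun, Finset.disjoint_left]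
    intro n hn hn'
    have h1 := (hNmem b n hn).2
    have h2 := (hNmem b' n hn').2
    have h3 : b ≡ b' [MOD M] := h1.symm.trans h2
    exact hne (Nat.ModEq.eq_of_lt_of_lt h3 (hbM b hb) (hbM b' hb'))
  have hcard : ((𝒢.card : ℕ) : ℝ) * (c1 * ((P : ℝ) / M) * ((Nat.log 2 L : ℝ) / L) ^ k) ≤
      (T.card : ℝ) := by
    have h1 : (𝒢.biUnion N).card ≤ T.card :=
      card_le_card (Finset.biUnion_subset.2 hsub)
    rw [Finset.card_biUnion hdisj] at h1
    have h2 : ((∑ b ∈ 𝒢, (N b).card : ℕ) : ℝ) ≤ (T.card : ℝ) := by exact_mod_cast h1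
    refine le_trans ?_ h2
    push_cast
    rw [← nsmul_eq_mul, ← Finset.sum_const]
    exact Finset.sum_le_sum hNc
  have hlw1 : 1 ≤ Nat.log 2 w := Nat.le_log_of_pow_le (by norm_num) (by omega)
  have hlw : (0 : ℝ) < (Nat.log 2 w : ℝ) := by exact_mod_cast hlw1
  have hle : (Nat.log 2 w : ℝ) ≤ (Nat.log 2 L : ℝ) := by
    exact_mod_cast Nat.log_mono_right hwL
  rw [← hM] at hgbc
  have hfin := tup_num hc1 hc2 (Nat.cast_nonneg P) hMr hlw hle (by linarith) hlog2 hgbc hhg hcard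
  rw [hT] at hfin
  convert hfin

end Pool.Agent.ISO
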