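import Pool.Agent.ISO.TupP
import Pool.Agent.ISO.CntAdm

/-!
ISO/WinI.  Windows at given places: positive proportion.
-/

set_option autoImplicit false

open Finset Pool.Agent.IPT

namespace Pool.Agent.ISO

open Classical in
private lemma wi_double {α : Type} (A : Finset α) (W : Finset ℕ) (r : α → ℕ → Prop) (X Y : ℝ) (N : ℕ)
    (hX : X ≤ (A.card : ℝ)) (hY0 : 0 ≤ Y) (hY : ∀ t ∈ A, Y ≤ ((W.filter (fun n => r t n)).card : ℝ))
    (hN : ∀ n ∈ W, (A.filter (fun t => r t n)).card ≤ N) : X * Y ≤ (W.card : ℝ) * N := by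
  have h1 : ∑ t ∈ A, (W.filter (fun n => r t n)).card = ∑ n ∈ W, (A.filter (fun t => r t n)).card :=
    Finset.sum_card_bipartiteAbove_eq_sum_card_bipartiteBelow r
  have h2 : ∑ n ∈ W, (A.filter (fun t => r t n)).card ≤ W.card * N := by
    have := Finset.sum_le_card_nsmul W _ N hN
    simpa using this
  have h3 : (A.card : ℝ) * Y ≤ ∑ t ∈ A, ((W.filter (fun n => r t n)).card : ℝ) := by
    have := Finset.card_nsmul_le_sum A (fun t => ((W.filter (fun n => r t n)).card : ℝ)) Y hY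
    simpa using this
  calc X * Y ≤ (A.card : ℝ) * Y := mul_le_mul_of_nonneg_right hX hY0
    _ ≤ ∑ t ∈ A, ((W.filter (fun n => r t n)).card : ℝ) := h3
    _ = ((∑ t ∈ A, (W.filter (fun n => r t n)).card : ℕ) : ℝ) := by push_cast; rfl
    _ = ((∑ n ∈ W, (A.filter (fun t => r t n)).card : ℕ) : ℝ) := by rw [h1]
    _ ≤ ((W.card * N : ℕ) : ℝ) := by exact_mod_cast h2
    _ = (W.card : ℝ) * N := by push_cast; rfl

open Classical in
theorem win_I (m : ℕ) : ∃ k : ℕ, 0 < k ∧ ∀ δ Λ : ℝ, 0 < δ → 0 < Λ → ∃ c : ℝ, 0 < c ∧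
    ∃ P0 : ℕ, ∀ P : ℕ, P0 ≤ P → ∀ H : ℕ, (H : ℝ) ≤ Λ * Real.log P →
    ∀ u : Fin k → ℕ, (∀ i, u i + ⌊δ * Real.log P⌋₊ ≤ H) →
    c * P ≤ (((Ioc (P - H) (4 * P)).filter (fun n => ∃ t : Fin k → ℕ, Function.Injective t ∧
      (∀ i, u i ≤ t i ∧ t i < u i + ⌊δ * Real.log P⌋₊) ∧
      (∀ j < H, (n + j).Prime → ∃ i, j = t i) ∧
      m + 1 ≤ ((univ : Finset (Fin k)).filter (fun i => (n + t i).Prime)).card)).card : ℝ) := by
  obtain ⟨k, hk, hT⟩ := tup_P m
  refine ⟨k, hk, ?_⟩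
  intro δ Λ hδ hΛ
  obtain ⟨c1, hc1, B, P1, hT1⟩ := hT Λ hΛ
  obtain ⟨c2, hc2, N0, hA⟩ := cnt_adm k
  have hlog : Filter.Tendsto (fun x : ℕ => Real.log x) Filter.atTop Filter.atTop :=
    Real.tendsto_log_atTop.comp tendsto_natCast_atTop_atTop
  obtain ⟨P2, hP2⟩ := Filter.eventually_atTop.mp
    (hlog.eventually_ge_atTop (max 1 (max (2 / δ) (N0 / δ))))
  refine ⟨c1 * c2 * (δ / 2) ^ k / ((B : ℝ) + 1) ^ k, by positivity, max P1 P2, ?_⟩
  intro P hP H hH u hu
  have hl := hP2 P ((le_max_right _ _).trans hP)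
  obtain ⟨𝒮, hS⟩ := hT1 P ((le_max_left _ _).trans hP)
  have hl1 : 1 ≤ Real.log P := (le_max_left _ _).trans hl
  have hl2 : 2 / δ ≤ Real.log P := (le_max_left _ _).trans ((le_max_right _ _).trans hl)
  have hl3 : (N0 : ℝ) / δ ≤ Real.log P := (le_max_right _ _).trans ((le_max_right _ _).trans hl)
  rw [div_le_iff₀ hδ] at hl2 hl3
  have hlp : 0 < Real.log P := by linarith
  set D : ℕ := ⌊δ * Real.log P⌋₊ with hD
  have hD1 : δ / 2 * Real.log P ≤ D := by
    have := Nat.lt_floor_add_one (δ * Real.log P)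
    rw [← hD] at this
    nlinarith
  have hDN : N0 ≤ D := Nat.le_floor (by linarith)
  have hAc := hA D hDN u
  set A : Finset (Fin k → ℕ) := (Fintype.piFinset (fun i => Ico (u i) (u i + D))).filter (fun t =>
      Function.Injective t ∧ ∀ p : ℕ, p.Prime → nu p t < p) with hAdef
  set W : Finset ℕ := (Ioc (P - H) (4 * P)).filter (fun n => ∃ t : Fin k → ℕ, Function.Injective t ∧
      (∀ i, u i ≤ t i ∧ t i < u i + D) ∧
      (∀ j < H, (n + j).Prime → ∃ i, j = t i) ∧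
      m + 1 ≤ ((univ : Finset (Fin k)).filter (fun i => (n + t i).Prime)).card) with hW
  have hmem : ∀ t ∈ A, Function.Injective t ∧ (∀ i, u i ≤ t i ∧ t i < u i + D) ∧
      ∀ p : ℕ, p.Prime → nu p t < p := by
    intro t ht
    rw [hAdef, mem_filter, Fintype.mem_piFinset] at ht
    exact ⟨ht.2.1, fun i => mem_Ico.mp (ht.1 i), ht.2.2⟩
  obtain ⟨r, hr⟩ : ∃ r : (Fin k → ℕ) → ℕ → Prop, ∀ t n, r t n ↔
      ((∀ j < H, (n + j).Prime → ∃ i, j = t i) ∧
      m + 1 ≤ ((univ : Finset (Fin k)).filter (fun i => (n + t i).Prime)).card ∧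
      (∀ i, n + t i ∈ 𝒮) ∧ ((range H).filter (fun j => n + j ∈ 𝒮)).card ≤ B) :=
    ⟨_, fun _ _ => Iff.rfl⟩
  have hmain := wi_double A W r
      (c2 * (D : ℝ) ^ k) (c1 * P / Real.log P ^ k) (B ^ k) hAc (by positivity) ?_ ?_
  · have h1 : c1 * c2 * (δ / 2) ^ k * P ≤ c2 * (D : ℝ) ^ k * (c1 * P / Real.log P ^ k) := by
      have h2 : (δ / 2 * Real.log P) ^ k ≤ (D : ℝ) ^ k := by gcongr
      calc c1 * c2 * (δ / 2) ^ k * P =
          c2 * (δ / 2 * Real.log P) ^ k * (c1 * P / Real.log P ^ k) := by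
            rw [mul_pow]
            field_simp
        _ ≤ _ := by gcongr
    have h3 : (W.card : ℝ) * ((B ^ k : ℕ) : ℝ) ≤ (W.card : ℝ) * ((B : ℝ) + 1) ^ k := by
      push_cast
      gcongr
      linarith
    rw [div_mul_eq_mul_div, div_le_iff₀ (by positivity)]
    linarith
  · intro t ht
    obtain ⟨h1, h2, h3⟩ := hmem t ht
    refine (hS H hH t h1 (fun i => lt_of_lt_of_le (h2 i).2 (hu i)) h3).trans ?_
    have hsub : (Ioc (P - H) (4 * P)).filter (fun n =>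
      (∀ j < H, (n + j).Prime → ∃ i, j = t i) ∧
      m + 1 ≤ ((univ : Finset (Fin k)).filter (fun i => (n + t i).Prime)).card ∧
      (∀ i, n + t i ∈ 𝒮) ∧ ((range H).filter (fun j => n + j ∈ 𝒮)).card ≤ B) ⊆
      W.filter (fun n => r t n) := by
      intro n hn
      rw [mem_filter] at hn
      rw [mem_filter, hW, mem_filter, hr]
      exact ⟨⟨hn.1, t, h1, h2, hn.2.1, hn.2.2.1⟩, hn.2⟩
    exact_mod_cast card_le_card hsub
  · intro n _
    by_cases hne : ∃ t0 ∈ A, r t0 n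
    · obtain ⟨t0, ht0A, ht0⟩ := hne
      have hB := ((hr t0 n).mp ht0).2.2.2
      refine (card_le_card (t := Fintype.piFinset
        (fun _ : Fin k => (range H).filter (fun j => n + j ∈ 𝒮))) ?_).trans ?_
      · intro t ht
        rw [mem_filter, hr] at ht
        obtain ⟨_, h2, _⟩ := hmem t ht.1
        rw [Fintype.mem_piFinset]
        intro i
        rw [mem_filter, mem_range]
        exact ⟨lt_of_lt_of_le (h2 i).2 (hu i), ht.2.2.2.1 i⟩
      · rw [Fintype.card_piFinset, prod_const, card_univ, Fintype.card_fin]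
        exact Nat.pow_le_pow_left hB k
    · refine (Nat.le_of_eq (Finset.card_eq_zero.mpr
        (Finset.filter_eq_empty_iff.mpr ?_))).trans (Nat.zero_le _)
      intro t ht hc
      exact hne ⟨t, ht, hc⟩

end Pool.Agent.ISO
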